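import Pool.Agent.MP_f4aa65_ag.Germ

/-!
Closure properties of a family of tests.
-/

noncomputable section

namespace Pool.Agent.MP_f4aa65_ag

/-- closure properties of a family of tests -/
structure Closed {T : Type} [TopologicalSpace T] (𝒯 : Set (Test T)) : Prop where
  one : ∀ x : T, ∃ τ ∈ 𝒯, (∀ y, (τ.h y : ℂ) = 1) ∧ ∃ a, τ.f a = x
  inv : ∀ τ ∈ 𝒯, ∀ a : τ.Y, ∃ τ' ∈ 𝒯, ∃ k : C(τ'.Y, τ.Y), (∀ y, τ.f (k y) = τ'.f y) ∧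
    (∀ y, (τ.h (k y) : ℂ) * τ'.h y = 1) ∧ Function.Injective k ∧ ∃ a', k a' = a
  mul : ∀ τ₁ ∈ 𝒯, ∀ τ₂ ∈ 𝒯, ∀ (a₁ : τ₁.Y) (a₂ : τ₂.Y), τ₁.f a₁ = τ₂.f a₂ →
    ∃ τ ∈ 𝒯, ∃ (k₁ : C(τ.Y, τ₁.Y)) (k₂ : C(τ.Y, τ₂.Y)), (∀ y, τ₁.f (k₁ y) = τ.f y) ∧
      (∀ y, τ₂.f (k₂ y) = τ.f y) ∧ (∀ y, (τ.h y : ℂ) = τ₁.h (k₁ y) * τ₂.h (k₂ y)) ∧
      (∀ y y', k₁ y = k₁ y' → k₂ y = k₂ y' → y = y') ∧ ∃ a, k₁ a = a₁ ∧ k₂ a = a₂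
  root : ∀ τ ∈ 𝒯, ∀ m : ℕ, 0 < m → ∀ a : τ.Y, ∃ τ' ∈ 𝒯, ∃ k : C(τ'.Y, τ.Y),
    (∀ y, τ.f (k y) = τ'.f y) ∧ (∀ y, (τ'.h y : ℂ) ^ m = τ.h (k y)) ∧
      (∀ y y', k y = k y' → τ'.h y = τ'.h y' → y = y') ∧ ∃ a', k a' = a

end Pool.Agent.MP_f4aa65_ag
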