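import Mathlib

open Set Topology unitInterval

namespace Pool.Agent.MP_f4aa65_ag

namespace PuncturedFG

section Abstract

variable {X : Type*} [TopologicalSpace X]

/-- Any two points of `A` are joined by a path in `A`, unique up to homotopy in `X`. -/
structure Good (A : Set X) : Prop where
  joined : ∀ x ∈ A, ∀ y ∈ A, JoinedIn A x y
  unique : ∀ (x y : X) (p q : Path x y), (∀ t, p t ∈ A) → (∀ t, q t ∈ A) → p.Homotopic q

variable {A B : Set X}

/-- the class of the paths in `A` from `x` to `y` -/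
noncomputable def Good.cls (hA : Good A) {x y : X} (hx : x ∈ A) (hy : y ∈ A) :
    Path.Homotopic.Quotient x y :=
  Path.Homotopic.Quotient.mk (hA.joined x hx y hy).somePath

lemma Good.mk_eq (hA : Good A) {x y : X} (hx : x ∈ A) (hy : y ∈ A) (p : Path x y)
    (hp : ∀ t, p t ∈ A) : Path.Homotopic.Quotient.mk p = hA.cls hx hy :=
  Path.Homotopic.Quotient.eq.mpr (hA.unique x y p _ hp (hA.joined x hx y hy).somePath_mem)

lemma Good.cls_trans (hA : Good A) {x y z : X} (hx : x ∈ A) (hy : y ∈ A) (hz : z ∈ A) :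
    (hA.cls hx hy).trans (hA.cls hy hz) = hA.cls hx hz := by
  rw [Good.cls, Good.cls, ← Path.Homotopic.Quotient.mk_trans]
  apply hA.mk_eq
  intro t
  have h := (Path.trans_range (hA.joined x hx y hy).somePath (hA.joined y hy z hz).somePath)
  have ht : ((hA.joined x hx y hy).somePath.trans (hA.joined y hy z hz).somePath) t ∈
      range ((hA.joined x hx y hy).somePath.trans (hA.joined y hy z hz).somePath) := ⟨t, rfl⟩
  rw [h] at ht
  rcases ht with ⟨s, hs⟩ | ⟨s, hs⟩
  · rw [← hs]; exact (hA.joined x hx y hy).somePath_mem s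
  · rw [← hs]; exact (hA.joined y hy z hz).somePath_mem s

lemma Good.cls_self (hA : Good A) {x : X} (hx : x ∈ A) :
    hA.cls hx hx = Path.Homotopic.Quotient.refl x := by
  rw [← Path.Homotopic.Quotient.mk_refl]
  exact (hA.mk_eq hx hx (Path.refl x) (fun _ => hx)).symm

/-- `c x⁻¹ * γ * c y` as an element of the fundamental group. -/
noncomputable def conj {b₀ : X} (c : (x : X) → Path.Homotopic.Quotient x b₀) {x y : X}
    (γ : Path.Homotopic.Quotient x y) : FundamentalGroup X b₀ :=
  ((c x).symm.trans γ).trans (c y)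

lemma conj_trans {b₀ : X} (c : (x : X) → Path.Homotopic.Quotient x b₀) {x y z : X}
    (γ : Path.Homotopic.Quotient x y) (δ : Path.Homotopic.Quotient y z) :
    conj c (γ.trans δ) = conj c δ * conj c γ := by
  rw [FundamentalGroup.mul_def, conj, conj, conj]
  simp only [Path.Homotopic.Quotient.trans_assoc]
  congr 2
  rw [← Path.Homotopic.Quotient.trans_assoc (c y), Path.Homotopic.Quotient.trans_symm,
    Path.Homotopic.Quotient.refl_trans]

lemma conj_refl {b₀ : X} (c : (x : X) → Path.Homotopic.Quotient x b₀) (x : X) :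
    conj c (Path.Homotopic.Quotient.refl x) = 1 := by
  rw [FundamentalGroup.one_def, conj, Path.Homotopic.Quotient.trans_refl,
    Path.Homotopic.Quotient.symm_trans]

theorem fg_of_cover (hAo : IsOpen A) (hBo : IsOpen B) (hAB : A ∪ B = univ) (hA : Good A)
    (hB : Good B) (F : Set X) (hF : F.Finite) (hFAB : F ⊆ A ∩ B)
    (hFj : ∀ x ∈ A ∩ B, ∃ b ∈ F, JoinedIn (A ∩ B) x b) (b₀ : X) (hb₀ : b₀ ∈ A ∩ B) :
    Group.FG (FundamentalGroup X b₀) := by
  classical
  -- the connecting classes
  have hBof : ∀ {x : X}, x ∉ A → x ∈ B := fun {x} hx =>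
    ((hAB ▸ mem_univ x : x ∈ A ∪ B)).resolve_left hx
  let c : (x : X) → Path.Homotopic.Quotient x b₀ := fun x =>
    if h : x ∈ A then hA.cls h hb₀.1 else hB.cls (hBof h) hb₀.2
  have hcA : ∀ {x : X} (h : x ∈ A), c x = hA.cls h hb₀.1 := fun h => dif_pos h
  have hcB : ∀ {x : X} (h : x ∉ A), c x = hB.cls (hBof h) hb₀.2 := fun h => dif_neg h
  let g : X → FundamentalGroup X b₀ := fun x =>
    if h : x ∈ A ∩ B then
      (hA.cls h.1 hb₀.1).symm.trans (hB.cls h.2 hb₀.2)
    else 1
  have hg : ∀ {x : X} (h : x ∈ A ∩ B), g x =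
      (hA.cls h.1 hb₀.1).symm.trans (hB.cls h.2 hb₀.2) := fun h => dif_pos h
  have hgj : ∀ x ∈ A ∩ B, ∀ b ∈ A ∩ B, JoinedIn (A ∩ B) x b → g x = g b := by
    intro x hx b hb hj
    have h0A := hA.mk_eq hx.1 hb.1 hj.somePath (fun t => (hj.somePath_mem t).1)
    have h0B := hB.mk_eq hx.2 hb.2 hj.somePath (fun t => (hj.somePath_mem t).2)
    have h1 : hA.cls hx.1 hb₀.1 =
        (Path.Homotopic.Quotient.mk hj.somePath).trans (hA.cls hb.1 hb₀.1) := by
      rw [h0A, hA.cls_trans]
    have h2 : hB.cls hx.2 hb₀.2 =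
        (Path.Homotopic.Quotient.mk hj.somePath).trans (hB.cls hb.2 hb₀.2) := by
      rw [h0B, hB.cls_trans]
    have h3 : (hA.cls hx.1 hb₀.1).symm.trans (Path.Homotopic.Quotient.mk hj.somePath) =
        (hA.cls hb.1 hb₀.1).symm := by
      have e1 : (hA.cls hx.1 hb₀.1).symm.trans ((hA.cls hx.1 hb₀.1).trans
          (hA.cls hb.1 hb₀.1).symm) = (hA.cls hb.1 hb₀.1).symm := by
        rw [← Path.Homotopic.Quotient.trans_assoc, Path.Homotopic.Quotient.symm_trans,
          Path.Homotopic.Quotient.refl_trans]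
      rw [← e1]
      congr 1
      rw [h1, Path.Homotopic.Quotient.trans_assoc, Path.Homotopic.Quotient.trans_symm,
        Path.Homotopic.Quotient.trans_refl]
    rw [hg hx, hg hb, h2, ← Path.Homotopic.Quotient.trans_assoc, h3]
  -- the generators
  set G : Subgroup (FundamentalGroup X b₀) := Subgroup.closure (g '' F) with hGdef
  have hgG : ∀ x ∈ A ∩ B, g x ∈ G := by
    intro x hx
    obtain ⟨b, hbF, hj⟩ := hFj x hx
    rw [hgj x hx b (hFAB hbF) hj]
    exact Subgroup.subset_closure ⟨b, hbF, rfl⟩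
  -- paths in `A`
  have hpA : ∀ {x y : X} (p : Path x y), (∀ t, p t ∈ A) →
      conj c (Path.Homotopic.Quotient.mk p) ∈ G := by
    intro x y p hp
    have hx : x ∈ A := by simpa using hp 0
    have hy : y ∈ A := by simpa using hp 1
    have : conj c (Path.Homotopic.Quotient.mk p) = 1 := by
      rw [FundamentalGroup.one_def, conj, hA.mk_eq hx hy p hp, hcA hx, hcA hy,
        Path.Homotopic.Quotient.trans_assoc, hA.cls_trans, Path.Homotopic.Quotient.symm_trans]
    rw [this]
    exact G.one_mem
  -- the element `h x = (c x)⁻¹ (cB x)`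
  have hh : ∀ {x : X} (hx : x ∈ B), (show FundamentalGroup X b₀ from
      (c x).symm.trans (hB.cls hx hb₀.2)) ∈ G := by
    intro x hx
    by_cases hxA : x ∈ A
    · have := hgG x ⟨hxA, hx⟩
      rw [hg ⟨hxA, hx⟩] at this
      rw [hcA hxA]
      exact this
    · rw [hcB hxA, Path.Homotopic.Quotient.symm_trans]
      exact G.one_mem
  have hpB : ∀ {x y : X} (p : Path x y), (∀ t, p t ∈ B) →
      conj c (Path.Homotopic.Quotient.mk p) ∈ G := by
    intro x y p hp
    have hx : x ∈ B := by simpa using hp 0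
    have hy : y ∈ B := by simpa using hp 1
    have e : conj c (Path.Homotopic.Quotient.mk p) =
        (show FundamentalGroup X b₀ from (c y).symm.trans (hB.cls hy hb₀.2))⁻¹ *
        (show FundamentalGroup X b₀ from (c x).symm.trans (hB.cls hx hb₀.2)) := by
      apply eq_inv_mul_of_mul_eq
      rw [FundamentalGroup.mul_def, conj, hB.mk_eq hx hy p hp]
      rw [Path.Homotopic.Quotient.trans_assoc, ← Path.Homotopic.Quotient.trans_assoc (c y),
        Path.Homotopic.Quotient.trans_symm, Path.Homotopic.Quotient.refl_trans,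
        Path.Homotopic.Quotient.trans_assoc, hB.cls_trans]
    rw [e]
    exact G.mul_mem (G.inv_mem (hh hy)) (hh hx)
  -- all paths
  have hall : ∀ {x y : X} (p : Path x y), conj c (Path.Homotopic.Quotient.mk p) ∈ G := by
    intro x y p
    obtain ⟨t, ht0, htm, ⟨n, hn⟩, hcov⟩ := exists_monotone_Icc_subset_open_cover_unitInterval
      (c := fun b : Bool => if b then p ⁻¹' A else p ⁻¹' B)
      (by
        intro b
        cases b
        · exact hBo.preimage p.continuous
        · exact hAo.preimage p.continuous)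
      (by
        intro s _
        rcases (hAB ▸ mem_univ (p s) : p s ∈ A ∪ B) with h | h
        · exact mem_iUnion.mpr ⟨true, h⟩
        · exact mem_iUnion.mpr ⟨false, h⟩)
    have hm : ∀ m : ℕ, conj c (Path.Homotopic.Quotient.mk (p.subpath (t 0) (t m))) ∈ G := by
      intro m
      induction m with
      | zero =>
        rw [Path.subpath_self, Path.Homotopic.Quotient.mk_refl, conj_refl]
        exact G.one_mem
      | succ m ih =>
        have e : Path.Homotopic.Quotient.mk (p.subpath (t 0) (t (m + 1))) =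
            (Path.Homotopic.Quotient.mk (p.subpath (t 0) (t m))).trans
              (Path.Homotopic.Quotient.mk (p.subpath (t m) (t (m + 1)))) := by
          rw [← Path.Homotopic.Quotient.mk_trans]
          exact (Path.Homotopic.Quotient.eq.mpr
            ⟨Path.Homotopy.subpathTransSubpath p (t 0) (t m) (t (m + 1))⟩).symm
        rw [e, conj_trans]
        refine G.mul_mem ?_ ih
        obtain ⟨b, hb⟩ := hcov m
        have hmono : t m ≤ t (m + 1) := htm (Nat.le_succ m)
        have hr : ∀ s, p.subpath (t m) (t (m + 1)) s ∈ p '' Icc (t m) (t (m + 1)) := by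
          intro s
          rw [← p.range_subpath_of_le _ _ hmono]
          exact ⟨s, rfl⟩
        cases b
        · refine hpB _ fun s => ?_
          obtain ⟨r, hr1, hr2⟩ := hr s
          rw [← hr2]
          exact hb hr1
        · refine hpA _ fun s => ?_
          obtain ⟨r, hr1, hr2⟩ := hr s
          rw [← hr2]
          exact hb hr1
    have h01 := hm n
    rw [ht0, hn n le_rfl, Path.subpath_zero_one] at h01
    have hcast : ∀ {x' y' : X} (hx : x' = x) (hy : y' = y),
        conj c (Path.Homotopic.Quotient.mk (p.cast hx hy)) =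
          conj c (Path.Homotopic.Quotient.mk p) := by
      intro x' y' hx hy
      subst hx hy
      rfl
    rwa [hcast] at h01
  refine ⟨⟨(hF.image g).toFinset, ?_⟩⟩
  rw [Finite.coe_toFinset, ← hGdef, eq_top_iff]
  intro γ _
  obtain ⟨p, rfl⟩ := Path.Homotopic.Quotient.mk_surjective γ
  have h := hall p
  rwa [conj, hcA hb₀.1, hA.cls_self, Path.Homotopic.Quotient.trans_refl,
    ← Path.Homotopic.Quotient.mk_refl, ← Path.Homotopic.Quotient.mk_symm, Path.refl_symm,
    Path.Homotopic.Quotient.mk_refl, Path.Homotopic.Quotient.refl_trans] at h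

end Abstract

section Slits

variable (S : Set ℂ) (a ε : ℝ)

/-- the linear functional with kernel `ℝ (1 + a i)` -/
def rho (z : ℂ) : ℝ := z.im - a * z.re

lemma continuous_rho : Continuous (rho a) := by
  unfold rho; fun_prop

/-- the complement of the closed slits from the points of `S` in the direction `ε (1 + a i)` -/
def slit : Set ℂ := {z | ∀ s ∈ S, rho a z = rho a s → ε * z.re < ε * s.re}

lemma slit_subset : slit S a ε ⊆ Sᶜ := fun z hz hzS => lt_irrefl _ (hz z hzS rfl)

lemma isOpen_slit (hS : S.Finite) : IsOpen (slit S a ε) := by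
  have h : slit S a ε = ⋂ s ∈ S, ({z | rho a z ≠ rho a s} ∪ {z | ε * z.re < ε * s.re}) := by
    ext z
    simp only [slit, mem_ofPred_eq, mem_iInter, mem_union]
    exact forall₂_congr fun s _ => imp_iff_not_or
  rw [h]
  refine hS.isOpen_biInter fun s _ => IsOpen.union ?_ ?_
  · exact isOpen_ne_fun (continuous_rho a) continuous_const
  · exact isOpen_lt (by fun_prop) continuous_const

/-- pushing along the slits -/
def push (τ : ℝ) (z : ℂ) : ℂ := z - ((τ * ε : ℝ) : ℂ) * (1 + a * Complex.I)

lemma rho_push (τ : ℝ) (z : ℂ) : rho a (push a ε τ z) = rho a z := by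
  simp [rho, push]; ring

lemma re_push (τ : ℝ) (z : ℂ) : (push a ε τ z).re = z.re - τ * ε := by
  simp [push]

lemma push_mem {τ : ℝ} (hτ : 0 ≤ τ) {z : ℂ} (hz : z ∈ slit S a ε) :
    push a ε τ z ∈ slit S a ε := by
  intro s hs h
  rw [rho_push] at h
  rw [re_push]
  have h1 := hz s hs h
  have h2 : 0 ≤ τ * ε ^ 2 := by positivity
  nlinarith

theorem contractible_slit (hS : S.Finite) (hε : ε ^ 2 = 1) : ContractibleSpace (slit S a ε) := by
  obtain ⟨R, hR⟩ : ∃ R : ℝ, ∀ s ∈ S, -R < ε * s.re := by
    obtain ⟨m, hm⟩ := (hS.image fun s => ε * s.re).bddBelow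
    refine ⟨1 - m, fun s hs => ?_⟩
    have := hm ⟨s, hs, rfl⟩
    simp only at this
    linarith
  have hH : ∀ z : ℂ, ε * z.re ≤ -R → z ∈ slit S a ε := fun z hz s hs _ =>
    hz.trans_lt (hR s hs)
  let z₀ : slit S a ε := ⟨((-(ε * R) : ℝ) : ℂ), hH _ (by
    rw [Complex.ofReal_re]
    exact le_of_eq (by linear_combination (-R) * hε))⟩
  -- the amount of pushing
  let m : ℂ → ℝ := fun z => max (ε * z.re + R) 0
  have hm : Continuous m := by fun_prop
  have hm0 : ∀ z, 0 ≤ m z := fun z => le_max_right _ _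
  let f₁ : C(slit S a ε, slit S a ε) :=
    ⟨fun z => ⟨push a ε (m z) z, push_mem S a ε (hm0 _) z.2⟩, by
      refine Continuous.subtype_mk ?_ _
      unfold push
      fun_prop⟩
  have hf₁ : ∀ z, ε * ((f₁ z : slit S a ε) : ℂ).re ≤ -R := by
    intro z
    change ε * (push a ε (m z) z).re ≤ -R
    rw [re_push]
    have := le_max_left (ε * (z : ℂ).re + R) 0
    have h2 : ε * ((z : ℂ).re - m z * ε) = ε * (z : ℂ).re - m z * ε ^ 2 := by ring
    rw [h2, hε]
    change _ ≤ m z at this
    linarith
  rw [contractible_iff_id_nullhomotopic]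
  refine ⟨z₀, ContinuousMap.Homotopic.trans (g := f₁) ?_ ?_⟩
  · refine ⟨{ toFun := fun p => ⟨push a ε (p.1 * m p.2) p.2,
        push_mem S a ε (mul_nonneg p.1.2.1 (hm0 _)) p.2.2⟩
              continuous_toFun := ?_
              map_zero_left := ?_
              map_one_left := ?_ }⟩
    · refine Continuous.subtype_mk ?_ _
      unfold push
      fun_prop
    · intro z
      apply Subtype.ext
      simp [push]
    · intro z
      apply Subtype.ext
      simp [f₁]
  · refine ⟨{ toFun := fun p => ⟨(1 - ((p.1 : ℝ) : ℂ)) * (f₁ p.2 : slit S a ε) + ((p.1 : ℝ) : ℂ) * z₀, ?_⟩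
              continuous_toFun := ?_
              map_zero_left := ?_
              map_one_left := ?_ }⟩
    · apply hH
      have h1 := hf₁ p.2
      have h2 : ε * ((z₀ : slit S a ε) : ℂ).re = -R := by
        change ε * (((-(ε * R) : ℝ) : ℂ)).re = -R
        rw [Complex.ofReal_re]
        linear_combination (-R) * hε
      have h3 := p.1.2.1
      have h4 := p.1.2.2
      have h5 : ((1 - ((p.1 : ℝ) : ℂ)) * (f₁ p.2 : slit S a ε) + ((p.1 : ℝ) : ℂ) * z₀).re =
          (1 - (p.1 : ℝ)) * ((f₁ p.2 : slit S a ε) : ℂ).re + (p.1 : ℝ) * ((z₀ : slit S a ε) : ℂ).re := by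
        simp
      rw [h5]
      nlinarith
    · refine Continuous.subtype_mk ?_ _
      fun_prop
    · intro z
      apply Subtype.ext
      simp
    · intro z
      apply Subtype.ext
      simp

/-- Lifting and projecting paths. -/
theorem good_slit (hS : S.Finite) (hε : ε ^ 2 = 1) :
    Good ((↑) ⁻¹' slit S a ε : Set (Sᶜ : Set ℂ)) := by
  have hc := contractible_slit S a ε hS hε
  let j : C(slit S a ε, (Sᶜ : Set ℂ)) :=
    ⟨fun z => ⟨z, slit_subset S a ε z.2⟩, by fun_prop⟩
  constructor
  · intro x hx y hy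
    let p : Path (⟨x, hx⟩ : slit S a ε) ⟨y, hy⟩ := PathConnectedSpace.somePath _ _
    exact ⟨p.map j.continuous, fun t => (p t).2⟩
  · intro x y p q hp hq
    have hx : (x : ℂ) ∈ slit S a ε := by simpa using hp 0
    have hy : (y : ℂ) ∈ slit S a ε := by simpa using hp 1
    let p' : Path (⟨x, hx⟩ : slit S a ε) ⟨y, hy⟩ :=
      { toFun := fun t => ⟨p t, hp t⟩
        continuous_toFun := (continuous_subtype_val.comp p.continuous).subtype_mk _
        source' := Subtype.ext (congrArg (fun z : (Sᶜ : Set ℂ) => (z : ℂ)) p.source)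
        target' := Subtype.ext (congrArg (fun z : (Sᶜ : Set ℂ) => (z : ℂ)) p.target) }
    let q' : Path (⟨x, hx⟩ : slit S a ε) ⟨y, hy⟩ :=
      { toFun := fun t => ⟨q t, hq t⟩
        continuous_toFun := (continuous_subtype_val.comp q.continuous).subtype_mk _
        source' := Subtype.ext (congrArg (fun z : (Sᶜ : Set ℂ) => (z : ℂ)) q.source)
        target' := Subtype.ext (congrArg (fun z : (Sᶜ : Set ℂ) => (z : ℂ)) q.target) }
    exact (SimplyConnectedSpace.paths_homotopic p' q').map j

lemma joinedIn_lift {C : Set ℂ} (hC : C ⊆ Sᶜ) {x y : (Sᶜ : Set ℂ)}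
    (h : JoinedIn C (x : ℂ) y) : JoinedIn ((↑) ⁻¹' C : Set (Sᶜ : Set ℂ)) x y := by
  refine ⟨{ toFun := fun t => ⟨h.somePath t, hC (h.somePath_mem t)⟩
            continuous_toFun := h.somePath.continuous.subtype_mk _
            source' := Subtype.ext h.somePath.source
            target' := Subtype.ext h.somePath.target }, fun t => h.somePath_mem t⟩

lemma exists_injOn_rho (hS : S.Finite) : ∃ a : ℝ, InjOn (rho a) S := by
  have hfin : ((fun p : ℂ × ℂ => (p.1 - p.2).im / (p.1 - p.2).re) '' (S ×ˢ S)).Finite :=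
    (hS.prod hS).image _
  obtain ⟨a, ha⟩ := hfin.exists_notMem
  refine ⟨a, fun s hs s' hs' h => ?_⟩
  by_contra hne
  apply ha
  refine ⟨(s, s'), ⟨hs, hs'⟩, ?_⟩
  have h1 : (s - s').im = a * (s - s').re := by
    simp only [rho] at h
    simp only [Complex.sub_im, Complex.sub_re]
    linear_combination h
  have h2 : (s - s').re ≠ 0 := by
    intro h0
    rw [h0, mul_zero] at h1
    exact hne (sub_eq_zero.mp (Complex.ext h0 h1))
  change (s - s').im / (s - s').re = a
  rw [h1, mul_div_assoc, div_self h2, mul_one]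

end Slits

end PuncturedFG

open PuncturedFG in
theorem fg_fundamentalGroup_compl (S : Set ℂ) (hS : S.Finite) (u : (Sᶜ : Set ℂ)) :
    Group.FG (FundamentalGroup (Sᶜ : Set ℂ) u) := by
  obtain ⟨a, ha⟩ := exists_injOn_rho S hS
  set A : Set (Sᶜ : Set ℂ) := (↑) ⁻¹' slit S a 1 with hAdef
  set B : Set (Sᶜ : Set ℂ) := (↑) ⁻¹' slit S a (-1) with hBdef
  have hAo : IsOpen A := (isOpen_slit S a 1 hS).preimage continuous_subtype_val
  have hBo : IsOpen B := (isOpen_slit S a (-1) hS).preimage continuous_subtype_val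
  have hA : Good A := good_slit S a 1 hS (by norm_num)
  have hB : Good B := good_slit S a (-1) hS (by norm_num)
  have hAB : A ∪ B = univ := by
    rw [eq_univ_iff_forall]
    intro x
    by_contra hx
    rw [mem_union, not_or] at hx
    obtain ⟨h1, h2⟩ := hx
    simp only [hAdef, hBdef, slit, mem_preimage, mem_ofPred_eq, not_forall] at h1 h2
    obtain ⟨s, hs, hs1, hs2⟩ := h1
    obtain ⟨s', hs', hs1', hs2'⟩ := h2
    have h3 : s = s' := ha hs hs' (hs1.symm.trans hs1')
    subst h3
    apply x.2
    have h4 : (x : ℂ).re = s.re := by linarith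
    have h5 : (x : ℂ) = s := by
      refine Complex.ext h4 ?_
      simp only [rho] at hs1
      rw [h4] at hs1
      linarith
    rw [h5]
    exact hs
  -- the intersection
  have hABiff : ∀ x : (Sᶜ : Set ℂ), x ∈ A ∩ B ↔ ∀ s ∈ S, rho a x ≠ rho a s := by
    intro x
    constructor
    · rintro ⟨h1, h2⟩ s hs h
      have h3 := h1 s hs h
      have h4 := h2 s hs h
      linarith
    · intro h
      exact ⟨fun s hs hs' => absurd hs' (h s hs), fun s hs hs' => absurd hs' (h s hs)⟩
  let T : (Sᶜ : Set ℂ) → Set ℂ := fun x => {s ∈ S | rho a s < rho a x}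
  have hTfin : (T '' (A ∩ B)).Finite := by
    refine hS.finite_subsets.subset ?_
    rintro _ ⟨x, -, rfl⟩
    exact fun s hs => hs.1
  obtain ⟨F, hFAB, hFbij⟩ := exists_subset_bijOn (A ∩ B) T
  have hF : F.Finite := hFbij.finite_iff_finite.mpr hTfin
  have hFj : ∀ x ∈ A ∩ B, ∃ b ∈ F, JoinedIn (A ∩ B) x b := by
    intro x hx
    obtain ⟨b, hb, hbx⟩ := hFbij.surjOn ⟨x, hx, rfl⟩
    refine ⟨b, hb, ?_⟩
    have hbAB := hFAB hb
    have hAB' : A ∩ B = (↑) ⁻¹' (slit S a 1 ∩ slit S a (-1)) := rfl
    rw [hAB']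
    refine joinedIn_lift S (fun z hz => slit_subset S a 1 hz.1) ?_
    apply JoinedIn.of_segment_subset
    rintro w ⟨α, β, hα, hβ, hαβ, rfl⟩
    have hw : ∀ s ∈ S, rho a (α • (x : ℂ) + β • (b : ℂ)) ≠ rho a s := by
      intro s hs
      have h1 := (hABiff x).mp hx s hs
      have h2 := (hABiff b).mp hbAB s hs
      have h3 : rho a (α • (x : ℂ) + β • (b : ℂ)) = α * rho a x + β * rho a b := by
        simp [rho]; ring
      rw [h3]
      have h4 : s ∈ T b ↔ s ∈ T x := by rw [hbx]
      have h5 : rho a s < rho a b ↔ rho a s < rho a x := by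
        simpa [T, hs] using h4
      rcases lt_or_gt_of_ne h1 with h | h
      · have h6 : rho a b < rho a s := by
          rcases lt_or_gt_of_ne h2 with h' | h'
          · exact h'
          · exact absurd (h5.mp h') (not_lt.mpr h.le)
        intro he
        have h7 : rho a s = α * rho a s + β * rho a s := by rw [← add_mul, hαβ, one_mul]
        have h8 : α * rho a x ≤ α * rho a s := mul_le_mul_of_nonneg_left h.le hα
        have h9 : β * rho a b ≤ β * rho a s := mul_le_mul_of_nonneg_left h6.le hβ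
        rcases eq_or_lt_of_le hα with h0 | h0
        · rw [← h0, zero_add] at hαβ
          subst hαβ
          rw [← h0] at he
          linarith
        · have := mul_lt_mul_of_pos_left h h0
          linarith
      · have h6 : rho a s < rho a b := h5.mpr h
        intro he
        have h7 : rho a s = α * rho a s + β * rho a s := by rw [← add_mul, hαβ, one_mul]
        have h8 : α * rho a s ≤ α * rho a x := mul_le_mul_of_nonneg_left (le_of_lt h) hα
        have h9 : β * rho a s ≤ β * rho a b := mul_le_mul_of_nonneg_left h6.le hβ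
        rcases eq_or_lt_of_le hα with h0 | h0
        · rw [← h0, zero_add] at hαβ
          subst hαβ
          rw [← h0] at he
          linarith
        · have := mul_lt_mul_of_pos_left h h0
          linarith
    exact ⟨fun s hs hs' => absurd hs' (hw s hs), fun s hs hs' => absurd hs' (hw s hs)⟩
  -- a base point
  obtain ⟨t, ht⟩ := (hS.image (rho a)).exists_notMem
  have hρ : rho a ((t : ℂ) * Complex.I) = t := by simp [rho]
  have hz₀ : ∀ s ∈ S, rho a ((t : ℂ) * Complex.I) ≠ rho a s := by
    intro s hs h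
    rw [hρ] at h
    exact ht ⟨s, hs, h.symm⟩
  let b₀ : (Sᶜ : Set ℂ) := ⟨(t : ℂ) * Complex.I, fun h => hz₀ _ h rfl⟩
  have hb₀ : b₀ ∈ A ∩ B := (hABiff b₀).mpr hz₀
  have hfg := fg_of_cover hAo hBo hAB hA hB F hF hFAB hFj b₀ hb₀
  -- change of base point
  have hpath : Joined b₀ u := by
    rcases (hAB ▸ mem_univ u : u ∈ A ∪ B) with h | h
    · exact (hA.joined b₀ hb₀.1 u h).joined
    · exact (hB.joined b₀ hb₀.2 u h).joined
  exact Group.fg_of_surjective (hG := hfg)
    (f := (FundamentalGroup.fundamentalGroupMulEquivOfPath hpath.somePath).toMonoidHom)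
    (FundamentalGroup.fundamentalGroupMulEquivOfPath hpath.somePath).surjective

end Pool.Agent.MP_f4aa65_ag
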