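import Mathlib

/-!
L3: a multivalued function with finitely many branches, holomorphic outside of the zeros of a
polynomial and whose exponential has moderate growth, takes countably many values.
-/

open Filter Topology Polynomial

namespace Pool.Agent.MP_f4aa65_ag

namespace Multivalued

/-- the complement of the zeros of a polynomial is preconnected -/
theorem isPreconnected_compl_zeros (D : ℂ[X]) (hD : D ≠ 0) :
    IsPreconnected {z : ℂ | D.eval z ≠ 0} := by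
  have h1 : Set.Countable {z : ℂ | D.IsRoot z} := (D.finite_setOfPred_isRoot hD).countable
  have h2 : (1 : Cardinal) < Module.rank ℝ ℂ := by
    rw [Complex.rank_real_complex]; exact Nat.one_lt_ofNat
  have h3 := (h1.isConnected_compl_of_one_lt_rank h2).isPreconnected
  have h4 : {z : ℂ | D.eval z ≠ 0} = {z : ℂ | D.IsRoot z}ᶜ := by
    ext z
    exact Iff.rfl
  rw [h4]
  exact h3

theorem tendsto_pow_mul (D : ℂ[X]) (hD : D ≠ 0) (z₀ : ℂ) :
    Tendsto (fun z => ‖z - z₀‖ ^ (2 * (D.natDegree + 1)) * (1 + ‖D.eval z‖⁻¹)) (𝓝[≠] z₀) (𝓝 0) := by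
  obtain ⟨Q, hQ, hQd⟩ := D.exists_eq_pow_rootMultiplicity_mul_and_not_dvd hD z₀
  set k := D.rootMultiplicity z₀ with hk
  have hQ0 : Q.eval z₀ ≠ 0 := by
    intro h
    exact hQd (dvd_iff_isRoot.2 h)
  have hkn : k ≤ D.natDegree := by
    rw [hk]
    exact (Polynomial.rootMultiplicity_le_iff hD z₀ _).2 (by
      intro hdvd
      have := Polynomial.natDegree_le_of_dvd hdvd hD
      rw [Polynomial.natDegree_pow, Polynomial.natDegree_X_sub_C] at this
      omega)
  set n := 2 * (D.natDegree + 1) with hn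
  have h0 : Tendsto (fun z : ℂ => ‖z - z₀‖) (𝓝[≠] z₀) (𝓝 0) := by
    have : Tendsto (fun z : ℂ => ‖z - z₀‖) (𝓝 z₀) (𝓝 ‖z₀ - z₀‖) :=
      (continuous_norm.comp (continuous_id.sub continuous_const)).tendsto z₀
    rw [sub_self, norm_zero] at this
    exact this.mono_left nhdsWithin_le_nhds
  have h1 : Tendsto (fun z : ℂ => ‖z - z₀‖ ^ n) (𝓝[≠] z₀) (𝓝 0) := by
    have := h0.pow n
    rwa [zero_pow (by omega)] at this
  have h2 : Tendsto (fun z : ℂ => ‖z - z₀‖ ^ (n - k) * ‖Q.eval z‖⁻¹) (𝓝[≠] z₀) (𝓝 0) := by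
    have h3 := h0.pow (n - k)
    rw [zero_pow (by omega)] at h3
    have h4 : Tendsto (fun z : ℂ => ‖Q.eval z‖⁻¹) (𝓝[≠] z₀) (𝓝 ‖Q.eval z₀‖⁻¹) := by
      refine Tendsto.inv₀ ?_ (norm_ne_zero_iff.2 hQ0)
      exact ((continuous_norm.comp Q.continuous).tendsto z₀).mono_left nhdsWithin_le_nhds
    have := h3.mul h4
    rwa [zero_mul] at this
  have h5 := h1.add h2
  rw [add_zero] at h5
  refine h5.congr' ?_
  filter_upwards [self_mem_nhdsWithin] with z hz
  have hz' : z - z₀ ≠ 0 := sub_ne_zero.2 hz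
  have hDz : D.eval z = (z - z₀) ^ k * Q.eval z := by
    conv_lhs => rw [hQ]
    simp
  rw [mul_add, mul_one, hDz, norm_mul, norm_pow, mul_inv, ← mul_assoc]
  congr 2
  have hpos : 0 < ‖z - z₀‖ := norm_pos_iff.2 hz'
  rw [← div_eq_mul_inv, eq_div_iff (by positivity), ← pow_add]
  congr 1
  omega

theorem exists_lower_bound (D : ℂ[X]) (hD : D ≠ 0) :
    ∃ c > 0, ∀ᶠ z in cocompact ℂ, c ≤ ‖D.eval z‖ := by
  by_cases hdeg : 0 < D.degree
  · refine ⟨1, one_pos, ?_⟩
    have := D.tendsto_norm_atTop hdeg (tendsto_norm_cocompact_atTop (E := ℂ))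
    exact this.eventually (eventually_ge_atTop 1)
  · have h1 : D = C (D.coeff 0) := Polynomial.eq_C_of_degree_le_zero (not_lt.1 hdeg)
    have h2 : D.coeff 0 ≠ 0 := by
      intro h
      rw [h, C_0] at h1
      exact hD h1
    refine ⟨‖D.coeff 0‖, norm_pos_iff.2 h2, Eventually.of_forall fun z => ?_⟩
    rw [h1]
    simp

/-- A function holomorphic off the zeros of `D` with small growth is constant. -/
theorem const_of_growth (D : ℂ[X]) (hD : D ≠ 0) (f : ℂ → ℂ)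
    (hf : ∀ z, D.eval z ≠ 0 → DifferentiableAt ℂ f z) (C : ℝ) (hC : 0 ≤ C)
    (hb : ∀ z, D.eval z ≠ 0 → ‖f z‖ ≤ C * (1 + ‖z‖) ^ (1 / 2 : ℝ) *
      (1 + ‖D.eval z‖⁻¹) ^ (((2 * (D.natDegree + 1) : ℕ) : ℝ)⁻¹)) :
    ∀ z z', D.eval z ≠ 0 → D.eval z' ≠ 0 → f z = f z' := by
  classical
  set n := 2 * (D.natDegree + 1) with hn
  have hn0 : n ≠ 0 := by omega
  set α : ℝ := ((n : ℕ) : ℝ)⁻¹ with hα
  have hα0 : 0 < α := by rw [hα]; positivity
  have hopen : IsOpen {z : ℂ | D.eval z ≠ 0} := isOpen_ne_fun D.continuous continuous_const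
  -- isolated zeros
  have hiso : ∀ z₀, D.eval z₀ = 0 → ∀ᶠ z in 𝓝[≠] z₀, D.eval z ≠ 0 := by
    intro z₀ _
    have hfin := D.finite_setOfPred_isRoot hD
    have h1 : ({z : ℂ | D.IsRoot z} \ {z₀})ᶜ ∈ 𝓝 z₀ := by
      apply ((hfin.subset Set.sdiff_subset).isClosed.isOpen_compl).mem_nhds
      simp
    filter_upwards [mem_nhdsWithin_of_mem_nhds h1, self_mem_nhdsWithin] with z hz1 hz2 hz3
    exact hz1 ⟨hz3, hz2⟩
  have hlittle : ∀ z₀, D.eval z₀ = 0 →
      (fun z => f z - f z₀) =o[𝓝[≠] z₀] fun z => (z - z₀)⁻¹ := by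
    intro z₀ hz₀
    rw [Asymptotics.isLittleO_iff_tendsto']
    · have hbound : Tendsto (fun z => C * (1 + ‖z‖) ^ (1 / 2 : ℝ) *
          (‖z - z₀‖ ^ n * (1 + ‖D.eval z‖⁻¹)) ^ α + ‖f z₀‖ * ‖z - z₀‖) (𝓝[≠] z₀) (𝓝 0) := by
        have h0 : Tendsto (fun z : ℂ => ‖z - z₀‖) (𝓝[≠] z₀) (𝓝 0) := by
          have : Tendsto (fun z : ℂ => ‖z - z₀‖) (𝓝 z₀) (𝓝 ‖z₀ - z₀‖) :=
            (continuous_norm.comp (continuous_id.sub continuous_const)).tendsto z₀
          rw [sub_self, norm_zero] at this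
          exact this.mono_left nhdsWithin_le_nhds
        have h1 := (tendsto_pow_mul D hD z₀).rpow_const (p := α) (Or.inr hα0.le)
        rw [Real.zero_rpow hα0.ne'] at h1
        have h2 : Tendsto (fun z : ℂ => C * (1 + ‖z‖) ^ (1 / 2 : ℝ)) (𝓝[≠] z₀)
            (𝓝 (C * (1 + ‖z₀‖) ^ (1 / 2 : ℝ))) := by
          refine Tendsto.mono_left ?_ nhdsWithin_le_nhds
          refine Tendsto.const_mul _ (Tendsto.rpow_const ?_ (Or.inr (by norm_num)))
          exact (continuous_const.add continuous_norm).tendsto z₀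
        have h3 := (h2.mul h1).add (h0.const_mul ‖f z₀‖)
        rw [mul_zero, mul_zero, add_zero] at h3
        exact h3
      refine squeeze_zero_norm' ?_ hbound
      filter_upwards [hiso z₀ hz₀, self_mem_nhdsWithin] with z hz1 hz2
      have hz' : z - z₀ ≠ 0 := sub_ne_zero.2 hz2
      have hpos : 0 < ‖z - z₀‖ := norm_pos_iff.2 hz'
      rw [div_inv_eq_mul, norm_mul]
      have h4 : ‖f z - f z₀‖ ≤ ‖f z‖ + ‖f z₀‖ := norm_sub_le _ _
      have h5 := hb z hz1
      have h6 : ‖z - z₀‖ = (‖z - z₀‖ ^ n) ^ α := by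
        rw [hα, Real.pow_rpow_inv_natCast hpos.le hn0]
      have h7 : (‖z - z₀‖ ^ n * (1 + ‖D.eval z‖⁻¹)) ^ α = ‖z - z₀‖ * (1 + ‖D.eval z‖⁻¹) ^ α := by
        rw [Real.mul_rpow (by positivity) (by positivity), ← h6]
      rw [h7]
      calc ‖f z - f z₀‖ * ‖z - z₀‖ ≤ (‖f z‖ + ‖f z₀‖) * ‖z - z₀‖ := by gcongr
        _ ≤ (C * (1 + ‖z‖) ^ (1 / 2 : ℝ) * (1 + ‖D.eval z‖⁻¹) ^ α + ‖f z₀‖) * ‖z - z₀‖ := by
            gcongr
        _ = _ := by ring
    · filter_upwards [self_mem_nhdsWithin] with z hz h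
      exact absurd (inv_eq_zero.1 h) (sub_ne_zero.2 hz)
  -- the extension
  let g : ℂ → ℂ := fun z => if D.eval z = 0 then limUnder (𝓝[≠] z) f else f z
  have hgU : ∀ z, D.eval z ≠ 0 → g z = f z := fun z hz => by simp [g, hz]
  have hg : Differentiable ℂ g := by
    intro z₀
    by_cases hz₀ : D.eval z₀ = 0
    · have hev := hiso z₀ hz₀
      rw [eventually_nhdsWithin_iff, Metric.eventually_nhds_iff_ball] at hev
      obtain ⟨ε, hε, hball⟩ := hev
      have hs : Metric.ball z₀ ε ∈ 𝓝 z₀ := Metric.ball_mem_nhds _ hε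
      have hd : DifferentiableOn ℂ f (Metric.ball z₀ ε \ {z₀}) := by
        intro z hz
        exact (hf z (hball z hz.1 hz.2)).differentiableWithinAt
      have h1 := Complex.differentiableOn_update_limUnder_of_isLittleO hs hd (hlittle z₀ hz₀)
      have h2 := h1.differentiableAt hs
      refine h2.congr_of_eventuallyEq ?_
      filter_upwards [hs] with z hz
      by_cases hzz : z = z₀
      · subst hzz
        simp [g, hz₀]
      · rw [Function.update_of_ne hzz]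
        exact hgU z (hball z hz hzz)
    · refine (hf z₀ hz₀).congr_of_eventuallyEq ?_
      filter_upwards [hopen.mem_nhds hz₀] with z hz
      exact hgU z hz
  -- growth
  have hdiff : Differentiable ℂ (dslope g 0) := by
    rw [← differentiableOn_univ, Complex.differentiableOn_dslope univ_mem]
    exact hg.differentiableOn
  have htend : Tendsto (dslope g 0) (cocompact ℂ) (𝓝 0) := by
    obtain ⟨c, hc, hcb⟩ := exists_lower_bound D hD
    have hnorm : Tendsto (fun z : ℂ => ‖z‖) (cocompact ℂ) atTop := tendsto_norm_cocompact_atTop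
    have hbound : Tendsto (fun z : ℂ => C * (1 + c⁻¹) ^ α * (2 : ℝ) ^ (1 / 2 : ℝ) *
        ‖z‖ ^ (-(1 / 2) : ℝ) + ‖g 0‖ * ‖z‖⁻¹) (cocompact ℂ) (𝓝 0) := by
      have h1 := (tendsto_rpow_neg_atTop (show (0 : ℝ) < 1 / 2 by norm_num)).comp hnorm
      have h2 := tendsto_inv_atTop_zero.comp hnorm
      have h3 := (h1.const_mul (C * (1 + c⁻¹) ^ α * (2 : ℝ) ^ (1 / 2 : ℝ))).add
        (h2.const_mul ‖g 0‖)
      rw [mul_zero, mul_zero, add_zero] at h3
      exact h3
    refine squeeze_zero_norm' ?_ hbound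
    filter_upwards [hcb, hnorm.eventually (eventually_ge_atTop 1)] with z hz1 hz2
    have hzpos : 0 < ‖z‖ := by linarith
    have hz0 : z ≠ 0 := norm_pos_iff.1 hzpos
    have hDz : D.eval z ≠ 0 := by
      intro h
      rw [h, norm_zero] at hz1
      linarith
    rw [dslope_of_ne _ hz0, slope_def_field, sub_zero, norm_div]
    have h4 : ‖g z - g 0‖ ≤ ‖g z‖ + ‖g 0‖ := norm_sub_le _ _
    have h5 : ‖g z‖ ≤ C * (1 + c⁻¹) ^ α * (2 : ℝ) ^ (1 / 2 : ℝ) * ‖z‖ ^ (1 / 2 : ℝ) := by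
      rw [hgU z hDz]
      refine (hb z hDz).trans ?_
      have h6 : (1 + ‖D.eval z‖⁻¹) ^ α ≤ (1 + c⁻¹) ^ α := by
        gcongr
      have h7 : (1 + ‖z‖) ^ (1 / 2 : ℝ) ≤ (2 : ℝ) ^ (1 / 2 : ℝ) * ‖z‖ ^ (1 / 2 : ℝ) := by
        rw [← Real.mul_rpow (by norm_num) hzpos.le]
        apply Real.rpow_le_rpow (by positivity) (by linarith) (by norm_num)
      calc C * (1 + ‖z‖) ^ (1 / 2 : ℝ) * (1 + ‖D.eval z‖⁻¹) ^ α
          ≤ C * ((2 : ℝ) ^ (1 / 2 : ℝ) * ‖z‖ ^ (1 / 2 : ℝ)) * (1 + c⁻¹) ^ α := by gcongr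
        _ = _ := by ring
    have h8 : ‖z‖ ^ (-(1 / 2) : ℝ) = ‖z‖ ^ (1 / 2 : ℝ) / ‖z‖ := by
      rw [← Real.rpow_sub_one hzpos.ne']
      norm_num
    rw [h8, div_le_iff₀ hzpos]
    calc ‖g z - g 0‖ ≤ ‖g z‖ + ‖g 0‖ := h4
      _ ≤ C * (1 + c⁻¹) ^ α * (2 : ℝ) ^ (1 / 2 : ℝ) * ‖z‖ ^ (1 / 2 : ℝ) + ‖g 0‖ := by gcongr
      _ = _ := by field_simp
  have hconst : ∀ z, g z = g 0 := by
    intro z
    have h1 := hdiff.apply_eq_of_tendsto_cocompact z htend
    have h2 := sub_smul_dslope g 0 z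
    rw [h1, smul_zero] at h2
    exact (sub_eq_zero.1 h2.symm)
  intro z z' hz hz'
  rw [← hgU z hz, ← hgU z' hz', hconst z, hconst z']

theorem norm_prod_le (s : Multiset ℂ) (f : ℂ → ℂ) (B : ℝ) (h : ∀ v ∈ s, ‖f v‖ ≤ B) :
    ‖(s.map f).prod‖ ≤ B ^ Multiset.card s := by
  induction s using Multiset.induction_on with
  | empty => simp
  | cons a s ih =>
    rw [Multiset.map_cons, Multiset.prod_cons, norm_mul, Multiset.card_cons, pow_succ, mul_comm]
    have h1 := ih fun v hv => h v (Multiset.mem_cons_of_mem hv)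
    have h2 := h a (Multiset.mem_cons_self a s)
    have h3 : 0 ≤ B := (norm_nonneg _).trans h2
    exact mul_le_mul h1 h2 (norm_nonneg _) (by positivity)

end Multivalued

open Multivalued in
theorem multivalued_countable (D : ℂ[X]) (hD : D ≠ 0) (V : ℂ → Multiset ℂ)
    (hloc : ∀ z₀, D.eval z₀ ≠ 0 → ∃ ε > 0, ∃ (n : ℕ) (l : Fin n → ℂ → ℂ),
      (∀ j, DifferentiableOn ℂ (l j) (Metric.ball z₀ ε)) ∧
      ∀ z ∈ Metric.ball z₀ ε, V z = Multiset.map (fun j => l j z) Finset.univ.val)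
    (K : ℝ) (M : ℕ)
    (hgrowth : ∀ z, D.eval z ≠ 0 → ∀ v ∈ V z,
      ‖Complex.exp v‖ ≤ K * (1 + ‖z‖) ^ M * (1 + ‖D.eval z‖⁻¹) ^ M) :
    ∃ W : Set ℂ, W.Countable ∧ ∀ z, D.eval z ≠ 0 → ∀ v ∈ V z, v ∈ W := by
  classical
  by_cases hU : ∃ z₁, D.eval z₁ ≠ 0
  swap
  · push Not at hU
    exact ⟨∅, Set.countable_empty, fun z hz => absurd (hU z) hz⟩
  obtain ⟨z₁, hz₁⟩ := hU
  -- the number of branches
  set d := Multiset.card (V z₁) with hd
  have hcard : ∀ z, D.eval z ≠ 0 → Multiset.card (V z) = d := by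
    intro z hz
    have hcont : ContinuousOn (fun z => Multiset.card (V z)) {z : ℂ | D.eval z ≠ 0} := by
      intro z₀ hz₀
      obtain ⟨ε, hε, n, l, -, hl⟩ := hloc z₀ hz₀
      apply ContinuousAt.continuousWithinAt
      have : (fun z => Multiset.card (V z)) =ᶠ[𝓝 z₀] fun _ => n := by
        filter_upwards [Metric.ball_mem_nhds z₀ hε] with z hz
        rw [hl z hz]
        simp
      exact continuousAt_const.congr this.symm
    exact (isPreconnected_compl_zeros D hD).constant hcont hz hz₁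
  set n := 2 * (D.natDegree + 1) with hn
  -- the root to be taken
  set m : ℕ := M * d * n + 1 with hm
  have hm0 : (0 : ℝ) < m := by rw [hm]; positivity
  have hmC : (m : ℂ) ≠ 0 := by
    have : (m : ℝ) ≠ 0 := hm0.ne'
    exact_mod_cast this
  let K' : ℝ := max K 1
  have hK' : 1 ≤ K' := le_max_right _ _
  let Psi : ℂ → ℂ → ℂ := fun T z => ((V z).map fun v => T - Complex.exp (v / m)).prod
  have hPdiff : ∀ T z₀, D.eval z₀ ≠ 0 → DifferentiableAt ℂ (Psi T) z₀ := by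
    intro T z₀ hz₀
    obtain ⟨ε, hε, r, l, hl1, hl2⟩ := hloc z₀ hz₀
    have h1 : Psi T =ᶠ[𝓝 z₀] fun z => ∏ j : Fin r, (T - Complex.exp (l j z / m)) := by
      filter_upwards [Metric.ball_mem_nhds z₀ hε] with z hz
      show ((V z).map fun v => T - Complex.exp (v / m)).prod = _
      rw [hl2 z hz, Multiset.map_map]
      rfl
    refine DifferentiableAt.congr_of_eventuallyEq ?_ h1
    refine DifferentiableAt.fun_finsetProd fun j _ => ?_
    have h2 : DifferentiableAt ℂ (l j) z₀ := (hl1 j).differentiableAt (Metric.ball_mem_nhds z₀ hε)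
    exact (differentiableAt_const _).sub ((h2.div_const _).cexp)
  have hPbound : ∀ T z, D.eval z ≠ 0 → ‖Psi T z‖ ≤ ((‖T‖ + 1) ^ d * K' ^ (d : ℕ)) *
      (1 + ‖z‖) ^ (1 / 2 : ℝ) * (1 + ‖D.eval z‖⁻¹) ^ (((2 * (D.natDegree + 1) : ℕ) : ℝ)⁻¹) := by
    intro T z hz
    set x : ℝ := 1 + ‖z‖ with hx
    set y : ℝ := 1 + ‖D.eval z‖⁻¹ with hy
    have hx1 : 1 ≤ x := by rw [hx]; linarith [norm_nonneg z]
    have hy1 : 1 ≤ y := by
      rw [hy]
      have : 0 ≤ ‖D.eval z‖⁻¹ := by positivity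
      linarith
    set G : ℝ := K' * x ^ M * y ^ M with hG
    have hG1 : 1 ≤ G := by
      rw [hG]
      have h1 : 1 ≤ x ^ M := one_le_pow₀ hx1
      have h2 : 1 ≤ y ^ M := one_le_pow₀ hy1
      have h3 : 1 ≤ K' * x ^ M := one_le_mul_of_one_le_of_one_le hK' h1
      exact one_le_mul_of_one_le_of_one_le h3 h2
    have hG0 : 0 ≤ G := by linarith
    have h1 : ∀ v ∈ V z, ‖T - Complex.exp (v / m)‖ ≤ (‖T‖ + 1) * G ^ ((m : ℝ)⁻¹) := by
      intro v hv
      have h2 : ‖Complex.exp v‖ ≤ G := by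
        refine (hgrowth z hz v hv).trans ?_
        rw [hG]
        have : K ≤ K' := le_max_left _ _
        gcongr
      have h3 : ‖Complex.exp (v / m)‖ ≤ G ^ ((m : ℝ)⁻¹) := by
        have h4 : ‖Complex.exp (v / m)‖ ^ m ≤ G := by
          rw [← norm_pow, ← Complex.exp_nat_mul]
          have : (m : ℂ) * (v / m) = v := by field_simp
          rw [this]
          exact h2
        calc ‖Complex.exp (v / m)‖ = (‖Complex.exp (v / m)‖ ^ m) ^ ((m : ℝ)⁻¹) := by
              rw [Real.pow_rpow_inv_natCast (norm_nonneg _) (by omega)]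
          _ ≤ G ^ ((m : ℝ)⁻¹) := Real.rpow_le_rpow (by positivity) h4 (by positivity)
      have h5 : 1 ≤ G ^ ((m : ℝ)⁻¹) := Real.one_le_rpow hG1 (by positivity)
      calc ‖T - Complex.exp (v / m)‖ ≤ ‖T‖ + ‖Complex.exp (v / m)‖ := norm_sub_le _ _
        _ ≤ ‖T‖ * G ^ ((m : ℝ)⁻¹) + G ^ ((m : ℝ)⁻¹) := by
            gcongr
            exact le_mul_of_one_le_right (norm_nonneg _) h5
        _ = _ := by ring
    have h2 := norm_prod_le (V z) (fun v => T - Complex.exp (v / m)) _ h1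
    rw [hcard z hz, mul_pow] at h2
    have hGe : (G ^ ((m : ℝ)⁻¹)) ^ d = G ^ ((d : ℝ) / m) := by
      rw [← Real.rpow_natCast, ← Real.rpow_mul hG0]
      congr 1
      ring
    rw [hGe] at h2
    refine h2.trans ?_
    have hdm : (0 : ℝ) ≤ (d : ℝ) / m := by positivity
    have h3 : G ^ ((d : ℝ) / m) = K' ^ ((d : ℝ) / m) * x ^ ((M : ℝ) * (d / m)) *
        y ^ ((M : ℝ) * (d / m)) := by
      rw [hG, Real.mul_rpow (by positivity) (by positivity), Real.mul_rpow (by positivity)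
        (by positivity), ← Real.rpow_natCast x M, ← Real.rpow_natCast y M, ← Real.rpow_mul
        (by linarith), ← Real.rpow_mul (by linarith)]
    have hm1 : (1 : ℝ) ≤ m := by
      rw [hm]; push_cast
      have : (0 : ℝ) ≤ M * d * n := by positivity
      linarith
    have h4 : K' ^ ((d : ℝ) / m) ≤ K' ^ d := by
      rw [← Real.rpow_natCast K' d]
      apply Real.rpow_le_rpow_of_exponent_le hK'
      exact div_le_self (by positivity) hm1
    have hn0 : (0 : ℝ) < n := by rw [hn]; positivity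
    have hexp : (M : ℝ) * (d / m) ≤ (n : ℝ)⁻¹ := by
      rw [← mul_div_assoc, div_le_iff₀ hm0, inv_mul_eq_div, le_div_iff₀ hn0, hm]
      push_cast
      linarith
    have hn2 : (n : ℝ)⁻¹ ≤ 1 / 2 := by
      rw [one_div]
      apply inv_anti₀ (by norm_num)
      rw [hn]
      push_cast
      have : (0 : ℝ) ≤ D.natDegree := by positivity
      linarith
    have h5 : x ^ ((M : ℝ) * (d / m)) ≤ x ^ (1 / 2 : ℝ) :=
      Real.rpow_le_rpow_of_exponent_le hx1 (hexp.trans hn2)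
    have h6 : y ^ ((M : ℝ) * (d / m)) ≤ y ^ ((n : ℝ)⁻¹) :=
      Real.rpow_le_rpow_of_exponent_le hy1 hexp
    rw [h3]
    calc (‖T‖ + 1) ^ d * (K' ^ ((d : ℝ) / m) * x ^ ((M : ℝ) * (d / m)) *
        y ^ ((M : ℝ) * (d / m)))
        ≤ (‖T‖ + 1) ^ d * (K' ^ d * x ^ (1 / 2 : ℝ) * y ^ ((n : ℝ)⁻¹)) := by gcongr
      _ = _ := by rw [hn]; ring
  have hPconst : ∀ T z, D.eval z ≠ 0 → Psi T z = Psi T z₁ := fun T z hz =>
    const_of_growth D hD (Psi T) (hPdiff T) _ (by positivity) (hPbound T) z z₁ hz hz₁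
  refine ⟨⋃ v' ∈ {v | v ∈ V z₁}, Set.range fun k : ℤ => v' + k * (2 * Real.pi * Complex.I) * m,
    ?_, ?_⟩
  · apply Set.Countable.biUnion
    · have : {v | v ∈ V z₁} = ((V z₁).toFinset : Set ℂ) := by ext; simp
      rw [this]
      exact (Finset.finite_toSet _).countable
    · intro v' _
      exact Set.countable_range _
  · intro z hz v hv
    have h1 : Psi (Complex.exp (v / m)) z = 0 := by
      apply Multiset.prod_eq_zero
      rw [Multiset.mem_map]
      exact ⟨v, hv, sub_self _⟩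
    rw [hPconst _ z hz] at h1
    have h2 : (0 : ℂ) ∈ (V z₁).map fun v' => Complex.exp (v / m) - Complex.exp (v' / m) :=
      Multiset.prod_eq_zero_iff.1 h1
    rw [Multiset.mem_map] at h2
    obtain ⟨v', hv', h3⟩ := h2
    rw [sub_eq_zero, Complex.exp_eq_exp_iff_exists_int] at h3
    obtain ⟨k, hk⟩ := h3
    rw [Set.mem_iUnion₂]
    refine ⟨v', hv', k, ?_⟩
    show v' + k * (2 * Real.pi * Complex.I) * m = v
    have : v = (v' / m + k * (2 * Real.pi * Complex.I)) * m := by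
      rw [← hk]; field_simp
    rw [this, add_mul]
    field_simp

end Pool.Agent.MP_f4aa65_ag
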