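import Pool.Agent.MP_f4aa65_ag.Germ
import Pool.Agent.MP_f4aa65_ag.Multivalued

/-!
M2: the change of the logarithm of a function of moderate growth on a finite cover vanishes along
all paths if it vanishes along the loops of a subgroup of finite index.
-/

open Filter Topology Polynomial unitInterval

noncomputable section

namespace Pool.Agent.MP_f4aa65_ag

/-- the complement of the zero set of a polynomial -/
abbrev Compl (D : ℂ[X]) : Type := {z : ℂ // D.eval z ≠ 0}

namespace WindZero

/-- a continuous logarithm of a differentiable function is differentiable -/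
theorem differentiableAt_of_exp {f l : ℂ → ℂ} {z : ℂ} (hl : ContinuousAt l z)
    (hf : DifferentiableAt ℂ f z) (hexp : ∀ᶠ w in 𝓝 z, Complex.exp (l w) = f w) :
    DifferentiableAt ℂ l z := by
  have h0 : Complex.exp (l z) = f z := hexp.self_of_nhds
  have hne : f z ≠ 0 := by rw [← h0]; exact Complex.exp_ne_zero _
  have h1 : ∀ᶠ w in 𝓝 z, ‖l w - l z‖ < 1 := by
    have := hl (Metric.ball_mem_nhds (l z) one_pos)
    filter_upwards [this] with w hw
    rwa [Set.mem_preimage, Metric.mem_ball, dist_eq_norm] at hw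
  have h2 : l =ᶠ[𝓝 z] fun w => Complex.log (f w / f z) + l z := by
    filter_upwards [hexp, h1] with w hw hw1
    have h3 : |(l w - l z).im| < 1 := (Complex.abs_im_le_norm _).trans_lt hw1
    rw [abs_lt] at h3
    have hpi := Real.pi_gt_three
    rw [← hw, ← h0, ← Complex.exp_sub, Complex.log_exp (by linarith) (by linarith)]
    ring
  have h3 : DifferentiableAt ℂ (fun w => Complex.log (f w / f z) + l z) z := by
    refine (DifferentiableAt.clog (hf.div_const _) ?_).add_const _
    rw [div_self hne]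
    exact Complex.one_mem_slitPlane
  exact h3.congr_of_eventuallyEq h2

variable {D : ℂ[X]} {F : Type} [TopologicalSpace F] {p : F → Compl D} (cov : IsCoveringMap p)
  (h : C(F, C0))

theorem exists_local
    (hder : ∀ e : F, ∃ c : ℂ, Tendsto (fun e' : F => ((h e' : ℂ) - h e) / ((p e' : ℂ) - p e))
      (𝓝[≠] e) (𝓝 c)) (z₀ : Compl D) :
    ∃ ε > 0, ∃ s : ∀ z : Compl D, (z : ℂ) ∈ Metric.ball (z₀ : ℂ) ε → Path.Homotopic.Quotient z₀ z,
    (∀ z ∈ Metric.ball (z₀ : ℂ) ε, D.eval z ≠ 0) ∧
    ∀ e' : p ⁻¹' {z₀}, ∃ ℓ : ℂ → ℂ, DifferentiableOn ℂ ℓ (Metric.ball z₀ ε) ∧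
      ∀ (z : Compl D) (hz : (z : ℂ) ∈ Metric.ball (z₀ : ℂ) ε),
        windL cov h (s z hz) e' = ℓ z := by
  have hopen : IsOpen {z : ℂ | D.eval z ≠ 0} := isOpen_ne_fun D.continuous continuous_const
  obtain ⟨ε, hε, hsub⟩ := Metric.isOpen_iff.1 hopen z₀ z₀.2
  have hB : IsOpen (Metric.ball (z₀ : ℂ) ε) := Metric.isOpen_ball
  have hcs : ContractibleSpace (Metric.ball (z₀ : ℂ) ε) :=
    (convex_ball _ _).contractibleSpace ⟨_, Metric.mem_ball_self hε⟩
  have hlp : LocallyPathConnectedSpace (Metric.ball (z₀ : ℂ) ε) := hB.locallyPathConnectedSpace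
  let j : C(Metric.ball (z₀ : ℂ) ε, Compl D) := ⟨fun b => ⟨b, hsub b.2⟩, by fun_prop⟩
  let b₀ : Metric.ball (z₀ : ℂ) ε := ⟨z₀, Metric.mem_ball_self hε⟩
  let q : ∀ b : Metric.ball (z₀ : ℂ) ε, Path b₀ b := fun b => PathConnectedSpace.somePath b₀ b
  refine ⟨ε, hε, fun z hz => Path.Homotopic.Quotient.mk ((q ⟨z, hz⟩).map j.continuous),
    fun z hz => hsub hz, ?_⟩
  rintro ⟨e', he'⟩
  obtain ⟨sg, ⟨hsg0, hsg⟩, -⟩ := cov.existsUnique_continuousMap_lifts j b₀ e' he'
  obtain ⟨lam, ⟨-, hlam⟩, -⟩ := isCoveringMap_expC0.existsUnique_continuousMap_lifts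
    (h.comp sg) b₀ (Complex.log (h (sg b₀))) (Subtype.ext (Complex.exp_log (h (sg b₀)).2))
  have hpsg : ∀ b, p (sg b) = j b := fun b => congrFun hsg b
  have hexp : ∀ b, Complex.exp (lam b) = h (sg b) := fun b =>
    congrArg Subtype.val (congrFun hlam b)
  classical
  -- the extension by zero
  let ext : (Metric.ball (z₀ : ℂ) ε → ℂ) → ℂ → ℂ := fun g z =>
    if hz : z ∈ Metric.ball (z₀ : ℂ) ε then g ⟨z, hz⟩ else 0
  have hext : ∀ g (z : ℂ) (hz : z ∈ Metric.ball (z₀ : ℂ) ε), ext g z = g ⟨z, hz⟩ := by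
    intro g z hz
    exact dif_pos hz
  refine ⟨fun z => ext (fun b => lam b) z - lam b₀, ?_, ?_⟩
  · intro z hz
    apply DifferentiableAt.differentiableWithinAt
    refine DifferentiableAt.sub_const ?_ _
    have hcont : ∀ g : Metric.ball (z₀ : ℂ) ε → ℂ, Continuous g → ContinuousAt (ext g) z := by
      intro g hg
      have h1 : ContinuousOn (ext g) (Metric.ball (z₀ : ℂ) ε) := by
        rw [continuousOn_iff_continuous_domRestrict]
        convert hg using 1
        funext b
        exact hext g b b.2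
      exact h1.continuousAt (hB.mem_nhds hz)
    refine differentiableAt_of_exp (f := ext (fun b => (h (sg b) : ℂ))) (hcont _ lam.continuous) ?_ ?_
    · obtain ⟨c, hc⟩ := hder (sg ⟨z, hz⟩)
      have hd : HasDerivAt (ext (fun b => (h (sg b) : ℂ))) c z := by
        rw [hasDerivAt_iff_tendsto_slope]
        have h1 : Tendsto (fun w : ℂ => if hw : w ∈ Metric.ball (z₀ : ℂ) ε then sg ⟨w, hw⟩
            else sg ⟨z, hz⟩) (𝓝[≠] z) (𝓝[≠] (sg ⟨z, hz⟩)) := by
          rw [tendsto_nhdsWithin_iff]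
          constructor
          · have h2 : ContinuousOn (fun w : ℂ => if hw : w ∈ Metric.ball (z₀ : ℂ) ε then sg ⟨w, hw⟩
                else sg ⟨z, hz⟩) (Metric.ball (z₀ : ℂ) ε) := by
              rw [continuousOn_iff_continuous_domRestrict]
              convert sg.continuous using 1
              funext b
              exact dif_pos b.2
            have h3 := (h2.continuousAt (hB.mem_nhds hz)).tendsto
            rw [dif_pos hz] at h3
            exact h3.mono_left nhdsWithin_le_nhds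
          · filter_upwards [self_mem_nhdsWithin, mem_nhdsWithin_of_mem_nhds (hB.mem_nhds hz)]
              with w hw hw'
            rw [dif_pos hw']
            intro heq
            apply hw
            have h2 := congrArg (fun y => ((p y : Compl D) : ℂ)) heq
            simp only [hpsg] at h2
            exact h2
        refine (hc.comp h1).congr' ?_
        filter_upwards [mem_nhdsWithin_of_mem_nhds (hB.mem_nhds hz)] with w hw
        simp only [Function.comp]
        rw [dif_pos hw, slope_def_field, hext (fun b => (h (sg b) : ℂ)) z hz,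
          hext (fun b => (h (sg b) : ℂ)) w hw, hpsg, hpsg]
        rfl
      exact hd.differentiableAt
    · filter_upwards [hB.mem_nhds hz] with w hw
      rw [hext (fun b => lam b) w hw, hext (fun b => (h (sg b) : ℂ)) w hw, hexp]
  · intro z hz
    show windL cov h (Path.Homotopic.Quotient.mk ((q ⟨z, hz⟩).map j.continuous)) ⟨e', he'⟩ =
      ext (fun b => lam b) z - lam b₀
    rw [hext (fun b => lam b) (z : ℂ) hz]
    have he'' : p (sg ⟨z, hz⟩) = z := hpsg _
    have key := windL_eq cov h (Path.Homotopic.Quotient.mk ((q ⟨z, hz⟩).map j.continuous))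
      ⟨e', he'⟩ ⟨sg ⟨z, hz⟩, he''⟩
      (Path.Homotopic.Quotient.mk (((q ⟨z, hz⟩).map sg.continuous).cast hsg0.symm rfl)) ?_
    · rw [key.2, dlog_mk h _ (lam.comp (q ⟨z, hz⟩).toContinuousMap)]
      · simp
      · intro t
        exact hexp _
    · refine congrArg Path.Homotopic.Quotient.mk (?_ : _ = Path.cast _ _ _)
      ext t
      exact congrArg Subtype.val (hpsg _)

open Path.Homotopic

/-- the loop class of an element of the fundamental group -/
abbrev toQ {u : Compl D} (g : FundamentalGroup (Compl D) u) : Path.Homotopic.Quotient u u := g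

section Coset

variable {u : Compl D} (e : p ⁻¹' {u}) (N : Subgroup (FundamentalGroup (Compl D) u))

/-- the value for a coset of `N` -/
def W {z : Compl D} (b : Path.Homotopic.Quotient u z)
    (q : FundamentalGroup (Compl D) u ⧸ N) : ℂ :=
  windL cov h ((toQ q.out).trans b) e

variable (hfix : ∀ n ∈ N, cov.monodromy (x := u) (y := u) n e = e)
    (hzero : ∀ n ∈ N, windL cov h (x := u) (x' := u) n e = 0)

include hfix hzero

theorem W_mk {z : Compl D} (b : Path.Homotopic.Quotient u z)
    (g : FundamentalGroup (Compl D) u) :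
    W cov h e N b (g : FundamentalGroup (Compl D) u ⧸ N) = windL cov h ((toQ g).trans b) e := by
  unfold W
  set g' := (g : FundamentalGroup (Compl D) u ⧸ N).out with hg'
  have h1 : (g' : FundamentalGroup (Compl D) u ⧸ N) = g := by rw [hg']; exact Quotient.out_eq' _
  rw [QuotientGroup.eq] at h1
  have h2 : toQ g = (toQ (g'⁻¹ * g)).trans (toQ g') := by
    show toQ g = toQ (g' * (g'⁻¹ * g))
    rw [mul_inv_cancel_left]
  rw [h2, Quotient.trans_assoc, windL_trans cov h (toQ (g'⁻¹ * g))]
  have h3 := hfix _ h1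
  have h4 := hzero _ h1
  rw [show windL cov h (toQ (g'⁻¹ * g)) e = 0 from h4,
    show cov.monodromy (toQ (g'⁻¹ * g)) e = e from h3, zero_add]

theorem W_trans {z : Compl D} (b : Path.Homotopic.Quotient u z) (c : FundamentalGroup (Compl D) u)
    (q : FundamentalGroup (Compl D) u ⧸ N) :
    W cov h e N ((toQ c).trans b) q = W cov h e N b (c • q) := by
  induction q using QuotientGroup.induction_on with
  | H g =>
    rw [W_mk cov h e N hfix hzero]
    have h1 : c • (g : FundamentalGroup (Compl D) u ⧸ N) =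
        ((c * g : FundamentalGroup (Compl D) u) : FundamentalGroup (Compl D) u ⧸ N) := rfl
    rw [h1, W_mk cov h e N hfix hzero, ← Quotient.trans_assoc]
    rfl

theorem W_congr {z : Compl D} (b b' : Path.Homotopic.Quotient u z) :
    ∃ c : FundamentalGroup (Compl D) u, ∀ q, W cov h e N b' q = W cov h e N b (c • q) := by
  refine ⟨b'.trans b.symm, fun q => ?_⟩
  rw [← W_trans cov h e N hfix hzero]
  congr 1
  show b' = (b'.trans b.symm).trans b
  rw [Quotient.trans_assoc, Quotient.symm_trans, Quotient.trans_refl]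

end Coset

theorem pathConnectedSpace (hD : D ≠ 0) : PathConnectedSpace (Compl D) := by
  have h1 : Set.Countable {z : ℂ | D.IsRoot z} := (D.finite_setOfPred_isRoot hD).countable
  have h2 : (1 : Cardinal) < Module.rank ℝ ℂ := by
    rw [Complex.rank_real_complex]; exact Nat.one_lt_ofNat
  have h3 := h1.isPathConnected_compl_of_one_lt_rank h2
  have h4 : {z : ℂ | D.eval z ≠ 0} = {z : ℂ | D.IsRoot z}ᶜ := by
    ext z
    exact Iff.rfl
  rw [← h4] at h3
  exact isPathConnected_iff_pathConnectedSpace.1 h3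

end WindZero

open WindZero in
theorem windL_eq_zero (D : ℂ[X]) (hD : D ≠ 0) {F : Type} [TopologicalSpace F]
    (p : F → Compl D) (cov : IsCoveringMap p) (h : C(F, C0))
    (hder : ∀ e : F, ∃ c : ℂ, Tendsto (fun e' : F => ((h e' : ℂ) - h e) / ((p e' : ℂ) - p e))
      (𝓝[≠] e) (𝓝 c))
    (K : ℝ) (M : ℕ)
    (hgrowth : ∀ e : F, ‖(h e : ℂ)‖ ≤ K * (1 + ‖(p e : ℂ)‖) ^ M *
      (1 + ‖D.eval (p e : ℂ)‖⁻¹) ^ M)
    (u : Compl D) (e : p ⁻¹' {u}) (N : Subgroup (FundamentalGroup (Compl D) u))
    (hN : N.FiniteIndex) (hfix : ∀ n ∈ N, cov.monodromy (x := u) (y := u) n e = e)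
    (hzero : ∀ n ∈ N, windL cov h (x := u) (x' := u) n e = 0) {z : Compl D}
    (r : Path.Homotopic.Quotient u z) : windL cov h r e = 0 := by
  classical
  have : Finite (FundamentalGroup (Compl D) u ⧸ N) := Subgroup.finite_quotient_of_finiteIndex
  let _i : Fintype (FundamentalGroup (Compl D) u ⧸ N) := Fintype.ofFinite _
  have : PathConnectedSpace (Compl D) := pathConnectedSpace hD
  let b : ∀ z : Compl D, Path.Homotopic.Quotient u z := fun z =>
    Path.Homotopic.Quotient.mk (PathConnectedSpace.somePath u z)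
  let V : ℂ → Multiset ℂ := fun z => if hz : D.eval z ≠ 0 then
    Multiset.map (W cov h e N (b ⟨z, hz⟩)) Finset.univ.val else 0
  have hV : ∀ (z : Compl D) (b' : Path.Homotopic.Quotient u z),
      V z = Multiset.map (W cov h e N b') Finset.univ.val := by
    intro z b'
    obtain ⟨c, hc⟩ := W_congr cov h e N hfix hzero (b z) b'
    have h1 : V z = Multiset.map (W cov h e N (b z)) Finset.univ.val := dif_pos z.2
    have h2 : W cov h e N b' = W cov h e N (b z) ∘ (MulAction.toPerm c) := funext hc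
    rw [h1, h2, ← Multiset.map_map, Multiset.map_univ_val_equiv]
  have hloc : ∀ z₀, D.eval z₀ ≠ 0 → ∃ ε > 0, ∃ (n : ℕ) (l : Fin n → ℂ → ℂ),
      (∀ j, DifferentiableOn ℂ (l j) (Metric.ball z₀ ε)) ∧
      ∀ z ∈ Metric.ball z₀ ε, V z = Multiset.map (fun j => l j z) Finset.univ.val := by
    intro z₀ hz₀
    obtain ⟨ε, hε, s, hsub, hs⟩ := exists_local cov h hder ⟨z₀, hz₀⟩
    choose ℓ hℓ1 hℓ2 using hs
    let eqv := Fintype.equivFin (FundamentalGroup (Compl D) u ⧸ N)
    let L : (FundamentalGroup (Compl D) u ⧸ N) → ℂ → ℂ := fun q z =>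
      windL cov h ((toQ q.out).trans (b ⟨z₀, hz₀⟩)) e +
        ℓ (cov.monodromy ((toQ q.out).trans (b ⟨z₀, hz₀⟩)) e) z
    refine ⟨ε, hε, _, fun j => L (eqv.symm j), fun j => ?_, fun z hz => ?_⟩
    · exact (hℓ1 _).const_add _
    · have h1 : (fun j => L (eqv.symm j) z) = (fun q => L q z) ∘ eqv.symm := rfl
      rw [h1, ← Multiset.map_map, Multiset.map_univ_val_equiv]
      have h2 := hV ⟨z, hsub z hz⟩ ((b ⟨z₀, hz₀⟩).trans (s ⟨z, hsub z hz⟩ hz))
      refine h2.trans ?_
      congr 1
      funext q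
      unfold W
      rw [← Path.Homotopic.Quotient.trans_assoc, windL_trans, hℓ2]
  have hgr : ∀ z, D.eval z ≠ 0 → ∀ v ∈ V z,
      ‖Complex.exp v‖ ≤ (K / ‖(h e.1 : ℂ)‖) * (1 + ‖z‖) ^ M * (1 + ‖D.eval z‖⁻¹) ^ M := by
    intro z hz v hv
    have h1 : V z = Multiset.map (W cov h e N (b ⟨z, hz⟩)) Finset.univ.val := dif_pos hz
    rw [h1, Multiset.mem_map] at hv
    obtain ⟨q, -, rfl⟩ := hv
    unfold W
    rw [exp_windL, norm_div]
    set y := cov.monodromy ((toQ q.out).trans (b ⟨z, hz⟩)) e with hy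
    have h2 : p y.1 = ⟨z, hz⟩ := y.2
    have h3 := hgrowth y.1
    rw [h2] at h3
    have h4 : 0 < ‖(h e.1 : ℂ)‖ := norm_pos_iff.2 (h e.1).2
    rw [div_le_iff₀ h4]
    calc ‖(h y.1 : ℂ)‖ ≤ _ := h3
      _ = _ := by field_simp
  obtain ⟨Wc, hWc, hWc'⟩ := multivalued_countable D hD V hloc (K / ‖(h e.1 : ℂ)‖) M hgr
  have hmem : ∀ (z : Compl D) (r : Path.Homotopic.Quotient u z), windL cov h r e ∈ Wc := by
    intro z r
    apply hWc' z z.2
    rw [hV z r, Multiset.mem_map]
    refine ⟨((1 : FundamentalGroup (Compl D) u) : FundamentalGroup (Compl D) u ⧸ N),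
      Finset.mem_univ_val _, ?_⟩
    rw [W_mk cov h e N hfix hzero]
    show windL cov h ((Path.Homotopic.Quotient.refl u).trans r) e = _
    rw [Path.Homotopic.Quotient.refl_trans]
  -- the final continuity argument
  obtain ⟨γ, rfl⟩ := Path.Homotopic.Quotient.mk_surjective r
  obtain ⟨Γ, hΓ, hΓ0⟩ := cov.exists_path_lifts (γ := γ.toContinuousMap) e.1 (by
    rw [Path.coe_toContinuousMap, γ.source]; exact e.2.symm)
  have hpΓ : ∀ t, p (Γ t) = γ t := fun t => congrFun hΓ t
  let Γp : Path (Γ 0) (Γ 1) := ⟨Γ, rfl, rfl⟩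
  obtain ⟨l, hl⟩ := exists_log_lift' h Γp
  have key : ∀ t : I, l t - l 0 ∈ Wc := by
    intro t
    let γt : Path u (γ t) := ⟨⟨fun s => γ (s * t), by fun_prop⟩, by simp, by simp⟩
    let Γt : Path e.1 (Γ t) := ⟨⟨fun s => Γ (s * t), by fun_prop⟩, by simp [hΓ0], by simp⟩
    have h1 := windL_eq cov h (Path.Homotopic.Quotient.mk γt) e ⟨Γ t, hpΓ t⟩
      (Path.Homotopic.Quotient.mk Γt) ?_
    · have h2 := hmem _ (Path.Homotopic.Quotient.mk γt)
      rw [h1.2, dlog_mk h Γt ⟨fun s => l (s * t), by fun_prop⟩] at h2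
      · simpa using h2
      · intro s
        exact hl (s * t)
    · refine congrArg Path.Homotopic.Quotient.mk (?_ : _ = Path.cast _ _ _)
      ext s
      exact congrArg Subtype.val (hpΓ _)
  have hconst : l 1 - l 0 = 0 := by
    have h1 : IsPreconnected (Set.range (fun t : I => l t - l 0)) :=
      isPreconnected_range (by fun_prop)
    have h2 : (Set.range (fun t : I => l t - l 0)).Countable :=
      hWc.mono (by rintro _ ⟨t, rfl⟩; exact key t)
    have h3 := h2.isTotallyDisconnected _ subset_rfl h1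
    have h4 := h3 ⟨1, rfl⟩ ⟨0, rfl⟩
    simpa using h4
  have h1 := windL_eq cov h (Path.Homotopic.Quotient.mk γ) e ⟨Γ 1, by
    rw [Set.mem_preimage, hpΓ, γ.target]; rfl⟩
    (Path.Homotopic.Quotient.mk (Γp.cast hΓ0.symm rfl)) ?_
  · rw [h1.2, dlog_mk h _ l]
    · exact hconst
    · intro t
      exact hl t
  · refine congrArg Path.Homotopic.Quotient.mk (?_ : _ = Path.cast _ _ _)
    ext s
    exact congrArg Subtype.val (hpΓ _)

end Pool.Agent.MP_f4aa65_ag
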