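import Pool.Agent.MP_f4aa65_ag.SchAff
import Pool.Agent.MP_f4aa65_ag.PuncturedFG
import Pool.Agent.MP_f4aa65_ag.WindZero

/-!
Finite generation of fundamental groups of finite coverings; complex points of localizations
of the polynomial ring.
-/

open Filter Topology Polynomial CategoryTheory AlgebraicGeometry Limits

noncomputable section

namespace Pool.Agent.MP_f4aa65_ag

theorem cast_cast_self {X : Type} [TopologicalSpace X] {x y x' y' : X}
    (γ : Path.Homotopic.Quotient x y) (hx : x' = x) (hy : y' = y) (hx' : x = x') (hy' : y = y') :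
    (γ.cast hx hy).cast hx' hy' = γ := by
  subst hx hy
  rcases γ with ⟨γ⟩
  rfl

theorem fg_of_cover {E X : Type} [TopologicalSpace E] [TopologicalSpace X] {p : E → X}
    (cov : IsCoveringMap p) (hfin : ∀ x, (p ⁻¹' {x}).Finite) (a : E)
    (h : Group.FG (FundamentalGroup X (p a))) : Group.FG (FundamentalGroup E a) := by
  let f : C(E, X) := ⟨p, cov.continuous⟩
  let φ : FundamentalGroup E a →* FundamentalGroup X (p a) := FundamentalGroup.map f a
  have hφ : ∀ γ : Path.Homotopic.Quotient a a, φ γ = γ.map f := fun γ => rfl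
  let _i := cov.fundamentalGroupMulAction (p a)
  have hfin' : Finite (p ⁻¹' {p a}) := (hfin (p a)).to_subtype
  let e : p ⁻¹' {p a} := ⟨a, rfl⟩
  let H := MulAction.stabilizer (FundamentalGroup X (p a)) e
  have hsmul : ∀ γ : FundamentalGroup X (p a), γ • e = cov.monodromy (x := p a) (y := p a) γ e :=
    fun γ => rfl
  have hidx : H.FiniteIndex := by
    refine ⟨?_⟩
    rw [MulAction.index_stabilizer]
    have h1 : (MulAction.orbit (FundamentalGroup X (p a)) e).Finite := Set.toFinite _
    have h2 : (MulAction.orbit (FundamentalGroup X (p a)) e).Nonempty := ⟨e, MulAction.mem_orbit_self e⟩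
    exact ((Set.ncard_pos h1).2 h2).ne'
  have hrange : φ.range = H := by
    ext γ
    constructor
    · rintro ⟨Γ, rfl⟩
      show φ Γ • e = e
      rw [hsmul]
      exact cov.monodromy_map (x := a) (y := a) Γ
    · intro hγ
      have hγ' : cov.monodromy (x := p a) (y := p a) γ e = e := hγ
      have h3 : (a : E) = (cov.monodromy (x := p a) (y := p a) γ e).1 := by rw [hγ']
      refine ⟨(cov.liftPathQuotient (x := p a) (y := p a) γ e).cast rfl h3, ?_⟩
      show ((cov.liftPathQuotient (x := p a) (y := p a) γ e).cast rfl h3).map f = γ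
      have h4 := cov.map_liftPathQuotient (x := p a) (y := p a) γ e
      rw [Path.Homotopic.Quotient.map_cast]
      have h5 : (cov.liftPathQuotient (x := p a) (y := p a) γ e).map f = _ := h4
      rw [h5]
      exact cast_cast_self γ _ _ _ _
  have hinj : Function.Injective φ := cov.injective_path_homotopic_map a a
  have hH : Group.FG H := inferInstance
  have hR : Group.FG φ.range := by rw [hrange]; exact hH
  exact Group.fg_of_surjective (f := (MonoidHom.ofInjective hinj).symm.toMonoidHom)
    (MonoidHom.ofInjective hinj).symm.surjective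

section

variable (D : ℂ[X]) (hD : D ≠ 0) (R : Type) [CommRing R] [Algebra ℂ R] [Algebra ℂ[X] R]
  [IsScalarTower ℂ ℂ[X] R] [IsLocalization.Away D R]

open SchAff

attribute [local instance] ptTop

/-- evaluation at a point of the complement -/
def complEval (z : Compl D) : R →ₐ[ℂ] ℂ :=
  IsLocalization.liftAlgHom (M := Submonoid.powers D) (f := aeval (z : ℂ)) (by
    rintro ⟨_, n, rfl⟩
    rw [map_pow]
    apply IsUnit.pow
    rw [isUnit_iff_ne_zero, coe_aeval_eq_eval]
    exact z.2)

theorem complEval_algebraMap (z : Compl D) (P : ℂ[X]) :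
    complEval D R z (algebraMap ℂ[X] R P) = P.eval (z : ℂ) := by
  rw [complEval, IsLocalization.liftAlgHom_apply, IsLocalization.lift_eq]
  show aeval (z : ℂ) P = _
  rw [coe_aeval_eq_eval]

theorem eval_algHom (ψ : R →ₐ[ℂ] ℂ) (P : ℂ[X]) :
    ψ (algebraMap ℂ[X] R P) = P.eval (ψ (algebraMap ℂ[X] R X)) := by
  have h : (ψ.comp (IsScalarTower.toAlgHom ℂ ℂ[X] R)) = aeval (ψ (algebraMap ℂ[X] R X)) := by
    apply Polynomial.algHom_ext
    simp
  have h2 := congrArg (fun g => g P) h
  simpa [coe_aeval_eq_eval] using h2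

/-- complex points of the localization -/
def complHomeo : (R →ₐ[ℂ] ℂ) ≃ₜ Compl D where
  toFun ψ := ⟨ψ (algebraMap ℂ[X] R X), by
    rw [← eval_algHom R ψ D]
    have h1 : IsUnit (algebraMap ℂ[X] R D) := IsLocalization.Away.algebraMap_isUnit D
    exact (h1.map ψ).ne_zero⟩
  invFun z := complEval D R z
  left_inv ψ := by
    apply IsLocalization.algHom_ext (Submonoid.powers D)
    apply Polynomial.algHom_ext
    show complEval D R _ (algebraMap ℂ[X] R X) = ψ (algebraMap ℂ[X] R X)
    rw [complEval_algebraMap, eval_X]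
  right_inv z := by
    apply Subtype.ext
    simp [complEval_algebraMap]
  continuous_toFun := by
    refine Continuous.subtype_mk ?_ _
    exact (continuous_apply _).comp continuous_induced_dom
  continuous_invFun := by
    rw [continuous_induced_rng, continuous_pi_iff]
    intro r
    obtain ⟨n, P, hP⟩ := IsLocalization.Away.surj (S := R) D r
    have h1 : ∀ z : Compl D, complEval D R z r = P.eval (z : ℂ) / D.eval (z : ℂ) ^ n := by
      intro z
      have h2 := congrArg (complEval D R z) hP
      rw [map_mul, map_pow, complEval_algebraMap, complEval_algebraMap] at h2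
      rw [eq_div_iff (pow_ne_zero _ z.2), h2]
    show Continuous fun z => complEval D R z r
    simp_rw [h1]
    apply Continuous.div
    · exact P.continuous.comp continuous_subtype_val
    · exact (D.continuous.comp continuous_subtype_val).pow n
    · intro z
      exact pow_ne_zero _ z.2

theorem exists_compl_homeo : ∃ Ψ : Pts (specC R) ≃ₜ Compl D, ∀ z,
    (Ψ z : ℂ) = SchAff.evalHom z (algebraMap ℂ[X] R X) :=
  ⟨(specHomeo R).trans (complHomeo D R), fun _ => rfl⟩

theorem fg_homeo {X Y : Type} [TopologicalSpace X] [TopologicalSpace Y] (Φ : X ≃ₜ Y) (x : X)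
    (h : Group.FG (FundamentalGroup Y (Φ x))) : Group.FG (FundamentalGroup X x) := by
  let f : C(X, Y) := ⟨Φ, Φ.continuous⟩
  let g : C(Y, X) := ⟨Φ.symm, Φ.symm.continuous⟩
  have hg : g (Φ x) = x := Φ.symm_apply_apply x
  refine Group.fg_of_surjective (f := FundamentalGroup.mapOfEq g hg) ?_
  intro γ
  refine ⟨(show Path.Homotopic.Quotient x x from γ).map f, ?_⟩
  rw [FundamentalGroup.mapOfEq_apply]
  obtain ⟨γ⟩ := γ
  refine congrArg Path.Homotopic.Quotient.mk ?_
  ext t
  exact Φ.symm_apply_apply _

theorem fg_specC (hD : D ≠ 0) (z : Pts (specC R)) :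
    Group.FG (FundamentalGroup (Pts (specC R)) z) := by
  obtain ⟨Ψ, -⟩ := exists_compl_homeo D R
  apply fg_homeo Ψ z
  let S : Set ℂ := {w | D.eval w = 0}
  have hS : S.Finite := by
    refine (D.finite_setOfPred_isRoot hD).subset ?_
    intro w hw
    exact hw
  let Θ : Compl D ≃ₜ (Sᶜ : Set ℂ) := Homeomorph.setCongr rfl
  apply fg_homeo Θ
  exact fg_fundamentalGroup_compl S hS _

end

end Pool.Agent.MP_f4aa65_ag
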