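import Mathlib

open Filter Topology Polynomial

namespace Pool.Agent.MP_f4aa65_ag

namespace Tower

/-- a multiplicative nonvanishing function as a linear map into the additive group of units -/
noncomputable def unitLin (E : ℂ → ℂ) (hE : ∀ a b, E (a + b) = E a * E b)
    (hne : ∀ a, E a ≠ 0) : ℂ →ₗ[ℤ] Additive ℂˣ :=
  (AddMonoidHom.mk' (fun a => Additive.ofMul (Units.mk0 (E a) (hne a))) (by
    intro a b
    apply Additive.toMul.injective
    apply Units.ext
    simp [hE])).toIntLinearMap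

theorem unitLin_apply (E : ℂ → ℂ) (hE : ∀ a b, E (a + b) = E a * E b)
    (hne : ∀ a, E a ≠ 0) (a : ℂ) :
    unitLin E hE hne a = Additive.ofMul (Units.mk0 (E a) (hne a)) := rfl

theorem unitLin_surjective (E : ℂ → ℂ) (hE : ∀ a b, E (a + b) = E a * E b)
    (hne : ∀ a, E a ≠ 0) (hsurj : ∀ z, z ≠ 0 → ∃ c, E c = z) :
    Function.Surjective (unitLin E hE hne) := by
  intro y
  obtain ⟨c, hc⟩ := hsurj ((Additive.toMul y : ℂˣ) : ℂ) (Units.ne_zero _)
  refine ⟨c, ?_⟩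
  rw [unitLin_apply]
  apply Additive.toMul.injective
  apply Units.ext
  simpa using hc

theorem unitLin_eq_iff (E F : ℂ → ℂ) (hE : ∀ a b, E (a + b) = E a * E b)
    (hne : ∀ a, E a ≠ 0) (hF : ∀ a b, F (a + b) = F a * F b)
    (hneF : ∀ a, F a ≠ 0) (a b : ℂ) :
    unitLin E hE hne a = unitLin F hF hneF b ↔ E a = F b := by
  rw [unitLin_apply, unitLin_apply]
  constructor
  · intro h
    have h2 : (Units.mk0 (E a) (hne a)) = Units.mk0 (F b) (hneF b) := h
    have := congrArg (fun u : ℂˣ => (u : ℂ)) h2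
    simpa using this
  · intro h
    apply Additive.toMul.injective
    apply Units.ext
    simpa using h

/-- lifting through a surjection from a free module -/
theorem exists_lift {F : Type*} [AddCommGroup F] [Module.Free ℤ F]
    (e : ℂ →ₗ[ℤ] Additive ℂˣ) (he : Function.Surjective e) (η : F →ₗ[ℤ] Additive ℂˣ) :
    ∃ θ : F →ₗ[ℤ] ℂ, e ∘ₗ θ = η :=
  Module.projective_lifting_property e η he

theorem two_pi_I_ne : (2 * Real.pi * Complex.I : ℂ) ≠ 0 := Complex.two_pi_I_ne_zero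

variable {Γ Q : Type} [Group Γ] [MulAction Γ Q]

/-- for each group element the integers form a linear functional -/
theorem exists_dual (q₀ : Q) (A : AddSubgroup (Q → ℂ)) (n : Γ)
    (hint : ∀ L ∈ A, ∃ k : ℤ, ∀ q, L (n • q) = L q + 2 * Real.pi * Complex.I * k) :
    ∃ t : A →ₗ[ℤ] ℤ, ∀ (L : A) (q : Q),
      (L : Q → ℂ) (n • q) = (L : Q → ℂ) q + 2 * Real.pi * Complex.I * (t L : ℤ) := by
  have h : ∀ L : A, ∃ k : ℤ, ∀ q, (L : Q → ℂ) (n • q) = (L : Q → ℂ) q
      + 2 * Real.pi * Complex.I * k := fun L => hint L L.2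
  choose k hk using h
  refine ⟨(AddMonoidHom.mk' k ?_).toIntLinearMap, ?_⟩
  · intro L L'
    have h1 := hk L q₀
    have h2 := hk L' q₀
    have h3 := hk (L + L') q₀
    have e1 : ((L + L' : A) : Q → ℂ) (n • q₀) = (L : Q → ℂ) (n • q₀) + (L' : Q → ℂ) (n • q₀) := rfl
    have e2 : ((L + L' : A) : Q → ℂ) q₀ = (L : Q → ℂ) q₀ + (L' : Q → ℂ) q₀ := rfl
    rw [e1, e2, h1, h2] at h3
    have h4 : (2 * Real.pi * Complex.I : ℂ) * ((k (L + L') : ℤ) : ℂ)
        = (2 * Real.pi * Complex.I : ℂ) * ((k L + k L' : ℤ) : ℂ) := by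
      push_cast
      linear_combination -h3
    have h5 := mul_left_cancel₀ two_pi_I_ne h4
    exact_mod_cast h5
  · intro L q
    exact hk L q

theorem surj (q₀ : Q) (A : AddSubgroup (Q → ℂ)) (hfg : A.FG) (N : Subgroup Γ)
    (hint : ∀ L ∈ A, ∀ n ∈ N, ∃ k : ℤ, ∀ q, L (n • q) = L q + 2 * Real.pi * Complex.I * k)
    (hsat : ∀ L ∈ A, ∀ m : ℕ, 0 < m →
      (∀ n ∈ N, ∃ k : ℤ, ∀ q, L (n • q) = L q + 2 * Real.pi * Complex.I * (m * k)) →
      (fun q => L q / m) ∈ A) (t : A →ₗ[ℤ] ℤ) :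
    ∃ n ∈ N, ∀ (L : A) (q : Q),
      (L : Q → ℂ) (n • q) = (L : Q → ℂ) q + 2 * Real.pi * Complex.I * (t L : ℤ) := by
  have hfin : Module.Finite ℤ A := by
    rw [Module.Finite.iff_addGroup_fg]
    exact (AddGroup.fg_iff_addSubgroup_fg A).2 hfg
  have htf : Module.IsTorsionFree ℤ A := inferInstance
  have hfree : Module.Free ℤ A := inferInstance
  let B : Submodule ℤ (A →ₗ[ℤ] ℤ) := AddSubgroup.toIntSubmodule
    { carrier := {t | ∃ n ∈ N, ∀ (L : A) (q : Q),
        (L : Q → ℂ) (n • q) = (L : Q → ℂ) q + 2 * Real.pi * Complex.I * (t L : ℤ)}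
      zero_mem' := ⟨1, N.one_mem, by intro L q; simp⟩
      add_mem' := by
        rintro t₁ t₂ ⟨n₁, hn₁, h₁⟩ ⟨n₂, hn₂, h₂⟩
        refine ⟨n₁ * n₂, N.mul_mem hn₁ hn₂, ?_⟩
        intro L q
        rw [mul_smul, h₁, h₂]
        simp only [LinearMap.add_apply]
        push_cast
        ring
      neg_mem' := by
        rintro t₁ ⟨n₁, hn₁, h₁⟩
        refine ⟨n₁⁻¹, N.inv_mem hn₁, ?_⟩
        intro L q
        have h := h₁ L (n₁⁻¹ • q)
        rw [smul_inv_smul] at h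
        simp only [LinearMap.neg_apply]
        push_cast
        linear_combination -h }
  have hBtop : B = ⊤ := by
    by_contra hB
    obtain ⟨M, hM, hBM⟩ := (eq_top_or_exists_le_coatom B).resolve_left hB
    have hs : IsSimpleModule ℤ ((A →ₗ[ℤ] ℤ) ⧸ M) := isSimpleModule_iff_isCoatom.2 hM
    obtain ⟨I, hI, ⟨e⟩⟩ := isSimpleModule_iff_quot_maximal.1 hs
    let χ : (A →ₗ[ℤ] ℤ) →ₗ[ℤ] (ℤ ⧸ I) := e.toLinearMap ∘ₗ M.mkQ
    have hχsurj : Function.Surjective χ := e.surjective.comp (Submodule.mkQ_surjective M)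
    have hχB : ∀ t ∈ B, χ t = 0 := by
      intro t ht
      have : M.mkQ t = 0 := by
        rw [Submodule.mkQ_apply, Submodule.Quotient.mk_eq_zero]
        exact hBM ht
      change e (M.mkQ t) = 0
      rw [this, map_zero]
    have hI0 : I ≠ ⊥ := Ring.ne_bot_of_isMaximal_of_not_isField hI Int.not_isField
    obtain ⟨p, hp⟩ : ∃ p : ℕ, I = Ideal.span {(p : ℤ)} := by
      obtain ⟨a, ha⟩ := (IsPrincipalIdealRing.principal I).principal
      refine ⟨a.natAbs, ?_⟩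
      rw [Int.span_natAbs]
      exact ha
    have hp0 : 0 < p := by
      rcases Nat.eq_zero_or_pos p with h | h
      · exfalso; apply hI0; rw [hp, h]; simp
      · exact h
    have hmem : ∀ a : ℤ, a ∈ I ↔ (p : ℤ) ∣ a := by
      intro a; rw [hp, Ideal.mem_span_singleton]
    let b := Module.Free.chooseBasis ℤ A
    have hc : ∀ i, ∃ c : ℤ, Ideal.Quotient.mk I c = χ (b.coord i) := fun i =>
      Ideal.Quotient.mk_surjective _
    choose c hc using hc
    let L : A := ∑ i, c i • b i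
    have hχ : ∀ t : A →ₗ[ℤ] ℤ, χ t = Ideal.Quotient.mk I (t L) := by
      intro t
      have ht : t = ∑ i, t (b i) • b.coord i := by
        apply b.ext
        intro j
        simp only [LinearMap.coe_sum, Finset.sum_apply, LinearMap.smul_apply, Module.Basis.coord_apply,
          Module.Basis.repr_self, smul_eq_mul]
        rw [Finset.sum_eq_single j]
        · simp
        · intro i _ hij
          rw [Finsupp.single_eq_of_ne hij]
          simp
        · intro h; exact absurd (Finset.mem_univ _) h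
      have h1 : χ t = ∑ i, t (b i) • χ (b.coord i) := by
        conv_lhs => rw [ht]
        simp only [map_sum, map_smul]
      rw [h1]
      have h2 : t L = ∑ i, c i * t (b i) := by
        simp only [L, map_sum, map_smul, smul_eq_mul]
      rw [h2, map_sum]
      apply Finset.sum_congr rfl
      intro i _
      rw [← hc i, map_mul, mul_comm, zsmul_eq_mul]
      simp
    have hL : (fun q => (L : Q → ℂ) q / p) ∈ A := by
      apply hsat L L.2 p hp0
      intro n hn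
      obtain ⟨t, ht⟩ := exists_dual q₀ A n (fun L hL => hint L hL n hn)
      have htB : t ∈ B := ⟨n, hn, ht⟩
      have h0 := hχB t htB
      rw [hχ, Ideal.Quotient.eq_zero_iff_mem, hmem] at h0
      obtain ⟨k, hk⟩ := h0
      refine ⟨k, fun q => ?_⟩
      rw [ht L q, hk]
      push_cast
      ring
    have hpC : (p : ℂ) ≠ 0 := by exact_mod_cast hp0.ne'
    have hLL : (p : ℤ) • (⟨_, hL⟩ : A) = L := by
      apply Subtype.ext
      funext q
      change ((p : ℤ) • (fun q => (L : Q → ℂ) q / p)) q = (L : Q → ℂ) q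
      simp only [Pi.smul_apply, zsmul_eq_mul, Int.cast_natCast]
      field_simp
    have hχ0 : ∀ t, χ t = 0 := by
      intro t
      rw [hχ, ← hLL, map_smul, Ideal.Quotient.eq_zero_iff_mem, hmem, smul_eq_mul]
      exact dvd_mul_right _ _
    obtain ⟨t, ht⟩ := hχsurj 1
    rw [hχ0] at ht
    have : (1 : ℤ) ∈ I := by
      rw [← Ideal.Quotient.eq_zero_iff_mem, map_one]
      exact ht.symm
    exact hI.ne_top ((Ideal.eq_top_iff_one I).2 this)
  have : t ∈ B := by rw [hBtop]; trivial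
  exact this

/-- one step of the recursion -/
theorem step (q₀ : Q) (A B : AddSubgroup (Q → ℂ)) (hAB : A ≤ B) (hfgA : A.FG) (hfgB : B.FG)
    (N : Subgroup Γ)
    (hint : ∀ L ∈ A, ∀ n ∈ N, ∃ k : ℤ, ∀ q, L (n • q) = L q + 2 * Real.pi * Complex.I * k)
    (hsat : ∀ L ∈ A, ∀ m : ℕ, 0 < m →
      (∀ n ∈ N, ∃ k : ℤ, ∀ q, L (n • q) = L q + 2 * Real.pi * Complex.I * (m * k)) →
      (fun q => L q / m) ∈ A)
    (E : ℂ → ℂ) (hE : ∀ a b, E (a + b) = E a * E b) (hsurj : ∀ z, z ≠ 0 → ∃ c, E c = z)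
    (hne : ∀ a, E a ≠ 0)
    (g : Γ) (l : (Q → ℂ) → ℂ) (hl : ∀ L ∈ A, ∀ L' ∈ A, l (L + L') = l L + l L')
    (hlE : ∀ L ∈ A, E (l L) = Complex.exp (L (g • q₀))) :
    ∃ (g' : Γ) (l' : (Q → ℂ) → ℂ), g' * g⁻¹ ∈ N ∧
      (∀ L ∈ B, ∀ L' ∈ B, l' (L + L') = l' L + l' L') ∧
      (∀ L ∈ B, E (l' L) = Complex.exp (L (g' • q₀))) ∧ ∀ L ∈ A, l' L = l L := by
  have hfinB : Module.Finite ℤ B := by
    rw [Module.Finite.iff_addGroup_fg]
    exact (AddGroup.fg_iff_addSubgroup_fg B).2 hfgB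
  have htfB : Module.IsTorsionFree ℤ B := inferInstance
  have hfreeB : Module.Free ℤ B := inferInstance
  -- the maps
  let Eh := unitLin E hE hne
  let Xh := unitLin Complex.exp Complex.exp_add Complex.exp_ne_zero
  have hEs : Function.Surjective Eh := unitLin_surjective E hE hne hsurj
  have hXs : Function.Surjective Xh := unitLin_surjective Complex.exp Complex.exp_add
    Complex.exp_ne_zero (fun z hz => ⟨Complex.log z, Complex.exp_log hz⟩)
  have hEX : ∀ a b, Eh a = Xh b ↔ E a = Complex.exp b := fun a b =>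
    unitLin_eq_iff E Complex.exp hE hne Complex.exp_add Complex.exp_ne_zero a b
  let ι : A →ₗ[ℤ] B := (AddSubgroup.inclusion hAB).toIntLinearMap
  have hι : Function.Injective ι := AddSubgroup.inclusion_injective hAB
  have hιc : ∀ L : A, ((ι L : B) : Q → ℂ) = (L : Q → ℂ) := fun L => rfl
  let ev : Q → (B →ₗ[ℤ] ℂ) := fun q =>
    (AddMonoidHom.mk' (fun L : B => (L : Q → ℂ) q) (fun _ _ => rfl)).toIntLinearMap
  have hev : ∀ q (L : B), ev q L = (L : Q → ℂ) q := fun _ _ => rfl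
  let lam : A →ₗ[ℤ] ℂ :=
    (AddMonoidHom.mk' (fun L : A => l L) (fun L L' => hl L L.2 L' L'.2)).toIntLinearMap
  have hlam : ∀ L : A, lam L = l L := fun _ => rfl
  -- extension
  obtain ⟨μ, hμ⟩ := (Module.Baer.of_divisible ℂ).extension_property ι hι lam
  have hμ' : ∀ L : A, μ (ι L) = l L := by
    intro L
    rw [← hlam, ← hμ]; rfl
  let η : B →ₗ[ℤ] Additive ℂˣ := Eh ∘ₗ μ - Xh ∘ₗ (ev (g • q₀))
  obtain ⟨θ, hθ⟩ := exists_lift Xh hXs η
  have hθ' : ∀ L : B, Xh (θ L) = Eh (μ L) - Xh ((L : Q → ℂ) (g • q₀)) := by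
    intro L
    have := congrArg (fun f : B →ₗ[ℤ] Additive ℂˣ => f L) hθ
    exact this
  have hA0 : ∀ L : A, ∃ k : ℤ, θ (ι L) = 2 * Real.pi * Complex.I * k := by
    intro L
    have h1 := hθ' (ι L)
    rw [hμ', (hEX _ _).2 (hlE L L.2), hιc, sub_self] at h1
    have h2 : Complex.exp (θ (ι L)) = Complex.exp 0 := by
      have h3 : Xh (θ (ι L)) = Xh 0 := by rw [h1, map_zero]
      exact (unitLin_eq_iff Complex.exp Complex.exp Complex.exp_add Complex.exp_ne_zero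
        Complex.exp_add Complex.exp_ne_zero _ _).1 h3
    rw [Complex.exp_zero, Complex.exp_eq_one_iff] at h2
    obtain ⟨k, hk⟩ := h2
    exact ⟨k, by rw [hk]; ring⟩
  choose k hk using hA0
  let t : A →ₗ[ℤ] ℤ := (AddMonoidHom.mk' k (by
    intro L L'
    have h1 := hk (L + L')
    rw [map_add, map_add, hk L, hk L'] at h1
    have h4 : (2 * Real.pi * Complex.I : ℂ) * ((k (L + L') : ℤ) : ℂ)
        = (2 * Real.pi * Complex.I : ℂ) * ((k L + k L' : ℤ) : ℂ) := by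
      push_cast
      linear_combination -h1
    have h5 := mul_left_cancel₀ two_pi_I_ne h4
    exact_mod_cast h5)).toIntLinearMap
  have ht : ∀ L : A, θ (ι L) = 2 * Real.pi * Complex.I * (t L : ℤ) := hk
  obtain ⟨n, hn, hnt⟩ := surj q₀ A hfgA N hint hsat t
  -- the defect
  let η' : B →ₗ[ℤ] Additive ℂˣ := Eh ∘ₗ μ - Xh ∘ₗ (ev ((n * g) • q₀))
  have hη' : ∀ L : B, η' L = Eh (μ L) - Xh ((L : Q → ℂ) ((n * g) • q₀)) := fun _ => rfl
  let S : Submodule ℤ B := AddSubgroup.toIntSubmodule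
    { carrier := {L | ∃ m : ℤ, m ≠ 0 ∧ ∃ L' : A, m • L = ι L'}
      zero_mem' := ⟨1, one_ne_zero, 0, by simp⟩
      add_mem' := by
        rintro L₁ L₂ ⟨m₁, hm₁, L₁', h₁⟩ ⟨m₂, hm₂, L₂', h₂⟩
        refine ⟨m₁ * m₂, mul_ne_zero hm₁ hm₂, m₂ • L₁' + m₁ • L₂', ?_⟩
        rw [map_add, map_smul, map_smul, ← h₁, ← h₂, smul_add, smul_smul, smul_smul,
          mul_comm m₂ m₁]
      neg_mem' := by
        rintro L₁ ⟨m₁, hm₁, L₁', h₁⟩
        exact ⟨m₁, hm₁, -L₁', by rw [smul_neg, map_neg, h₁]⟩ }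
  have hS : ∀ L : B, L ∈ S ↔ ∃ m : ℤ, m ≠ 0 ∧ ∃ L' : A, m • L = ι L' := fun L => Iff.rfl
  have hηS : ∀ L ∈ S, η' L = 0 := by
    intro L hL
    obtain ⟨m, hm, L', hL'⟩ := (hS L).1 hL
    have hmC : (m : ℂ) ≠ 0 := by exact_mod_cast hm
    have h1 : (m : ℂ) * θ L = 2 * Real.pi * Complex.I * (t L' : ℤ) := by
      rw [← ht L', ← hL', map_smul, zsmul_eq_mul]
    have h2 := hnt L' (g • q₀)
    have h3 : ∀ q, (L' : Q → ℂ) q = (m : ℂ) * (L : Q → ℂ) q := by
      intro q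
      rw [← hιc L', ← hL']
      change (m • (L : Q → ℂ)) q = _
      rw [Pi.smul_apply, zsmul_eq_mul]
    rw [h3, h3] at h2
    have h4 : (L : Q → ℂ) (n • g • q₀) = (L : Q → ℂ) (g • q₀) + θ L := by
      apply mul_left_cancel₀ hmC
      rw [h2, mul_add, h1]
    rw [hη', mul_smul, h4, map_add, hθ']
    abel
  have htfQ : Module.IsTorsionFree ℤ (B ⧸ S) := by
    refine Module.IsTorsionFree.of_smul_eq_zero fun r x hx => ?_
    obtain ⟨L, rfl⟩ := Submodule.mkQ_surjective S x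
    by_cases hr : r = 0
    · exact Or.inl hr
    · right
      rw [← map_smul, Submodule.mkQ_apply, Submodule.Quotient.mk_eq_zero] at hx
      rw [Submodule.mkQ_apply, Submodule.Quotient.mk_eq_zero]
      obtain ⟨m, hm, L', hL'⟩ := (hS _).1 hx
      exact (hS L).2 ⟨m * r, mul_ne_zero hm hr, L', by rw [mul_smul]; exact hL'⟩
  have hfree : Module.Free ℤ (B ⧸ S) := inferInstance
  let η'' : (B ⧸ S) →ₗ[ℤ] Additive ℂˣ := S.liftQ η' (fun L hL => by
    rw [LinearMap.mem_ker]; exact hηS L hL)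
  obtain ⟨ν, hν⟩ := exists_lift Eh hEs (-η'')
  have hν' : ∀ L : B, Eh (ν (S.mkQ L)) = - η' L := by
    intro L
    have := congrArg (fun f : (B ⧸ S) →ₗ[ℤ] Additive ℂˣ => f (S.mkQ L)) hν
    exact this
  let lam' : B →ₗ[ℤ] ℂ := μ + ν ∘ₗ S.mkQ
  have hlam' : ∀ L : B, lam' L = μ L + ν (S.mkQ L) := fun _ => rfl
  classical
  refine ⟨n * g, fun L => if h : L ∈ B then lam' ⟨L, h⟩ else 0, ?_, ?_, ?_, ?_⟩
  · rw [mul_inv_cancel_right]; exact hn
  · intro L hL L' hL'
    simp only [hL, hL', B.add_mem hL hL', dite_true]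
    rw [← map_add]
    rfl
  · intro L hL
    simp only [hL, dite_true]
    rw [← hEX, hlam', map_add, hν', hη']
    abel
  · intro L hL
    simp only [hAB hL, dite_true]
    have h1 : (⟨L, hAB hL⟩ : B) = ι ⟨L, hL⟩ := rfl
    rw [hlam', h1, hμ']
    have h2 : S.mkQ (ι ⟨L, hL⟩) = 0 := by
      rw [Submodule.mkQ_apply, Submodule.Quotient.mk_eq_zero]
      exact (hS _).2 ⟨1, one_ne_zero, ⟨L, hL⟩, by rw [one_smul]⟩
    rw [h2, map_zero, add_zero]

end Tower

theorem tower {Γ Q : Type} [Group Γ] [MulAction Γ Q] (q₀ : Q)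
    (N : ℕ → Subgroup Γ) (hN : Antitone N)
    (H : ℕ → AddSubgroup (Q → ℂ)) (hH : Monotone H)
    (hfg : ∀ j, (H j).FG)
    (hint : ∀ j, ∀ L ∈ H j, ∀ n ∈ N j, ∃ k : ℤ, ∀ q, L (n • q) = L q + 2 * Real.pi * Complex.I * k)
    (hsat : ∀ j, ∀ L ∈ H j, ∀ m : ℕ, 0 < m →
      (∀ n ∈ N j, ∃ k : ℤ, ∀ q, L (n • q) = L q + 2 * Real.pi * Complex.I * (m * k)) →
      (fun q => L q / m) ∈ H j)
    (E : ℂ → ℂ) (hE : ∀ a b, E (a + b) = E a * E b) (hsurj : ∀ z, z ≠ 0 → ∃ c, E c = z) :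
    ∃ (g : ℕ → Γ) (lam : (Q → ℂ) → ℂ),
      (∀ j, g (j + 1) * (g j)⁻¹ ∈ N j) ∧
      (∀ j, ∀ L ∈ H j, ∀ L' ∈ H j, lam (L + L') = lam L + lam L') ∧
      ∀ j, ∀ L ∈ H j, E (lam L) = Complex.exp (L (g j • q₀)) := by
  have hE0 : E 0 = 1 := by
    obtain ⟨c, hc⟩ := hsurj 1 one_ne_zero
    have := hE c 0
    rw [add_zero, hc, one_mul] at this
    exact this.symm
  have hne : ∀ a, E a ≠ 0 := by
    intro a h
    have := hE a (-a)
    rw [add_neg_cancel, hE0, h, zero_mul] at this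
    exact one_ne_zero this
  let P : ℕ → Γ × ((Q → ℂ) → ℂ) → Prop := fun j s =>
    (∀ L ∈ H j, ∀ L' ∈ H j, s.2 (L + L') = s.2 L + s.2 L') ∧
      ∀ L ∈ H j, E (s.2 L) = Complex.exp (L (s.1 • q₀))
  -- initial state: a step from the trivial group
  have h0 : ∃ s, P 0 s := by
    obtain ⟨g', l', -, h1, h2, -⟩ := Tower.step q₀ (⊥ : AddSubgroup (Q → ℂ)) (H 0) bot_le
      ⟨∅, by simp⟩ (hfg 0) (⊤ : Subgroup Γ)
      (by
        intro L hL n _
        rw [AddSubgroup.mem_bot] at hL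
        exact ⟨0, by intro q; simp [hL]⟩)
      (by
        intro L hL m _ _
        rw [AddSubgroup.mem_bot] at hL
        rw [AddSubgroup.mem_bot, hL]
        funext q; simp)
      E hE hsurj hne 1 (fun _ => 0) (by simp)
      (by
        intro L hL
        rw [AddSubgroup.mem_bot] at hL
        simp [hL, hE0])
    exact ⟨(g', l'), h1, h2⟩
  have hstep : ∀ j s, P j s → ∃ s', P (j + 1) s' ∧ s'.1 * s.1⁻¹ ∈ N j ∧ ∀ L ∈ H j, s'.2 L = s.2 L := by
    intro j s hs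
    obtain ⟨g', l', h1, h2, h3, h4⟩ := Tower.step q₀ (H j) (H (j + 1)) (hH (Nat.le_succ j)) (hfg j)
      (hfg (j + 1)) (N j) (hint j) (hsat j) E hE hsurj hne s.1 s.2 hs.1 hs.2
    exact ⟨(g', l'), ⟨h2, h3⟩, h1, h4⟩
  obtain ⟨s0, hs0⟩ := h0
  choose! nxt hn1 hn2 hn3 using hstep
  let sq : ℕ → Γ × ((Q → ℂ) → ℂ) := fun j => Nat.rec s0 (fun j s => nxt j s) j
  have hsq : ∀ j, sq (j + 1) = nxt j (sq j) := fun j => rfl
  have hP : ∀ j, P j (sq j) := by
    intro j
    induction j with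
    | zero => exact hs0
    | succ j ih => rw [hsq]; exact hn1 j _ ih
  have hcomp : ∀ i j, i ≤ j → ∀ L ∈ H i, (sq j).2 L = (sq i).2 L := by
    intro i j hij
    induction j, hij using Nat.le_induction with
    | base => intro L _; rfl
    | succ j hij ih =>
      intro L hL
      rw [hsq, hn3 j _ (hP j) L (hH hij hL), ih L hL]
  classical
  let lam : (Q → ℂ) → ℂ := fun L => if h : ∃ j, L ∈ H j then (sq (Nat.find h)).2 L else 0
  have hlam : ∀ j, ∀ L ∈ H j, lam L = (sq j).2 L := by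
    intro j L hL
    have h : ∃ j, L ∈ H j := ⟨j, hL⟩
    simp only [lam, h, dite_true]
    exact (hcomp (Nat.find h) j (Nat.find_min' h hL) L (Nat.find_spec h)).symm
  refine ⟨fun j => (sq j).1, lam, ?_, ?_, ?_⟩
  · intro j
    change (sq (j + 1)).1 * (sq j).1⁻¹ ∈ N j
    rw [hsq]
    exact hn2 j _ (hP j)
  · intro j L hL L' hL'
    rw [hlam j L hL, hlam j L' hL', hlam j _ ((H j).add_mem hL hL')]
    exact (hP j).1 L hL L' hL'
  · intro j L hL
    rw [hlam j L hL]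
    exact (hP j).2 L hL

end Pool.Agent.MP_f4aa65_ag
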