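import Pool.Agent.MP_f4aa65_ag.Closed
import Pool.Agent.MP_f4aa65_ag.Tower

/-!
Existence of a sequence of path classes passing all tests.
-/

open Filter Topology

noncomputable section

namespace Pool.Agent.MP_f4aa65_ag

namespace Exist

variable {T : Type} [TopologicalSpace T] {x x' : T} {Γ : Type} [Group Γ]

/-! ### paths attached to elements of the group -/

/-- the loop class of a group element -/
def lp (ρ : Γ →* FundamentalGroup T x) (g : Γ) : Path.Homotopic.Quotient x x := ρ g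

lemma lp_mul (ρ : Γ →* FundamentalGroup T x) (a b : Γ) :
    lp ρ (a * b) = (lp ρ b).trans (lp ρ a) := by
  unfold lp
  rw [map_mul]
  rfl

lemma lp_one (ρ : Γ →* FundamentalGroup T x) :
    lp ρ 1 = Path.Homotopic.Quotient.refl x := by
  unfold lp
  rw [map_one]
  rfl

/-- the path class of a group element -/
def pa (ρ : Γ →* FundamentalGroup T x) (δ : Path.Homotopic.Quotient x x') (g : Γ) :
    Path.Homotopic.Quotient x x' := (lp ρ g⁻¹).trans δ

lemma pa_mul (ρ : Γ →* FundamentalGroup T x) (δ : Path.Homotopic.Quotient x x') (n g : Γ) :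
    pa ρ δ (n * g) = (lp ρ n⁻¹).trans (pa ρ δ g) := by
  unfold pa
  rw [mul_inv_rev, lp_mul, Path.Homotopic.Quotient.trans_assoc]

/-- the subgroup `N` fixes the point `a` of the fibre -/
def Fx (ρ : Γ →* FundamentalGroup T x) (N : Subgroup Γ) (τ : Test T) (a : τ.f ⁻¹' {x}) : Prop :=
  ∀ n ∈ N, τ.cov.monodromy (lp ρ n) a = a

lemma Fx.mono {ρ : Γ →* FundamentalGroup T x} {N N' : Subgroup Γ} (h : N' ≤ N) {τ : Test T}
    {a : τ.f ⁻¹' {x}} (ha : Fx ρ N τ a) : Fx ρ N' τ a := fun n hn => ha n (h hn)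

/-- the function `g ↦ change of log h along the lift of path g starting from a` -/
def LL (ρ : Γ →* FundamentalGroup T x) (δ : Path.Homotopic.Quotient x x') (τ : Test T)
    (a : τ.f ⁻¹' {x}) : Γ → ℂ := fun g => windL τ.cov τ.h (pa ρ δ g) a

lemma LL_mul (ρ : Γ →* FundamentalGroup T x) (δ : Path.Homotopic.Quotient x x') (τ : Test T)
    (a : τ.f ⁻¹' {x}) {n : Γ} (h : τ.cov.monodromy (lp ρ n⁻¹) a = a) (g : Γ) :
    LL ρ δ τ a (n * g) = LL ρ δ τ a g + windL τ.cov τ.h (lp ρ n⁻¹) a := by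
  unfold LL
  rw [pa_mul, windL_trans, h, add_comm]

lemma exists_int (τ : Test T) (a : τ.f ⁻¹' {x}) (γ : Path.Homotopic.Quotient x x)
    (h : τ.cov.monodromy γ a = a) :
    ∃ k : ℤ, windL τ.cov τ.h γ a = 2 * Real.pi * Complex.I * k := by
  have h1 := exp_windL τ.cov τ.h γ a
  rw [h, div_self (τ.h a.1).2, Complex.exp_eq_one_iff] at h1
  obtain ⟨k, hk⟩ := h1
  exact ⟨k, by rw [hk]; ring⟩

/-- comparison of two tests -/
lemma windL_over {τ τ' : Test T} (k : C(τ'.Y, τ.Y)) (hk : ∀ y, τ.f (k y) = τ'.f y) {y y' : T}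
    (γ : Path.Homotopic.Quotient y y') (a' : τ'.f ⁻¹' {y}) (a : τ.f ⁻¹' {y})
    (ha : k a'.1 = a.1) : (τ.cov.monodromy γ a).1 = k (τ'.cov.monodromy γ a').1 ∧
      windL τ.cov τ.h γ a = windL τ'.cov (τ.h.comp k) γ a' := by
  have h := windL_square τ'.cov τ.cov τ.h (ContinuousMap.id T) k hk γ a' a ha.symm
  have h2 : γ.map (ContinuousMap.id T) = γ := by
    obtain ⟨p, rfl⟩ := Path.Homotopic.Quotient.mk_surjective γ
    rfl
  rw [h2] at h
  exact h

/-! ### the groups of functions -/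

/-- the functions attached to tests and points fixed by `N` -/
def HH (𝒯 : Set (Test T)) (h𝒯 : Closed 𝒯) (ρ : Γ →* FundamentalGroup T x)
    (δ : Path.Homotopic.Quotient x x') (N : Subgroup Γ) : AddSubgroup (Γ → ℂ) where
  carrier := {L | L = 0 ∨ ∃ τ ∈ 𝒯, ∃ a : τ.f ⁻¹' {x}, Fx ρ N τ a ∧ L = LL ρ δ τ a}
  zero_mem' := Or.inl rfl
  neg_mem' := by
    rintro L (rfl | ⟨τ, hτ, a, ha, rfl⟩)
    · left; exact neg_zero
    · right
      obtain ⟨τ', hτ', k, hk, hh, hinj, a', ha'⟩ := h𝒯.inv τ hτ a.1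
      have hf : τ'.f a' = x := by rw [← hk, ha']; exact a.2
      refine ⟨τ', hτ', ⟨a', hf⟩, ?_, ?_⟩
      · intro n hn
        apply Subtype.ext
        apply hinj
        rw [← (windL_over k hk (lp ρ n) ⟨a', hf⟩ a ha').1, ha n hn]
        exact ha'.symm
      · funext g
        show - windL τ.cov τ.h (pa ρ δ g) a = windL τ'.cov τ'.h (pa ρ δ g) ⟨a', hf⟩
        rw [(windL_over k hk (pa ρ δ g) ⟨a', hf⟩ a ha').2,
          windL_inv (h₁ := τ.h.comp k) (h₂ := τ'.h) τ'.cov hh]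
  add_mem' := by
    rintro L₁ L₂ (rfl | ⟨τ₁, hτ₁, a₁, ha₁, rfl⟩) (rfl | ⟨τ₂, hτ₂, a₂, ha₂, rfl⟩)
    · left; exact add_zero 0
    · right
      exact ⟨τ₂, hτ₂, a₂, ha₂, zero_add _⟩
    · right
      exact ⟨τ₁, hτ₁, a₁, ha₁, add_zero _⟩
    · right
      obtain ⟨τ, hτ, k₁, k₂, hk₁, hk₂, hh, hinj, a, e₁, e₂⟩ :=
        h𝒯.mul τ₁ hτ₁ τ₂ hτ₂ a₁.1 a₂.1 (a₁.2.trans a₂.2.symm)
      have hf : τ.f a = x := by rw [← hk₁, e₁]; exact a₁.2
      refine ⟨τ, hτ, ⟨a, hf⟩, ?_, ?_⟩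
      · intro n hn
        apply Subtype.ext
        apply hinj
        · rw [← (windL_over k₁ hk₁ (lp ρ n) ⟨a, hf⟩ a₁ e₁).1, ha₁ n hn]
          exact e₁.symm
        · rw [← (windL_over k₂ hk₂ (lp ρ n) ⟨a, hf⟩ a₂ e₂).1, ha₂ n hn]
          exact e₂.symm
      · funext g
        show windL τ₁.cov τ₁.h (pa ρ δ g) a₁ + windL τ₂.cov τ₂.h (pa ρ δ g) a₂ =
          windL τ.cov τ.h (pa ρ δ g) ⟨a, hf⟩
        rw [(windL_over k₁ hk₁ (pa ρ δ g) ⟨a, hf⟩ a₁ e₁).2,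
          (windL_over k₂ hk₂ (pa ρ δ g) ⟨a, hf⟩ a₂ e₂).2,
          windL_mul (h₁ := τ₁.h.comp k₁) (h₂ := τ₂.h.comp k₂) (h₃ := τ.h) τ.cov hh]

lemma mem_HH {𝒯 : Set (Test T)} {h𝒯 : Closed 𝒯} {ρ : Γ →* FundamentalGroup T x}
    {δ : Path.Homotopic.Quotient x x'} {N : Subgroup Γ} {L : Γ → ℂ} :
    L ∈ HH 𝒯 h𝒯 ρ δ N ↔ (L = 0 ∨ ∃ τ ∈ 𝒯, ∃ a : τ.f ⁻¹' {x}, Fx ρ N τ a ∧ L = LL ρ δ τ a) :=
  Iff.rfl

lemma HH_mono {𝒯 : Set (Test T)} {h𝒯 : Closed 𝒯} {ρ : Γ →* FundamentalGroup T x}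
    {δ : Path.Homotopic.Quotient x x'} {N N' : Subgroup Γ} (h : N' ≤ N) :
    HH 𝒯 h𝒯 ρ δ N ≤ HH 𝒯 h𝒯 ρ δ N' := by
  rintro L (rfl | ⟨τ, hτ, a, ha, rfl⟩)
  · exact Or.inl rfl
  · exact Or.inr ⟨τ, hτ, a, ha.mono h, rfl⟩

lemma HH_int {𝒯 : Set (Test T)} {h𝒯 : Closed 𝒯} {ρ : Γ →* FundamentalGroup T x}
    {δ : Path.Homotopic.Quotient x x'} {N : Subgroup Γ} {L : Γ → ℂ} (hL : L ∈ HH 𝒯 h𝒯 ρ δ N)
    {n : Γ} (hn : n ∈ N) : ∃ k : ℤ, ∀ q, L (n • q) = L q + 2 * Real.pi * Complex.I * k := by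
  rcases hL with rfl | ⟨τ, hτ, a, ha, rfl⟩
  · exact ⟨0, fun q => by simp⟩
  · have h1 := ha n⁻¹ (N.inv_mem hn)
    obtain ⟨k, hk⟩ := exists_int τ a (lp ρ n⁻¹) h1
    exact ⟨k, fun q => by rw [smul_eq_mul, LL_mul ρ δ τ a h1, hk]⟩

lemma two_pi_I_ne : (2 * Real.pi * Complex.I : ℂ) ≠ 0 := Complex.two_pi_I_ne_zero

lemma HH_root {𝒯 : Set (Test T)} {h𝒯 : Closed 𝒯} {ρ : Γ →* FundamentalGroup T x}
    {δ : Path.Homotopic.Quotient x x'} {N : Subgroup Γ} {L : Γ → ℂ} (hL : L ∈ HH 𝒯 h𝒯 ρ δ N)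
    (m : ℕ) (hm : 0 < m)
    (h : ∀ n ∈ N, ∃ k : ℤ, ∀ q, L (n • q) = L q + 2 * Real.pi * Complex.I * (m * k)) :
    (fun q => L q / m) ∈ HH 𝒯 h𝒯 ρ δ N := by
  have hm0 : (m : ℂ) ≠ 0 := by exact_mod_cast hm.ne'
  rcases hL with rfl | ⟨τ, hτ, a, ha, rfl⟩
  · left
    funext q
    simp
  · right
    obtain ⟨τ', hτ', k, hk, hh, hinj, a', ha'⟩ := h𝒯.root τ hτ m hm a.1
    have hf : τ'.f a' = x := by rw [← hk, ha']; exact a.2
    have hw : ∀ {y : T} (γ : Path.Homotopic.Quotient x y),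
        windL τ.cov τ.h γ a / m = windL τ'.cov τ'.h γ ⟨a', hf⟩ := by
      intro y γ
      rw [(windL_over k hk γ ⟨a', hf⟩ a ha').2,
        windL_pow (h₁ := τ'.h) (h₂ := τ.h.comp k) τ'.cov m (fun y => (hh y).symm)]
      field_simp
    refine ⟨τ', hτ', ⟨a', hf⟩, ?_, ?_⟩
    · intro n hn
      have h1 : k (τ'.cov.monodromy (lp ρ n) ⟨a', hf⟩).1 = k a' := by
        rw [← (windL_over k hk (lp ρ n) ⟨a', hf⟩ a ha').1, ha n hn, ha']
      apply Subtype.ext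
      apply hinj _ _ h1
      obtain ⟨c, hc⟩ := h n⁻¹ (N.inv_mem hn)
      have h2 := LL_mul ρ δ τ a (n := n⁻¹) (by rw [inv_inv]; exact ha n hn) 1
      rw [inv_inv] at h2
      have h3 := hc 1
      rw [smul_eq_mul, h2] at h3
      have h4 : windL τ.cov τ.h (lp ρ n) a = 2 * Real.pi * Complex.I * (m * c) :=
        add_left_cancel h3
      have h5 : windL τ'.cov τ'.h (lp ρ n) ⟨a', hf⟩ = c * (2 * Real.pi * Complex.I) := by
        rw [← hw, h4]
        field_simp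
      have h6 := exp_windL τ'.cov τ'.h (lp ρ n) ⟨a', hf⟩
      rw [h5, Complex.exp_int_mul_two_pi_mul_I] at h6
      have h7 : (τ'.h a' : ℂ) ≠ 0 := (τ'.h a').2
      apply Subtype.ext
      rw [eq_comm, div_eq_one_iff_eq h7] at h6
      exact h6
    · funext g
      exact hw (pa ρ δ g)

/-- a function which is constant on cosets of `N` vanishes -/
lemma HH_zero {𝒯 : Set (Test T)} {h𝒯 : Closed 𝒯} {ρ : Γ →* FundamentalGroup T x}
    {δ : Path.Homotopic.Quotient x x'}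
    (hF : ∀ τ ∈ 𝒯, ∀ a : τ.f ⁻¹' {x}, ∀ N : Subgroup Γ, N.FiniteIndex →
      (∀ n ∈ N, τ.cov.monodromy (x := x) (y := x) (ρ n) a = a) →
      (∀ n ∈ N, windL τ.cov τ.h (x := x) (x' := x) (ρ n) a = 0) →
      ∀ g : Γ, windL τ.cov τ.h
        (Path.Homotopic.Quotient.trans (show Path.Homotopic.Quotient x x from ρ g) δ) a = 0)
    {N : Subgroup Γ} (hN : N.FiniteIndex) {L : Γ → ℂ} (hL : L ∈ HH 𝒯 h𝒯 ρ δ N)
    (h : ∀ n ∈ N, L n = L 1) : L = 0 := by
  rcases hL with rfl | ⟨τ, hτ, a, ha, rfl⟩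
  · rfl
  · funext g
    refine hF τ hτ a N hN ha (fun n hn => ?_) g⁻¹
    have h2 := LL_mul ρ δ τ a (n := n⁻¹) (by rw [inv_inv]; exact ha n hn) 1
    rw [inv_inv, mul_one, h n⁻¹ (N.inv_mem hn)] at h2
    exact (add_eq_left.1 h2.symm)

lemma HH_fg [Group.FG Γ] {𝒯 : Set (Test T)} {h𝒯 : Closed 𝒯} {ρ : Γ →* FundamentalGroup T x}
    {δ : Path.Homotopic.Quotient x x'}
    (hF : ∀ τ ∈ 𝒯, ∀ a : τ.f ⁻¹' {x}, ∀ N : Subgroup Γ, N.FiniteIndex →
      (∀ n ∈ N, τ.cov.monodromy (x := x) (y := x) (ρ n) a = a) →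
      (∀ n ∈ N, windL τ.cov τ.h (x := x) (x' := x) (ρ n) a = 0) →
      ∀ g : Γ, windL τ.cov τ.h
        (Path.Homotopic.Quotient.trans (show Path.Homotopic.Quotient x x from ρ g) δ) a = 0)
    {N : Subgroup Γ} (hN : N.FiniteIndex) : (HH 𝒯 h𝒯 ρ δ N).FG := by
  classical
  have hNfg : Group.FG N := Subgroup.fg_of_index_ne_zero N
  obtain ⟨S, hS⟩ := hNfg.out
  -- integer valued functional
  have hex : ∀ (L : HH 𝒯 h𝒯 ρ δ N) (n : N), ∃ k : ℤ, ∀ q, L.1 (n.1 • q) = L.1 q +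
      2 * Real.pi * Complex.I * k := fun L n => HH_int L.2 n.2
  choose k hk using hex
  have hkadd : ∀ L L' n, k (L + L') n = k L n + k L' n := by
    intro L L' n
    have h1 := hk (L + L') n 1
    have h2 := hk L n 1
    have h3 := hk L' n 1
    have h4 : ((L + L' : HH 𝒯 h𝒯 ρ δ N) : Γ → ℂ) = L.1 + L'.1 := rfl
    rw [h4, Pi.add_apply, Pi.add_apply, h2, h3] at h1
    have h5 : (2 * Real.pi * Complex.I : ℂ) * (k (L + L') n : ℂ) =
        (2 * Real.pi * Complex.I : ℂ) * ((k L n + k L' n : ℤ) : ℂ) := by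
      push_cast
      linear_combination -h1
    have h6 := mul_left_cancel₀ two_pi_I_ne h5
    exact_mod_cast h6
  let φ : HH 𝒯 h𝒯 ρ δ N →+ (S → ℤ) :=
    { toFun := fun L s => k L s.1
      map_zero' := by
        funext s
        have := hkadd 0 0 s.1
        rw [add_zero] at this
        show k 0 s.1 = 0
        omega
      map_add' := fun L L' => by
        funext s
        exact hkadd L L' s.1 }
  have hφ : Function.Injective φ := by
    rw [injective_iff_map_eq_zero]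
    intro L hL
    have hL' : ∀ s ∈ S, k L s = 0 := fun s hs => congrFun hL ⟨s, hs⟩
    -- the set of n with k L n = 0 is a subgroup
    let K : Subgroup N :=
      { carrier := {n | ∀ q, L.1 (n.1 • q) = L.1 q}
        one_mem' := fun q => by simp
        mul_mem' := by
          intro a b ha hb q
          have h1 := ha (b.1 • q)
          rw [hb q] at h1
          rw [← h1, smul_smul]
          rfl
        inv_mem' := by
          intro a ha q
          have h1 := ha (a.1⁻¹ • q)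
          rw [smul_inv_smul] at h1
          exact h1.symm }
    have hK : K = ⊤ := by
      rw [eq_top_iff, ← hS, Subgroup.closure_le]
      intro s hs q
      have := hk L s q
      rw [hL' s hs] at this
      simpa using this
    apply Subtype.ext
    apply HH_zero hF hN L.2
    intro n hn
    have h1 : (⟨n, hn⟩ : N) ∈ K := by rw [hK]; trivial
    have h2 := h1 1
    simpa using h2
  have hfin : Module.Finite ℤ (HH 𝒯 h𝒯 ρ δ N) :=
    Module.Finite.of_injective φ.toIntLinearMap hφ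
  rw [← AddGroup.fg_iff_addSubgroup_fg]
  exact Module.Finite.iff_addGroup_fg.1 hfin

/-! ### a cofinal sequence of subgroups of finite index -/

/-- intersection of the kernels of the homomorphisms to `Perm (Fin d)`, `d ≤ j` -/
def NN (Γ : Type) [Group Γ] (j : ℕ) : Subgroup Γ :=
  ⨅ d : Fin (j + 1), ⨅ φ : Γ →* Equiv.Perm (Fin d), φ.ker

lemma NN_anti : Antitone (NN Γ) := by
  intro j j' hj n hn
  simp only [NN, Subgroup.mem_iInf] at hn ⊢
  intro d φ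
  exact hn ⟨d.1, by omega⟩ φ

lemma finite_hom [Group.FG Γ] (G : Type) [Group G] [Finite G] : Finite (Γ →* G) := by
  obtain ⟨S, hS⟩ := (inferInstance : Group.FG Γ).out
  refine Finite.of_injective (fun (φ : Γ →* G) (s : S) => φ s.1) ?_
  intro φ ψ h
  apply MonoidHom.eq_of_eqOn_dense hS
  intro s hs
  exact congrFun h ⟨s, hs⟩

lemma NN_finiteIndex [Group.FG Γ] (j : ℕ) : (NN Γ j).FiniteIndex := by
  unfold NN
  apply Subgroup.finiteIndex_iInf
  intro d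
  have := finite_hom (Γ := Γ) (Equiv.Perm (Fin d))
  apply Subgroup.finiteIndex_iInf
  intro φ
  infer_instance

lemma NN_le {F : Type} [Finite F] (ψ : Γ →* Equiv.Perm F) : ∃ j, NN Γ j ≤ ψ.ker := by
  refine ⟨Nat.card F, ?_⟩
  intro n hn
  simp only [NN, Subgroup.mem_iInf] at hn
  have h := hn ⟨Nat.card F, Nat.lt_succ_self _⟩
    ((Equiv.permCongrHom (Finite.equivFin F)).toMonoidHom.comp ψ)
  rw [MonoidHom.mem_ker] at h ⊢
  exact (Equiv.permCongrHom (Finite.equivFin F)).injective (h.trans (map_one _).symm)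

lemma exists_fix (ρ : Γ →* FundamentalGroup T x) (τ : Test T) :
    ∃ j, ∀ a, Fx ρ (NN Γ j) τ a := by
  have hfin : Finite (τ.f ⁻¹' {x}) := τ.fin x
  obtain ⟨j, hj⟩ := NN_le ((τ.cov.monodromyPerm x).comp ρ)
  refine ⟨j, fun a n hn => ?_⟩
  have h := hj hn
  rw [MonoidHom.mem_ker] at h
  have h2 := congrArg (fun p : Equiv.Perm _ => p a) h
  exact h2

end Exist

open Exist

theorem exists_passing (e : NExp) {T : Type} [TopologicalSpace T] (𝒯 : Set (Test T))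
    (h𝒯 : Closed 𝒯) {x x' : T} (δ : Path.Homotopic.Quotient x x')
    {Γ : Type} [Group Γ] [Group.FG Γ] (ρ : Γ →* FundamentalGroup T x)
    (hF : ∀ τ ∈ 𝒯, ∀ a : τ.f ⁻¹' {x}, ∀ N : Subgroup Γ, N.FiniteIndex →
      (∀ n ∈ N, τ.cov.monodromy (x := x) (y := x) (ρ n) a = a) →
      (∀ n ∈ N, windL τ.cov τ.h (x := x) (x' := x) (ρ n) a = 0) →
      ∀ g : Γ, windL τ.cov τ.h
        (Path.Homotopic.Quotient.trans (show Path.Homotopic.Quotient x x from ρ g) δ) a = 0) :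
    ∃ p : ℕ → Path.Homotopic.Quotient x x', ∀ τ ∈ 𝒯, Pass e τ p := by
  obtain ⟨g, lam, hg, hadd, hlam⟩ := tower (Γ := Γ) (Q := Γ) 1 (NN Γ) NN_anti
    (fun j => HH 𝒯 h𝒯 ρ δ (NN Γ j)) (fun j j' hj => HH_mono (NN_anti hj))
    (fun j => HH_fg hF (NN_finiteIndex j)) (fun j L hL n hn => HH_int hL hn)
    (fun j L hL m hm h => HH_root hL m hm h) e.E e.add e.surj
  refine ⟨fun j => pa ρ δ (g j), ?_⟩
  intro τ hτ a
  obtain ⟨j0, hj0⟩ := exists_fix ρ τ
  -- the end point is eventually constant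
  have hmono : ∀ j, j0 ≤ j → τ.cov.monodromy (pa ρ δ (g j)) a =
      τ.cov.monodromy (pa ρ δ (g j0)) a := by
    intro j hj
    induction j, hj using Nat.le_induction with
    | base => rfl
    | succ j hj ih =>
      have h1 : g (j + 1) = (g (j + 1) * (g j)⁻¹) * g j := by group
      have h2 : (g (j + 1) * (g j)⁻¹)⁻¹ ∈ NN Γ j0 :=
        (NN Γ j0).inv_mem (NN_anti hj (hg j))
      rw [h1, pa_mul, IsCoveringMap.monodromy_trans_apply, hj0 a _ h2, ih]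
  refine ⟨τ.cov.monodromy (pa ρ δ (g j0)) a, ?_, lam (LL ρ δ τ a), ?_⟩
  · filter_upwards [eventually_ge_atTop j0] with j hj
    exact hmono j hj
  · intro m hm
    have hm0 : (m : ℂ) ≠ 0 := by exact_mod_cast hm.ne'
    obtain ⟨τ', hτ', k, hk, hh, hinj, a', ha'⟩ := h𝒯.root τ hτ m hm a.1
    have hf : τ'.f a' = x := by rw [← hk, ha']; exact a.2
    have hw : ∀ {y : T} (γ : Path.Homotopic.Quotient x y),
        windL τ.cov τ.h γ a = m * windL τ'.cov τ'.h γ ⟨a', hf⟩ := by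
      intro y γ
      rw [(windL_over k hk γ ⟨a', hf⟩ a ha').2,
        windL_pow (h₁ := τ'.h) (h₂ := τ.h.comp k) τ'.cov m (fun y => (hh y).symm)]
    obtain ⟨j1, hj1⟩ := exists_fix ρ τ'
    have hL' : ∀ j, j1 ≤ j → LL ρ δ τ' ⟨a', hf⟩ ∈ HH 𝒯 h𝒯 ρ δ (NN Γ j) := by
      intro j hj
      exact Or.inr ⟨τ', hτ', _, (hj1 _).mono (NN_anti hj), rfl⟩
    have hlam_mul : ∀ i : ℕ, lam ((i : ℂ) • LL ρ δ τ' ⟨a', hf⟩) =
        i * lam (LL ρ δ τ' ⟨a', hf⟩) ∧ (i : ℂ) • LL ρ δ τ' ⟨a', hf⟩ ∈ HH 𝒯 h𝒯 ρ δ (NN Γ j1) := by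
      intro i
      induction i with
      | zero =>
        have h0 := hadd j1 0 (Or.inl rfl) 0 (Or.inl rfl)
        rw [add_zero] at h0
        have h1 : lam 0 = 0 := by linear_combination -h0
        constructor
        · rw [Nat.cast_zero, zero_smul, zero_mul, h1]
        · rw [Nat.cast_zero, zero_smul]
          exact AddSubgroup.zero_mem _
      | succ i ih =>
        have e1 : ((i + 1 : ℕ) : ℂ) • LL ρ δ τ' ⟨a', hf⟩ =
            (i : ℂ) • LL ρ δ τ' ⟨a', hf⟩ + LL ρ δ τ' ⟨a', hf⟩ := by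
          push_cast
          rw [add_smul, one_smul]
        constructor
        · rw [e1, hadd j1 _ ih.2 _ (hL' j1 le_rfl), ih.1]
          push_cast
          ring
        · rw [e1]
          exact AddSubgroup.add_mem _ ih.2 (hL' j1 le_rfl)
    have hLm : LL ρ δ τ a = (m : ℂ) • LL ρ δ τ' ⟨a', hf⟩ := by
      funext q
      exact hw (pa ρ δ q)
    filter_upwards [eventually_ge_atTop j1] with j hj
    have h1 := hlam j _ (hL' j hj)
    rw [hLm, (hlam_mul m).1, mul_div_cancel_left₀ _ hm0, h1, smul_eq_mul, mul_one]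
    congr 1
    rw [hw (pa ρ δ (g j)), mul_div_cancel_left₀ _ hm0]
    rfl

end Pool.Agent.MP_f4aa65_ag
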