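import Pool.Agent.MP_f4aa65_ag.PtTop

open Filter Topology Polynomial

namespace Pool.Agent.MP_f4aa65_ag

attribute [local instance] ptTop

namespace RingDeriv

open TensorProduct

theorem continuous_ev {A : Type} [CommRing A] [Algebra ℂ A] (a : A) :
    Continuous (fun e : A →ₐ[ℂ] ℂ => e a) :=
  (continuous_apply a).comp continuous_induced_dom

section base

variable {R : Type} [CommRing R] [Algebra ℂ R] [Algebra ℂ[X] R] [IsScalarTower ℂ ℂ[X] R]

theorem ev_poly (φ : R →ₐ[ℂ] ℂ) (p : ℂ[X]) :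
    φ (algebraMap ℂ[X] R p) = p.eval (φ (algebraMap ℂ[X] R X)) := by
  have h : φ.comp (IsScalarTower.toAlgHom ℂ ℂ[X] R) =
      Polynomial.aeval (φ (algebraMap ℂ[X] R X)) := by
    ext; simp
  have := DFunLike.congr_fun h p
  simpa [Polynomial.aeval_def] using this

variable (D : ℂ[X]) [IsLocalization.Away D R]

theorem ev_D_ne (φ : R →ₐ[ℂ] ℂ) : D.eval (φ (algebraMap ℂ[X] R X)) ≠ 0 := by
  rw [← ev_poly]
  have h : IsUnit (algebraMap ℂ[X] R D) := IsLocalization.Away.algebraMap_isUnit D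
  exact (h.map φ).ne_zero

include D in
theorem exists_frac (r : R) : ∃ (p : ℂ[X]) (k : ℕ), ∀ φ : R →ₐ[ℂ] ℂ,
    φ r = p.eval (φ (algebraMap ℂ[X] R X)) / (D.eval (φ (algebraMap ℂ[X] R X))) ^ k := by
  obtain ⟨k, p, h⟩ := IsLocalization.Away.surj D r
  refine ⟨p, k, fun φ => ?_⟩
  have h1 := congrArg φ h
  rw [map_mul, map_pow, ev_poly φ D, ev_poly φ p] at h1
  rw [eq_div_iff (pow_ne_zero _ (ev_D_ne D φ))]
  exact h1

end base

section deriv

variable (R A : Type) [CommRing R] [CommRing A] [Algebra ℂ R] [Algebra ℂ A] [Algebra R A]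
  [IsScalarTower ℂ R A]

/-- restriction of a point to the base -/
noncomputable def res (e : A →ₐ[ℂ] ℂ) : R →ₐ[ℂ] ℂ := e.comp (IsScalarTower.toAlgHom ℂ R A)

theorem res_apply (e : A →ₐ[ℂ] ℂ) (r : R) : res R A e r = e (algebraMap R A r) := rfl

variable {R A}

omit [Algebra ℂ R] [IsScalarTower ℂ R A] in
/-- two points in the same fibre are separated by the idempotent -/
theorem sum_eq_zero_of_ne {e e' : A →ₐ[ℂ] ℂ} (hres : ∀ r : R, e (algebraMap R A r) = e' (algebraMap R A r))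
    (hne : e' ≠ e) {S : Finset (A × A)}
    (hS : ∀ s : A, ((1 : A) ⊗ₜ[R] s - s ⊗ₜ[R] (1 : A)) * ∑ i ∈ S, i.1 ⊗ₜ[R] i.2 = 0) :
    ∑ i ∈ S, e i.1 * e' i.2 = 0 := by
  let B : A →+ A →+ ℂ :=
    AddMonoidHom.mk' (fun a => (AddMonoidHom.mulLeft (e a)).comp (e' : A →+ ℂ)) (by
      intro a b; ext c; simp [add_mul])
  have hB : ∀ a b, B a b = e a * e' b := fun a b => rfl
  let Θ : A ⊗[R] A →+ ℂ := TensorProduct.liftAddHom B (by
    intro r a b
    rw [hB, hB, Algebra.smul_def, Algebra.smul_def, map_mul, map_mul, hres]; ring)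
  have hΘ : ∀ a b, Θ (a ⊗ₜ[R] b) = e a * e' b := fun a b => by
    rw [← hB]; exact TensorProduct.liftAddHom_tmul _ _ _ _
  obtain ⟨f, hf⟩ : ∃ f, e' f ≠ e f := by
    by_contra hcon
    push Not at hcon
    exact hne (AlgHom.ext hcon)
  have h1 := congrArg Θ (hS f)
  rw [Finset.mul_sum, map_sum, map_zero] at h1
  have h2 : ∀ i ∈ S, Θ (((1 : A) ⊗ₜ[R] f - f ⊗ₜ[R] (1 : A)) * (i.1 ⊗ₜ[R] i.2)) =
      (e' f - e f) * (e i.1 * e' i.2) := by
    intro i _
    rw [sub_mul, Algebra.TensorProduct.tmul_mul_tmul, Algebra.TensorProduct.tmul_mul_tmul, map_sub,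
      hΘ, hΘ, one_mul, one_mul, map_mul, map_mul]
    ring
  rw [Finset.sum_congr rfl h2, ← Finset.mul_sum] at h1
  exact (mul_eq_zero.mp h1).resolve_left (sub_ne_zero.mpr hf)

variable [Algebra ℂ[X] R] [IsScalarTower ℂ ℂ[X] R] (D : ℂ[X]) [IsLocalization.Away D R]

/-- the coordinate function -/
noncomputable def xx (R A : Type) [CommRing R] [CommRing A] [Algebra ℂ A] [Algebra R A]
    [Algebra ℂ[X] R] (e : A →ₐ[ℂ] ℂ) : ℂ := e (algebraMap R A (algebraMap ℂ[X] R X))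

include D in
theorem res_eq_of_xx {e e' : A →ₐ[ℂ] ℂ} (h : xx R A e = xx R A e') (r : R) :
    e (algebraMap R A r) = e' (algebraMap R A r) := by
  obtain ⟨p, k, hpk⟩ := exists_frac (R := R) D r
  have h1 := hpk (res R A e)
  have h2 := hpk (res R A e')
  rw [res_apply, res_apply] at h1 h2
  rw [h1, h2]
  unfold xx at h
  rw [h]

variable (R) in
include D in
theorem tendsto_base (e : A →ₐ[ℂ] ℂ) (r : R) {l : Filter (A →ₐ[ℂ] ℂ)}
    (hl : Tendsto (xx R A) l (𝓝[≠] (xx R A e))) :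
    ∃ c : ℂ, Tendsto (fun e' : A →ₐ[ℂ] ℂ =>
      (e' (algebraMap R A r) - e (algebraMap R A r)) / (xx R A e' - xx R A e)) l (𝓝 c) := by
  obtain ⟨p, k, hpk⟩ := exists_frac (R := R) D r
  have hpk' : ∀ e' : A →ₐ[ℂ] ℂ, e' (algebraMap R A r) =
      p.eval (xx R A e') / (D.eval (xx R A e')) ^ k := fun e' => hpk (res R A e')
  have hD : D.eval (xx R A e) ≠ 0 := ev_D_ne D (res R A e)
  have hd : DifferentiableAt ℂ (fun z : ℂ => p.eval z / (D.eval z) ^ k) (xx R A e) :=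
    p.differentiable.differentiableAt.div (D.differentiable.differentiableAt.pow k)
      (pow_ne_zero _ hD)
  have h1 := hd.hasDerivAt.tendsto_slope.comp hl
  refine ⟨_, h1.congr fun e' => ?_⟩
  simp only [Function.comp_apply, slope_def_field]
  rw [hpk' e, hpk' e']

include D in
theorem exists_deriv_aux [Module.Finite R A] [Algebra.Etale R A] (f : A) (e : A →ₐ[ℂ] ℂ) :
    ∃ c : ℂ, Tendsto (fun e' : A →ₐ[ℂ] ℂ => (e' f - e f) / (xx R A e' - xx R A e))
      (𝓝[≠] e) (𝓝 c) := by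
  obtain ⟨t, ht1, ht2⟩ := (Algebra.FormallyUnramified.iff_exists_tensorProduct (R := R) (S := A)).mp
    inferInstance
  obtain ⟨S, rfl⟩ := TensorProduct.exists_finset t
  -- the function s
  set s : (A →ₐ[ℂ] ℂ) → ℂ := fun e' => ∑ i ∈ S, e i.1 * e' i.2 with hs
  have hs_cont : Continuous s :=
    continuous_finsetSum _ fun i _ => continuous_const.mul (continuous_ev i.2)
  have hs_e : s e = 1 := by
    have := congrArg e ht2
    rw [map_sum, map_sum, map_one] at this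
    simpa [hs] using this
  have hs_tendsto : Tendsto s (𝓝[≠] e) (𝓝 1) := by
    rw [← hs_e]
    exact hs_cont.continuousAt.tendsto.mono_left nhdsWithin_le_nhds
  have hs_ne : ∀ᶠ e' in 𝓝[≠] e, s e' ≠ 0 :=
    hs_tendsto.eventually_ne one_ne_zero
  have hx_cont : Continuous (xx R A) := continuous_ev _
  have hxl : Tendsto (xx R A) (𝓝[≠] e) (𝓝[≠] (xx R A e)) := by
    rw [tendsto_nhdsWithin_iff]
    refine ⟨hx_cont.continuousAt.tendsto.mono_left nhdsWithin_le_nhds, ?_⟩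
    filter_upwards [hs_ne, self_mem_nhdsWithin] with e' h1 h2
    intro h3
    apply h1
    exact sum_eq_zero_of_ne (R := R) (res_eq_of_xx D (Set.mem_singleton_iff.mp h3).symm) h2 ht1
  -- the subgroup of good functions
  let N : AddSubgroup ((A →ₐ[ℂ] ℂ) → ℂ) :=
    { carrier := {g | ∃ c : ℂ, Tendsto (fun e' => g e' / (xx R A e' - xx R A e)) (𝓝[≠] e) (𝓝 c)}
      zero_mem' := ⟨0, by simpa using tendsto_const_nhds⟩
      add_mem' := by
        rintro g g' ⟨c, hc⟩ ⟨c', hc'⟩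
        exact ⟨c + c', (hc.add hc').congr fun e' => by simp [add_div]⟩
      neg_mem' := by
        rintro g ⟨c, hc⟩
        exact ⟨-c, hc.neg.congr fun e' => by simp [neg_div]⟩ }
  have hN : ∀ g, g ∈ N ↔ ∃ c : ℂ,
      Tendsto (fun e' => g e' / (xx R A e' - xx R A e)) (𝓝[≠] e) (𝓝 c) := fun g => Iff.rfl
  let B : A →+ A →+ (((A →ₐ[ℂ] ℂ) → ℂ) ⧸ N) :=
    AddMonoidHom.mk' (fun a => (QuotientAddGroup.mk' N).comp
      (AddMonoidHom.mk' (fun b => fun e' : A →ₐ[ℂ] ℂ => e a * e' b) (by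
        intro b b'; ext e'; simp [mul_add]))) (by
      intro a b
      ext c
      simp only [AddMonoidHom.comp_apply, AddMonoidHom.add_apply]
      rw [← map_add]
      congr 1
      ext e'
      simp [add_mul])
  have hB : ∀ a b, B a b = QuotientAddGroup.mk' N (fun e' : A →ₐ[ℂ] ℂ => e a * e' b) :=
    fun a b => rfl
  let Θ : A ⊗[R] A →+ (((A →ₐ[ℂ] ℂ) → ℂ) ⧸ N) := TensorProduct.liftAddHom B (by
    intro r a b
    rw [hB, hB, ← sub_eq_zero, ← map_sub, QuotientAddGroup.mk'_apply,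
      QuotientAddGroup.eq_zero_iff, hN]
    obtain ⟨c, hc⟩ := tendsto_base (A := A) R D e r hxl
    have hb : Tendsto (fun e' : A →ₐ[ℂ] ℂ => e' b) (𝓝[≠] e) (𝓝 (e b)) :=
      (continuous_ev b).continuousAt.tendsto.mono_left nhdsWithin_le_nhds
    refine ⟨-(e a * c * e b), ((hc.const_mul (e a)).mul hb).neg.congr fun e' => ?_⟩
    simp only [Pi.sub_apply, Algebra.smul_def, map_mul]
    ring)
  have hΘ : ∀ a b, Θ (a ⊗ₜ[R] b) = QuotientAddGroup.mk' N (fun e' : A →ₐ[ℂ] ℂ => e a * e' b) :=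
    fun a b => by rw [← hB]; exact TensorProduct.liftAddHom_tmul _ _ _ _
  have h1 := congrArg Θ (ht1 f)
  rw [Finset.mul_sum, map_sum, map_zero] at h1
  have h2 : ∀ i ∈ S, Θ (((1 : A) ⊗ₜ[R] f - f ⊗ₜ[R] (1 : A)) * (i.1 ⊗ₜ[R] i.2)) =
      QuotientAddGroup.mk' N (fun e' : A →ₐ[ℂ] ℂ => (e' f - e f) * (e i.1 * e' i.2)) := by
    intro i _
    rw [sub_mul, Algebra.TensorProduct.tmul_mul_tmul, Algebra.TensorProduct.tmul_mul_tmul, map_sub,
      hΘ, hΘ, one_mul, one_mul, ← map_sub]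
    congr 1
    ext e'
    simp only [Pi.sub_apply, map_mul]
    ring
  rw [Finset.sum_congr rfl h2, ← map_sum, QuotientAddGroup.mk'_apply,
    QuotientAddGroup.eq_zero_iff, hN] at h1
  obtain ⟨c, hc⟩ := h1
  refine ⟨c, ?_⟩
  have h3 := hc.div hs_tendsto one_ne_zero
  rw [div_one] at h3
  refine h3.congr' ?_
  filter_upwards [hs_ne] with e' he'
  simp only [Pi.div_apply, Finset.sum_apply]
  rw [← Finset.mul_sum]
  change (e' f - e f) * s e' / (xx R A e' - xx R A e) / s e' = _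
  field_simp

end deriv

section growth

variable {R A : Type} [CommRing R] [CommRing A] [Algebra ℂ R] [Algebra ℂ A] [Algebra R A]
  [IsScalarTower ℂ R A]

theorem poly_growth (p : ℂ[X]) : ∃ K : ℝ, 0 ≤ K ∧ ∀ z : ℂ,
    ‖p.eval z‖ ≤ K * (1 + ‖z‖) ^ p.natDegree := by
  refine ⟨∑ i ∈ Finset.range (p.natDegree + 1), ‖p.coeff i‖,
    Finset.sum_nonneg fun i _ => norm_nonneg _, fun z => ?_⟩
  rw [Polynomial.eval_eq_sum_range, Finset.sum_mul]
  refine (norm_sum_le _ _).trans (Finset.sum_le_sum fun i hi => ?_)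
  rw [norm_mul, norm_pow]
  have h1 : ‖z‖ ≤ 1 + ‖z‖ := by linarith
  have h2 : (1 : ℝ) ≤ 1 + ‖z‖ := by linarith [norm_nonneg z]
  have h3 : i ≤ p.natDegree := Nat.lt_succ_iff.mp (Finset.mem_range.mp hi)
  gcongr
  calc ‖z‖ ^ i ≤ (1 + ‖z‖) ^ i := by gcongr
    _ ≤ (1 + ‖z‖) ^ p.natDegree := pow_le_pow_right₀ h2 h3

/-- root bound -/
theorem root_bound {n : ℕ} {z : ℂ} {c : ℕ → ℂ} (h : z ^ n + ∑ i ∈ Finset.range n, c i * z ^ i = 0) :
    ‖z‖ ≤ 1 + ∑ i ∈ Finset.range n, ‖c i‖ := by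
  have hnn : 0 ≤ ∑ i ∈ Finset.range n, ‖c i‖ := Finset.sum_nonneg fun i _ => norm_nonneg _
  by_contra hcon
  push Not at hcon
  have hz1 : 1 < ‖z‖ := by linarith
  rcases Nat.eq_zero_or_pos n with rfl | hn
  · simp at h
  have h1 : ‖z‖ ^ n ≤ (∑ i ∈ Finset.range n, ‖c i‖) * ‖z‖ ^ (n - 1) := by
    have h2 : z ^ n = - ∑ i ∈ Finset.range n, c i * z ^ i := by linear_combination h
    rw [← norm_pow, h2, norm_neg, Finset.sum_mul]
    refine (norm_sum_le _ _).trans (Finset.sum_le_sum fun i hi => ?_)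
    rw [norm_mul, norm_pow]
    have h3 : i ≤ n - 1 := by have := Finset.mem_range.mp hi; omega
    gcongr
    exact hz1.le
  have h4 : ‖z‖ ^ n = ‖z‖ * ‖z‖ ^ (n - 1) := by
    rw [← pow_succ']; congr 1; omega
  rw [h4] at h1
  have h5 : ‖z‖ ≤ ∑ i ∈ Finset.range n, ‖c i‖ :=
    le_of_mul_le_mul_right h1 (pow_pos (by linarith) _)
  linarith

variable [Algebra ℂ[X] R] [IsScalarTower ℂ ℂ[X] R] (D : ℂ[X]) [IsLocalization.Away D R]

/-- the comparison function -/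
noncomputable def hh (R A : Type) [CommRing R] [CommRing A] [Algebra ℂ A] [Algebra R A]
    [Algebra ℂ[X] R] (D : ℂ[X]) (e : A →ₐ[ℂ] ℂ) : ℝ :=
  (1 + ‖xx R A e‖) * (1 + ‖e (algebraMap R A (algebraMap ℂ[X] R D))‖⁻¹)

omit [Algebra ℂ R] [IsScalarTower ℂ R A] [IsScalarTower ℂ ℂ[X] R] [IsLocalization.Away D R] in
theorem one_le_hh (e : A →ₐ[ℂ] ℂ) : 1 ≤ hh R A D e := by
  unfold hh
  have h1 : 1 ≤ 1 + ‖xx R A e‖ := by linarith [norm_nonneg (xx R A e)]
  have h2 : 1 ≤ 1 + ‖e (algebraMap R A (algebraMap ℂ[X] R D))‖⁻¹ := by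
    have : 0 ≤ ‖e (algebraMap R A (algebraMap ℂ[X] R D))‖⁻¹ := by positivity
    linarith
  nlinarith

theorem base_growth (r : R) : ∃ (K : ℝ) (M : ℕ), 0 ≤ K ∧ ∀ e : A →ₐ[ℂ] ℂ,
    ‖e (algebraMap R A r)‖ ≤ K * hh R A D e ^ M := by
  obtain ⟨p, k, hpk⟩ := exists_frac (R := R) D r
  obtain ⟨K, hK0, hK⟩ := poly_growth p
  refine ⟨K, p.natDegree + k, hK0, fun e => ?_⟩
  have h1 : e (algebraMap R A r) = p.eval (xx R A e) / (D.eval (xx R A e)) ^ k := hpk (res R A e)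
  have h2 : e (algebraMap R A (algebraMap ℂ[X] R D)) = D.eval (xx R A e) := ev_poly (res R A e) D
  have h3 := one_le_hh (R := R) D e
  rw [h1, norm_div, norm_pow, div_eq_mul_inv, ← inv_pow, pow_add, ← mul_assoc]
  have ha : (1 + ‖xx R A e‖) ≤ hh R A D e := by
    unfold hh
    have : 0 ≤ ‖e (algebraMap R A (algebraMap ℂ[X] R D))‖⁻¹ := by positivity
    nlinarith [norm_nonneg (xx R A e)]
  have hb : ‖D.eval (xx R A e)‖⁻¹ ≤ hh R A D e := by
    unfold hh
    rw [h2]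
    have : 0 ≤ ‖D.eval (xx R A e)‖⁻¹ := by positivity
    nlinarith [norm_nonneg (xx R A e)]
  calc ‖p.eval (xx R A e)‖ * (‖D.eval (xx R A e)‖⁻¹) ^ k
      ≤ (K * (1 + ‖xx R A e‖) ^ p.natDegree) * (hh R A D e) ^ k := by
        gcongr
        exact hK _
    _ ≤ (K * (hh R A D e) ^ p.natDegree) * (hh R A D e) ^ k := by gcongr

end growth

end RingDeriv

section

open RingDeriv

variable (R A : Type) [CommRing R] [CommRing A] [Algebra ℂ R] [Algebra ℂ A] [Algebra R A]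
  [IsScalarTower ℂ R A]

variable [Algebra ℂ[X] R] [IsScalarTower ℂ ℂ[X] R] (D : ℂ[X]) [IsLocalization.Away D R]

include D in
theorem exists_deriv_along [Module.Finite R A] [Algebra.Etale R A] (f : A) (e : A →ₐ[ℂ] ℂ) :
    ∃ c : ℂ, Tendsto (fun e' : A →ₐ[ℂ] ℂ => (e' f - e f) /
      (e' (algebraMap R A (algebraMap ℂ[X] R X)) - e (algebraMap R A (algebraMap ℂ[X] R X))))
      (𝓝[≠] e) (𝓝 c) :=
  exists_deriv_aux (R := R) D f e

theorem exists_growth [Module.Finite R A] (f : A) :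
    ∃ (K : ℝ) (M : ℕ), ∀ e : A →ₐ[ℂ] ℂ,
      ‖e f‖ ≤ K * (1 + ‖e (algebraMap R A (algebraMap ℂ[X] R X))‖) ^ M *
        (1 + ‖e (algebraMap R A (algebraMap ℂ[X] R D))‖⁻¹) ^ M := by
  obtain ⟨P, hP, hPf⟩ := Algebra.IsIntegral.isIntegral (R := R) f
  choose K M hK0 hKM using fun r : R => base_growth (A := A) D r
  set n := P.natDegree with hn
  set K' : ℝ := 1 + ∑ i ∈ Finset.range n, K (P.coeff i) with hK'
  set M' : ℕ := ∑ i ∈ Finset.range n, M (P.coeff i) with hM'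
  refine ⟨K', M', fun e => ?_⟩
  have h1 : e f ^ n + ∑ i ∈ Finset.range n, e (algebraMap R A (P.coeff i)) * e f ^ i = 0 := by
    have h2 := congrArg e hPf
    rw [Polynomial.eval₂_eq_sum_range, map_sum, map_zero, Finset.sum_range_succ,
      hP.coeff_natDegree] at h2
    simp only [map_mul, map_pow, map_one, one_mul] at h2
    rw [add_comm]
    exact h2
  have h2 := root_bound h1
  have h3 := one_le_hh (R := R) D e
  have h4 : ∀ i ∈ Finset.range n, ‖e (algebraMap R A (P.coeff i))‖ ≤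
      K (P.coeff i) * hh R A D e ^ M' := by
    intro i hi
    refine (hKM (P.coeff i) e).trans ?_
    have h5 : M (P.coeff i) ≤ M' :=
      Finset.single_le_sum (f := fun i => M (P.coeff i)) (fun _ _ => Nat.zero_le _) hi
    have h6 := hK0 (P.coeff i)
    gcongr
  have h7 : ‖e f‖ ≤ K' * hh R A D e ^ M' := by
    refine h2.trans ?_
    rw [hK', add_mul, one_mul, Finset.sum_mul]
    exact add_le_add (one_le_pow₀ h3) (Finset.sum_le_sum h4)
  rw [mul_assoc, ← mul_pow]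
  exact h7

end

end Pool.Agent.MP_f4aa65_ag
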