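import Pool.Agent.MP_f4aa65_ag.SchRoot
import Pool.Agent.MP_f4aa65_ag.CoverFG
import Pool.Agent.MP_f4aa65_ag.RingDeriv

/-!
Vanishing of the change of logarithm of a unit on a finite etale cover of an open subset of the
affine line.
-/

open Filter Topology Polynomial CategoryTheory AlgebraicGeometry Limits

noncomputable section

namespace Pool.Agent.MP_f4aa65_ag

attribute [local instance] ptTop

namespace WindSch

theorem map_surjective {X X' : Type} [TopologicalSpace X] [TopologicalSpace X'] (Ψ : X ≃ₜ X')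
    (x : X) : Function.Surjective (FundamentalGroup.map (⟨Ψ, Ψ.continuous⟩ : C(X, X')) x) := by
  intro γ
  obtain ⟨q, hq⟩ := Path.Homotopic.Quotient.mk_surjective
    (show Path.Homotopic.Quotient (Ψ x) (Ψ x) from γ)
  let q' : Path x x := (q.map Ψ.symm.continuous).cast (Ψ.symm_apply_apply x).symm
    (Ψ.symm_apply_apply x).symm
  refine ⟨(show FundamentalGroup X x from Path.Homotopic.Quotient.mk q'), ?_⟩
  show Path.Homotopic.Quotient.map (Path.Homotopic.Quotient.mk q') _ = _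
  rw [← Path.Homotopic.Quotient.mk_map]
  refine Eq.trans ?_ hq
  congr 1
  ext t
  exact Ψ.apply_symm_apply _

theorem windL_eq_zero_of_homeo (D : ℂ[X]) (hD : D ≠ 0) {F X : Type} [TopologicalSpace F]
    [TopologicalSpace X] (Ψ : X ≃ₜ Compl D) (p : F → X) (cov : IsCoveringMap p) (h : C(F, C0))
    (hder : ∀ e : F, ∃ c : ℂ, Tendsto (fun e' : F => ((h e' : ℂ) - h e) /
      ((Ψ (p e') : ℂ) - Ψ (p e))) (𝓝[≠] e) (𝓝 c))
    (K : ℝ) (M : ℕ)
    (hgrowth : ∀ e : F, ‖(h e : ℂ)‖ ≤ K * (1 + ‖(Ψ (p e) : ℂ)‖) ^ M *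
      (1 + ‖D.eval (Ψ (p e) : ℂ)‖⁻¹) ^ M)
    (u : X) (e : p ⁻¹' {u}) (N : Subgroup (FundamentalGroup X u))
    (hN : N.FiniteIndex) (hfix : ∀ n ∈ N, cov.monodromy (x := u) (y := u) n e = e)
    (hzero : ∀ n ∈ N, windL cov h (x := u) (x' := u) n e = 0) {z : X}
    (r : Path.Homotopic.Quotient u z) : windL cov h r e = 0 := by
  have cov' : IsCoveringMap (Ψ ∘ p) := cov.homeomorph_comp Ψ
  let ΨC : C(X, Compl D) := ⟨Ψ, Ψ.continuous⟩
  let e' : (Ψ ∘ p) ⁻¹' {Ψ u} := ⟨e.1, congrArg Ψ e.2⟩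
  have key := fun {z : X} (γ : Path.Homotopic.Quotient u z) =>
    windL_square cov cov' h ΨC (ContinuousMap.id F) (fun _ => rfl) γ e e' rfl
  have hN' : (N.map (FundamentalGroup.map ΨC u)).FiniteIndex := by
    refine ⟨fun h0 => hN.index_ne_zero ?_⟩
    have h1 := N.index_map_dvd (map_surjective Ψ u)
    rw [h0] at h1
    exact Nat.eq_zero_of_zero_dvd h1
  have := windL_eq_zero D hD (Ψ ∘ p) cov' h hder K M hgrowth (Ψ u) e'
    (N.map (FundamentalGroup.map ΨC u)) hN' ?_ ?_ (r.map ΨC)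
  · rw [(key r).2] at this
    exact this
  · rintro _ ⟨n, hn, rfl⟩
    apply Subtype.ext
    refine (key (show Path.Homotopic.Quotient u u from n)).1.trans ?_
    exact congrArg Subtype.val (hfix n hn)
  · rintro _ ⟨n, hn, rfl⟩
    exact (key (show Path.Homotopic.Quotient u u from n)).2.trans (hzero n hn)

/-- a finite etale morphism to an affine scheme `Spec R`, in terms of rings -/
theorem affine_cover_data (R : Type) [CommRing R] [Algebra ℂ R] {Y : SchC} (g : Y ⟶ specC R)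
    [IsFinite g.left] [Etale g.left] :
    ∃ (_ : Algebra ℂ Γ(Y.left, ⊤)) (_ : Algebra R Γ(Y.left, ⊤))
      (_ : IsScalarTower ℂ R Γ(Y.left, ⊤)) (_ : Module.Finite R Γ(Y.left, ⊤))
      (_ : Algebra.Etale R Γ(Y.left, ⊤)) (E : Pts Y ≃ₜ (Γ(Y.left, ⊤) →ₐ[ℂ] ℂ)),
      (∀ y f, E y f = y.gval f) ∧
        ∀ y r, SchAff.evalHom (y ≫ g) r = E y (algebraMap R Γ(Y.left, ⊤) r) := by
  have hX : IsAffine (specC R).left := inferInstanceAs (IsAffine (Spec (CommRingCat.of R)))
  have hY : IsAffine Y.left := isAffine_source g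
  let gl : Y.left ⟶ Spec (CommRingCat.of R) := g.left
  let φ : R →+* Γ(Y.left, ⊤) := ((Scheme.ΓSpecIso (CommRingCat.of R)).inv ≫ gl.appTop).hom
  let iC : Algebra ℂ Γ(Y.left, ⊤) := (structHom Y).toAlgebra
  let iR : Algebra R Γ(Y.left, ⊤) := φ.toAlgebra
  have hst : IsScalarTower ℂ R Γ(Y.left, ⊤) := by
    refine IsScalarTower.of_algebraMap_eq fun c => ?_
    show structHom Y c = φ (algebraMap ℂ R c)
    rw [← structHom_comp g]
    have h1 : (Scheme.ΓSpecIso (CommRingCat.of ℂ)).inv ≫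
        (Spec.map (CommRingCat.ofHom (algebraMap ℂ R))).appTop =
        CommRingCat.ofHom (algebraMap ℂ R) ≫ (Scheme.ΓSpecIso (CommRingCat.of R)).inv :=
      (Scheme.ΓSpecIso_inv_naturality _).symm
    exact congrArg (fun z => gl.appTop.hom (z.hom c)) h1
  have hbij : Function.Bijective (Scheme.ΓSpecIso (CommRingCat.of R)).inv.hom :=
    ConcreteCategory.bijective_of_isIso _
  have hfin : Module.Finite R Γ(Y.left, ⊤) := by
    have h : gl.appTop.hom.Finite := Scheme.Hom.finite_appTop g.left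
    have h2 : φ.Finite := by
      show (gl.appTop.hom.comp (Scheme.ΓSpecIso (CommRingCat.of R)).inv.hom).Finite
      exact h.comp (RingHom.Finite.of_surjective _ hbij.2)
    exact h2
  have het : Algebra.Etale R Γ(Y.left, ⊤) := by
    have h := g.left.etale_appLE (isAffineOpen_top _) (isAffineOpen_top Y.left) le_top
    have h' : gl.appTop.hom.Etale := by
      have e : gl.appLE ⊤ ⊤ le_top = gl.appTop := (Scheme.Hom.app_eq_appLE _).symm
      rw [← e]
      exact h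
    have h2 : φ.Etale := by
      show (gl.appTop.hom.comp (Scheme.ΓSpecIso (CommRingCat.of R)).inv.hom).Etale
      exact RingHom.Etale.stableUnderComposition _ _ (RingHom.Etale.of_bijective hbij) h'
    exact h2
  let isoY : Y ≅ specC Γ(Y.left, ⊤) := Over.isoMk Y.left.isoSpec (isoSpec_structHom Y)
  let E : Pts Y ≃ₜ (Γ(Y.left, ⊤) →ₐ[ℂ] ℂ) := (ptsHomeo isoY).trans (SchAff.specHomeo _)
  have hE : ∀ y f, E y f = y.gval f := by
    intro y f
    show SchAff.evalHom (y ≫ isoY.hom) f = _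
    rw [SchAff.evalHom_apply]
    refine (Pts.gval_comp y isoY.hom _).trans ?_
    congr 1
    have h1 : (Scheme.ΓSpecIso (CommRingCat.of Γ(Y.left, ⊤))).inv ≫ Y.left.isoSpec.hom.appTop =
        𝟙 _ := by
      rw [Scheme.isoSpec_hom, Scheme.toSpecΓ_appTop]
      exact Iso.inv_hom_id _
    exact congrArg (fun z => z.hom f) h1
  refine ⟨iC, iR, hst, hfin, het, E, hE, ?_⟩
  intro y r
  rw [hE, SchAff.evalHom_apply]
  exact Pts.gval_comp y g _

end WindSch

section

variable (D : ℂ[X]) (R : Type) [CommRing R] [Algebra ℂ R] [Algebra ℂ[X] R]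
  [IsScalarTower ℂ ℂ[X] R] [IsLocalization.Away D R]

theorem wind_zero_sch (hD : D ≠ 0) {Y : SchC} (g : Y ⟶ specC R) [IsFinite g.left] [Etale g.left]
    (h : Γ(Y.left, ⊤)ˣ) (b : Pts Y) (N : Subgroup (FundamentalGroup (Pts (specC R)) (b ≫ g)))
    (hN : N.FiniteIndex)
    (hfix : ∀ n ∈ N, (isCoveringMap_pts g).monodromy (x := b ≫ g) (y := b ≫ g) n ⟨b, rfl⟩ =
      ⟨b, rfl⟩)
    (hzero : ∀ n ∈ N, windL (isCoveringMap_pts g) (unitFun h) (x := b ≫ g) (x' := b ≫ g) n
      ⟨b, rfl⟩ = 0) {z : Pts (specC R)} (r : Path.Homotopic.Quotient (b ≫ g) z) :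
    windL (isCoveringMap_pts g) (unitFun h) r ⟨b, rfl⟩ = 0 := by
  obtain ⟨Ψ, hΨ⟩ := exists_compl_homeo D R
  obtain ⟨iC, iR, hst, hfin, het, E, hE, hEg⟩ := WindSch.affine_cover_data R g
  have hp : ∀ y : Pts Y, (Ψ (y ≫ g) : ℂ) =
      E y (algebraMap R Γ(Y.left, ⊤) (algebraMap ℂ[X] R X)) := by
    intro y
    rw [hΨ, hEg]
  obtain ⟨K, M, hKM⟩ := exists_growth R Γ(Y.left, ⊤) D h.1
  refine WindSch.windL_eq_zero_of_homeo D hD Ψ (fun y : Pts Y => (y ≫ g : Pts (specC R)))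
    (isCoveringMap_pts g) (unitFun h) ?_ K M ?_ (b ≫ g) ⟨b, rfl⟩ N hN hfix hzero r
  · intro y
    obtain ⟨c, hc⟩ := exists_deriv_along R Γ(Y.left, ⊤) D h.1 (E y)
    refine ⟨c, ?_⟩
    have hne : Tendsto E (𝓝[≠] y) (𝓝[≠] (E y)) :=
      E.continuous.continuousAt.continuousWithinAt.tendsto_nhdsWithin
        fun z hz => E.injective.ne hz
    refine (hc.comp hne).congr fun z => ?_
    show (E z h.1 - E y h.1) / (_ - _) = _
    rw [← hp, ← hp, hE, hE]
    rfl
  · intro y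
    have h1 := hKM (E y)
    have h2 : E y (algebraMap R Γ(Y.left, ⊤) (algebraMap ℂ[X] R D)) =
        D.eval (Ψ (y ≫ g) : ℂ) := by
      rw [hp]
      exact RingDeriv.ev_poly (RingDeriv.res R Γ(Y.left, ⊤) (E y)) D
    rw [h2, ← hp, hE] at h1
    exact h1

end

end Pool.Agent.MP_f4aa65_ag
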