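import Pool.Agent.MP_f4aa65_ag.GEq
import Pool.Agent.MP_f4aa65_ag.Exist
import Pool.Agent.MP_f4aa65_ag.CoverFG
import Pool.Agent.MP_f4aa65_ag.WindSch

/-!
N1d: points of a scheme joined by a path whose interior lies in a curve that is finite étale over
a punctured line are equivalent.
-/

open Filter Topology Polynomial CategoryTheory AlgebraicGeometry Limits
open scoped unitInterval

noncomputable section

namespace Pool.Agent.MP_f4aa65_ag

/-! ### Topological lemmas -/

section top

variable {Y X W : Type*} [TopologicalSpace Y] [TopologicalSpace X] [TopologicalSpace W]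

/-- The map `t ↦ 1 - t * (1 - s)`. -/
def kap (s : I) : C(I, I) where
  toFun t := unitInterval.symm (t * unitInterval.symm s)
  continuous_toFun := by fun_prop

lemma kap_zero (s : I) : kap s 0 = 1 := by
  simp [kap]

lemma kap_one (s : I) : kap s 1 = s := by
  simp [kap]

lemma kap_ne (s : I) (hs : s ≠ 0) (t : I) : kap s t ≠ 0 := by
  intro h
  have h1 : (kap s t : ℝ) = 1 - t * (1 - s) := by simp [kap]
  rw [h] at h1
  have h2 : (0 : ℝ) < s := lt_of_le_of_ne s.2.1 (fun h => hs (Subtype.ext h.symm))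
  have h3 := t.2.1
  have h4 := t.2.2
  have h5 := s.2.2
  have h6 : (1 : ℝ) = t * (1 - s) := by
    have : ((0 : I) : ℝ) = 0 := rfl
    linarith
  nlinarith

/-- If the logarithmic change vanishes along all paths from the end point inside an open subset,
then it vanishes along a path which lies, except for its starting point, in that open subset. -/
theorem windL_path_zero {f : Y → X} (cov : IsCoveringMap f) (h : C(Y, C0)) (j : C(W, X))
    (hj : IsOpenEmbedding j) {x : X} {y' : W} (δ : Path x (j y'))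
    (hδ : ∀ t : I, t ≠ 0 → δ t ∈ Set.range j) (a : f ⁻¹' {x})
    (H : ∀ (z' : W) (γ : Path.Homotopic.Quotient y' z'),
      windL cov h (γ.map j) (cov.monodromy (Path.Homotopic.Quotient.mk δ) a) = 0) :
    windL cov h (Path.Homotopic.Quotient.mk δ) a = 0 := by
  obtain ⟨a, rfl⟩ := a
  obtain ⟨d, hd, hd0⟩ := cov.exists_path_lifts (γ := δ.toContinuousMap) a (by
    rw [Path.coe_toContinuousMap, Path.source])
  have hd' : ∀ t, f (d t) = δ t := fun t => congrFun hd t
  let dp : Path a (d 1) := ⟨d, hd0, rfl⟩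
  have hd1 : f (d 1) = j y' := by rw [hd', Path.target]
  obtain ⟨hm, hw⟩ := windL_eq cov h (Path.Homotopic.Quotient.mk δ) ⟨a, rfl⟩ ⟨d 1, hd1⟩
    (Path.Homotopic.Quotient.mk dp) (by
      refine congrArg Path.Homotopic.Quotient.mk (?_ : _ = Path.cast _ _ _)
      ext t
      exact hd' t)
  rw [hw]
  rw [hm] at H
  obtain ⟨l, hl⟩ := exists_log_lift' h dp
  rw [dlog_mk h dp l hl]
  -- the key claim
  have key : ∀ s : I, s ≠ 0 → l s = l 1 := by
    intro s hs
    choose g hg using fun t : I => hδ (kap s t) (kap_ne s hs t)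
    have hgc : Continuous g := by
      rw [hj.isInducing.continuous_iff]
      have : (j ∘ g : I → X) = fun t => δ (kap s t) := funext hg
      rw [this]
      fun_prop
    have hg0 : g 0 = y' := by
      apply hj.injective
      rw [hg, kap_zero, Path.target]
    let γ : Path y' (g 1) := ⟨⟨g, hgc⟩, hg0, rfl⟩
    have hs1 : f (d s) = j (g 1) := by rw [hd', hg, kap_one]
    let Γ : Path (d 1) (d s) := ⟨d.comp (kap s), by
      show d (kap s 0) = d 1
      rw [kap_zero], by
      show d (kap s 1) = d s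
      rw [kap_one]⟩
    have h1 := (windL_eq cov h ((Path.Homotopic.Quotient.mk γ).map j) ⟨d 1, hd1⟩ ⟨d s, hs1⟩
      (Path.Homotopic.Quotient.mk Γ) (by
        refine congrArg Path.Homotopic.Quotient.mk (?_ : _ = Path.cast _ _ _)
        ext t
        show f (d (kap s t)) = j (g t)
        rw [hd', hg])).2
    rw [H, dlog_mk h Γ (l.comp (kap s)) (fun t => hl (kap s t))] at h1
    have h2 : (l.comp (kap s)) 1 = l s := by
      show l (kap s 1) = l s
      rw [kap_one]
    have h3 : (l.comp (kap s)) 0 = l 1 := by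
      show l (kap s 0) = l 1
      rw [kap_zero]
    rw [h2, h3] at h1
    exact (sub_eq_zero.1 h1.symm)
  have hcl : IsClosed {s : I | l s = l 1} := isClosed_eq l.continuous continuous_const
  have hd : Dense ({(0 : I)}ᶜ : Set I) := dense_compl_singleton _
  have hall : {s : I | l s = l 1} = Set.univ := by
    apply Set.eq_univ_of_univ_subset
    rw [← hd.closure_eq]
    exact closure_minimal (fun s hs => key s hs) hcl
  have h0 : l 0 = l 1 := by
    have : (0 : I) ∈ {s : I | l s = l 1} := by rw [hall]; trivial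
    exact this
  rw [h0, sub_self]

/-- The image of the fundamental group of a finite cover has finite index. -/
theorem finiteIndex_map_cover {p : Y → X} (cov : IsCoveringMap p) (a : Y)
    (hfin : (p ⁻¹' {p a}).Finite) (N : Subgroup (FundamentalGroup Y a)) (hN : N.FiniteIndex) :
    (N.map (FundamentalGroup.map ⟨p, cov.continuous⟩ a)).FiniteIndex := by
  have hfin' : Finite (p ⁻¹' {p a}) := hfin
  have h1 : (cov.monodromyPerm (p a)).ker ≤
      (FundamentalGroup.map ⟨p, cov.continuous⟩ a).range := by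
    intro n hn
    rw [MonoidHom.mem_ker] at hn
    have h2 : cov.monodromy (x := p a) (y := p a) n ⟨a, rfl⟩ = ⟨a, rfl⟩ :=
      congrArg (fun q : Equiv.Perm _ => q ⟨a, rfl⟩) hn
    obtain ⟨Γ, hΓ⟩ := exists_lift cov (x := p a) (x' := p a) n ⟨a, rfl⟩
    generalize cov.monodromy (x := p a) (y := p a) n ⟨a, rfl⟩ = e' at *
    subst h2
    rw [Path.Homotopic.Quotient.cast_rfl_rfl] at hΓ
    exact ⟨Γ, hΓ⟩
  have h3 : (cov.monodromyPerm (p a)).ker.FiniteIndex := inferInstance
  have h4 : (FundamentalGroup.map ⟨p, cov.continuous⟩ a).range.FiniteIndex :=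
    Subgroup.finiteIndex_of_le h1
  constructor
  rw [Subgroup.index_map]
  refine mul_ne_zero ?_ h4.index_ne_zero
  exact (Subgroup.finiteIndex_of_le (le_sup_left : N ≤ _)).index_ne_zero

end top

/-! ### The homomorphism `g ↦ δ (j g) δ⁻¹` -/

section rho

variable {X W : Type} [TopologicalSpace X] [TopologicalSpace W]

/-- `g ↦ δ (j g) δ⁻¹` -/
def rhoHom (j : C(W, X)) {x : X} {y' : W} (δ : Path.Homotopic.Quotient x (j y')) :
    FundamentalGroup W y' →* FundamentalGroup X x where
  toFun g := δ.trans ((Path.Homotopic.Quotient.map g j).trans δ.symm)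
  map_one' := by
    show δ.trans ((Path.Homotopic.Quotient.map (Path.Homotopic.Quotient.refl y') j).trans
      δ.symm) = Path.Homotopic.Quotient.refl x
    have h1 : Path.Homotopic.Quotient.map (Path.Homotopic.Quotient.refl y') j =
      Path.Homotopic.Quotient.refl (j y') := rfl
    rw [h1, Path.Homotopic.Quotient.refl_trans, Path.Homotopic.Quotient.trans_symm]
  map_mul' g g' := by
    show δ.trans ((Path.Homotopic.Quotient.map (Path.Homotopic.Quotient.trans g' g) j).trans
      δ.symm) = (δ.trans ((Path.Homotopic.Quotient.map g' j).trans δ.symm)).trans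
        (δ.trans ((Path.Homotopic.Quotient.map g j).trans δ.symm))
    rw [quotient_map_trans]
    simp only [Path.Homotopic.Quotient.trans_assoc]
    rw [← Path.Homotopic.Quotient.trans_assoc δ.symm δ, Path.Homotopic.Quotient.symm_trans,
      Path.Homotopic.Quotient.refl_trans]

lemma rhoHom_trans (j : C(W, X)) {x : X} {y' : W} (δ : Path.Homotopic.Quotient x (j y'))
    (g : FundamentalGroup W y') :
    Path.Homotopic.Quotient.trans (show Path.Homotopic.Quotient x x from rhoHom j δ g) δ =
      δ.trans (Path.Homotopic.Quotient.map g j) := by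
  show (δ.trans ((Path.Homotopic.Quotient.map g j).trans δ.symm)).trans δ = _
  rw [Path.Homotopic.Quotient.trans_assoc, Path.Homotopic.Quotient.trans_assoc,
    Path.Homotopic.Quotient.symm_trans, Path.Homotopic.Quotient.trans_refl]

end rho

section descend

variable {X W Y Y' : Type} [TopologicalSpace X] [TopologicalSpace W] [TopologicalSpace Y]
  [TopologicalSpace Y']

/-- The topological part of the argument. -/
theorem windL_rho {f : Y → X} (cov : IsCoveringMap f) (h : C(Y, C0)) (j : C(W, X))
    (hj : IsOpenEmbedding j) {f' : Y' → W} (cov' : IsCoveringMap f') (k : C(Y', Y))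
    (hk : ∀ y, f (k y) = j (f' y)) (hinj : ∀ y₁ y₂, k y₁ = k y₂ → f' y₁ = f' y₂ → y₁ = y₂)
    {x : X} {y' : W} (δ : Path x (j y')) (hδ : ∀ t : I, t ≠ 0 → δ t ∈ Set.range j)
    (a : f ⁻¹' {x}) (b : f' ⁻¹' {y'})
    (hb : (cov.monodromy (Path.Homotopic.Quotient.mk δ) a).1 = k b.1)
    (N : Subgroup (FundamentalGroup W y'))
    (hfix : ∀ n ∈ N, cov.monodromy (x := x) (y := x)
      (rhoHom j (Path.Homotopic.Quotient.mk δ) n) a = a)
    (hzero : ∀ n ∈ N, windL cov h (x := x) (x' := x)
      (rhoHom j (Path.Homotopic.Quotient.mk δ) n) a = 0)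
    (H : (∀ n ∈ N, cov'.monodromy (x := y') (y := y') n b = b) →
      (∀ n ∈ N, windL cov' (h.comp k) (x := y') (x' := y') n b = 0) →
      ∀ (z : W) (r : Path.Homotopic.Quotient y' z), windL cov' (h.comp k) r b = 0)
    (g : FundamentalGroup W y') :
    windL cov h (Path.Homotopic.Quotient.trans (show Path.Homotopic.Quotient x x from
      rhoHom j (Path.Homotopic.Quotient.mk δ) g) (Path.Homotopic.Quotient.mk δ)) a = 0 := by
  have hsq : ∀ {z : W} (r : Path.Homotopic.Quotient y' z),
      (cov.monodromy (r.map j) (cov.monodromy (Path.Homotopic.Quotient.mk δ) a)).1 =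
        k (cov'.monodromy r b).1 ∧
      windL cov h (r.map j) (cov.monodromy (Path.Homotopic.Quotient.mk δ) a) =
        windL cov' (h.comp k) r b := fun r => windL_square cov' cov h j k hk r b _ hb
  have hmon : ∀ n ∈ N, cov.monodromy
      (Path.Homotopic.Quotient.map (x₀ := y') (x₁ := y') n j)
        (cov.monodromy (Path.Homotopic.Quotient.mk δ) a) =
      cov.monodromy (Path.Homotopic.Quotient.mk δ) a := by
    intro n hn
    have h1 : cov.monodromy (Path.Homotopic.Quotient.mk δ).symm
        (cov.monodromy (Path.Homotopic.Quotient.map (x₀ := y') (x₁ := y') n j)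
          (cov.monodromy (Path.Homotopic.Quotient.mk δ) a)) = a := by
      rw [← IsCoveringMap.monodromy_trans_apply, ← IsCoveringMap.monodromy_trans_apply]
      exact hfix n hn
    have h2 : cov.monodromy (Path.Homotopic.Quotient.mk δ).symm
        (cov.monodromy (Path.Homotopic.Quotient.mk δ) a) = a := by
      rw [← IsCoveringMap.monodromy_trans_apply, Path.Homotopic.Quotient.trans_symm,
        IsCoveringMap.monodromy_refl]
      rfl
    exact (cov.monodromy_bijective _).1 (h1.trans h2.symm)
  have key : ∀ (z : W) (r : Path.Homotopic.Quotient y' z),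
      windL cov h (r.map j) (cov.monodromy (Path.Homotopic.Quotient.mk δ) a) = 0 := by
    intro z r
    rw [(hsq r).2]
    refine H ?_ ?_ z r
    · intro n hn
      apply Subtype.ext
      apply hinj
      · have h1 := (hsq (z := y') n).1
        rw [hmon n hn] at h1
        exact h1.symm.trans hb
      · exact (cov'.monodromy (x := y') (y := y') n b).2.trans b.2.symm
    · intro n hn
      have h1 := (hsq (z := y') n).2
      have h2 : windL cov h
          ((Path.Homotopic.Quotient.mk δ).trans ((Path.Homotopic.Quotient.map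
            (x₀ := y') (x₁ := y') n j).trans
            (Path.Homotopic.Quotient.mk δ).symm)) a = 0 := hzero n hn
      rw [windL_trans, windL_trans, hmon n hn, windL_symm, h1] at h2
      linear_combination h2
  rw [rhoHom_trans, windL_trans, key, windL_path_zero cov h j hj δ hδ a key, add_zero]

end descend

/-! ### The main statement -/

section

variable (D : ℂ[X]) (hD : D ≠ 0) (R : Type) [CommRing R] [Algebra ℂ R] [Algebra ℂ[X] R]
  [IsScalarTower ℂ ℂ[X] R] [IsLocalization.Away D R]

include D in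
theorem wind_zero_sch' (hD : D ≠ 0) {Y : SchC} (g : Y ⟶ specC R) [IsFinite g.left]
    [Etale g.left] (h : Γ(Y.left, ⊤)ˣ) (b : Pts Y) (w : Pts (specC R)) (hw : b ≫ g = w)
    (N : Subgroup (FundamentalGroup (Pts (specC R)) w)) (hN : N.FiniteIndex)
    (hfix : ∀ n ∈ N, (isCoveringMap_pts g).monodromy (x := w) (y := w) n ⟨b, hw⟩ = ⟨b, hw⟩)
    (hzero : ∀ n ∈ N, windL (isCoveringMap_pts g) (unitFun h) (x := w) (x' := w) n
      ⟨b, hw⟩ = 0) {z : Pts (specC R)} (r : Path.Homotopic.Quotient w z) :
    windL (isCoveringMap_pts g) (unitFun h) r ⟨b, hw⟩ = 0 := by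
  subst hw
  exact wind_zero_sch D R hD g h b N hN hfix hzero r

include D in
/-- units on finite étale covers of a finite étale cover of a punctured line -/
theorem wind_zero_cover (hD : D ≠ 0) {Y' C' : SchC} (g : Y' ⟶ C') [IsFinite g.left] [Etale g.left]
    (φ : C' ⟶ specC R) [IsFinite φ.left] [Etale φ.left] (h : Γ(Y'.left, ⊤)ˣ) (b : Pts Y')
    (N : Subgroup (FundamentalGroup (Pts C') (b ≫ g))) (hN : N.FiniteIndex)
    (hfix : ∀ n ∈ N, (isCoveringMap_pts g).monodromy (x := b ≫ g) (y := b ≫ g) n ⟨b, rfl⟩ =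
      ⟨b, rfl⟩)
    (hzero : ∀ n ∈ N, windL (isCoveringMap_pts g) (unitFun h) (x := b ≫ g) (x' := b ≫ g) n
      ⟨b, rfl⟩ = 0) {z : Pts C'} (r : Path.Homotopic.Quotient (b ≫ g) z) :
    windL (isCoveringMap_pts g) (unitFun h) r ⟨b, rfl⟩ = 0 := by
  have i1 : IsFinite (g ≫ φ).left := inferInstanceAs (IsFinite (g.left ≫ φ.left))
  have i2 : Etale (g ≫ φ).left := inferInstanceAs (Etale (g.left ≫ φ.left))
  have hassoc : b ≫ g ≫ φ = (b ≫ g) ≫ φ := (Category.assoc _ _ _).symm
  -- comparison of the coverings `Y' → C'` and `Y' → specC R`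
  have hsq : ∀ {z : Pts C'} (r : Path.Homotopic.Quotient (b ≫ g) z),
      ((isCoveringMap_pts (g ≫ φ)).monodromy (r.map (ptsMap φ)) ⟨b, hassoc⟩).1 =
        ((isCoveringMap_pts g).monodromy r ⟨b, rfl⟩).1 ∧
      windL (isCoveringMap_pts (g ≫ φ)) (unitFun h) (r.map (ptsMap φ)) ⟨b, hassoc⟩ =
        windL (isCoveringMap_pts g) (unitFun h) r ⟨b, rfl⟩ := by
    intro z r
    exact windL_square (isCoveringMap_pts g) (isCoveringMap_pts (g ≫ φ)) (unitFun h) (ptsMap φ)
      (ContinuousMap.id _) (fun y => (Category.assoc y g φ).symm) r ⟨b, rfl⟩ ⟨b, hassoc⟩ rfl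
  have hN' := finiteIndex_map_cover (isCoveringMap_pts φ) (b ≫ g) (finite_fiber_pts φ _) N hN
  rw [← (hsq r).2]
  refine wind_zero_sch' D R hD (g ≫ φ) h b ((b ≫ g) ≫ φ) hassoc _ hN' ?_ ?_ _
  · rintro _ ⟨n, hn, rfl⟩
    apply Subtype.ext
    exact (hsq (z := b ≫ g) n).1.trans (congrArg Subtype.val (hfix n hn))
  · rintro _ ⟨n, hn, rfl⟩
    exact (hsq (z := b ≫ g) n).2.trans (hzero n hn)

include D in
theorem geq_of_curve (e : NExp) (hD : D ≠ 0) {C C' : SchC} (j : C' ⟶ C) [IsOpenImmersion j.left]
    (φ : C' ⟶ specC R) [IsFinite φ.left] [Etale φ.left] {x y : Pts C} (δ : Path x y)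
    (hδ : ∀ t : unitInterval, t ≠ 0 → δ t ∈ Set.range (fun z : Pts C' => (z ≫ j : Pts C))) :
    GEq e x y := by
  obtain ⟨y', hy'⟩ := hδ 1 (by norm_num)
  rw [Path.target] at hy'
  subst hy'
  have hfg : Group.FG (FundamentalGroup (Pts C') y') :=
    fg_of_cover (isCoveringMap_pts φ) (finite_fiber_pts φ) y' (fg_specC D R hD (y' ≫ φ))
  refine exists_passing e (tests C) (closed_tests C) (Path.Homotopic.Quotient.mk δ)
    (rhoHom (ptsMap j) (y' := y') (Path.Homotopic.Quotient.mk δ)) ?_
  rintro _ ⟨Y, f, i1, i2, h, rfl⟩ a N hN hfix hzero g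
  -- the point of the fibre product
  obtain ⟨b, hb1, hb2⟩ := fibProd.exists_lift f j
    ((isCoveringMap_pts f).monodromy (Path.Homotopic.Quotient.mk δ) a).1 y'
    ((isCoveringMap_pts f).monodromy (Path.Homotopic.Quotient.mk δ) a).2
  have hh : (unitFun h).comp (ptsMap (fibProd.fst f j)) =
      unitFun (unitPull (fibProd.fst f j) h) := by
    ext y
    exact (gval_unitPull (fibProd.fst f j) h y).symm
  refine windL_rho (isCoveringMap_pts f) (unitFun h) (ptsMap j) (isOpenEmbedding_pts j).1
    (isCoveringMap_pts (fibProd.snd f j)) (ptsMap (fibProd.fst f j)) (fun y => by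
        show (y ≫ fibProd.fst f j) ≫ f = (y ≫ fibProd.snd f j) ≫ j
        rw [Category.assoc, Category.assoc, fibProd.condition])
    (fun y₁ y₂ h₁ h₂ => fibProd.ext f j y₁ y₂ h₁ h₂) δ hδ a ⟨b, hb2⟩ hb1.symm N hfix hzero ?_ g
  intro h1 h2 z r
  rw [hh] at h2 ⊢
  subst hb2
  exact wind_zero_cover D R hD (fibProd.snd f j) φ (unitPull (fibProd.fst f j) h) b N hN h1 h2 r

end

end Pool.Agent.MP_f4aa65_ag
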