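import Mathlib

/-!
Definitions for the problem on pi_1-like functors: smooth quasi-projective complex varieties,
their complex points with the Zariski and the analytic topology, the topological fundamental
groupoid, groupoid-valued functors on varieties with object sets the complex points,
pi_1-like functors and their twists by field automorphisms.
-/

open CategoryTheory AlgebraicGeometry Limits Opposite

attribute [local instance] MvPolynomial.gradedAlgebra

noncomputable section

namespace Pool.Agent.MP_f4aa65_ag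

/-- The category of schemes over `Spec ℂ`. -/
abbrev SchC : Type 1 := Over (Spec (CommRingCat.of ℂ))

/-- The one-point variety `Spec ℂ`. -/
abbrev point : SchC := Over.mk (𝟙 (Spec (CommRingCat.of ℂ)))

/-- The set `X(ℂ)` of complex points of `X`: morphisms `Spec ℂ ⟶ X` over `ℂ`. -/
abbrev Pts (X : SchC) : Type := point ⟶ X

/-- The field of complex numbers, as a ring. -/
def CC : CommRingCat := CommRingCat.of ℂ

/-- The ring `Γ(X, U)` of regular functions on an open subset `U` of `X`. -/
def Fn (X : SchC) (U : X.left.Opens) : CommRingCat := Γ(X.left, U)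

/-- The morphism of schemes `Spec ℂ ⟶ X` underlying a complex point. -/
def Pts.mor {X : SchC} (x : Pts X) : Spec CC ⟶ X.left := x.left

/-- The point of the scheme `X` underlying a complex point. -/
def Pts.loc {X : SchC} (x : Pts X) : X.left := x.left (IsLocalRing.closedPoint ℂ)

theorem Pts.le_preimage {X : SchC} (x : Pts X) {U : X.left.Opens} (h : x.loc ∈ U) :
    ⊤ ≤ x.left ⁻¹ᵁ U := by
  intro y _
  have : y = IsLocalRing.closedPoint ℂ :=
    Subsingleton.elim (α := PrimeSpectrum ℂ) _ _
  subst this
  exact h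

/-- The comorphism of a complex point `x` of `U`: the morphism of rings from the regular
functions on `U` to the global functions on `Spec ℂ`, which are `ℂ`. -/
def Pts.comor {X : SchC} (x : Pts X) {U : X.left.Opens} (h : x.loc ∈ U) : Fn X U ⟶ CC :=
  x.mor.appLE U ⊤ (x.le_preimage h) ≫ (Scheme.ΓSpecIso CC).hom

/-- The value `f(x) ∈ ℂ` of a regular function `f` on an open set `U` at a complex point
`x` of `U`. -/
def Pts.val {X : SchC} (x : Pts X) {U : X.left.Opens} (h : x.loc ∈ U) (f : Γ(X.left, U)) : ℂ :=
  (x.comor h).hom f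

theorem Pts.val_def {X : SchC} (x : Pts X) {U : X.left.Opens} (h : x.loc ∈ U)
    (f : Γ(X.left, U)) : x.val h f = (Scheme.ΓSpecIso (CommRingCat.of ℂ)).hom.hom
      ((x.left.appLE U ⊤ (x.le_preimage h)).hom f) := rfl

/-- The Zariski topology on `X(ℂ)`. -/
@[reducible] def zariskiTop (X : SchC) : TopologicalSpace (Pts X) :=
  TopologicalSpace.induced (fun x => x.loc) inferInstance

/-- The complex analytic topology on `X(ℂ)`: the coarsest topology for which, for every Zariski
open set `U` and every regular function `f` on `U`, the set `U(ℂ)` is open and `f : U(ℂ) → ℂ` is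
continuous. -/
@[reducible] def anTop (X : SchC) : TopologicalSpace (Pts X) :=
  TopologicalSpace.generateFrom {W | ∃ (U : X.left.Opens) (f : Γ(X.left, U)) (O : Set ℂ),
    IsOpen O ∧ W = {x | ∃ h : x.loc ∈ U, x.val h f ∈ O}}

/-- Complex points carry the analytic topology. -/
instance (X : SchC) : TopologicalSpace (Pts X) := anTop X

theorem Pts.loc_comp {X Y : SchC} (x : Pts X) (f : X ⟶ Y) :
    Pts.loc (x ≫ f) = f.left x.loc := rfl

theorem Pts.val_comp {X Y : SchC} (x : Pts X) (f : X ⟶ Y) {U : Y.left.Opens}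
    (h : Pts.loc (x ≫ f) ∈ U) (h' : x.loc ∈ f.left ⁻¹ᵁ U) (s : Γ(Y.left, U)) :
    Pts.val (x ≫ f) h s = x.val h' ((f.left.app U).hom s) := by
  rw [Pts.val_def, Pts.val_def]
  rw [Scheme.Hom.app_eq_appLE]
  congr 1
  rw [← CommRingCat.comp_apply, Scheme.Hom.appLE_comp_appLE]
  rfl

/-- A morphism of schemes over `ℂ` induces a continuous map on complex points. -/
theorem Pts.continuous_comp {X Y : SchC} (f : X ⟶ Y) : Continuous (fun x : Pts X => x ≫ f) := by
  refine continuous_generateFrom_iff.mpr ?_
  rintro _ ⟨U, s, O, hO, rfl⟩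
  apply TopologicalSpace.isOpen_generateFrom_of_mem
  refine ⟨f.left ⁻¹ᵁ U, (f.left.app U).hom s, O, hO, ?_⟩
  ext x
  constructor
  · rintro ⟨h, h'⟩
    exact ⟨h, by rwa [← Pts.val_comp x f h h]⟩
  · rintro ⟨h, h'⟩
    exact ⟨h, by rwa [Pts.val_comp x f h h]⟩

/-- The functor of complex points with the analytic topology. -/
def anFunctor : SchC ⥤ TopCat where
  obj X := TopCat.of (Pts X)
  map f := TopCat.ofHom ⟨fun x => x ≫ f, Pts.continuous_comp f⟩
  map_id _ := TopCat.hom_ext (ContinuousMap.ext fun x => Category.comp_id x)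
  map_comp f g := TopCat.hom_ext (ContinuousMap.ext fun x => (Category.assoc x f g).symm)

/-- The functor of complex points. -/
def pts : SchC ⥤ Type := coyoneda.obj (op point)

/-- Projective space of dimension `n` over `ℂ`, as the product of `Spec ℂ` and
`Proj ℤ[x_0, ..., x_n]`. -/
def projectiveSpace (n : ℕ) : SchC :=
  Over.mk (pullback.fst (terminal.from (Spec (CommRingCat.of ℂ)))
    (terminal.from (Proj (MvPolynomial.homogeneousSubmodule (Fin (n + 1)) ℤ))))

/-- `X` is quasi-projective: it has an immersion into some projective space. -/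
def IsQuasiProjective (X : SchC) : Prop :=
  ∃ (n : ℕ) (i : X ⟶ projectiveSpace n), IsImmersion i.left

/-- `X` is a smooth quasi-projective variety over `ℂ`. -/
def IsVariety (X : SchC) : Prop := Smooth X.hom ∧ IsQuasiProjective X

/-- The category of smooth quasi-projective varieties over `ℂ` and their morphisms over `ℂ`. -/
abbrev Var : Type 1 := ObjectProperty.FullSubcategory IsVariety

/-- The inclusion of varieties into schemes over `ℂ`. -/
abbrev incl : Var ⥤ SchC := ObjectProperty.ι _

/-- The set of objects of a groupoid, as a functor. -/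
def Ob : Grpd.{0, 0} ⥤ Type := Grpd.forgetToCat ⋙ Cat.objects

/-- A functor from varieties to groupoids together with a natural identification of the set of
objects of `π(X)` with `X(ℂ)`; condition (0) of the problem. -/
structure PtsFunctor where
  /-- the functor -/
  fn : Var ⥤ Grpd.{0, 0}
  /-- the identification of `Ob π(X)` with `X(ℂ)` -/
  ob : fn ⋙ Ob ≅ incl ⋙ pts

/-- The complex point corresponding to an object of `π(X)`. -/
def PtsFunctor.toPt (π : PtsFunctor) {X : Var} (a : π.fn.obj X) : Pts (incl.obj X) :=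
  π.ob.hom.app X a

/-- `π` preserves binary products: products of varieties are sent to products of groupoids. -/
def PreservesProd (π : PtsFunctor) : Prop :=
  ∀ {X Y P : Var} (p : P ⟶ X) (q : P ⟶ Y),
    Nonempty (IsLimit (BinaryFan.mk (incl.map p) (incl.map q))) →
    Nonempty (IsLimit (BinaryFan.mk (π.fn.map p) (π.fn.map q)))

/-- `π` preserves the empty product. -/
def PreservesTerminal (π : PtsFunctor) : Prop :=
  ∀ P : Var, Nonempty (IsTerminal (incl.obj P)) → Nonempty (IsTerminal (π.fn.obj P))

/-- If `X(ℂ)` is connected in the Zariski topology then the groupoid `π(X)` is connected. -/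
def PreservesConnected (π : PtsFunctor) : Prop :=
  ∀ X : Var, @ConnectedSpace _ (zariskiTop (incl.obj X)) →
    ∀ a b : π.fn.obj X, Nonempty (a ⟶ b)

/-- Unique path lifting of a functor `F` between groupoids: for every object `a` of the source,
`F` is a bijection from the paths with source `a` to the paths with source `F(a)`. -/
def UniqueLifting {A B : Grpd.{0, 0}} (F : A ⟶ B) : Prop :=
  ∀ a : A, Function.Bijective (F.toPrefunctor.star a)

/-- `π` has unique path lifting for finite étale morphisms. -/
def LiftsFiniteEtale (π : PtsFunctor) : Prop :=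
  ∀ {Y X : Var} (f : Y ⟶ X), IsFinite (incl.map f).left → Etale (incl.map f).left →
    UniqueLifting (π.fn.map f)

/-- `π` is a `π_1`-like functor. Condition (0) of the problem is part of `PtsFunctor`. -/
structure IsPiOneLike (π : PtsFunctor) : Prop where
  /-- (1) `π` preserves binary products -/
  prod : PreservesProd π
  /-- (1) `π` preserves the empty product -/
  terminal : PreservesTerminal π
  /-- (2) if `X(ℂ)` is connected in the Zariski topology then `π(X)` is connected -/
  connected : PreservesConnected π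
  /-- (3) unique path lifting for finite étale morphisms -/
  lifting : LiftsFiniteEtale π

/-- The functor sending a variety `X` to the fundamental groupoid of `X(ℂ)` with the analytic
topology. -/
def topFn : Var ⥤ Grpd.{0, 0} :=
  incl ⋙ anFunctor ⋙ FundamentalGroupoid.fundamentalGroupoidFunctor

/-- The objects of the fundamental groupoid of `X(ℂ)` are the points of `X(ℂ)`. -/
def topIso (X : Var) : (topFn ⋙ Ob).obj X ≅ (incl ⋙ pts).obj X :=
  (FundamentalGroupoid.equiv (Pts (incl.obj X))).toIso

theorem topIso_naturality {X Y : Var} (f : X ⟶ Y) :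
    (topFn ⋙ Ob).map f ≫ (topIso Y).hom = (topIso X).hom ≫ (incl ⋙ pts).map f := rfl

/-- The topological fundamental groupoid functor. -/
def topPiOne : PtsFunctor where
  fn := topFn
  ob := NatIso.ofComponents topIso topIso_naturality

/-- Conjugating the coefficients by `σ`: the scheme `X` with the structure morphism twisted
by `σ⁻¹`. -/
def conj (σ : ℂ ≃+* ℂ) : SchC ⥤ SchC :=
  Over.map (Spec.map (CommRingCat.ofHom (σ.symm : ℂ →+* ℂ)))

theorem SpecMap_symm (σ : ℂ ≃+* ℂ) : Spec.map (CommRingCat.ofHom (σ : ℂ →+* ℂ)) ≫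
    Spec.map (CommRingCat.ofHom (σ.symm : ℂ →+* ℂ)) = 𝟙 (Spec (CommRingCat.of ℂ)) := by
  rw [← Spec.map_comp, ← CommRingCat.ofHom_comp, RingEquiv.comp_symm, CommRingCat.ofHom_id,
    Spec.map_id]

theorem comp_conj (σ : ℂ ≃+* ℂ) {Z : Scheme} (u : Z ⟶ Spec (CommRingCat.of ℂ))
    (v : Z ⟶ Spec (CommRingCat.of ℂ))
    (h : u ≫ Spec.map (CommRingCat.ofHom (σ.symm : ℂ →+* ℂ)) = v) :
    u = v ≫ Spec.map (CommRingCat.ofHom (σ : ℂ →+* ℂ)) := by
  have h2 := SpecMap_symm σ.symm
  rw [RingEquiv.symm_symm] at h2
  rw [← h, Category.assoc, h2, Category.comp_id]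

/-- The bijection `σ_X : X(ℂ) → X^σ(ℂ)`: the complex point `x : Spec ℂ ⟶ X` is sent to its
composition with `Spec σ`. -/
def conjEquiv (σ : ℂ ≃+* ℂ) (X : SchC) : Pts X ≃ Pts ((conj σ).obj X) where
  toFun x := Over.homMk (Spec.map (CommRingCat.ofHom (σ : ℂ →+* ℂ)) ≫ x.left) (by
    have h : x.left ≫ X.hom = 𝟙 _ := Over.w x
    show (_ ≫ x.left) ≫ X.hom ≫ _ = _
    rw [Category.assoc, reassoc_of% h]
    exact SpecMap_symm σ)
  invFun y := Over.homMk (V := X) (Spec.map (CommRingCat.ofHom (σ.symm : ℂ →+* ℂ)) ≫
      (show Spec (CommRingCat.of ℂ) ⟶ X.left from y.left)) (by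
    have h : (show Spec (CommRingCat.of ℂ) ⟶ X.left from y.left) ≫ X.hom ≫ _ = _ := Over.w y
    rw [← Category.assoc] at h
    have h' := comp_conj σ _ _ h
    rw [Category.assoc, h']
    erw [Category.id_comp]
    exact SpecMap_symm σ.symm)
  left_inv x := by
    apply Over.OverMorphism.ext
    show _ ≫ _ ≫ x.left = _
    rw [← Category.assoc]
    erw [SpecMap_symm σ.symm]
    exact Category.id_comp _
  right_inv y := by
    apply Over.OverMorphism.ext
    show _ ≫ _ ≫ y.left = _
    rw [← Category.assoc, SpecMap_symm]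
    exact Category.id_comp _

/-- The natural bijections `σ_X : X(ℂ) → X^σ(ℂ)`. -/
def conjPts (σ : ℂ ≃+* ℂ) : pts ≅ conj σ ⋙ pts :=
  NatIso.ofComponents (fun X => (conjEquiv σ X).toIso) (by
    intro X Y f
    ext x
    apply Over.OverMorphism.ext
    exact (Category.assoc _ _ _).symm)

theorem conj_mem (σ : ℂ ≃+* ℂ) (X : Var) : IsVariety ((conj σ).obj (incl.obj X)) := by
  obtain ⟨X, h1, n, i, hi⟩ := X
  have : IsIso (CommRingCat.ofHom (σ.symm : ℂ →+* ℂ)) :=
    (RingEquiv.toCommRingCatIso σ.symm).isIso_hom
  refine ⟨?_, n, ?_⟩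
  · show Smooth (X.hom ≫ _)
    infer_instance
  · obtain ⟨j, hj, hw⟩ : ∃ j : X.left ⟶ pullback (terminal.from (Spec (CommRingCat.of ℂ)))
        (terminal.from (Proj (MvPolynomial.homogeneousSubmodule (Fin (n + 1)) ℤ))),
        IsImmersion j ∧ j ≫ pullback.fst _ _ = X.hom := ⟨i.left, hi, Over.w i⟩
    let m := pullback.map (terminal.from (Spec (CommRingCat.of ℂ)))
      (terminal.from (Proj (MvPolynomial.homogeneousSubmodule (Fin (n + 1)) ℤ)))
      (terminal.from (Spec (CommRingCat.of ℂ)))
      (terminal.from (Proj (MvPolynomial.homogeneousSubmodule (Fin (n + 1)) ℤ)))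
      (Spec.map (CommRingCat.ofHom (σ.symm : ℂ →+* ℂ))) (𝟙 _) (𝟙 _)
      (Subsingleton.elim _ _) (Subsingleton.elim _ _)
    have hm : IsIso m := inferInstance
    have key : (j ≫ m) ≫ pullback.fst _ _ =
        X.hom ≫ Spec.map (CommRingCat.ofHom (σ.symm : ℂ →+* ℂ)) := by
      rw [Category.assoc, pullback.lift_fst, reassoc_of% hw]
    have himm : IsImmersion (j ≫ m) := inferInstance
    exact ⟨Over.homMk (j ≫ m) key, himm⟩

/-- Conjugation on varieties, `X ↦ X^σ` and `f ↦ f^σ`. -/
def conjVar (σ : ℂ ≃+* ℂ) : Var ⥤ Var :=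
  ObjectProperty.lift _ (incl ⋙ conj σ) (conj_mem σ)

/-- The twisted functor `π^σ`: `π^σ(X) = π(X^σ)`, with its objects identified with `X(ℂ)` through
`σ_X`, and `π^σ(f) = π(f^σ)`. -/
def PtsFunctor.twist (σ : ℂ ≃+* ℂ) (π : PtsFunctor) : PtsFunctor where
  fn := conjVar σ ⋙ π.fn
  ob := Functor.isoWhiskerLeft (conjVar σ) π.ob ≪≫ (Functor.isoWhiskerLeft incl (conjPts σ)).symm

/-- A natural transformation between two functors from varieties to groupoids that is the identity on
complex points. -/
def HasTrans (π π' : PtsFunctor) : Prop :=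
  ∃ ε : π.fn ⟶ π'.fn, ∀ (X : Var) (a : π.fn.obj X), π'.toPt ((ε.app X).obj a) = π.toPt a

end Pool.Agent.MP_f4aa65_ag
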