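import Pool.Agent.MP_f4aa65_ag.SchTests

/-!
Extracting an `m`-th root of a unit on a scheme over `ℂ` after a finite etale cover.
-/

open CategoryTheory AlgebraicGeometry Limits Polynomial

noncomputable section

namespace Pool.Agent.MP_f4aa65_ag

/-! ### rings -/

section Ring

variable {A : Type} [CommRing A] (h : Aˣ) (m : ℕ)

/-- the standard etale pair `(X ^ m - h, 1)` -/
def rootPair (hm : 0 < m) (hu : IsUnit (m : A)) : StandardEtalePair A where
  f := X ^ m - C (h : A)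
  monic_f := monic_X_pow_sub_C _ hm.ne'
  g := 1
  cond := by
    obtain ⟨u, hu⟩ := hu
    refine ⟨C ((↑u⁻¹ : A) * (↑h⁻¹ : A)) * X, - C ((↑h⁻¹ : A)), 1, ?_⟩
    obtain ⟨n, rfl⟩ : ∃ n, m = n + 1 := ⟨m - 1, by omega⟩
    have e1 : ((n + 1 : ℕ) : A) * ((↑u⁻¹ : A) * (↑h⁻¹ : A)) = ↑h⁻¹ := by
      rw [← hu, ← mul_assoc, Units.mul_inv, one_mul]
    have e2 : (h : A) * (↑h⁻¹ : A) = 1 := Units.mul_inv h
    rw [derivative_sub, derivative_C, sub_zero, derivative_X_pow, Nat.add_sub_cancel, one_pow]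
    have e1' := congrArg (C : A → A[X]) e1
    have e2' := congrArg (C : A → A[X]) e2
    rw [C_mul, C_mul] at e1'
    rw [C_mul, C_1] at e2'
    rw [C_mul]
    linear_combination X ^ (n + 1) * e1' + e2'

variable (hm : 0 < m) (hu : IsUnit (m : A))

theorem root_pow : (rootPair h m hm hu).X ^ m = algebraMap A (rootPair h m hm hu).Ring h := by
  have := (rootPair h m hm hu).hasMap_X.1
  have e : aeval (rootPair h m hm hu).X (X ^ m - C (h : A)) = 0 := this
  rw [map_sub, map_pow, aeval_X, aeval_C] at e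
  exact sub_eq_zero.mp e

theorem finite_rootPair : Module.Finite A (rootPair h m hm hu).Ring := by
  have : Module.Finite A (AdjoinRoot (rootPair h m hm hu).f) :=
    (rootPair h m hm hu).monic_f.finite_adjoinRoot
  let φ : AdjoinRoot (rootPair h m hm hu).f →ₐ[A] (rootPair h m hm hu).Ring :=
    AdjoinRoot.liftAlgHom _ (Algebra.ofId A _) (rootPair h m hm hu).X
      (rootPair h m hm hu).hasMap_X.1
  have hroot : (rootPair h m hm hu).HasMap (AdjoinRoot.root (rootPair h m hm hu).f) := by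
    refine ⟨?_, ?_⟩
    · rw [AdjoinRoot.aeval_eq, AdjoinRoot.mk_self]
    · have : (rootPair h m hm hu).g = 1 := rfl
      rw [this, map_one]
      exact isUnit_one
  have hcomp : φ.comp ((rootPair h m hm hu).lift _ hroot) = AlgHom.id _ _ := by
    apply (rootPair h m hm hu).hom_ext
    rw [AlgHom.comp_apply, StandardEtalePair.lift_X]
    exact AdjoinRoot.liftAlgHom_root _ _ _ _
  refine Module.Finite.of_surjective φ.toLinearMap fun x => ?_
  exact ⟨(rootPair h m hm hu).lift _ hroot x, congrArg (fun ψ => ψ x) hcomp⟩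

theorem isUnit_root : IsUnit (rootPair h m hm hu).X := by
  refine isUnit_of_dvd_unit (dvd_pow_self _ hm.ne') ?_
  · rw [root_pow]
    exact h.isUnit.map _

end Ring

/-! ### complex points of maps to affine schemes -/

/-- evaluation at a complex point as a morphism of rings -/
theorem Pts.gval_eq {Y : SchC} (y : Pts Y) :
    CommRingCat.ofHom y.gval = y.left.appTop ≫ (Scheme.ΓSpecIso (CommRingCat.of ℂ)).hom := by
  ext s
  rfl

theorem Pts.left_toSpecΓ {Y : SchC} (y : Pts Y) :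
    y.left ≫ Y.left.toSpecΓ = Spec.map (CommRingCat.ofHom y.gval) := by
  rw [Scheme.toSpecΓ_naturality, Pts.gval_eq, Spec.map_comp, SpecMap_ΓSpecIso_hom]
  rfl


/-- The map `Pts Y' → Pts Y` of a pullback of an affine morphism -/
theorem exists_root_cover {Y : SchC} (h : Γ(Y.left, ⊤)ˣ) (m : ℕ) (hm : 0 < m) :
    ∃ (Y' : SchC) (k : Y' ⟶ Y) (_ : IsFinite k.left) (_ : Etale k.left)
      (h' : Γ(Y'.left, ⊤)ˣ), (∀ y : Pts Y', y.gval h'.1 ^ m = Pts.gval (y ≫ k) h.1) ∧
      (∀ y y' : Pts Y', y ≫ k = y' ≫ k → y.gval h'.1 = y'.gval h'.1 → y = y') ∧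
      ∀ a : Pts Y, ∃ a' : Pts Y', a' ≫ k = a := by
  have hu : IsUnit ((m : ℕ) : Γ(Y.left, ⊤)) := by
    have h1 : IsUnit ((m : ℕ) : ℂ) := (Nat.cast_ne_zero.mpr hm.ne').isUnit
    have h2 := h1.map ((Y.hom.appTop).hom.comp
      (Scheme.ΓSpecIso (CommRingCat.of ℂ)).inv.hom)
    rwa [map_natCast] at h2
  set P := rootPair h m hm hu with hP
  let q : Spec (CommRingCat.of P.Ring) ⟶ Spec Γ(Y.left, ⊤) :=
    Spec.map (CommRingCat.ofHom (algebraMap Γ(Y.left, ⊤) P.Ring))
  have hqf : IsFinite q := by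
    rw [IsFinite.SpecMap_iff]
    have := finite_rootPair h m hm hu
    rw [CommRingCat.hom_ofHom, RingHom.finite_algebraMap]
    exact this
  have hqe : Etale q := by
    rw [HasRingHomProperty.Spec_iff (P := @Etale), CommRingCat.hom_ofHom,
      RingHom.etale_algebraMap]
    infer_instance
  let Y' : SchC := Over.mk (pullback.fst Y.left.toSpecΓ q ≫ Y.hom)
  let k : Y' ⟶ Y := Over.homMk (pullback.fst Y.left.toSpecΓ q) rfl
  let s : Y'.left ⟶ Spec (CommRingCat.of P.Ring) := pullback.snd Y.left.toSpecΓ q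
  have hcond : k.left ≫ Y.left.toSpecΓ = s ≫ q := pullback.condition
  -- the root
  let φ : P.Ring →+* Γ(Y'.left, ⊤) :=
    s.appTop.hom.comp (Scheme.ΓSpecIso (CommRingCat.of P.Ring)).inv.hom
  let h' : Γ(Y'.left, ⊤)ˣ := Units.map (φ : P.Ring →* Γ(Y'.left, ⊤)) (isUnit_root h m hm hu).unit
  have hh' : h'.1 = φ P.X := rfl
  -- evaluation at complex points
  have key : ∀ (y : Pts Y'), ∃ ψ : CommRingCat.of P.Ring ⟶ CommRingCat.of ℂ,
      y.left ≫ s = Spec.map ψ ∧ ψ.hom P.X = y.gval h'.1 ∧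
      ψ.hom.comp (algebraMap Γ(Y.left, ⊤) P.Ring) = Pts.gval (y ≫ k) := by
    intro y
    obtain ⟨ψ, hψ⟩ := Spec.map_surjective (y.left ≫ s)
    refine ⟨ψ, hψ.symm, ?_, ?_⟩
    · have e : (Scheme.ΓSpecIso (CommRingCat.of P.Ring)).inv ≫ s.appTop ≫
          CommRingCat.ofHom y.gval = ψ := by
        rw [Pts.gval_eq]
        have e1 : s.appTop ≫ y.left.appTop = (Spec.map ψ).appTop := by
          rw [hψ]
          exact (Scheme.Hom.comp_appTop _ _).symm
        rw [reassoc_of% e1, ← Category.assoc, ← Scheme.ΓSpecIso_inv_naturality, Category.assoc,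
          Iso.inv_hom_id, Category.comp_id]
      rw [hh', ← e]
      rfl
    · have e : CommRingCat.ofHom (algebraMap Γ(Y.left, ⊤) P.Ring) ≫ ψ =
          CommRingCat.ofHom (Pts.gval (y ≫ k)) := by
        apply Spec.map_injective
        rw [Spec.map_comp, hψ, ← Pts.left_toSpecΓ]
        show (y.left ≫ s) ≫ q = (y.left ≫ k.left) ≫ _
        rw [Category.assoc, Category.assoc, hcond]
      exact congrArg (fun z => z.hom) e
  refine ⟨Y', k, ?_, ?_, h', ?_, ?_, ?_⟩
  · show IsFinite (pullback.fst Y.left.toSpecΓ q)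
    infer_instance
  · show Etale (pullback.fst Y.left.toSpecΓ q)
    infer_instance
  · intro y
    obtain ⟨ψ, h1, h2, h3⟩ := key y
    rw [← h2, ← h3, ← map_pow, root_pow]
    rfl
  · intro y y' h1 h2
    obtain ⟨ψ, a1, a2, a3⟩ := key y
    obtain ⟨ψ', b1, b2, b3⟩ := key y'
    have b4 : ψ'.hom.comp (algebraMap Γ(Y.left, ⊤) P.Ring) = Pts.gval (y ≫ k) := by
      rw [h1]
      exact b3
    have hψ : ψ = ψ' := by
      let _ : Algebra Γ(Y.left, ⊤) ℂ := (Pts.gval (y ≫ k)).toAlgebra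
      let f₁ : P.Ring →ₐ[Γ(Y.left, ⊤)] ℂ :=
        { ψ.hom with commutes' := fun r => congrArg (fun z => z r) a3 }
      let f₂ : P.Ring →ₐ[Γ(Y.left, ⊤)] ℂ :=
        { ψ'.hom with commutes' := fun r => congrArg (fun z => z r) b4 }
      have hf : f₁ = f₂ := by
        apply P.hom_ext
        show ψ.hom P.X = ψ'.hom P.X
        rw [a2, b2, h2]
      ext x
      exact congrArg (fun z => z x) hf
    apply Over.OverMorphism.ext
    apply pullback.hom_ext
    · exact congrArg (fun z => z.left) h1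
    · show y.left ≫ s = y'.left ≫ s
      rw [a1, b1, hψ]
  · intro a
    let _ : Algebra Γ(Y.left, ⊤) ℂ := a.gval.toAlgebra
    obtain ⟨w, hw⟩ := IsAlgClosed.exists_pow_nat_eq (a.gval h.1) hm
    let ψ : P.Ring →ₐ[Γ(Y.left, ⊤)] ℂ := P.lift w (by
      constructor
      · show aeval w (X ^ m - C (h : Γ(Y.left, ⊤))) = 0
        rw [map_sub, map_pow, aeval_X, aeval_C, hw]
        exact sub_self _
      · show IsUnit (aeval w (1 : Γ(Y.left, ⊤)[X]))
        rw [map_one]
        exact isUnit_one)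
    have hψ : a.left ≫ Y.left.toSpecΓ = Spec.map (CommRingCat.ofHom (ψ : P.Ring →+* ℂ)) ≫ q := by
      rw [Pts.left_toSpecΓ, ← Spec.map_comp, ← CommRingCat.ofHom_comp]
      congr 2
      exact ψ.comp_algebraMap.symm
    refine ⟨Over.homMk (pullback.lift a.left _ hψ) ?_, ?_⟩
    · show pullback.lift _ _ _ ≫ pullback.fst _ _ ≫ Y.hom = _
      rw [pullback.lift_fst_assoc]
      exact Over.w a
    · apply Over.OverMorphism.ext
      exact pullback.lift_fst _ _ _

theorem tests_root (X : SchC) : ∀ τ ∈ tests X, ∀ m : ℕ, 0 < m → ∀ a : τ.Y,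
    ∃ τ' ∈ tests X, ∃ k : C(τ'.Y, τ.Y),
    (∀ y, τ.f (k y) = τ'.f y) ∧ (∀ y, (τ'.h y : ℂ) ^ m = τ.h (k y)) ∧
      (∀ y y', k y = k y' → τ'.h y = τ'.h y' → y = y') ∧ ∃ a', k a' = a := by
  rintro _ ⟨Y, f, hf1, hf2, h, rfl⟩ m hm a
  obtain ⟨Y', k, hk1, hk2, h', e1, e2, e3⟩ := exists_root_cover h m hm
  have i1 : IsFinite (k ≫ f).left := inferInstanceAs (IsFinite (k.left ≫ f.left))
  have i2 : Etale (k ≫ f).left := inferInstanceAs (Etale (k.left ≫ f.left))
  refine ⟨_, ⟨Y', k ≫ f, i1, i2, h', rfl⟩, ⟨fun y => y ≫ k, Pts.continuous_comp k⟩, ?_, ?_, ?_, ?_⟩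
  · intro y
    exact Category.assoc _ _ _
  · exact e1
  · intro y y' h1 h2
    exact e2 y y' h1 (congrArg Subtype.val h2)
  · exact e3 a

end Pool.Agent.MP_f4aa65_ag
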