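import Pool.Agent.MP_f4aa65_ag.GermCat
import Pool.Agent.MP_f4aa65_ag.SchRoot
import Pool.Agent.MP_f4aa65_ag.Closed

/-!
The equivalence relation on complex points: being joined by a sequence of path classes that passes
all tests.
-/

open Filter Topology CategoryTheory AlgebraicGeometry Limits

noncomputable section

namespace Pool.Agent.MP_f4aa65_ag

theorem closed_tests (X : SchC) : Closed (tests X) :=
  ⟨tests_one X, tests_inv X, tests_mul X, tests_root X⟩

/-- `x` and `y` are joined by a sequence of path classes that passes all tests -/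
def GEq (e : NExp) {X : SchC} (x y : Pts X) : Prop :=
  ∃ p : ℕ → Path.Homotopic.Quotient x y, ∀ τ ∈ tests X, Pass e τ p

variable {e : NExp} {X X' : SchC}

theorem GEq.refl (x : Pts X) : GEq e x x :=
  ⟨fun _ => Path.Homotopic.Quotient.refl x, fun τ _ => pass_refl e τ x⟩

theorem GEq.symm {x y : Pts X} (h : GEq e x y) : GEq e y x := by
  obtain ⟨p, hp⟩ := h
  exact ⟨_, fun τ hτ => pass_symm (hp τ hτ)⟩

theorem GEq.trans {x y z : Pts X} (h : GEq e x y) (h' : GEq e y z) : GEq e x z := by
  obtain ⟨p, hp⟩ := h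
  obtain ⟨q, hq⟩ := h'
  exact ⟨_, fun τ hτ => pass_trans (hp τ hτ) (hq τ hτ)⟩

theorem GEq.map (f : X ⟶ X') {x y : Pts X} (h : GEq e x y) : GEq e (x ≫ f) (y ≫ f) := by
  obtain ⟨p, hp⟩ := h
  exact ⟨_, (compat_tests f).pass hp⟩

end Pool.Agent.MP_f4aa65_ag
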