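import Pool.Agent.MP_f4aa65_ag.SchAff

/-!
M5: the complex points of a product are the product of the complex points, also topologically.
-/

open Filter Topology CategoryTheory AlgebraicGeometry Limits
open scoped TensorProduct

noncomputable section

namespace Pool.Agent.MP_f4aa65_ag

attribute [local instance] ptTop

namespace SchProd

/-! ### The ring level -/

section ring

variable (A B : Type) [CommRing A] [Algebra ℂ A] [CommRing B] [Algebra ℂ B]

theorem continuous_eval (a : A) : Continuous (fun φ : A →ₐ[ℂ] ℂ => φ a) :=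
  (continuous_apply a).comp continuous_induced_dom

/-- characters of the tensor product -/
def tensorHomeo : (A ⊗[ℂ] B →ₐ[ℂ] ℂ) ≃ₜ (A →ₐ[ℂ] ℂ) × (B →ₐ[ℂ] ℂ) where
  toFun φ := (φ.comp Algebra.TensorProduct.includeLeft, φ.comp Algebra.TensorProduct.includeRight)
  invFun p := Algebra.TensorProduct.productMap p.1 p.2
  left_inv φ := by
    apply Algebra.TensorProduct.ext'
    intro a b
    simp only [Algebra.TensorProduct.productMap_apply_tmul, AlgHom.comp_apply,
      Algebra.TensorProduct.includeLeft_apply, Algebra.TensorProduct.includeRight_apply]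
    rw [← map_mul, Algebra.TensorProduct.tmul_mul_tmul, mul_one, one_mul]
  right_inv p := by
    apply Prod.ext
    · ext a; simp
    · ext b; simp
  continuous_toFun := by
    refine Continuous.prodMk ?_ ?_
    · refine continuous_induced_rng.mpr (continuous_pi fun a => ?_)
      exact continuous_eval _ _
    · refine continuous_induced_rng.mpr (continuous_pi fun a => ?_)
      exact continuous_eval _ _
  continuous_invFun := by
    refine continuous_induced_rng.mpr (continuous_pi fun t => ?_)
    induction t with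
    | zero => simpa using continuous_const
    | add x y hx hy =>
      simp only [Function.comp_apply, map_add] at hx hy ⊢
      exact hx.add hy
    | tmul a b =>
      simp only [Function.comp_apply, Algebra.TensorProduct.productMap_apply_tmul]
      exact ((continuous_eval A a).comp continuous_fst).mul
        ((continuous_eval B b).comp continuous_snd)

end ring

/-! ### Affine schemes -/

theorem isHomeomorph_affine (A B : Type) [CommRing A] [Algebra ℂ A] [CommRing B] [Algebra ℂ B] :
    IsHomeomorph (fun z : Pts (specC (A ⊗[ℂ] B)) =>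
      ((z ≫ specMap (Algebra.TensorProduct.includeLeft : A →ₐ[ℂ] A ⊗[ℂ] B) : Pts (specC A)),
        (z ≫ specMap (Algebra.TensorProduct.includeRight : B →ₐ[ℂ] A ⊗[ℂ] B) : Pts (specC B)))) := by
  obtain ⟨Φ, h1, -⟩ := exists_specPts
  have e : (fun z : Pts (specC (A ⊗[ℂ] B)) =>
      ((z ≫ specMap (Algebra.TensorProduct.includeLeft : A →ₐ[ℂ] A ⊗[ℂ] B) : Pts (specC A)),
        (z ≫ specMap (Algebra.TensorProduct.includeRight : B →ₐ[ℂ] A ⊗[ℂ] B) : Pts (specC B)))) =
      (((Φ (A ⊗[ℂ] B)).trans (tensorHomeo A B)).trans ((Φ A).prodCongr (Φ B)).symm) := by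
    funext z
    refine Prod.ext ((Φ A).injective ?_) ((Φ B).injective ?_)
    · simp [h1, tensorHomeo]
    · simp [h1, tensorHomeo]
  rw [e]
  exact Homeomorph.isHomeomorph _

/-! ### The product of open immersions from affine schemes -/

theorem isPullback_of_isLimit {X Y P : SchC} (p : P ⟶ X) (q : P ⟶ Y)
    (h : IsLimit (BinaryFan.mk p q)) : IsPullback p.left q.left X.hom Y.hom := by
  refine ⟨⟨by rw [Over.w, Over.w]⟩, ⟨PullbackCone.IsLimit.mk _
    (fun s => (BinaryFan.IsLimit.lift' h (Over.homMk s.fst rfl : Over.mk (s.fst ≫ X.hom) ⟶ X)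
      (Over.homMk s.snd s.condition.symm)).1.left) ?_ ?_ ?_⟩⟩
  · intro s
    have := (BinaryFan.IsLimit.lift' h (Over.homMk s.fst rfl : Over.mk (s.fst ≫ X.hom) ⟶ X)
      (Over.homMk s.snd s.condition.symm)).2.1
    exact congrArg (fun f => f.left) this
  · intro s
    have := (BinaryFan.IsLimit.lift' h (Over.homMk s.fst rfl : Over.mk (s.fst ≫ X.hom) ⟶ X)
      (Over.homMk s.snd s.condition.symm)).2.2
    exact congrArg (fun f => f.left) this
  · intro s m h1 h2
    have e1 := (BinaryFan.IsLimit.lift' h (Over.homMk s.fst rfl : Over.mk (s.fst ≫ X.hom) ⟶ X)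
      (Over.homMk s.snd s.condition.symm)).2.1
    have e2 := (BinaryFan.IsLimit.lift' h (Over.homMk s.fst rfl : Over.mk (s.fst ≫ X.hom) ⟶ X)
      (Over.homMk s.snd s.condition.symm)).2.2
    have hw : m ≫ P.hom = s.fst ≫ X.hom := by
      rw [← Over.w p, ← h1, Category.assoc]
    have key : (Over.homMk m hw : Over.mk (s.fst ≫ X.hom) ⟶ P) =
        (BinaryFan.IsLimit.lift' h (Over.homMk s.fst rfl : Over.mk (s.fst ≫ X.hom) ⟶ X)
          (Over.homMk s.snd s.condition.symm)).1 := by
      apply BinaryFan.IsLimit.hom_ext h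
      · refine Eq.trans ?_ e1.symm
        apply Over.OverMorphism.ext
        exact h1
      · refine Eq.trans ?_ e2.symm
        apply Over.OverMorphism.ext
        exact h2
    exact congrArg (fun f => f.left) key

theorem isPullback_affine (A B : Type) [CommRing A] [Algebra ℂ A] [CommRing B] [Algebra ℂ B] :
    IsPullback (specMap (Algebra.TensorProduct.includeLeft : A →ₐ[ℂ] A ⊗[ℂ] B)).left
      (specMap (Algebra.TensorProduct.includeRight : B →ₐ[ℂ] A ⊗[ℂ] B)).left
      (specC A).hom (specC B).hom :=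
  isPullback_SpecMap_of_isPushout _ _ _ _ (CommRingCat.isPushout_tensorProduct ℂ A B)

theorem isOpenImmersion_of_isPullback {S U V T X Y P : Scheme} {a : T ⟶ U} {b : T ⟶ V}
    {u : U ⟶ S} {v : V ⟶ S} (hT : IsPullback a b u v) {p : P ⟶ X} {q : P ⟶ Y} {x : X ⟶ S}
    {y : Y ⟶ S} (hP : IsPullback p q x y) {i : U ⟶ X} {i' : V ⟶ Y} [IsOpenImmersion i]
    [IsOpenImmersion i'] (hi : i ≫ x = u) (hi' : i' ≫ y = v) {j : T ⟶ P} (hj : j ≫ p = a ≫ i)
    (hj' : j ≫ q = b ≫ i') : IsOpenImmersion j := by
  have e : j = hT.isoPullback.hom ≫ pullback.map u v x y i i' (𝟙 S)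
      ((Category.comp_id _).trans hi.symm) ((Category.comp_id _).trans hi'.symm) ≫
      hP.isoPullback.inv := by
    apply hP.hom_ext
    · rw [Category.assoc, Category.assoc, hP.isoPullback_inv_fst, pullback.lift_fst,
        hT.isoPullback_hom_fst_assoc, hj]
    · rw [Category.assoc, Category.assoc, hP.isoPullback_inv_snd, pullback.lift_snd,
        hT.isoPullback_hom_snd_assoc, hj']
  have h1 : IsOpenImmersion (pullback.map u v x y i i' (𝟙 S)
      ((Category.comp_id _).trans hi.symm) ((Category.comp_id _).trans hi'.symm)) :=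
    MorphismProperty.pullbackMap (P := @IsOpenImmersion) inferInstance inferInstance
      hi.symm hi'.symm
  rw [e]
  infer_instance

/-- every point of a scheme over `ℂ` lies in the image of an open immersion from an affine scheme -/
theorem exists_affine (X : SchC) (x : X.left) : ∃ (A : Type) (_ : CommRing A) (_ : Algebra ℂ A)
    (i : specC A ⟶ X), IsOpenImmersion i.left ∧ x ∈ Set.range i.left := by
  obtain ⟨R, f, hf, y, hy⟩ := Scheme.exists_Spec_apply_eq x
  let φ : CommRingCat.of ℂ ⟶ R := Spec.preimage (f ≫ X.hom)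
  have hφ : Spec.map φ = f ≫ X.hom := Spec.map_preimage _
  let alg : Algebra ℂ R := φ.hom.toAlgebra
  refine ⟨R, inferInstance, alg, Over.homMk f ?_, hf, ⟨y, hy⟩⟩
  exact hφ.symm

end SchProd

open SchProd

theorem isHomeomorph_prod {X Y P : SchC} (p : P ⟶ X) (q : P ⟶ Y)
    (h : IsLimit (BinaryFan.mk p q)) :
    IsHomeomorph (fun z : Pts P => ((z ≫ p : Pts X), (z ≫ q : Pts Y))) := by
  refine ⟨(Pts.continuous_comp p).prodMk (Pts.continuous_comp q), ?_, ?_, ?_⟩
  · -- open
    rw [isOpenMap_iff_nhds_le]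
    intro z
    obtain ⟨A, _, _, i, hi, hxi⟩ := exists_affine X (Pts.loc (z ≫ p))
    obtain ⟨B, _, _, i', hi', hxi'⟩ := exists_affine Y (Pts.loc (z ≫ q))
    obtain ⟨hoe, hr⟩ := isOpenEmbedding_pts i
    obtain ⟨hoe', hr'⟩ := isOpenEmbedding_pts i'
    let l := specMap (Algebra.TensorProduct.includeLeft : A →ₐ[ℂ] A ⊗[ℂ] B)
    let r := specMap (Algebra.TensorProduct.includeRight : B →ₐ[ℂ] A ⊗[ℂ] B)
    obtain ⟨j, hj, hj'⟩ := BinaryFan.IsLimit.lift' h (l ≫ i) (r ≫ i')
    have hjo : IsOpenImmersion j.left :=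
      isOpenImmersion_of_isPullback (isPullback_affine A B) (isPullback_of_isLimit p q h)
        (i := i.left) (i' := i'.left) (Over.w i) (Over.w i')
        (congrArg (fun f => f.left) hj) (congrArg (fun f => f.left) hj')
    obtain ⟨hoj, hrj⟩ := isOpenEmbedding_pts j
    have haff := isHomeomorph_affine A B
    -- the point `z` comes from the affine piece
    obtain ⟨xU, hxU⟩ : (z ≫ p : Pts X) ∈ Set.range (fun y : Pts (specC A) => (y ≫ i : Pts X)) := by
      rw [hr]; exact hxi
    obtain ⟨yV, hyV⟩ : (z ≫ q : Pts Y) ∈ Set.range (fun y : Pts (specC B) => (y ≫ i' : Pts Y)) := by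
      rw [hr']; exact hxi'
    obtain ⟨w, hw⟩ := haff.bijective.2 (xU, yV)
    have hw1 : w ≫ l = xU := congrArg Prod.fst hw
    have hw2 : w ≫ r = yV := congrArg Prod.snd hw
    have hzw : w ≫ j = z := by
      apply BinaryFan.IsLimit.hom_ext h
      · show (w ≫ j) ≫ p = z ≫ p
        rw [Category.assoc]
        erw [hj]
        rw [← Category.assoc, hw1]
        exact hxU
      · show (w ≫ j) ≫ q = z ≫ q
        rw [Category.assoc]
        erw [hj']
        rw [← Category.assoc, hw2]
        exact hyV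
    have hcomp : (fun z : Pts P => ((z ≫ p : Pts X), (z ≫ q : Pts Y))) ∘
        (fun w : Pts (specC (A ⊗[ℂ] B)) => (w ≫ j : Pts P)) =
        Prod.map (fun y : Pts (specC A) => (y ≫ i : Pts X))
          (fun y : Pts (specC B) => (y ≫ i' : Pts Y)) ∘
        (fun z : Pts (specC (A ⊗[ℂ] B)) => ((z ≫ l : Pts (specC A)), (z ≫ r : Pts (specC B)))) := by
      funext w
      refine Prod.ext ?_ ?_
      · show (w ≫ j) ≫ p = (w ≫ l) ≫ i
        rw [Category.assoc, Category.assoc]
        erw [hj]
      · show (w ≫ j) ≫ q = (w ≫ r) ≫ i'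
        rw [Category.assoc, Category.assoc]
        erw [hj']
    have hopen : IsOpenMap ((fun z : Pts P => ((z ≫ p : Pts X), (z ≫ q : Pts Y))) ∘
        (fun w : Pts (specC (A ⊗[ℂ] B)) => (w ≫ j : Pts P))) := by
      rw [hcomp]
      exact (hoe.isOpenMap.prodMap hoe'.isOpenMap).comp haff.isOpenMap
    have h1 := hopen.nhds_le w
    rw [← Filter.map_map, hoj.map_nhds_eq] at h1
    simp only [Function.comp_apply, hzw] at h1
    exact h1
  · intro z z' hz
    have h1 : z ≫ p = z' ≫ p := congrArg Prod.fst hz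
    have h2 : z ≫ q = z' ≫ q := congrArg Prod.snd hz
    exact BinaryFan.IsLimit.hom_ext h h1 h2
  · rintro ⟨x, y⟩
    obtain ⟨z, hz, hz'⟩ := BinaryFan.IsLimit.lift' h x y
    exact ⟨z, Prod.ext hz hz'⟩

end Pool.Agent.MP_f4aa65_ag
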