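import Pool.Agent.MP_f4aa65_ag.GermFunctor
import Pool.Agent.MP_f4aa65_ag.SchProd
import Pool.Agent.MP_f4aa65_ag.GEq

/-!
The exotic functor: definition, products, path lifting.
-/

open Topology unitInterval Filter CategoryTheory Limits AlgebraicGeometry Opposite

noncomputable section

namespace Pool.Agent.MP_f4aa65_ag

/-- the groupoid of germs on the complex points of a scheme -/
def germGrpd (e : NExp) : SchC ⥤ Grpd.{0, 0} where
  obj X := Grpd.of (GermObj e (Pts X) (tests X))
  map f := germFunctor e (compat_tests f)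
  map_id _ := germFunctor_id _ (fun x => Category.comp_id x)
  map_comp f g := germFunctor_comp _ _ _ (fun x => (Category.assoc x f g).symm)

/-- objects of the germ groupoid are points -/
def germEquiv (e : NExp) (T : Type) [TopologicalSpace T] (𝒯 : Set (Test T)) :
    GermObj e T 𝒯 ≃ T where
  toFun x := x.as
  invFun x := ⟨x⟩

/-- the exotic functor -/
def exoticPi (e : NExp) : PtsFunctor where
  fn := incl ⋙ germGrpd e
  ob := NatIso.ofComponents (fun X => (germEquiv e (Pts (incl.obj X)) (tests _)).toIso)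
    (by intro X Y f; rfl)

theorem prodCompat_tests {X Y P : SchC} (p : P ⟶ X) (q : P ⟶ Y)
    (h : IsLimit (BinaryFan.mk p q)) :
    ProdCompat (tests P) (tests X) (tests Y) ⟨fun x => x ≫ p, Pts.continuous_comp p⟩
      ⟨fun x => x ≫ q, Pts.continuous_comp q⟩ where
  homeo := isHomeomorph_prod p q h
  fst := compat_tests p
  snd := compat_tests q
  left := by
    intro y
    obtain ⟨s, hs1, hs2⟩ := BinaryFan.IsLimit.lift' h (𝟙 X) (Over.mkIdTerminal.from X ≫ y)
    refine ⟨⟨fun x => x ≫ s, Pts.continuous_comp s⟩, fun x => ?_, fun x => ?_, compat_tests s⟩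
    · show (x ≫ s) ≫ p = x
      rw [Category.assoc]
      erw [hs1]
      exact Category.comp_id x
    · show (x ≫ s) ≫ q = y
      rw [Category.assoc]
      erw [hs2]
      rw [← Category.assoc]
      have : x ≫ Over.mkIdTerminal.from X = 𝟙 point := Over.mkIdTerminal.hom_ext _ _
      rw [this]
      exact Category.id_comp y
  right := by
    intro x
    obtain ⟨s, hs1, hs2⟩ := BinaryFan.IsLimit.lift' h (Over.mkIdTerminal.from Y ≫ x) (𝟙 Y)
    refine ⟨⟨fun y => y ≫ s, Pts.continuous_comp s⟩, fun y => ?_, fun y => ?_, compat_tests s⟩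
    · show (y ≫ s) ≫ p = x
      rw [Category.assoc]
      erw [hs1]
      rw [← Category.assoc]
      have : y ≫ Over.mkIdTerminal.from Y = 𝟙 point := Over.mkIdTerminal.hom_ext _ _
      rw [this]
      exact Category.id_comp x
    · show (y ≫ s) ≫ q = y
      rw [Category.assoc]
      erw [hs2]
      exact Category.comp_id y

theorem germGrpd_prod (e : NExp) {X Y P : SchC} (p : P ⟶ X) (q : P ⟶ Y)
    (h : IsLimit (BinaryFan.mk p q)) :
    Nonempty (IsLimit (BinaryFan.mk ((germGrpd e).map p) ((germGrpd e).map q))) := by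
  have hp := prodCompat_tests p q h
  refine isLimit_grpd _ _ ?_ (fun a b => germ_prod_bijective hp a b)
  constructor
  · intro a b hab
    obtain ⟨a⟩ := a
    obtain ⟨b⟩ := b
    have h1 := congrArg (fun z => z.1.as) hab
    have h2 := congrArg (fun z => z.2.as) hab
    exact congrArg GermObj.mk (hp.homeo.injective (Prod.ext h1 h2))
  · rintro ⟨⟨x⟩, ⟨y⟩⟩
    obtain ⟨z, hz⟩ := hp.homeo.surjective (x, y)
    exact ⟨⟨z⟩, Prod.ext (congrArg GermObj.mk (congrArg Prod.fst hz))
      (congrArg GermObj.mk (congrArg Prod.snd hz))⟩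

theorem germGrpd_terminal (e : NExp) {P : SchC} (h : IsTerminal P) :
    Nonempty (IsTerminal ((germGrpd e).obj P)) := by
  have : Subsingleton (Pts P) := ⟨fun a b => h.hom_ext a b⟩
  refine isTerminal_grpd (⟨h.from point⟩ : GermObj e (Pts P) (tests P)) ?_ ?_
  · rintro ⟨a⟩
    exact congrArg GermObj.mk (h.hom_ext _ _)
  · rintro ⟨a⟩ ⟨b⟩
    obtain rfl : a = b := h.hom_ext _ _
    refine ⟨𝟙 _, fun γ' => ?_⟩
    obtain ⟨p, hp, rfl⟩ := GermHom.exists_rep γ'
    exact GermHom.mk_eq.mpr (Eventually.of_forall fun i => subsingleton_quotient _ _)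

theorem test_ext {T : Type} [TopologicalSpace T] {Y : Type} {top : TopologicalSpace Y}
    {f f' : Y → T} {cov : IsCoveringMap f} {cov' : IsCoveringMap f'}
    {fin : ∀ x, (f ⁻¹' {x}).Finite} {fin' : ∀ x, (f' ⁻¹' {x}).Finite} {h : C(Y, C0)}
    (e : f = f') : (⟨Y, top, f, cov, fin, h⟩ : Test T) = ⟨Y, top, f', cov', fin', h⟩ := by
  subst e
  rfl

theorem germGrpd_lifting (e : NExp) {Y X : SchC} (f : Y ⟶ X) [IsFinite f.left] [Etale f.left]
    (a : (germGrpd e).obj Y) :
    Function.Bijective (((germGrpd e).map f).toPrefunctor.star a) := by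
  refine germ_star_bijective (isCoveringMap_pts f) (compat_tests f) ?_ ?_ a
  · intro x
    exact ⟨_, ⟨Y, f, inferInstance, inferInstance, 1, rfl⟩, ContinuousMap.id _, fun _ => rfl,
      x, rfl⟩
  · rintro τ ⟨Z, g, h1, h2, h, rfl⟩
    have e1 : (fun z : Pts Z => z ≫ g ≫ f) = (fun y : Pts Y => y ≫ f) ∘ (fun z => z ≫ g) := by
      funext z
      exact (Category.assoc z g f).symm
    have h3 : IsFinite (g ≫ f).left := by rw [Over.comp_left]; infer_instance
    have h4 : Etale (g ≫ f).left := by rw [Over.comp_left]; infer_instance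
    have c3 := isCoveringMap_pts (g ≫ f)
    have f3 := finite_fiber_pts (g ≫ f)
    rw [e1] at c3
    refine ⟨c3, fun x => ?_, ?_⟩
    · have := f3 x
      rw [e1] at this
      exact this
    · exact ⟨Z, g ≫ f, h3, h4, h, test_ext e1.symm⟩

end Pool.Agent.MP_f4aa65_ag
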