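import Mathlib

/-!
L6: a surjective homomorphism `E : ℂ → ℂˣ` such that every element of the kernel is `p` times an
element of the kernel for some prime `p`.
-/

namespace Pool.Agent.MP_f4aa65_ag

namespace NonstdExp

open Complex

/-- the primes `P j ≡ 1 mod (j+1)!` -/
noncomputable def P (j : ℕ) : ℕ :=
  Classical.choose (Nat.exists_prime_gt_modEq_one (k := (j + 1).factorial) 0
    (Nat.factorial_ne_zero _))

lemma P_prime (j : ℕ) : (P j).Prime :=
  (Classical.choose_spec (Nat.exists_prime_gt_modEq_one (k := (j + 1).factorial) 0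
    (Nat.factorial_ne_zero _))).1

lemma P_mod (j : ℕ) : P j ≡ 1 [MOD (j + 1).factorial] :=
  (Classical.choose_spec (Nat.exists_prime_gt_modEq_one (k := (j + 1).factorial) 0
    (Nat.factorial_ne_zero _))).2.2

/-- partial products -/
noncomputable def N (i : ℕ) : ℕ := ∏ j ∈ Finset.range i, P j

lemma N_succ (i : ℕ) : N (i + 1) = N i * P i := Finset.prod_range_succ _ _

lemma N_pos (i : ℕ) : 0 < N i := Finset.prod_pos fun j _ => (P_prime j).pos

lemma N_mod {b i : ℕ} (hb : 0 < b) (hi : b ≤ i) (k : ℕ) : N (i + k) ≡ N i [MOD b] := by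
  induction k with
  | zero => rfl
  | succ k ih =>
    rw [← add_assoc, N_succ]
    have h1 : P (i + k) ≡ 1 [MOD b] :=
      (P_mod (i + k)).of_dvd (Nat.dvd_factorial hb (by omega))
    calc N (i + k) * P (i + k) ≡ N i * 1 [MOD b] := ih.mul h1
      _ = N i := mul_one _

lemma exp_eq_of_mod {q : ℚ} {a b : ℕ} (h : a ≡ b [MOD q.den]) :
    exp (2 * Real.pi * I * ((q : ℂ) * a)) = exp (2 * Real.pi * I * ((q : ℂ) * b)) := by
  have h1 : ((q.den : ℕ) : ℤ) ∣ (b : ℤ) - a := (Nat.modEq_iff_dvd).mp h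
  obtain ⟨c, hc⟩ := h1
  have hq : (q : ℂ) * q.den = q.num := by exact_mod_cast Rat.mul_den_eq_num q
  have h2 : (b : ℂ) = a + q.den * c := by
    have : (b : ℂ) - a = q.den * c := by exact_mod_cast hc
    linear_combination this
  rw [h2]
  have h3 : 2 * Real.pi * I * ((q : ℂ) * (a + q.den * c)) =
      2 * Real.pi * I * ((q : ℂ) * a) + ((q.num * c : ℤ) : ℂ) * (2 * Real.pi * I) := by
    push_cast
    linear_combination (2 * Real.pi * I * c) * hq
  rw [h3, exp_add, exp_int_mul_two_pi_mul_I, mul_one]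

/-- the character of `ℚ` -/
noncomputable def eps (q : ℚ) : ℂ := exp (2 * Real.pi * I * ((q : ℂ) * N q.den))

lemma eps_eq {q : ℚ} {i : ℕ} (hi : q.den ≤ i) :
    eps q = exp (2 * Real.pi * I * ((q : ℂ) * N i)) := by
  obtain ⟨k, rfl⟩ := Nat.exists_eq_add_of_le hi
  exact (exp_eq_of_mod (N_mod q.den_pos le_rfl k)).symm

lemma eps_add (a b : ℚ) : eps (a + b) = eps a * eps b := by
  set i := a.den + b.den + (a + b).den with hi
  rw [eps_eq (show a.den ≤ i by omega), eps_eq (show b.den ≤ i by omega),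
    eps_eq (show (a + b).den ≤ i by omega), ← exp_add]
  congr 1
  push_cast
  ring

lemma eps_ne_zero (q : ℚ) : eps q ≠ 0 := exp_ne_zero _

/-- `eps q = 1` if and only if `N i * q` is an integer for some `i` -/
lemma eps_eq_one_of (q : ℚ) (i : ℕ) (m : ℤ) (h : q * N i = m) : eps q = 1 := by
  rw [eps_eq (show q.den ≤ i + q.den by omega)]
  obtain ⟨c, hc⟩ : ∃ c : ℕ, N (i + q.den) = N i * c := by
    have h1 : ∀ k, ∃ c : ℕ, N (i + k) = N i * c := by
      intro k
      induction k with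
      | zero => exact ⟨1, by simp⟩
      | succ k ih =>
        obtain ⟨c, hc⟩ := ih
        exact ⟨c * P (i + k), by rw [← add_assoc, N_succ, hc, mul_assoc]⟩
    exact h1 _
  have h2 : (q : ℂ) * N (i + q.den) = ((m * c : ℤ) : ℂ) := by
    rw [hc]
    have : (q : ℂ) * N i = m := by exact_mod_cast h
    push_cast
    linear_combination (c : ℂ) * this
  rw [h2, mul_comm]
  exact exp_int_mul_two_pi_mul_I _

lemma int_of_eps_eq_one (q : ℚ) (h : eps q = 1) : ∃ (i : ℕ) (m : ℤ), q * N i = m := by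
  unfold eps at h
  rw [exp_eq_one_iff] at h
  obtain ⟨m, hm⟩ := h
  refine ⟨q.den, m, ?_⟩
  have h2 : (2 * Real.pi * I : ℂ) ≠ 0 := two_pi_I_ne_zero
  have h3 : (q : ℂ) * N q.den = m := by
    apply mul_left_cancel₀ h2
    rw [hm]; ring
  exact_mod_cast h3

lemma eps_div_prime (q : ℚ) (h : eps q = 1) : ∃ p : ℕ, p.Prime ∧ eps (q / p) = 1 := by
  obtain ⟨i, m, hm⟩ := int_of_eps_eq_one q h
  refine ⟨P i, P_prime i, eps_eq_one_of _ (i + 1) m ?_⟩
  rw [N_succ, ← hm]
  have : ((P i : ℕ) : ℚ) ≠ 0 := by exact_mod_cast (P_prime i).ne_zero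
  push_cast
  field_simp

/-- `eps` takes all roots of unity as values -/
lemma eps_surj (x : ℚ) : ∃ q : ℚ, eps q = exp (2 * Real.pi * I * x) := by
  refine ⟨x / N x.den, ?_⟩
  set q : ℚ := x / N x.den with hq
  set i := x.den + q.den with hi
  rw [eps_eq (show q.den ≤ i by omega)]
  -- N i = N x.den * c with c ≡ 1 mod x.den
  obtain ⟨c, hc, hc1⟩ : ∃ c : ℕ, N i = N x.den * c ∧ c ≡ 1 [MOD x.den] := by
    have h1 : ∀ k, ∃ c : ℕ, N (x.den + k) = N x.den * c ∧ c ≡ 1 [MOD x.den] := by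
      intro k
      induction k with
      | zero => exact ⟨1, by simp, rfl⟩
      | succ k ih =>
        obtain ⟨c, hc, hc1⟩ := ih
        refine ⟨c * P (x.den + k), by rw [← add_assoc, N_succ, hc, mul_assoc], ?_⟩
        have h2 : P (x.den + k) ≡ 1 [MOD x.den] :=
          (P_mod (x.den + k)).of_dvd (Nat.dvd_factorial x.den_pos (by omega))
        calc c * P (x.den + k) ≡ 1 * 1 [MOD x.den] := hc1.mul h2
          _ = 1 := rfl
    exact h1 _
  have h2 : (q : ℂ) * N i = (x : ℂ) * c := by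
    rw [hc, hq]
    have : ((N x.den : ℕ) : ℂ) ≠ 0 := by exact_mod_cast (N_pos _).ne'
    push_cast
    field_simp
  rw [h2, exp_eq_of_mod hc1]
  simp

end NonstdExp

open NonstdExp in
theorem exists_nonstd_exp : ∃ E : ℂ → ℂ, (∀ a b, E (a + b) = E a * E b) ∧
    (∀ z, z ≠ 0 → ∃ c, E c = z) ∧
    ∀ c, E c = 1 → ∃ p : ℕ, p.Prime ∧ E (c / p) = 1 := by
  have hw : (2 * Real.pi * Complex.I : ℂ) ≠ 0 := Complex.two_pi_I_ne_zero
  obtain ⟨φ, hφ⟩ : ∃ φ : Module.Dual ℚ ℂ, φ (2 * Real.pi * Complex.I) = 1 := by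
    by_contra! hcon
    apply hw
    rw [← Module.forall_dual_apply_eq_zero_iff ℚ]
    intro φ
    by_contra hne
    apply hcon ((φ (2 * Real.pi * Complex.I))⁻¹ • φ)
    rw [LinearMap.smul_apply, smul_eq_mul, inv_mul_cancel₀ hne]
  have hφq : ∀ x : ℚ, φ (2 * Real.pi * Complex.I * x) = x := by
    intro x
    have h1 : (2 * Real.pi * Complex.I * x : ℂ) = x • (2 * Real.pi * Complex.I) := by
      rw [Rat.smul_def]; ring
    rw [h1, map_smul, hφ, smul_eq_mul, mul_one]
  refine ⟨fun c => Complex.exp (c - 2 * Real.pi * Complex.I * φ c) * eps (φ c), ?_, ?_, ?_⟩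
  · intro a b
    simp only [map_add]
    rw [eps_add]
    have : a + b - 2 * Real.pi * Complex.I * ((φ a + φ b : ℚ) : ℂ) =
        (a - 2 * Real.pi * Complex.I * φ a) + (b - 2 * Real.pi * Complex.I * φ b) := by
      push_cast; ring
    rw [this, Complex.exp_add]
    ring
  · intro z hz
    obtain ⟨w, hw⟩ : ∃ w, Complex.exp w = z := ⟨Complex.log z, Complex.exp_log hz⟩
    obtain ⟨q, hq⟩ := eps_surj (φ w)
    refine ⟨w + 2 * Real.pi * Complex.I * ((q - φ w : ℚ) : ℂ), ?_⟩
    simp only [map_add, hφq]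
    have h1 : φ w + (q - φ w) = q := by ring
    rw [h1, hq, ← hw, ← Complex.exp_add]
    congr 1
    push_cast
    ring
  · intro c hc
    simp only at hc
    -- c - 2πi φ c is in 2πi ℚ
    have hroot : ∃ y : ℚ, c - 2 * Real.pi * Complex.I * φ c = 2 * Real.pi * Complex.I * y := by
      rw [eps, ← Complex.exp_add, Complex.exp_eq_one_iff] at hc
      obtain ⟨m, hm⟩ := hc
      refine ⟨m - φ c * N (φ c).den, ?_⟩
      push_cast
      linear_combination hm
    obtain ⟨y, hy⟩ := hroot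
    have hy0 : y = 0 := by
      have h1 := congrArg φ hy
      rw [map_sub, hφq, hφq, sub_self] at h1
      exact h1.symm
    rw [hy0, Rat.cast_zero, mul_zero] at hy
    rw [hy, Complex.exp_zero, one_mul] at hc
    obtain ⟨p, hp, hp1⟩ := eps_div_prime _ hc
    refine ⟨p, hp, ?_⟩
    have hp0 : ((p : ℕ) : ℂ) ≠ 0 := by exact_mod_cast hp.ne_zero
    have h2 : φ (c / p) = φ c / p := by
      have h3 : (c / p : ℂ) = ((p : ℚ)⁻¹ : ℚ) • c := by
        rw [Rat.smul_def]; push_cast; field_simp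
      rw [h3, map_smul, smul_eq_mul]; ring
    simp only [h2, hp1, mul_one]
    have h4 : c / p - 2 * Real.pi * Complex.I * ((φ c / p : ℚ) : ℂ) = 0 := by
      push_cast
      have : c = 2 * Real.pi * Complex.I * φ c := sub_eq_zero.mp hy
      field_simp
      linear_combination this
    rw [h4, Complex.exp_zero]

end Pool.Agent.MP_f4aa65_ag
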