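import Pool.Agent.MP_f4aa65_ag.IrredGeq

/-!
Locally in the Zariski topology, the complex points of a smooth scheme are all equivalent.
-/

open Filter Topology Polynomial CategoryTheory AlgebraicGeometry Limits

noncomputable section

namespace Pool.Agent.MP_f4aa65_ag

namespace SmoothGeq

/-- an irreducible factor of `f` that vanishes under a ring homomorphism -/
theorem exists_irreducible_factor {S : Type*} [CommRing S] [IsDomain S]
    [UniqueFactorizationMonoid S] {K : Type*} [CommRing K] [IsDomain K] (φ : S →+* K) (f : S)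
    (hf : f ≠ 0) (h : φ f = 0) : ∃ f₁ c : S, Irreducible f₁ ∧ f = f₁ * c ∧ φ f₁ = 0 := by
  induction f using WfDvdMonoid.induction_on_irreducible with
  | zero => exact absurd rfl hf
  | unit u hu => exact absurd h (hu.map φ).ne_zero
  | mul a i ha hi ih =>
    rw [map_mul, mul_eq_zero] at h
    rcases h with h | h
    · exact ⟨i, a, hi, rfl, h⟩
    · obtain ⟨f₁, c, h1, h2, h3⟩ := ih ha h
      exact ⟨f₁, i * c, h1, by rw [h2]; ring, h3⟩

/-- a monic irreducible factor -/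
theorem exists_monic_factor {R : Type*} [CommRing R] [IsDomain R] [UniqueFactorizationMonoid R]
    {K : Type*} [CommRing K] [IsDomain K] (φ : R[X] →+* K) (f : R[X])
    (hf : f.Monic) (h : φ f = 0) :
    ∃ f₁ c : R[X], Irreducible f₁ ∧ f₁.Monic ∧ f = f₁ * c ∧ φ f₁ = 0 := by
  obtain ⟨f₁, c, h1, h2, h3⟩ := exists_irreducible_factor φ f hf.ne_zero h
  have h4 : f₁.leadingCoeff * c.leadingCoeff = 1 := by
    rw [← leadingCoeff_mul, ← h2]; exact hf
  have h5 : IsUnit (C c.leadingCoeff : R[X]) :=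
    isUnit_C.mpr (IsUnit.of_mul_eq_one _ ((mul_comm _ _).trans h4))
  have h6 : (C f₁.leadingCoeff : R[X]) * C c.leadingCoeff = 1 := by
    rw [← C_mul, h4, C_1]
  refine ⟨f₁ * C c.leadingCoeff, c * C f₁.leadingCoeff, ?_, ?_, ?_, ?_⟩
  · exact (irreducible_mul_isUnit h5).mpr h1
  · rw [Monic, leadingCoeff_mul, leadingCoeff_C, h4]
  · rw [h2]
    linear_combination (-f₁ * c) * h6
  · rw [map_mul, h3, zero_mul]

/-- the pair obtained from a monic factor -/
def facPair {R : Type*} [CommRing R] (P : StandardEtalePair R) (f₁ c : R[X]) (h1 : f₁.Monic)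
    (h2 : P.f = f₁ * c) : StandardEtalePair R where
  f := f₁
  monic_f := h1
  g := P.g * c
  cond := by
    obtain ⟨p₁, p₂, n, e⟩ := P.cond
    refine ⟨c ^ (n + 1) * p₁, (derivative c * p₁ + c * p₂) * c ^ n, n, ?_⟩
    rw [h2, derivative_mul] at e
    rw [mul_pow, ← e]
    ring

/-- the tautological presentation -/
def tautPres {R : Type*} [CommRing R] (P : StandardEtalePair R) :
    StandardEtalePresentation R P.Ring :=
  { P with
    x := P.X
    hasMap := P.hasMap_X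
    lift_bijective := by
      rw [P.lift_X_left]
      exact Function.bijective_id }

/-- if `φ : A → A₁` and `y = y₁ ∘ φ` and `x = x₁ ∘ φ` then equivalences descend -/
theorem geq_comp {e : NExp} {A A₁ : Type} [CommRing A] [Algebra ℂ A] [CommRing A₁] [Algebra ℂ A₁]
    (φ : A →ₐ[ℂ] A₁) {x₁ y₁ : A₁ →ₐ[ℂ] ℂ} (h : GEq e (SchAff.specPt x₁) (SchAff.specPt y₁)) :
    GEq e (SchAff.specPt (x₁.comp φ)) (SchAff.specPt (y₁.comp φ)) := by
  have key : ∀ z : A₁ →ₐ[ℂ] ℂ, SchAff.specPt z ≫ specMap φ = SchAff.specPt (z.comp φ) := by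
    intro z
    apply Over.OverMorphism.ext
    show Spec.map _ ≫ Spec.map _ = Spec.map _
    rw [← Spec.map_comp]
    rfl
  have := h.map (specMap φ)
  rwa [key, key] at this

/-- points at which the factor `f₁` vanishes and `c` does not come from the localized factor -/
theorem factor_point {R A : Type} [CommRing R] [Algebra ℂ R] [CommRing A] [Algebra ℂ A]
    [Algebra R A] [IsScalarTower ℂ R A] (P : StandardEtalePresentation R A) (f₁ c : R[X])
    (P₁ : StandardEtalePair R) (hP₁f : P₁.f = f₁) (hP₁g : P₁.g = P.g * c)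
    [Algebra ℂ P₁.Ring] (ψ : A →ₐ[ℂ] P₁.Ring)
    (hψ : ∀ a : R, ψ (algebraMap R A a) = algebraMap R P₁.Ring a)
    (hψx : ψ P.x = P₁.X)
    (hC : ∀ a : ℂ, algebraMap ℂ P₁.Ring a = algebraMap R P₁.Ring (algebraMap ℂ R a))
    (y : A →ₐ[ℂ] ℂ) (h1 : y (aeval P.x f₁) = 0) (h2 : y (aeval P.x c) ≠ 0) :
    ∃ y₁ : P₁.Ring →ₐ[ℂ] ℂ, y₁.comp ψ = y := by
  let ρ : R →+* ℂ := (y : A →+* ℂ).comp (algebraMap R A)
  let _ : Algebra R ℂ := ρ.toAlgebra
  have hev : ∀ q : R[X], aeval (y P.x) q = y (aeval P.x q) := by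
    intro q
    rw [aeval_def, aeval_def]
    exact (hom_eval₂ q (algebraMap R A) (y : A →+* ℂ) P.x).symm
  have hm : P₁.HasMap (y P.x) := by
    refine ⟨?_, ?_⟩
    · rw [hP₁f]
      exact (hev f₁).trans h1
    have h3 : aeval (y P.x) (P.g * c) = y (aeval P.x P.g) * y (aeval P.x c) := by
      rw [hev, map_mul, map_mul]
    have h4 : aeval (y P.x) (P.g * c) ≠ 0 := by
      rw [h3]
      exact mul_ne_zero (P.hasMap.2.map y).ne_zero h2
    rw [hP₁g]
    exact h4.isUnit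
  let y₁ : P₁.Ring →ₐ[ℂ] ℂ :=
    { (P₁.lift (y P.x) hm : P₁.Ring →+* ℂ) with
      commutes' := fun a => by
        show P₁.lift (y P.x) hm (algebraMap ℂ P₁.Ring a) = a
        rw [hC, AlgHom.commutes]
        show y (algebraMap R A (algebraMap ℂ R a)) = a
        rw [← IsScalarTower.algebraMap_apply]
        exact y.commutes a }
  refine ⟨y₁, ?_⟩
  let u : A →ₐ[R] ℂ := { (y₁.comp ψ).toRingHom with
    commutes' := fun a => by
      show P₁.lift (y P.x) hm (ψ (algebraMap R A a)) = _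
      rw [hψ, AlgHom.commutes] }
  let v : A →ₐ[R] ℂ := { (y : A →+* ℂ) with
    commutes' := fun a => rfl }
  have huv : u = v := by
    apply P.hom_ext
    show P₁.lift (y P.x) hm (ψ P.x) = y P.x
    rw [hψx, P₁.lift_X]
  ext a
  exact congrArg (fun w => w a) huv

/-- the case of a standard etale algebra: points with a common root factor -/
theorem geq_std (e : NExp) {n : ℕ} (A : Type) [CommRing A] [Algebra ℂ A]
    [Algebra (MvPolynomial (Fin n) ℂ) A] [IsScalarTower ℂ (MvPolynomial (Fin n) ℂ) A]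
    (P : StandardEtalePresentation (MvPolynomial (Fin n) ℂ) A) (x : A →ₐ[ℂ] ℂ) :
    ∃ f : A, x f ≠ 0 ∧ ∀ y : A →ₐ[ℂ] ℂ, y f ≠ 0 →
      GEq e (SchAff.specPt x) (SchAff.specPt y) := by
  let R := MvPolynomial (Fin n) ℂ
  -- evaluation of polynomials over `R` at a point of `A`
  have hev : ∀ (y : A →ₐ[ℂ] ℂ) (q : R[X]), y (aeval P.x q) =
      eval₂RingHom ((y : A →+* ℂ).comp (algebraMap R A)) (y P.x) q := by
    intro y q
    rw [aeval_def]
    exact hom_eval₂ q (algebraMap R A) (y : A →+* ℂ) P.x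
  have hf0 : aeval P.x P.f = 0 := P.hasMap.1
  obtain ⟨f₁, c, hirr, hmon, hfac, hf₁⟩ := exists_monic_factor
    (eval₂RingHom ((x : A →+* ℂ).comp (algebraMap R A)) (x P.x)) P.f P.monic_f (by
      rw [← hev, hf0, map_zero])
  rw [← hev] at hf₁
  have hd : x (aeval P.x (derivative P.f)) ≠ 0 := (P.hasMap.isUnit_derivative_f.map x).ne_zero
  have hc : x (aeval P.x c) ≠ 0 := by
    intro hc
    apply hd
    rw [hfac, derivative_mul, map_add, map_mul, map_mul, map_add, map_mul, map_mul, hf₁, hc,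
      mul_zero, zero_mul, add_zero]
  refine ⟨aeval P.x c, hc, fun y hy => ?_⟩
  have hf₁y : y (aeval P.x f₁) = 0 := by
    have h1 : y (aeval P.x P.f) = 0 := by rw [hf0, map_zero]
    rw [hfac, map_mul, map_mul] at h1
    exact (mul_eq_zero.mp h1).resolve_right hy
  let P₁ := facPair P.P f₁ c hmon hfac
  let _ : Algebra ℂ P₁.Ring := ((algebraMap R P₁.Ring).comp (algebraMap ℂ R)).toAlgebra
  have _ : IsScalarTower ℂ R P₁.Ring := IsScalarTower.of_algebraMap_eq' rfl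
  have hmap : P.HasMap (P₁.X) := by
    have h1 := P₁.hasMap_X
    have h2 : aeval P₁.X f₁ = 0 := h1.1
    have h3 : IsUnit (aeval P₁.X (P.g * c)) := h1.2
    rw [map_mul] at h3
    refine ⟨?_, (isUnit_of_mul_isUnit_left h3)⟩
    rw [hfac, map_mul, h2, zero_mul]
  let ψ : A →ₐ[R] P₁.Ring := (P.lift P₁.X hmap).comp (P.equivRing : A →ₐ[R] P.Ring)
  let ψ' : A →ₐ[ℂ] P₁.Ring := ψ.restrictScalars ℂ
  have hψ : ψ P.x = P₁.X := by
    show P.lift P₁.X hmap (P.equivRing P.x) = _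
    rw [P.equivRing_x, P.lift_X]
  -- factor points
  have hfactor : ∀ y : A →ₐ[ℂ] ℂ, y (aeval P.x f₁) = 0 → y (aeval P.x c) ≠ 0 →
      ∃ y₁ : P₁.Ring →ₐ[ℂ] ℂ, y₁.comp ψ' = y := by
    intro y h1 h2
    exact factor_point P f₁ c P₁ rfl rfl ψ' (fun a => ψ.commutes a) hψ
      (fun a => rfl) y h1 h2
  obtain ⟨x₁, rfl⟩ := hfactor x hf₁ hc
  obtain ⟨y₁, rfl⟩ := hfactor y hf₁y hy
  exact geq_comp ψ' (geq_irred e P₁.Ring (tautPres P₁) hirr x₁ y₁)

/-- passing to a localization -/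
theorem geq_away (e : NExp) (A B : Type) [CommRing A] [Algebra ℂ A] [CommRing B] [Algebra ℂ B]
    [Algebra A B] [IsScalarTower ℂ A B] (f₀ : A) [IsLocalization.Away f₀ B]
    (x : A →ₐ[ℂ] ℂ) (hf₀ : x f₀ ≠ 0)
    (hB : ∀ x₁ : B →ₐ[ℂ] ℂ, ∃ f₁ : B, x₁ f₁ ≠ 0 ∧ ∀ y : B →ₐ[ℂ] ℂ, y f₁ ≠ 0 →
      GEq e (SchAff.specPt x₁) (SchAff.specPt y)) :
    ∃ f : A, x f ≠ 0 ∧ ∀ y : A →ₐ[ℂ] ℂ, y f ≠ 0 →
      GEq e (SchAff.specPt x) (SchAff.specPt y) := by
  let φ : A →ₐ[ℂ] B := Algebra.algHom ℂ A B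
  have hlift : ∀ y : A →ₐ[ℂ] ℂ, y f₀ ≠ 0 → ∃ y₁ : B →ₐ[ℂ] ℂ, y₁.comp φ = y := by
    intro y hy
    have hu : IsUnit ((y : A →+* ℂ) f₀) := IsUnit.mk0 _ hy
    let y₀ : B →+* ℂ := IsLocalization.Away.lift f₀ hu
    have h0 : ∀ a, y₀ (algebraMap A B a) = y a := fun a => IsLocalization.Away.lift_eq f₀ hu a
    refine ⟨{ y₀ with commutes' := fun a => ?_ }, ?_⟩
    · show y₀ (algebraMap ℂ B a) = a
      rw [IsScalarTower.algebraMap_apply ℂ A B, h0]
      exact y.commutes a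
    · ext a
      exact h0 a
  obtain ⟨x₁, hx₁⟩ := hlift x hf₀
  obtain ⟨f₁, hf₁, H⟩ := hB x₁
  obtain ⟨k, a, ha⟩ := IsLocalization.Away.surj f₀ f₁
  have hval : ∀ (y : A →ₐ[ℂ] ℂ) (y₁ : B →ₐ[ℂ] ℂ), y₁.comp φ = y →
      (y f₀ ≠ 0) → (y₁ f₁ ≠ 0 ↔ y a ≠ 0) := by
    rintro y y₁ rfl hy
    have h2 := congrArg y₁ ha
    rw [map_mul, map_pow] at h2
    have h3 : y₁ (algebraMap A B f₀) ^ k ≠ 0 := pow_ne_zero k hy
    have h4 : (y₁.comp φ) a = y₁ (algebraMap A B a) := rfl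
    rw [h4, ← h2]
    constructor
    · intro h; exact mul_ne_zero h h3
    · intro h h'; exact h (by rw [h', zero_mul])
  refine ⟨f₀ * a, ?_, fun y hy => ?_⟩
  · rw [map_mul]
    exact mul_ne_zero hf₀ ((hval x x₁ hx₁ hf₀).mp hf₁)
  · rw [map_mul] at hy
    have hy0 : y f₀ ≠ 0 := left_ne_zero_of_mul hy
    have hya : y a ≠ 0 := right_ne_zero_of_mul hy
    obtain ⟨y₁, hy₁⟩ := hlift y hy0
    have h5 := H y₁ ((hval y y₁ hy₁ hy0).mpr hya)
    have h6 := geq_comp φ h5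
    rwa [hx₁, hy₁] at h6

/-- the case of a smooth algebra -/
theorem geq_smooth_ring (e : NExp) (A : Type) [CommRing A] [Algebra ℂ A] [Algebra.Smooth ℂ A]
    (x : A →ₐ[ℂ] ℂ) : ∃ f : A, x f ≠ 0 ∧ ∀ y : A →ₐ[ℂ] ℂ, y f ≠ 0 →
      GEq e (SchAff.specPt x) (SchAff.specPt y) := by
  let p : Ideal A := RingHom.ker (x : A →+* ℂ)
  have hp : p.IsPrime := RingHom.ker_isPrime _
  have hmem : ∀ a : A, a ∈ p ↔ x a = 0 := fun a => RingHom.mem_ker
  obtain ⟨f₀, hf₀, n, alg, tower, hstd⟩ :=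
    Algebra.IsSmoothAt.exists_isStandardEtale_mvPolynomial (R := ℂ) (p := p)
  rw [hmem] at hf₀
  obtain ⟨P⟩ := hstd.nonempty_standardEtalePresentation
  exact geq_away e A (Localization.Away f₀) f₀ x hf₀
    (fun x₁ => geq_std e (Localization.Away f₀) P x₁)

end SmoothGeq

open SmoothGeq in
theorem geq_nhds_smooth (e : NExp) (X : SchC) [Smooth X.hom] (x : Pts X) :
    ∃ U : X.left.Opens, Pts.loc x ∈ U ∧ ∀ y : Pts X, Pts.loc y ∈ U → GEq e x y := by
  obtain ⟨i, z, hz⟩ := X.left.affineOpenCover.openCover.exists_eq x.loc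
  let A : CommRingCat := X.left.affineOpenCover.X i
  let j : Spec A ⟶ X.left := X.left.affineOpenCover.f i
  have hj : IsOpenImmersion j := X.left.affineOpenCover.map_prop i
  have hzj : j z = x.loc := hz
  obtain ⟨φ, hφ⟩ : ∃ φ : CommRingCat.of ℂ ⟶ A, Spec.map φ = j ≫ X.hom :=
    ⟨Spec.preimage _, Spec.map_preimage _⟩
  let _ : Algebra ℂ A := φ.hom.toAlgebra
  have hsm : Smooth (Spec.map φ) := by
    rw [hφ]; infer_instance
  have : Algebra.Smooth ℂ A := by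
    rw [HasRingHomProperty.Spec_iff (P := @Smooth)] at hsm
    exact hsm
  let J : specC A ⟶ X := Over.homMk j hφ.symm
  have hJ : IsOpenImmersion J.left := hj
  obtain ⟨hJ1, hJ2⟩ := isOpenEmbedding_pts J
  have hx : x ∈ Set.range (fun y : Pts (specC A) => (y ≫ J : Pts X)) := by
    rw [hJ2]
    exact ⟨z, hzj⟩
  obtain ⟨x', rfl⟩ := hx
  obtain ⟨f, hf, H⟩ := geq_smooth_ring e A (SchAff.evalHom x')
  let V : (specC A).left.Opens := (PrimeSpectrum.basicOpen f :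
    TopologicalSpace.Opens (PrimeSpectrum A))
  refine ⟨J.left ''ᵁ V, ⟨Pts.loc x', (SchAff.loc_mem_basicOpen x' f).mpr hf, rfl⟩, ?_⟩
  rintro y ⟨w, hw, hwy⟩
  have hy : y ∈ Set.range (fun y : Pts (specC A) => (y ≫ J : Pts X)) := by
    rw [hJ2]
    exact ⟨w, hwy⟩
  obtain ⟨y', rfl⟩ := hy
  have hw' : w = Pts.loc y' := hJ.base_open.injective hwy
  subst hw'
  have h1 := H (SchAff.evalHom y') ((SchAff.loc_mem_basicOpen y' f).mp hw)
  rw [SchAff.specPt_evalHom, SchAff.specPt_evalHom] at h1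
  exact h1.map J

end Pool.Agent.MP_f4aa65_ag
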