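import Pool.Agent.MP_f4aa65_ag.NoTrans
import Pool.Agent.MP_f4aa65_ag.NonstdExp
import Pool.Agent.MP_f4aa65_ag.SmoothGeq

/-!
The exotic functor is pi_1-like.
-/

open Topology Filter CategoryTheory Limits AlgebraicGeometry Opposite

noncomputable section

namespace Pool.Agent.MP_f4aa65_ag

/-- an equivalence relation with locally large classes on a connected space is trivial -/
theorem rel_of_connected {T : Type*} [TopologicalSpace T] [ConnectedSpace T] (r : T → T → Prop)
    (hr : Equivalence r) (h : ∀ x, ∃ U : Set T, IsOpen U ∧ x ∈ U ∧ ∀ y ∈ U, r x y) (x y : T) :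
    r x y := by
  have hopen : ∀ x : T, IsOpen {y | r x y} := by
    intro x
    refine isOpen_iff_forall_mem_open.mpr fun y hy => ?_
    obtain ⟨U, hU1, hU2, hU3⟩ := h y
    exact ⟨U, fun z hz => hr.trans hy (hU3 z hz), hU1, hU2⟩
  have hclopen : IsClopen {y | r x y} := by
    refine ⟨⟨?_⟩, hopen x⟩
    have : {y | r x y}ᶜ = ⋃ z ∈ {y | r x y}ᶜ, {y | r z y} := by
      ext w
      simp only [Set.mem_iUnion, Set.mem_compl_iff, Set.mem_ofPred_eq]
      constructor
      · intro hw
        exact ⟨w, hw, hr.refl w⟩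
      · rintro ⟨z, hz, hzw⟩ hw
        exact hz (hr.trans hw (hr.symm hzw))
    rw [this]
    exact isOpen_biUnion fun z _ => hopen z
  have h2 := hclopen.eq_univ ⟨x, hr.refl x⟩
  have h3 : y ∈ {y | r x y} := by rw [h2]; exact Set.mem_univ y
  exact h3

theorem geq_of_connected (e : NExp) (X : SchC) (hs : Smooth X.hom)
    (hX : @ConnectedSpace _ (zariskiTop X)) (x y : Pts X) : GEq e x y := by
  refine @rel_of_connected (Pts X) (zariskiTop X) hX (fun x y => GEq e x y)
    ⟨GEq.refl, GEq.symm, GEq.trans⟩ (fun x => ?_) x y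
  obtain ⟨U, hxU, hU⟩ := geq_nhds_smooth e X x
  exact ⟨{z | Pts.loc z ∈ U}, ⟨U.carrier, U.isOpen, rfl⟩, hxU, fun y hy => hU y hy⟩

theorem isPiOneLike_exoticPi (e : NExp) : IsPiOneLike (exoticPi e) where
  prod := by
    rintro X Y P p q ⟨h⟩
    exact germGrpd_prod e (incl.map p) (incl.map q) h
  terminal := by
    rintro P ⟨h⟩
    exact germGrpd_terminal e h
  connected := by
    intro X hX a b
    obtain ⟨p, hp⟩ := geq_of_connected e (incl.obj X) X.property.1 hX
      (show GermObj e (Pts (incl.obj X)) (tests (incl.obj X)) from a).as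
      (show GermObj e (Pts (incl.obj X)) (tests (incl.obj X)) from b).as
    exact ⟨GermHom.mk (x := (show GermObj e (Pts (incl.obj X)) (tests (incl.obj X)) from a))
      (y := (show GermObj e (Pts (incl.obj X)) (tests (incl.obj X)) from b)) p hp⟩
  lifting := by
    intro Y X f h1 h2 a
    exact germGrpd_lifting e (incl.map f) a

theorem exists_exotic : ∃ π : PtsFunctor, IsPiOneLike π ∧
    ∀ s : ℂ ≃+* ℂ, ¬ HasTrans topPiOne (π.twist s) := by
  obtain ⟨E, h1, h2, h3⟩ := exists_nonstd_exp
  exact ⟨exoticPi ⟨E, h1, h2, h3⟩, isPiOneLike_exoticPi _, no_trans _⟩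

end Pool.Agent.MP_f4aa65_ag
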