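import Pool.Agent.MP_f4aa65_ag.Lift

/-!
The groupoid of germs of sequences of path classes that pass a family of tests.
-/

open Topology unitInterval Filter CategoryTheory

noncomputable section

namespace Pool.Agent.MP_f4aa65_ag

/-- A surjective homomorphism `E` from `ℂ` to the multiplicative group of nonzero complex numbers
such that `E c = 1` implies `E (c / p) = 1` for some prime `p`. -/
structure NExp where
  /-- the function -/
  E : ℂ → ℂ
  add : ∀ a b, E (a + b) = E a * E b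
  surj : ∀ z, z ≠ 0 → ∃ c, E c = z
  prime : ∀ c, E c = 1 → ∃ p : ℕ, p.Prime ∧ E (c / p) = 1

theorem NExp.ne_zero (e : NExp) (c : ℂ) : e.E c ≠ 0 := by
  intro h
  obtain ⟨d, hd⟩ := e.surj 1 one_ne_zero
  have := e.add c (d - c)
  rw [h, zero_mul, add_sub_cancel, hd] at this
  exact one_ne_zero this

theorem NExp.zero (e : NExp) : e.E 0 = 1 := by
  have := e.add 0 0
  rw [add_zero] at this
  exact (mul_right_cancel₀ (e.ne_zero 0) ((one_mul _).trans this)).symm

theorem NExp.neg (e : NExp) (c : ℂ) : e.E (-c) = (e.E c)⁻¹ := by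
  have := e.add (-c) c
  rw [neg_add_cancel, e.zero] at this
  exact eq_inv_of_mul_eq_one_left this.symm

/-- A test on a space `T`: a covering map with finite fibres and a nowhere vanishing function
on the covering space. -/
structure Test (T : Type) [TopologicalSpace T] where
  /-- the covering space -/
  Y : Type
  /-- its topology -/
  top : TopologicalSpace Y
  /-- the covering map -/
  f : Y → T
  cov : IsCoveringMap f
  fin : ∀ x, (f ⁻¹' {x}).Finite
  /-- the function -/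
  h : C(Y, C0)

attribute [instance] Test.top

variable {T T' : Type} [TopologicalSpace T] [TopologicalSpace T']

/-- a sequence of path classes passes the test `τ` -/
def Pass (e : NExp) (τ : Test T) {x y : T} (p : ℕ → Path.Homotopic.Quotient x y) : Prop :=
  ∀ a : τ.f ⁻¹' {x}, ∃ b : τ.f ⁻¹' {y}, (∀ᶠ i in atTop, τ.cov.monodromy (p i) a = b) ∧
    ∃ c : ℂ, ∀ n : ℕ, 0 < n →
      ∀ᶠ i in atTop, Complex.exp (windL τ.cov τ.h (p i) a / n) = e.E (c / n)

theorem pass_congr {e : NExp} {τ : Test T} {x y : T} {p q : ℕ → Path.Homotopic.Quotient x y}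
    (h : p =ᶠ[atTop] q) (hp : Pass e τ p) : Pass e τ q := by
  intro a
  obtain ⟨b, h1, c, h2⟩ := hp a
  refine ⟨b, ?_, c, fun n hn => ?_⟩
  · filter_upwards [h, h1] with i hi h1
    rw [← hi, h1]
  · filter_upwards [h, h2 n hn] with i hi h1
    rw [← hi, h1]

theorem pass_refl (e : NExp) (τ : Test T) (x : T) :
    Pass e τ (fun _ => Path.Homotopic.Quotient.refl x) := by
  intro a
  refine ⟨a, Eventually.of_forall fun i => ?_, 0, fun n hn => Eventually.of_forall fun i => ?_⟩
  · rw [τ.cov.monodromy_refl]; rfl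
  · rw [windL_refl, zero_div, Complex.exp_zero, e.zero]

theorem pass_trans {e : NExp} {τ : Test T} {x y z : T} {p : ℕ → Path.Homotopic.Quotient x y}
    {q : ℕ → Path.Homotopic.Quotient y z} (hp : Pass e τ p) (hq : Pass e τ q) :
    Pass e τ (fun i => (p i).trans (q i)) := by
  intro a
  obtain ⟨b, h1, c, h2⟩ := hp a
  obtain ⟨b', h1', c', h2'⟩ := hq b
  refine ⟨b', ?_, c + c', fun n hn => ?_⟩
  · filter_upwards [h1, h1'] with i hi hi'
    rw [τ.cov.monodromy_trans_apply, hi, hi']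
  · filter_upwards [h1, h2 n hn, h2' n hn] with i hi hi1 hi2
    rw [windL_trans, add_div, Complex.exp_add, hi1, hi, hi2, add_div, e.add]

theorem pass_symm {e : NExp} {τ : Test T} {x y : T} {p : ℕ → Path.Homotopic.Quotient x y}
    (hp : Pass e τ p) : Pass e τ (fun i => (p i).symm) := by
  intro b
  choose φ hφ using hp
  have hfin : Finite (τ.f ⁻¹' {x}) := τ.fin x
  have hall : ∀ᶠ i in atTop, ∀ a, τ.cov.monodromy (p i) a = φ a :=
    eventually_all.mpr fun a => (hφ a).1
  obtain ⟨a, rfl⟩ : ∃ a, φ a = b := by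
    obtain ⟨i, hi⟩ := hall.exists
    obtain ⟨a, ha⟩ := (τ.cov.monodromy_bijective (p i)).2 b
    exact ⟨a, by rw [← hi, ha]⟩
  obtain ⟨h1, c, h2⟩ := hφ a
  refine ⟨a, ?_, -c, fun n hn => ?_⟩
  · filter_upwards [h1] with i hi
    rw [← hi, ← τ.cov.monodromy_trans_apply, Path.Homotopic.Quotient.trans_symm,
      τ.cov.monodromy_refl]
    rfl
  · filter_upwards [h1, h2 n hn] with i hi hi1
    rw [← hi, windL_symm, neg_div, Complex.exp_neg, hi1, neg_div, e.neg]

/-- functoriality of tests: the tests `𝒯'` on `T'` pull back to tests in `𝒯` -/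
def Compat (𝒯 : Set (Test T)) (𝒯' : Set (Test T')) (g : C(T, T')) : Prop :=
  ∀ τ' ∈ 𝒯', ∀ (x : T) (a' : τ'.f ⁻¹' {g x}), ∃ τ ∈ 𝒯, ∃ k : C(τ.Y, τ'.Y),
    (∀ y, τ'.f (k y) = g (τ.f y)) ∧ (∀ y, τ.h y = τ'.h (k y)) ∧
      ∃ a : τ.f ⁻¹' {x}, k a.1 = a'.1

theorem Compat.pass {𝒯 : Set (Test T)} {𝒯' : Set (Test T')} {g : C(T, T')}
    (hg : Compat 𝒯 𝒯' g) {e : NExp} {x y : T} {p : ℕ → Path.Homotopic.Quotient x y}
    (hp : ∀ τ ∈ 𝒯, Pass e τ p) : ∀ τ ∈ 𝒯', Pass e τ (fun i => (p i).map g) := by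
  intro τ' hτ' a'
  obtain ⟨τ, hτ, k, hk, hh, a, ha⟩ := hg τ' hτ' x a'
  obtain ⟨b, h1, c, h2⟩ := hp τ hτ a
  have hh' : τ.h = τ'.h.comp k := ContinuousMap.ext hh
  have key := fun i => windL_square τ.cov τ'.cov τ'.h g k hk (p i) a a' ha.symm
  refine ⟨⟨k b.1, ?_⟩, ?_, c, fun n hn => ?_⟩
  · rw [Set.mem_preimage, hk, b.2]; rfl
  · filter_upwards [h1] with i hi
    apply Subtype.ext
    rw [(key i).1, hi]
  · filter_upwards [h2 n hn] with i hi
    rw [(key i).2, ← hh', hi]

end Pool.Agent.MP_f4aa65_ag
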