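import Pool.Agent.MP_f4aa65_ag.Germ

/-!
The groupoid of germs of sequences of path classes that pass a family of tests; functoriality.
-/

open Topology unitInterval Filter CategoryTheory

noncomputable section

namespace Pool.Agent.MP_f4aa65_ag

/-- objects of the groupoid of germs: the points of `T` -/
structure GermObj (e : NExp) (T : Type) [TopologicalSpace T] (𝒯 : Set (Test T)) : Type where
  /-- the underlying point -/
  as : T

/-- sequences of path classes from `x` to `y` that pass all tests in `𝒯` -/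
def PassSeq (e : NExp) {T : Type} [TopologicalSpace T] (𝒯 : Set (Test T)) (x y : T) : Type :=
  {p : ℕ → Path.Homotopic.Quotient x y // ∀ τ ∈ 𝒯, Pass e τ p}

/-- eventual equality of sequences -/
instance germSetoid (e : NExp) {T : Type} [TopologicalSpace T] (𝒯 : Set (Test T)) (x y : T) :
    Setoid (PassSeq e 𝒯 x y) where
  r p q := p.1 =ᶠ[atTop] q.1
  iseqv := ⟨fun _ => EventuallyEq.refl _ _, fun h => h.symm, fun h h' => h.trans h'⟩

variable {e : NExp} {T : Type} [TopologicalSpace T] {𝒯 : Set (Test T)}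

/-- morphisms of the groupoid of germs -/
def GermHom (x y : GermObj e T 𝒯) : Type := Quotient (germSetoid e 𝒯 x.as y.as)

/-- the germ of a sequence -/
def GermHom.mk {x y : GermObj e T 𝒯} (p : ℕ → Path.Homotopic.Quotient x.as y.as)
    (hp : ∀ τ ∈ 𝒯, Pass e τ p) : GermHom x y := Quotient.mk _ ⟨p, hp⟩

theorem GermHom.mk_eq {x y : GermObj e T 𝒯} {p q : ℕ → Path.Homotopic.Quotient x.as y.as}
    {hp : ∀ τ ∈ 𝒯, Pass e τ p} {hq : ∀ τ ∈ 𝒯, Pass e τ q} :
    GermHom.mk p hp = GermHom.mk q hq ↔ p =ᶠ[atTop] q := by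
  exact Quotient.eq (r := germSetoid e 𝒯 x.as y.as)

theorem GermHom.exists_rep {x y : GermObj e T 𝒯} (γ : GermHom x y) :
    ∃ (p : ℕ → Path.Homotopic.Quotient x.as y.as) (hp : ∀ τ ∈ 𝒯, Pass e τ p),
      γ = GermHom.mk p hp := by
  obtain ⟨⟨p, hp⟩, rfl⟩ := Quotient.exists_rep γ
  exact ⟨p, hp, rfl⟩

/-- composition of germs -/
def GermHom.comp {x y z : GermObj e T 𝒯} : GermHom x y → GermHom y z → GermHom x z :=
  Quotient.map₂ (fun p q => ⟨fun i => (p.1 i).trans (q.1 i),
    fun τ hτ => pass_trans (p.2 τ hτ) (q.2 τ hτ)⟩) (by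
    intro p p' hp q q' hq
    filter_upwards [hp, hq] with i h1 h2
    simp only [h1, h2])

/-- inverse germ -/
def GermHom.inv {x y : GermObj e T 𝒯} : GermHom x y → GermHom y x :=
  Quotient.map (fun p => ⟨fun i => (p.1 i).symm, fun τ hτ => pass_symm (p.2 τ hτ)⟩) (by
    intro p p' hp
    filter_upwards [hp] with i h1
    simp only [h1])

theorem GermHom.comp_mk {x y z : GermObj e T 𝒯} (p : ℕ → Path.Homotopic.Quotient x.as y.as)
    (hp : ∀ τ ∈ 𝒯, Pass e τ p) (q : ℕ → Path.Homotopic.Quotient y.as z.as)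
    (hq : ∀ τ ∈ 𝒯, Pass e τ q) : GermHom.comp (GermHom.mk p hp) (GermHom.mk q hq) =
      GermHom.mk (fun i => (p i).trans (q i)) (fun τ hτ => pass_trans (hp τ hτ) (hq τ hτ)) := rfl

instance : Groupoid (GermObj e T 𝒯) where
  Hom := GermHom
  id x := GermHom.mk (fun _ => Path.Homotopic.Quotient.refl x.as) (fun τ _ => pass_refl e τ x.as)
  comp := GermHom.comp
  id_comp := by
    intro x y γ
    obtain ⟨p, hp, rfl⟩ := γ.exists_rep
    rw [GermHom.comp_mk]
    congr 1
    funext i
    exact Path.Homotopic.Quotient.refl_trans _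
  comp_id := by
    intro x y γ
    obtain ⟨p, hp, rfl⟩ := γ.exists_rep
    rw [GermHom.comp_mk]
    congr 1
    funext i
    exact Path.Homotopic.Quotient.trans_refl _
  assoc := by
    intro x y z w γ₁ γ₂ γ₃
    obtain ⟨p, hp, rfl⟩ := γ₁.exists_rep
    obtain ⟨q, hq, rfl⟩ := γ₂.exists_rep
    obtain ⟨r, hr, rfl⟩ := γ₃.exists_rep
    rw [GermHom.comp_mk, GermHom.comp_mk, GermHom.comp_mk, GermHom.comp_mk]
    congr 1
    funext i
    exact Path.Homotopic.Quotient.trans_assoc _ _ _
  inv := GermHom.inv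
  inv_comp := by
    intro x y γ
    obtain ⟨p, hp, rfl⟩ := γ.exists_rep
    refine GermHom.mk_eq.mpr (Eventually.of_forall fun i => ?_)
    exact Path.Homotopic.Quotient.symm_trans _
  comp_inv := by
    intro x y γ
    obtain ⟨p, hp, rfl⟩ := γ.exists_rep
    refine GermHom.mk_eq.mpr (Eventually.of_forall fun i => ?_)
    exact Path.Homotopic.Quotient.trans_symm _

variable {T' : Type} [TopologicalSpace T'] {𝒯' : Set (Test T')}

/-- the map on germs induced by a continuous map compatible with the tests -/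
def GermHom.map {g : C(T, T')} (hg : Compat 𝒯 𝒯' g) {x y : GermObj e T 𝒯} :
    GermHom x y → GermHom (⟨g x.as⟩ : GermObj e T' 𝒯') ⟨g y.as⟩ :=
  Quotient.map (fun p => ⟨fun i => (p.1 i).map g, hg.pass p.2⟩) (by
    intro p p' hp
    filter_upwards [hp] with i h1
    simp only [h1])

theorem GermHom.map_mk {g : C(T, T')} (hg : Compat 𝒯 𝒯' g) {x y : GermObj e T 𝒯}
    (p : ℕ → Path.Homotopic.Quotient x.as y.as) (hp : ∀ τ ∈ 𝒯, Pass e τ p) :
    GermHom.map hg (GermHom.mk p hp) = GermHom.mk (fun i => (p i).map g) (hg.pass hp) := rfl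

theorem quotient_map_trans {X Y : Type*} [TopologicalSpace X] [TopologicalSpace Y] (g : C(X, Y))
    {x y z : X} (p : Path.Homotopic.Quotient x y) (q : Path.Homotopic.Quotient y z) :
    (p.trans q).map g = (p.map g).trans (q.map g) := by
  obtain ⟨p, rfl⟩ := Path.Homotopic.Quotient.mk_surjective p
  obtain ⟨q, rfl⟩ := Path.Homotopic.Quotient.mk_surjective q
  rw [← Path.Homotopic.Quotient.mk_trans, ← Path.Homotopic.Quotient.mk_map,
      ← Path.Homotopic.Quotient.mk_map, ← Path.Homotopic.Quotient.mk_map,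
      ← Path.Homotopic.Quotient.mk_trans, Path.map_trans]

theorem quotient_map_id {X : Type*} [TopologicalSpace X]
    {x y : X} (p : Path.Homotopic.Quotient x y) :
    p.map (ContinuousMap.id X) = p := by
  obtain ⟨p, rfl⟩ := Path.Homotopic.Quotient.mk_surjective p
  rfl

/-- the functor between groupoids of germs -/
def germFunctor (e : NExp) {g : C(T, T')} (hg : Compat 𝒯 𝒯' g) :
    GermObj e T 𝒯 ⥤ GermObj e T' 𝒯' where
  obj x := ⟨g x.as⟩
  map γ := GermHom.map hg γ
  map_id x := rfl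
  map_comp := by
    intro x y z γ γ'
    obtain ⟨p, hp, rfl⟩ := GermHom.exists_rep γ
    obtain ⟨q, hq, rfl⟩ := GermHom.exists_rep γ'
    refine GermHom.mk_eq.mpr (Eventually.of_forall fun i => ?_)
    exact quotient_map_trans _ _ _

end Pool.Agent.MP_f4aa65_ag
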