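import Pool.Agent.MP_f4aa65_ag.GermLift

/-!
Functor laws for the functors between groupoids of germs; products as limits of groupoids.
-/

open Topology unitInterval Filter CategoryTheory Limits

noncomputable section

namespace Pool.Agent.MP_f4aa65_ag

variable {e : NExp} {T T' T'' : Type} [TopologicalSpace T] [TopologicalSpace T']
  [TopologicalSpace T''] {𝒯 : Set (Test T)} {𝒯' : Set (Test T')} {𝒯'' : Set (Test T'')}

theorem germFunctor_id {g : C(T, T)} (hg : Compat 𝒯 𝒯 g) (h : ∀ x, g x = x) :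
    germFunctor e hg = 𝟭 _ := by
  obtain rfl : g = ContinuousMap.id T := ContinuousMap.ext h
  refine CategoryTheory.Functor.hext (fun x => rfl) (fun x y γ => heq_of_eq ?_)
  obtain ⟨p, hp, rfl⟩ := GermHom.exists_rep γ
  exact GermHom.mk_eq.mpr (Eventually.of_forall fun i => quotient_map_id _)

theorem germFunctor_comp {g : C(T, T')} {g' : C(T', T'')} {g'' : C(T, T'')}
    (hg : Compat 𝒯 𝒯' g) (hg' : Compat 𝒯' 𝒯'' g') (hg'' : Compat 𝒯 𝒯'' g'')
    (h : ∀ x, g'' x = g' (g x)) :
    germFunctor e hg'' = germFunctor e hg ⋙ germFunctor e hg' := by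
  obtain rfl : g'' = g'.comp g := ContinuousMap.ext h
  refine CategoryTheory.Functor.hext (fun x => rfl) (fun x y γ => heq_of_eq ?_)
  obtain ⟨p, hp, rfl⟩ := GermHom.exists_rep γ
  exact GermHom.mk_eq.mpr (Eventually.of_forall fun i => Path.Homotopic.Quotient.map_comp)

/-- a functor of groupoids into two groupoids that is bijective on objects and on morphisms is a
product cone -/
theorem isLimit_grpd {A B C : Grpd.{0, 0}} (F : C ⟶ A) (G : C ⟶ B)
    (hob : Function.Bijective (fun c : C => (F.obj c, G.obj c)))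
    (hhom : ∀ a b : C, Function.Bijective (fun γ : a ⟶ b => (F.map γ, G.map γ))) :
    Nonempty (IsLimit (BinaryFan.mk F G)) := by
  have hsurj : ∀ p : A × B, ∃ c : C, F.obj c = p.1 ∧ G.obj c = p.2 := by
    intro p
    obtain ⟨c, hc⟩ := hob.2 p
    exact ⟨c, congrArg Prod.fst hc, congrArg Prod.snd hc⟩
  choose s hs1 hs2 using hsurj
  have hmor : ∀ {c d : C} (α : F.obj c ⟶ F.obj d) (β : G.obj c ⟶ G.obj d),
      ∃ γ : c ⟶ d, F.map γ = α ∧ G.map γ = β := by
    intro c d α β
    obtain ⟨γ, hγ⟩ := (hhom c d).2 (α, β)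
    exact ⟨γ, congrArg Prod.fst hγ, congrArg Prod.snd hγ⟩
  choose m hm1 hm2 using @hmor
  have hext : ∀ {c d : C} (γ γ' : c ⟶ d), F.map γ = F.map γ' → G.map γ = G.map γ' → γ = γ' :=
    fun γ γ' h1 h2 => (hhom _ _).1 (Prod.ext h1 h2)
  let lift : ∀ {T : Grpd.{0, 0}} (f : T ⟶ A) (g : T ⟶ B), T ⟶ C := fun {T} f g =>
    { obj := fun t => s (f.obj t, g.obj t)
      map := fun {t t'} γ => m (eqToHom (hs1 (f.obj t, g.obj t)) ≫ f.map γ ≫ eqToHom (hs1 (f.obj t', g.obj t')).symm)
        (eqToHom (hs2 (f.obj t, g.obj t)) ≫ g.map γ ≫ eqToHom (hs2 (f.obj t', g.obj t')).symm)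
      map_id := by
        intro t
        apply hext
        · rw [hm1, f.map_id, F.map_id]; simp
        · rw [hm2, g.map_id, G.map_id]; simp
      map_comp := by
        intro t t' t'' γ γ'
        apply hext
        · rw [hm1, f.map_comp, F.map_comp, hm1, hm1]; simp
        · rw [hm2, g.map_comp, G.map_comp, hm2, hm2]; simp }
  refine ⟨BinaryFan.IsLimit.mk _ lift ?_ ?_ ?_⟩
  · intro T f g
    refine CategoryTheory.Functor.ext (fun t => hs1 _) (fun t t' γ => ?_)
    exact hm1 _ _
  · intro T f g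
    refine CategoryTheory.Functor.ext (fun t => hs2 _) (fun t t' γ => ?_)
    exact hm2 _ _
  · intro T f g n h1 h2
    subst h1 h2
    refine CategoryTheory.Functor.ext (fun t => ?_) (fun t t' γ => ?_)
    · apply hob.1
      exact (Prod.ext (hs1 _) (hs2 _)).symm
    · apply hext
      · rw [F.map_comp, F.map_comp, eqToHom_map, eqToHom_map]
        have := hm1 (eqToHom (hs1 ((n ≫ F).obj t, (n ≫ G).obj t)) ≫ (n ≫ F).map γ ≫
          eqToHom (hs1 ((n ≫ F).obj t', (n ≫ G).obj t')).symm)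
          (eqToHom (hs2 ((n ≫ F).obj t, (n ≫ G).obj t)) ≫ (n ≫ G).map γ ≫
          eqToHom (hs2 ((n ≫ F).obj t', (n ≫ G).obj t')).symm)
        refine Eq.trans ?_ (congrArg (fun q => eqToHom _ ≫ q ≫ eqToHom _) this.symm)
        simp only [Category.assoc, eqToHom_trans, eqToHom_trans_assoc, eqToHom_refl,
          Category.comp_id, Category.id_comp]
        rfl
      · rw [G.map_comp, G.map_comp, eqToHom_map, eqToHom_map]
        have := hm2 (eqToHom (hs1 ((n ≫ F).obj t, (n ≫ G).obj t)) ≫ (n ≫ F).map γ ≫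
          eqToHom (hs1 ((n ≫ F).obj t', (n ≫ G).obj t')).symm)
          (eqToHom (hs2 ((n ≫ F).obj t, (n ≫ G).obj t)) ≫ (n ≫ G).map γ ≫
          eqToHom (hs2 ((n ≫ F).obj t', (n ≫ G).obj t')).symm)
        refine Eq.trans ?_ (congrArg (fun q => eqToHom _ ≫ q ≫ eqToHom _) this.symm)
        simp only [Category.assoc, eqToHom_trans, eqToHom_trans_assoc, eqToHom_refl,
          Category.comp_id, Category.id_comp]
        rfl

theorem isTerminal_grpd {C : Grpd.{0, 0}} (c : C) (h1 : ∀ a : C, a = c)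
    (h2 : ∀ a b : C, ∃ γ : a ⟶ b, ∀ γ' : a ⟶ b, γ' = γ) : Nonempty (IsTerminal C) := by
  choose m hm using h2
  refine ⟨IsTerminal.ofUniqueHom (fun X => (show X ⥤ C from
    { obj := fun _ => c
      map := fun _ => m c c
      map_id := fun _ => (hm c c _).symm
      map_comp := fun _ _ => (hm c c _).symm })) (fun X F => ?_)⟩
  refine CategoryTheory.Functor.ext (fun t => h1 _) (fun t t' γ => ?_)
  rw [hm _ _ (F.map γ)]
  exact (hm _ _ _).symm

theorem subsingleton_quotient {X : Type*} [TopologicalSpace X] [Subsingleton X] {x y : X}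
    (p q : Path.Homotopic.Quotient x y) : p = q := by
  obtain ⟨p, rfl⟩ := Path.Homotopic.Quotient.mk_surjective p
  obtain ⟨q, rfl⟩ := Path.Homotopic.Quotient.mk_surjective q
  congr 1
  ext t
  exact Subsingleton.elim _ _

end Pool.Agent.MP_f4aa65_ag
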