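import Pool.Agent.MP_f4aa65_ag.GermCat

/-!
Unique path lifting and products for groupoids of germs.
-/

open Topology unitInterval Filter CategoryTheory

noncomputable section

namespace Pool.Agent.MP_f4aa65_ag

theorem monodromy_cast {Y X : Type*} [TopologicalSpace Y] [TopologicalSpace X] {f : Y → X}
    (cov : IsCoveringMap f) {x y y' : X} (γ : Path.Homotopic.Quotient x y) (hy : y' = y)
    (e : f ⁻¹' {x}) :
    (cov.monodromy (γ.cast rfl hy) e).1 = (cov.monodromy γ e).1 := by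
  subst hy
  rw [Path.Homotopic.Quotient.cast_rfl_rfl]

theorem exists_lift' {Y X : Type*} [TopologicalSpace Y] [TopologicalSpace X] {g : C(Y, X)}
    (cov : IsCoveringMap g) {x y : Y} (γ : Path.Homotopic.Quotient (g x) (g y))
    (h : (cov.monodromy γ ⟨x, rfl⟩).1 = y) :
    ∃ Γ : Path.Homotopic.Quotient x y, Γ.map g = γ := by
  obtain ⟨Γ, hΓ⟩ := exists_lift cov γ ⟨x, rfl⟩
  generalize cov.monodromy γ ⟨x, rfl⟩ = e' at *
  obtain ⟨e', he'⟩ := e'
  simp only at h
  subst h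
  exact ⟨Γ, hΓ.trans (Path.Homotopic.Quotient.cast_rfl_rfl _)⟩

variable {e : NExp} {T T₁ : Type} [TopologicalSpace T] [TopologicalSpace T₁]
  {𝒯 : Set (Test T)} {𝒯₁ : Set (Test T₁)}

theorem pass_cast {τ : Test T} {x y x' y' : T} {p : ℕ → Path.Homotopic.Quotient x y}
    (hp : Pass e τ p) (hx : x' = x) (hy : y' = y) : Pass e τ (fun i => (p i).cast hx hy) := by
  subst hx hy
  simpa only [Path.Homotopic.Quotient.cast_rfl_rfl] using hp

theorem germ_eq_sigma {x y y' : GermObj e T 𝒯} (γ : x ⟶ y) (γ' : x ⟶ y')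
    (h : (⟨y, γ⟩ : Quiver.Star x) = ⟨y', γ'⟩)
    {p : ℕ → Path.Homotopic.Quotient x.as y.as} {hp : ∀ τ ∈ 𝒯, Pass e τ p}
    (hγ : γ = GermHom.mk p hp)
    {p' : ℕ → Path.Homotopic.Quotient x.as y'.as} {hp' : ∀ τ ∈ 𝒯, Pass e τ p'}
    (hγ' : γ' = GermHom.mk p' hp') :
    ∃ h : y.as = y'.as, ∀ᶠ i in atTop, p i = (p' i).cast rfl h := by
  cases h
  refine ⟨rfl, ?_⟩
  have := GermHom.mk_eq.mp (hγ.symm.trans hγ')
  filter_upwards [this] with i hi
  rw [hi, Path.Homotopic.Quotient.cast_rfl_rfl]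

theorem germ_star_bijective {g : C(T₁, T)} (cov : IsCoveringMap g) (hg : Compat 𝒯₁ 𝒯 g)
    (h1 : ∀ x : T₁, ∃ τ ∈ 𝒯, ∃ k : C(τ.Y, T₁), (∀ y, g (k y) = τ.f y) ∧ ∃ a, k a = x)
    (h2 : ∀ τ ∈ 𝒯₁, ∃ c₃ f₃, (⟨τ.Y, τ.top, g ∘ τ.f, c₃, f₃, τ.h⟩ : Test T) ∈ 𝒯)
    (x : GermObj e T₁ 𝒯₁) :
    Function.Bijective ((germFunctor e hg).toPrefunctor.star x) := by
  obtain ⟨x⟩ := x
  constructor
  · rintro ⟨⟨y⟩, γ⟩ ⟨⟨y'⟩, γ'⟩ h
    obtain ⟨p, hp, hγ⟩ := GermHom.exists_rep γ
    obtain ⟨p', hp', hγ'⟩ := GermHom.exists_rep γ'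
    obtain ⟨h3, h4⟩ := germ_eq_sigma _ _ h
      (congrArg (GermHom.map hg) hγ) (congrArg (GermHom.map hg) hγ')
    obtain ⟨i, hi⟩ := h4.exists
    have e1 := cov.monodromy_map (p i)
    have e2 := cov.monodromy_map (p' i)
    have e3 : y = y' := by
      have h5 := congrArg Subtype.val e1
      have h6 := congrArg Subtype.val e2
      have h7 := monodromy_cast cov ((p' i).map g) h3 ⟨x, rfl⟩
      simp only at h5 h6
      rw [← h5, ← h6]
      refine Eq.trans ?_ h7
      exact congrArg (fun q => (cov.monodromy q ⟨x, rfl⟩).1) hi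
    subst e3
    have h8 : γ = γ' := by
      rw [hγ, hγ']
      refine GermHom.mk_eq.mpr ?_
      filter_upwards [h4] with i hi
      apply cov.injective_path_homotopic_map
      exact hi.trans (Path.Homotopic.Quotient.cast_rfl_rfl _)
    rw [h8]
  · rintro ⟨⟨y⟩, γ⟩
    obtain ⟨p, hp, hγ⟩ := GermHom.exists_rep γ
    obtain ⟨τ, hτ, k, hk, a, ha⟩ := h1 x
    subst ha
    have ha' : a ∈ τ.f ⁻¹' {g (k a)} := (hk a).symm
    obtain ⟨⟨b, hb⟩, hb1, -⟩ := hp τ hτ ⟨a, ha'⟩
    have hb' : g (k b) = y := (hk b).trans hb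
    subst hb'
    have key : ∀ᶠ i in atTop, ∃ Γ : Path.Homotopic.Quotient (k a) (k b), Γ.map g = p i := by
      filter_upwards [hb1] with i hi
      apply exists_lift' cov
      have h3 := (windL_square τ.cov cov (⟨fun _ => ⟨1, one_ne_zero⟩, by fun_prop⟩ : C(T₁, C0))
        (ContinuousMap.id T) k hk (p i) ⟨a, ha'⟩ ⟨k a, rfl⟩ rfl).1
      rw [hi] at h3
      refine Eq.trans ?_ h3
      exact congrArg (fun q => (cov.monodromy q ⟨k a, rfl⟩).1) (quotient_map_id (p i)).symm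
    obtain ⟨i₀, Γ₀, hΓ₀⟩ := key.exists
    classical
    let q : ℕ → Path.Homotopic.Quotient (k a) (k b) := fun i =>
      if h : ∃ Γ : Path.Homotopic.Quotient (k a) (k b), Γ.map g = p i then h.choose else Γ₀
    have hq : ∀ᶠ i in atTop, (q i).map g = p i := by
      filter_upwards [key] with i hi
      simp only [q]
      rw [dif_pos hi]
      exact hi.choose_spec
    have hpass : ∀ τ ∈ 𝒯₁, Pass e τ q := by
      intro τ₁ hτ₁ a₁
      obtain ⟨c₃, f₃, hmem⟩ := h2 τ₁ hτ₁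
      have ha₁ : a₁.1 ∈ (g ∘ τ₁.f) ⁻¹' {g (k a)} := congrArg g a₁.2
      obtain ⟨b₁, hb₁, c, hc⟩ := hp _ hmem ⟨a₁.1, ha₁⟩
      have hw : ∀ᶠ i in atTop, (τ₁.cov.monodromy (q i) a₁).1 = b₁.1 ∧
          windL τ₁.cov τ₁.h (q i) a₁ = windL c₃ τ₁.h (p i) ⟨a₁.1, ha₁⟩ := by
        filter_upwards [hq, hb₁] with i h5 h6
        have h7 := windL_comp cov τ₁.cov c₃ τ₁.h (q i) a₁ ⟨a₁.1, ha₁⟩ rfl
        constructor
        · rw [← h7.1, ← h6]
          exact congrArg (fun r => (c₃.monodromy r ⟨a₁.1, ha₁⟩).1) h5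
        · rw [← h7.2]
          exact congrArg (fun r => windL c₃ τ₁.h r ⟨a₁.1, ha₁⟩) h5
      obtain ⟨i₁, hi₁⟩ := hw.exists
      have hb₂ : b₁.1 ∈ τ₁.f ⁻¹' {k b} := by
        rw [← hi₁.1]
        exact (τ₁.cov.monodromy (q i₁) a₁).2
      refine ⟨⟨b₁.1, hb₂⟩, ?_, c, fun n hn => ?_⟩
      · filter_upwards [hw] with i hi
        exact Subtype.ext hi.1
      · filter_upwards [hw, hc n hn] with i hi hi'
        rw [hi.2]
        exact hi'
    refine ⟨⟨⟨k b⟩, GermHom.mk q hpass⟩, ?_⟩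
    have : GermHom.map hg (GermHom.mk q hpass) = γ := by
      rw [hγ]
      exact GermHom.mk_eq.mpr hq
    exact congrArg (fun r => (⟨⟨g (k b)⟩, r⟩ :
      Quiver.Star (⟨g (k a)⟩ : GermObj e T 𝒯))) this

/-- a product decomposition compatible with tests -/
structure ProdCompat {P T T' : Type} [TopologicalSpace P] [TopologicalSpace T]
    [TopologicalSpace T'] (𝒮 : Set (Test P)) (𝒯 : Set (Test T)) (𝒯' : Set (Test T'))
    (g : C(P, T)) (g' : C(P, T')) : Prop where
  homeo : IsHomeomorph (fun z : P => (g z, g' z))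
  fst : Compat 𝒮 𝒯 g
  snd : Compat 𝒮 𝒯' g'
  left : ∀ x' : T', ∃ s : C(T, P), (∀ x, g (s x) = x) ∧ (∀ x, g' (s x) = x') ∧ Compat 𝒯 𝒮 s
  right : ∀ x : T, ∃ s : C(T', P), (∀ x', g (s x') = x) ∧ (∀ x', g' (s x') = x') ∧
    Compat 𝒯' 𝒮 s

theorem quotient_map_congr {X Y : Type*} [TopologicalSpace X] [TopologicalSpace Y] {g g' : C(X, Y)}
    (h : ∀ x, g x = g' x) {x y : X} (p : Path.Homotopic.Quotient x y) :
    p.map g = (p.map g').cast (h x) (h y) := by
  have : g = g' := ContinuousMap.ext h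
  subst this
  rw [Path.Homotopic.Quotient.cast_rfl_rfl]

theorem quotient_map_eq_cast {X : Type*} [TopologicalSpace X] {g : C(X, X)}
    (h : ∀ x, g x = x) {x y : X} (p : Path.Homotopic.Quotient x y) :
    p.map g = p.cast (h x) (h y) := by
  have : g = ContinuousMap.id X := ContinuousMap.ext h
  subst this
  exact (quotient_map_id p).trans (Path.Homotopic.Quotient.cast_rfl_rfl p).symm

theorem quotient_map_const {X Y : Type*} [TopologicalSpace X] [TopologicalSpace Y] (g : C(X, Y))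
    (c : Y) (h : ∀ x, g x = c) {x y : X} (p : Path.Homotopic.Quotient x y) :
    p.map g = (Path.Homotopic.Quotient.refl c).cast (h x) (h y) := by
  obtain ⟨p, rfl⟩ := Path.Homotopic.Quotient.mk_surjective p
  refine congrArg Path.Homotopic.Quotient.mk (?_ : _ = Path.cast _ _ _)
  ext t
  exact h _

theorem cast_injective {X : Type*} [TopologicalSpace X] {x y x' y' : X}
    {p q : Path.Homotopic.Quotient x y} (hx : x' = x) (hy : y' = y)
    (h : p.cast hx hy = q.cast hx hy) : p = q := by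
  subst hx hy
  simpa only [Path.Homotopic.Quotient.cast_rfl_rfl] using h

theorem trans_cast_refl {X : Type*} [TopologicalSpace X] {x y x' y' m c : X}
    (γ : Path.Homotopic.Quotient x y) (h1 : x' = x) (h2 : m = y) (h3 : m = c) (h4 : y' = c) :
    (γ.cast h1 h2).trans ((Path.Homotopic.Quotient.refl c).cast h3 h4) =
      γ.cast h1 (h4.trans (h3.symm.trans h2)) := by
  subst h1 h2 h3 h4
  simp only [Path.Homotopic.Quotient.cast_rfl_rfl, Path.Homotopic.Quotient.trans_refl]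

theorem refl_cast_trans {X : Type*} [TopologicalSpace X] {x y x' y' m c : X}
    (γ : Path.Homotopic.Quotient x y) (h1 : m = x) (h2 : y' = y) (h3 : x' = c) (h4 : m = c) :
    ((Path.Homotopic.Quotient.refl c).cast h3 h4).trans (γ.cast h1 h2) =
      γ.cast (h3.trans (h4.symm.trans h1)) h2 := by
  subst h1 h2 h3 h4
  simp only [Path.Homotopic.Quotient.cast_rfl_rfl, Path.Homotopic.Quotient.refl_trans]

section prod

variable {P T' : Type} [TopologicalSpace P] [TopologicalSpace T']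
  {𝒮 : Set (Test P)} {𝒯' : Set (Test T')} {g : C(P, T)} {g' : C(P, T')}

theorem quotient_prod_injective (hh : IsHomeomorph (fun z : P => (g z, g' z))) {a b : P}
    (p q : Path.Homotopic.Quotient a b) (h1 : p.map g = q.map g) (h2 : p.map g' = q.map g') :
    p = q := by
  let φ : C(P, T × T') := ⟨fun z => (g z, g' z), hh.continuous⟩
  let ψ : C(T × T', P) := ⟨hh.homeomorph.symm, hh.homeomorph.symm.continuous⟩
  have hψ : ∀ z, (ψ.comp φ) z = (ContinuousMap.id P) z := fun z =>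
    hh.homeomorph.symm_apply_apply z
  suffices hφ : p.map φ = q.map φ by
    have h3 : (p.map φ).map ψ = (q.map φ).map ψ := by rw [hφ]
    rw [← Path.Homotopic.Quotient.map_comp, ← Path.Homotopic.Quotient.map_comp,
      quotient_map_congr hψ, quotient_map_congr hψ, quotient_map_id, quotient_map_id] at h3
    exact cast_injective _ _ h3
  have e1 : ∀ r : Path.Homotopic.Quotient a b, r.map φ =
      Path.Homotopic.prod (r.map g) (r.map g') := by
    intro r
    obtain ⟨r, rfl⟩ := Path.Homotopic.Quotient.mk_surjective r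
    rfl
  rw [e1, e1, h1, h2]

theorem exists_prod_seq (h : ProdCompat 𝒮 𝒯 𝒯' g g') {a b : P}
    {p : ℕ → Path.Homotopic.Quotient (g a) (g b)} (hp : ∀ τ ∈ 𝒯, Pass e τ p)
    {p' : ℕ → Path.Homotopic.Quotient (g' a) (g' b)} (hp' : ∀ τ ∈ 𝒯', Pass e τ p') :
    ∃ r : ℕ → Path.Homotopic.Quotient a b, (∀ τ ∈ 𝒮, Pass e τ r) ∧
      ∀ i, (r i).map g = p i ∧ (r i).map g' = p' i := by
  obtain ⟨s, hs1, hs2, hs3⟩ := h.left (g' a)
  obtain ⟨s', hs1', hs2', hs3'⟩ := h.right (g b)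
  have inj := h.homeo.injective
  have ea : a = s (g a) := inj (Prod.ext (hs1 _).symm (hs2 _).symm)
  have em : s (g b) = s' (g' a) := inj (Prod.ext ((hs1 _).trans (hs1' _).symm)
    ((hs2 _).trans (hs2' _).symm))
  have eb : b = s' (g' b) := inj (Prod.ext (hs1' _).symm (hs2' _).symm)
  refine ⟨fun i => (((p i).map s).cast ea em.symm).trans (((p' i).map s').cast rfl eb),
    fun τ hτ => pass_trans (pass_cast (hs3.pass hp τ hτ) ea em.symm)
      (pass_cast (hs3'.pass hp' τ hτ) rfl eb), fun i => ⟨?_, ?_⟩⟩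
  · rw [quotient_map_trans, Path.Homotopic.Quotient.map_cast, Path.Homotopic.Quotient.map_cast,
      ← Path.Homotopic.Quotient.map_comp, ← Path.Homotopic.Quotient.map_comp,
      quotient_map_eq_cast (g := g.comp s) hs1,
      quotient_map_const (g.comp s') (g b) hs1',
      Path.Homotopic.Quotient.cast_cast, Path.Homotopic.Quotient.cast_cast, trans_cast_refl]
    exact Path.Homotopic.Quotient.cast_rfl_rfl _
  · rw [quotient_map_trans, Path.Homotopic.Quotient.map_cast, Path.Homotopic.Quotient.map_cast,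
      ← Path.Homotopic.Quotient.map_comp, ← Path.Homotopic.Quotient.map_comp,
      quotient_map_eq_cast (g := g'.comp s') hs2',
      quotient_map_const (g'.comp s) (g' a) hs2,
      Path.Homotopic.Quotient.cast_cast, Path.Homotopic.Quotient.cast_cast, refl_cast_trans]
    exact Path.Homotopic.Quotient.cast_rfl_rfl _

theorem germ_prod_bijective (h : ProdCompat 𝒮 𝒯 𝒯' g g') (a b : GermObj e P 𝒮) :
    Function.Bijective (fun γ : a ⟶ b =>
      ((germFunctor e h.fst).map γ, (germFunctor e h.snd).map γ)) := by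
  obtain ⟨a⟩ := a
  obtain ⟨b⟩ := b
  constructor
  · intro γ γ' hγ
    obtain ⟨p, hp, rfl⟩ := GermHom.exists_rep γ
    obtain ⟨p', hp', rfl⟩ := GermHom.exists_rep γ'
    have e1 := GermHom.mk_eq.mp (congrArg Prod.fst hγ)
    have e2 := GermHom.mk_eq.mp (congrArg Prod.snd hγ)
    refine GermHom.mk_eq.mpr ?_
    filter_upwards [e1, e2] with i h1 h2
    exact quotient_prod_injective h.homeo _ _ h1 h2
  · rintro ⟨γ, γ'⟩
    obtain ⟨p, hp, rfl⟩ := GermHom.exists_rep γ
    obtain ⟨p', hp', rfl⟩ := GermHom.exists_rep γ'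
    obtain ⟨r, hr, hr'⟩ := exists_prod_seq h hp hp'
    refine ⟨GermHom.mk r hr, Prod.ext ?_ ?_⟩
    · exact GermHom.mk_eq.mpr (Eventually.of_forall fun i => (hr' i).1)
    · exact GermHom.mk_eq.mpr (Eventually.of_forall fun i => (hr' i).2)

end prod

end Pool.Agent.MP_f4aa65_ag
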