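import Pool.Agent.MP_f4aa65_ag.Defs

/-!
`Spec ℂ[T, 1/T]` is smooth and quasi-projective.
-/

open CategoryTheory AlgebraicGeometry Limits

attribute [local instance] MvPolynomial.gradedAlgebra

noncomputable section

namespace Pool.Agent.MP_f4aa65_ag

namespace Gm

open LaurentPolynomial

theorem smooth_gm : Smooth (Spec.map (CommRingCat.ofHom (algebraMap ℂ (LaurentPolynomial ℂ)))) := by
  rw [HasRingHomProperty.Spec_iff (P := @Smooth)]
  show RingHom.Smooth (algebraMap ℂ (LaurentPolynomial ℂ))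
  rw [RingHom.smooth_algebraMap]
  have h1 : Algebra.Smooth ℂ (Polynomial ℂ) := ⟨inferInstance, inferInstance⟩
  have h2 : Algebra.Smooth (Polynomial ℂ) (LaurentPolynomial ℂ) :=
    Algebra.Smooth.of_isLocalization_Away (Polynomial.X : Polynomial ℂ)
  have h3 : IsScalarTower ℂ (Polynomial ℂ) (LaurentPolynomial ℂ) :=
    IsScalarTower.of_algebraMap_eq fun x => by
      rw [LaurentPolynomial.algebraMap_eq_toLaurent, Polynomial.algebraMap_apply,
        Algebra.algebraMap_self_apply, Polynomial.toLaurent_C, LaurentPolynomial.algebraMap_apply]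
      rfl
  exact Algebra.Smooth.comp ℂ (Polynomial ℂ) (LaurentPolynomial ℂ)

/-- the grading -/
abbrev 𝒜 : ℕ → Submodule ℤ (MvPolynomial (Fin 3) ℤ) := MvPolynomial.homogeneousSubmodule (Fin 3) ℤ

/-- evaluation at `(1, T, 1/T)` -/
def ev : MvPolynomial (Fin 3) ℤ →+* LaurentPolynomial ℂ :=
  MvPolynomial.eval₂Hom (Int.castRingHom _) ![1, T 1, T (-1)]

theorem ev_X0 : ev (MvPolynomial.X 0) = 1 := by simp [ev]
theorem ev_X1 : ev (MvPolynomial.X 1) = T 1 := by simp [ev]
theorem ev_X2 : ev (MvPolynomial.X 2) = T (-1) := by simp [ev]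

theorem isUnit_ev : IsUnit (ev (MvPolynomial.X 0)) := by rw [ev_X0]; exact isUnit_one

/-- the map of the localization -/
def ψ : Localization.Away (MvPolynomial.X 0 : MvPolynomial (Fin 3) ℤ) →+* LaurentPolynomial ℂ :=
  IsLocalization.Away.lift (MvPolynomial.X 0) isUnit_ev

/-- the map of the degree zero part -/
def θ : HomogeneousLocalization.Away 𝒜 (MvPolynomial.X 0) →+* LaurentPolynomial ℂ :=
  ψ.comp (algebraMap (HomogeneousLocalization.Away 𝒜 (MvPolynomial.X 0))
    (Localization.Away (MvPolynomial.X 0 : MvPolynomial (Fin 3) ℤ)))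

theorem X_mem (i : Fin 3) : (MvPolynomial.X i : MvPolynomial (Fin 3) ℤ) ∈ 𝒜 1 :=
  MvPolynomial.isHomogeneous_X ℤ i

theorem θ_mk (i : Fin 3) : θ (HomogeneousLocalization.Away.mk 𝒜 (X_mem 0) 1 (MvPolynomial.X i)
    (by simpa using X_mem i)) = ev (MvPolynomial.X i) := by
  unfold θ
  rw [RingHom.comp_apply, HomogeneousLocalization.algebraMap_apply,
    HomogeneousLocalization.Away.val_mk, Localization.mk_eq_mk']
  unfold ψ IsLocalization.Away.lift
  rw [IsLocalization.lift_mk'_spec]
  simp [ev_X0]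

/-- the structure morphism -/
def c : Spec (CommRingCat.of (LaurentPolynomial ℂ)) ⟶ Spec (CommRingCat.of ℂ) :=
  Spec.map (CommRingCat.ofHom (algebraMap ℂ (LaurentPolynomial ℂ)))

/-- the coordinates -/
def s : Spec (CommRingCat.of (LaurentPolynomial ℂ)) ⟶
    Spec (CommRingCat.of (HomogeneousLocalization.Away 𝒜 (MvPolynomial.X 0))) :=
  Spec.map (CommRingCat.ofHom θ)

/-- the affine space -/
abbrev P : Scheme := pullback (terminal.from (Spec (CommRingCat.of ℂ)))
  (terminal.from (Spec (CommRingCat.of (HomogeneousLocalization.Away 𝒜 (MvPolynomial.X 0)))))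

instance : IsAffine P := inferInstance

/-- the map to affine space -/
def j : Spec (CommRingCat.of (LaurentPolynomial ℂ)) ⟶ P := pullback.lift c s (Subsingleton.elim _ _)

/-- the map on global sections -/
def φ : Γ(P, ⊤) →+* LaurentPolynomial ℂ :=
  (Scheme.ΓSpecIso (CommRingCat.of (LaurentPolynomial ℂ))).hom.hom.comp (j.appTop).hom

theorem φ_fst (z : ℂ) : ∃ a, φ a = algebraMap ℂ (LaurentPolynomial ℂ) z := by
  refine ⟨((pullback.fst _ _ : P ⟶ _).appTop).hom
    ((Scheme.ΓSpecIso (CommRingCat.of ℂ)).inv.hom z), ?_⟩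
  have h : (pullback.fst _ _ : P ⟶ _).appTop ≫ j.appTop = c.appTop := by
    rw [← Scheme.Hom.comp_appTop]
    congr 1
    exact pullback.lift_fst _ _ _
  have h2 := Scheme.ΓSpecIso_naturality (CommRingCat.ofHom (algebraMap ℂ (LaurentPolynomial ℂ)))
  have h3 : (Scheme.ΓSpecIso (CommRingCat.of ℂ)).inv ≫
      ((pullback.fst _ _ : P ⟶ _).appTop ≫ j.appTop) ≫
      (Scheme.ΓSpecIso (CommRingCat.of (LaurentPolynomial ℂ))).hom =
      CommRingCat.ofHom (algebraMap ℂ (LaurentPolynomial ℂ)) := by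
    rw [h, Iso.inv_comp_eq]
    exact h2
  have h4 := congrArg (fun f => f.hom z) h3
  exact h4

theorem φ_snd (z : HomogeneousLocalization.Away 𝒜 (MvPolynomial.X 0)) : ∃ a, φ a = θ z := by
  refine ⟨((pullback.snd _ _ : P ⟶ _).appTop).hom
    ((Scheme.ΓSpecIso (CommRingCat.of (HomogeneousLocalization.Away 𝒜
      (MvPolynomial.X 0)))).inv.hom z), ?_⟩
  have h : (pullback.snd _ _ : P ⟶ _).appTop ≫ j.appTop = s.appTop := by
    rw [← Scheme.Hom.comp_appTop]
    congr 1
    exact pullback.lift_snd _ _ _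
  have h2 := Scheme.ΓSpecIso_naturality (CommRingCat.ofHom θ)
  have h3 : (Scheme.ΓSpecIso (CommRingCat.of (HomogeneousLocalization.Away 𝒜
      (MvPolynomial.X 0)))).inv ≫
      ((pullback.snd _ _ : P ⟶ _).appTop ≫ j.appTop) ≫
      (Scheme.ΓSpecIso (CommRingCat.of (LaurentPolynomial ℂ))).hom =
      CommRingCat.ofHom θ := by
    rw [h, Iso.inv_comp_eq]
    exact h2
  have h4 := congrArg (fun f => f.hom z) h3
  exact h4

theorem φ_surjective : Function.Surjective φ := by
  intro r
  change r ∈ φ.range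
  have hC : ∀ z : ℂ, LaurentPolynomial.C z ∈ φ.range := fun z => φ_fst z
  have h1 : (T 1 : LaurentPolynomial ℂ) ∈ φ.range := by
    rw [← ev_X1, ← θ_mk 1]
    exact φ_snd _
  have h2 : (T (-1) : LaurentPolynomial ℂ) ∈ φ.range := by
    rw [← ev_X2, ← θ_mk 2]
    exact φ_snd _
  induction r using LaurentPolynomial.induction_on' with
  | add p q hp hq => exact add_mem hp hq
  | C_mul_T n a =>
    apply mul_mem (hC a)
    rcases n.eq_nat_or_neg with ⟨m, rfl | rfl⟩
    · have : (T (m : ℤ) : LaurentPolynomial ℂ) = T 1 ^ m := by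
        rw [T_pow]; simp
      rw [this]
      exact pow_mem h1 m
    · have : (T (-(m : ℤ)) : LaurentPolynomial ℂ) = T (-1) ^ m := by
        rw [T_pow]; simp
      rw [this]
      exact pow_mem h2 m

instance : IsClosedImmersion j := by
  apply IsClosedImmersion.of_surjective_of_isAffine
  intro y
  obtain ⟨a, ha⟩ := φ_surjective ((Scheme.ΓSpecIso (CommRingCat.of (LaurentPolynomial ℂ))).hom.hom y)
  refine ⟨a, ?_⟩
  have hinj : Function.Injective
      (Scheme.ΓSpecIso (CommRingCat.of (LaurentPolynomial ℂ))).hom.hom :=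
    (ConcreteCategory.bijective_of_isIso
      (Scheme.ΓSpecIso (CommRingCat.of (LaurentPolynomial ℂ))).hom).1
  exact hinj ha

/-- the open immersion of affine space into projective space -/
def m : P ⟶ pullback (terminal.from (Spec (CommRingCat.of ℂ)))
    (terminal.from (Proj (MvPolynomial.homogeneousSubmodule (Fin (2 + 1)) ℤ))) :=
  pullback.map _ _ _ _ (𝟙 _) (Proj.awayι 𝒜 (MvPolynomial.X 0) (X_mem 0) one_pos) (𝟙 _)
    (Subsingleton.elim _ _) (Subsingleton.elim _ _)

instance : IsOpenImmersion m := by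
  unfold m
  infer_instance

theorem isQuasiProjective_gm : IsQuasiProjective
    (Over.mk (Spec.map (CommRingCat.ofHom (algebraMap ℂ (LaurentPolynomial ℂ))))) := by
  refine ⟨2, Over.homMk (j ≫ m) ?_, ?_⟩
  · show (j ≫ m) ≫ pullback.fst _ _ = c
    rw [Category.assoc]
    have : m ≫ pullback.fst _ _ = pullback.fst _ _ ≫ 𝟙 _ := pullback.lift_fst _ _ _
    rw [this, Category.comp_id]
    exact pullback.lift_fst _ _ _
  · show IsImmersion (j ≫ m)
    infer_instance

end Gm

/-- `Spec ℂ[T, 1/T]` is a smooth quasi-projective variety. -/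
theorem gm_mem_aux : Smooth (Over.mk (Spec.map (CommRingCat.ofHom
      (algebraMap ℂ (LaurentPolynomial ℂ)))) : SchC).hom ∧
    IsQuasiProjective (Over.mk (Spec.map (CommRingCat.ofHom
      (algebraMap ℂ (LaurentPolynomial ℂ))))) :=
  ⟨Gm.smooth_gm, Gm.isQuasiProjective_gm⟩

end Pool.Agent.MP_f4aa65_ag
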