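import Pool.Agent.MP_f4aa65_ag.Exotic
import Pool.Agent.MP_f4aa65_ag.Gm

/-!
An invariant of morphisms of the germ groupoid: the germ of the change of logarithm of a unit.
-/

open Topology unitInterval Filter CategoryTheory Limits AlgebraicGeometry Opposite

noncomputable section

namespace Pool.Agent.MP_f4aa65_ag

variable {e : NExp} {X X' : SchC}

/-- the germ of the change of the logarithm of `h` along a germ of path classes -/
def Inv (h : C(Pts X, C0)) {x y : GermObj e (Pts X) (tests X)} (γ : GermHom x y) :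
    Germ (atTop : Filter ℕ) ℂ :=
  Quotient.lift (fun p : PassSeq e (tests X) x.as y.as =>
    ((fun i => dlog h (p.1 i) : ℕ → ℂ) : Germ (atTop : Filter ℕ) ℂ)) (by
      intro p q hpq
      refine Germ.coe_eq.mpr ?_
      filter_upwards [hpq] with i hi
      rw [hi]) γ

theorem Inv_mk (h : C(Pts X, C0)) {x y : GermObj e (Pts X) (tests X)}
    (p : ℕ → Path.Homotopic.Quotient x.as y.as) (hp : ∀ τ ∈ tests X, Pass e τ p) :
    Inv h (GermHom.mk p hp) = ((fun i => dlog h (p i) : ℕ → ℂ) : Germ (atTop : Filter ℕ) ℂ) := rfl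

theorem exp_Inv (h : C(Pts X, C0)) {x y : GermObj e (Pts X) (tests X)} (γ : GermHom x y) :
    (Inv h γ).map Complex.exp = ((h y.as / h x.as : ℂ) : Germ (atTop : Filter ℕ) ℂ) := by
  obtain ⟨p, hp, rfl⟩ := γ.exists_rep
  rw [Inv_mk, Germ.map_coe]
  refine Germ.coe_eq.mpr (Eventually.of_forall fun i => ?_)
  exact exp_dlog h _

theorem Inv_map {g : X ⟶ X'} (h : C(Pts X', C0)) (h' : C(Pts X, C0)) (n : ℕ)
    (hh : ∀ x : Pts X, (h (x ≫ g) : ℂ) = h' x ^ n)
    {x y : GermObj e (Pts X) (tests X)} (γ : GermHom x y) :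
    Inv h (GermHom.map (compat_tests g) γ) = (Inv h' γ).map (fun z : ℂ => (n : ℂ) * z) := by
  obtain ⟨p, hp, rfl⟩ := γ.exists_rep
  rw [Inv_mk, Germ.map_coe, GermHom.map_mk, Inv_mk]
  refine Germ.coe_eq.mpr (Eventually.of_forall fun i => ?_)
  simp only [Function.comp_apply]
  rw [dlog_map]
  exact dlog_pow n hh _

/-- the invariant for a unit, on morphisms of the germ groupoid -/
theorem exists_Inv (h : Γ(X.left, ⊤)ˣ) {x y : GermObj e (Pts X) (tests X)} (γ : GermHom x y) :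
    ∃ c : ℂ, ∀ n : ℕ, 0 < n → (Inv (unitFun h) γ).map (fun z => Complex.exp (z / n)) =
      ((e.E (c / n) : ℂ) : Germ (atTop : Filter ℕ) ℂ) := by
  obtain ⟨p, hp, rfl⟩ := γ.exists_rep
  have hid : IsFinite (𝟙 X : X ⟶ X).left := by
    rw [Over.id_left]; infer_instance
  have het : Etale (𝟙 X : X ⟶ X).left := by
    rw [Over.id_left]; infer_instance
  have hx : x.as ∈ (fun z : Pts X => z ≫ 𝟙 X) ⁻¹' {x.as} := Category.comp_id x.as
  obtain ⟨b, hb, c, hc⟩ := hp _ (mkTest_mem (𝟙 X) h) ⟨x.as, hx⟩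
  refine ⟨c, fun n hn => ?_⟩
  rw [Inv_mk, Germ.map_coe]
  refine Germ.coe_eq.mpr ?_
  filter_upwards [hc n hn] with i hi
  simp only [Function.comp_apply]
  rw [← hi]
  congr 2
  have hy : y.as ∈ (fun z : Pts X => z ≫ 𝟙 X) ⁻¹' {y.as} := Category.comp_id y.as
  refine ((windL_eq (isCoveringMap_pts (𝟙 X)) (unitFun h) (p i) ⟨x.as, hx⟩ ⟨y.as, hy⟩
    (p i) ?_).2).symm
  exact quotient_map_eq_cast (g := ⟨fun z : Pts X => z ≫ 𝟙 X, _⟩) (fun z => Category.comp_id z) (p i)

end Pool.Agent.MP_f4aa65_ag
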