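import Mathlib

/-!
L4: a set of roots of an irreducible monic polynomial over `ℂ[x₁, …, xₙ]` that is locally
constant along coordinate lines is everything or nothing.
-/

open Filter Topology Polynomial

namespace Pool.Agent.MP_f4aa65_ag

namespace Irred

/-- an entire function of polynomial growth is a polynomial -/
lemma entire_poly (F : ℂ → ℂ) (hF : Differentiable ℂ F) (K : ℝ) (N : ℕ)
    (hK : ∀ z, ‖F z‖ ≤ K * (1 + ‖z‖) ^ N) :
    ∃ P : ℂ[X], P.natDegree ≤ N ∧ ∀ z, F z = P.eval z := by
  have hK0 : 0 ≤ K := by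
    have := hK 0
    simp only [norm_zero, add_zero, one_pow, mul_one] at this
    exact (norm_nonneg _).trans this
  have hvan : ∀ n, N < n → iteratedDeriv n F 0 = 0 := by
    intro n hn
    by_contra hne
    have hc : 0 < ‖iteratedDeriv n F 0‖ := norm_pos_iff.mpr hne
    set c := ‖iteratedDeriv n F 0‖ with hcdef
    set A : ℝ := n.factorial * (K * 2 ^ N) with hA
    have hA0 : 0 ≤ A := by positivity
    set R : ℝ := A / c + 1 with hR
    have hR1 : 1 ≤ R := by
      have : 0 ≤ A / c := by positivity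
      linarith
    have hR0 : 0 < R := by linarith
    have h1 := Complex.norm_iteratedDeriv_le_of_forall_mem_sphere_norm_le (c := (0 : ℂ)) n hR0
      (f := F) hF.diffContOnCl (C := K * (1 + R) ^ N) (fun z hz => by
        have : ‖z‖ = R := by simpa using hz
        rw [← this]; exact hK z)
    have h2 : n.factorial * (K * (1 + R) ^ N) / R ^ n ≤ A / R := by
      rw [div_le_div_iff₀ (by positivity) hR0]
      have h3 : (1 + R) ^ N ≤ 2 ^ N * R ^ N := by
        rw [← mul_pow]
        exact pow_le_pow_left₀ (by linarith) (by linarith) _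
      have h4 : R ^ N * R ≤ R ^ n := by
        rw [← pow_succ]
        exact pow_le_pow_right₀ hR1 hn
      calc n.factorial * (K * (1 + R) ^ N) * R ≤ n.factorial * (K * (2 ^ N * R ^ N)) * R := by
            gcongr
        _ = A * (R ^ N * R) := by rw [hA]; ring
        _ ≤ A * R ^ n := by gcongr
    have h5 : c ≤ A / R := h1.trans h2
    rw [le_div_iff₀ hR0, hR, mul_add, mul_div_cancel₀ _ hc.ne'] at h5
    linarith
  refine ⟨∑ n ∈ Finset.range (N + 1), C ((n.factorial : ℂ)⁻¹ * iteratedDeriv n F 0) * X ^ n,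
    ?_, ?_⟩
  · apply natDegree_sum_le_of_forall_le
    intro n hn
    have := Finset.mem_range.mp hn
    exact (natDegree_C_mul_X_pow_le _ _).trans (by omega)
  · intro z
    have h := Complex.taylorSeries_eq_of_entire' 0 z hF
    rw [← h, tsum_eq_sum (s := Finset.range (N + 1)), eval_finsetSum]
    · apply Finset.sum_congr rfl
      intro n _
      simp
    · intro n hn
      rw [Finset.mem_range] at hn
      rw [hvan n (by omega)]
      simp

/-- growth of polynomials -/
lemma poly_growth (p : ℂ[X]) (N : ℕ) (hp : p.natDegree ≤ N) :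
    ∃ K : ℝ, 0 ≤ K ∧ ∀ z, ‖p.eval z‖ ≤ K * (1 + ‖z‖) ^ N := by
  refine ⟨∑ k ∈ Finset.range (N + 1), ‖p.coeff k‖, Finset.sum_nonneg fun _ _ => norm_nonneg _, ?_⟩
  intro z
  rw [eval_eq_sum_range' (Nat.lt_succ_of_le hp), Finset.sum_mul]
  refine (norm_sum_le _ _).trans (Finset.sum_le_sum fun k hk => ?_)
  rw [norm_mul, norm_pow]
  have hk' : k ≤ N := Nat.lt_succ_iff.mp (Finset.mem_range.mp hk)
  gcongr
  calc ‖z‖ ^ k ≤ (1 + ‖z‖) ^ k := pow_le_pow_left₀ (norm_nonneg _) (by linarith) _
    _ ≤ (1 + ‖z‖) ^ N := pow_le_pow_right₀ (by linarith [norm_nonneg z]) hk'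

lemma norm_prod_ge (t : ℂ) (m : ℝ) (hm : 0 ≤ m) (s : Multiset ℂ) :
    (∀ r ∈ s, m ≤ ‖t - r‖) → m ^ s.card ≤ ‖(s.map (fun r => t - r)).prod‖ := by
  induction s using Multiset.induction with
  | empty => intro _; simp
  | cons a s ih =>
    intro h
    rw [Multiset.card_cons, Multiset.map_cons, Multiset.prod_cons, norm_mul, pow_succ, mul_comm]
    exact mul_le_mul (h a (Multiset.mem_cons_self _ _))
      (ih fun r hr => h r (Multiset.mem_cons_of_mem hr)) (by positivity) (norm_nonneg _)

/-- the root nearest to `t` -/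
lemma exists_near_root (p : ℂ[X]) (hp : p.Monic) (hd : 1 ≤ p.natDegree) (t : ℂ) :
    ∃ r, p.eval r = 0 ∧ ‖r - t‖ ^ p.natDegree ≤ ‖p.eval t‖ := by
  classical
  have hs : p.Splits := IsAlgClosed.splits p
  have hcard : p.roots.card = p.natDegree := (splits_iff_card_roots.mp hs)
  have hne : p.roots.toFinset.Nonempty := by
    rw [Multiset.toFinset_nonempty]
    intro h
    rw [h] at hcard
    simp at hcard
    omega
  obtain ⟨r, hr, hmin⟩ := Finset.exists_min_image p.roots.toFinset (fun r => ‖t - r‖) hne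
  rw [Multiset.mem_toFinset] at hr
  refine ⟨r, (mem_roots'.mp hr).2, ?_⟩
  have h1 : p.eval t = (p.roots.map (fun r => t - r)).prod :=
    hs.eval_eq_prod_roots_of_monic hp t
  rw [h1, ← hcard, norm_sub_rev]
  exact norm_prod_ge t _ (norm_nonneg _) _ (fun r' hr' => hmin r' (Multiset.mem_toFinset.mpr hr'))

lemma eval_sub_eval (p : ℂ[X]) (z z₀ : ℂ) :
    p.eval z - p.eval z₀ = (z - z₀) * (p /ₘ (X - C z₀)).eval z := by
  conv_lhs => rw [← modByMonic_add_div p (X - C z₀)]
  rw [modByMonic_X_sub_C_eq_C_eval]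
  simp

/-- specialisation of the coefficients -/
noncomputable def sp (G : ℂ[X][X]) (z : ℂ) : ℂ[X] := G.map (evalRingHom z)

lemma sp_eval (G : ℂ[X][X]) (z t : ℂ) : (sp G z).eval t =
    ∑ k ∈ Finset.range (G.natDegree + 1), (G.coeff k).eval z * t ^ k := by
  rw [sp, eval_map, eval₂_eq_sum_range]
  rfl

lemma sp_differentiableAt (G : ℂ[X][X]) (τ : ℂ → ℂ) (z₀ : ℂ) (hτ : DifferentiableAt ℂ τ z₀) :
    DifferentiableAt ℂ (fun z => (sp G z).eval (τ z)) z₀ := by
  simp only [sp_eval]
  apply DifferentiableAt.fun_sum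
  intro k _
  exact ((G.coeff k).differentiable.differentiableAt).mul (hτ.pow k)

lemma sp_continuous (G : ℂ[X][X]) (t : ℂ) : Continuous (fun z => (sp G z).eval t) := by
  simp only [sp_eval]
  apply continuous_finsetSum
  intro k _
  exact ((G.coeff k).continuous).mul continuous_const

lemma sp_monic {G : ℂ[X][X]} (hG : G.Monic) (z : ℂ) : (sp G z).Monic := hG.map _

lemma sp_natDegree {G : ℂ[X][X]} (hG : G.Monic) (z : ℂ) : (sp G z).natDegree = G.natDegree :=
  hG.natDegree_map _

lemma sp_bezout {G a b : ℂ[X][X]} {D : ℂ[X]} (hab : a * G + b * derivative G = C D) (z : ℂ) :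
    sp a z * sp G z + sp b z * derivative (sp G z) = C (D.eval z) := by
  have := congrArg (fun p => p.map (evalRingHom z)) hab
  simp only [Polynomial.map_add, Polynomial.map_mul, map_C, coe_evalRingHom] at this
  rw [← this, sp, sp, sp, derivative_map]

lemma sp_deriv_ne {G a b : ℂ[X][X]} {D : ℂ[X]} (hab : a * G + b * derivative G = C D) {z t : ℂ}
    (ht : (sp G z).eval t = 0) :
    (sp b z).eval t * (derivative (sp G z)).eval t = D.eval z := by
  have := congrArg (eval t) (sp_bezout hab z)
  simp only [eval_add, eval_mul, ht, mul_zero, zero_add, eval_C] at this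
  exact this

lemma sp_nodup {G a b : ℂ[X][X]} {D : ℂ[X]} (hab : a * G + b * derivative G = C D) {z : ℂ}
    (hz : D.eval z ≠ 0) : (sp G z).roots.Nodup := by
  apply nodup_roots
  refine ⟨C (D.eval z)⁻¹ * sp a z, C (D.eval z)⁻¹ * sp b z, ?_⟩
  have := sp_bezout hab z
  calc C (D.eval z)⁻¹ * sp a z * sp G z + C (D.eval z)⁻¹ * sp b z * derivative (sp G z)
      = C (D.eval z)⁻¹ * (sp a z * sp G z + sp b z * derivative (sp G z)) := by ring
    _ = 1 := by rw [this, ← C_mul, inv_mul_cancel₀ hz, C_1]

lemma sp_card {G a b : ℂ[X][X]} {D : ℂ[X]} (hG : G.Monic)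
    (hab : a * G + b * derivative G = C D) {z : ℂ}
    (hz : D.eval z ≠ 0) : (sp G z).roots.toFinset.card = G.natDegree := by
  rw [Multiset.toFinset_card_of_nodup (sp_nodup hab hz), ← sp_natDegree hG z]
  exact splits_iff_card_roots.mp (IsAlgClosed.splits _)

lemma mem_sp_roots {G : ℂ[X][X]} (hG : G.Monic) {z t : ℂ} :
    t ∈ (sp G z).roots.toFinset ↔ (sp G z).eval t = 0 := by
  rw [Multiset.mem_toFinset, mem_roots (sp_monic hG z).ne_zero]
  rfl

lemma tendsto_root {G : ℂ[X][X]} {τ : ℂ → ℂ} {t₀ z₀ : ℂ}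
    (h1 : ∀ z, ‖τ z - t₀‖ ^ G.natDegree ≤ ‖(sp G z).eval t₀‖)
    (h0 : (sp G z₀).eval t₀ = 0) : Tendsto τ (𝓝 z₀) (𝓝 t₀) := by
  rw [Metric.tendsto_nhds]
  intro ε hε
  have h2 : Tendsto (fun z => ‖(sp G z).eval t₀‖) (𝓝 z₀) (𝓝 0) := by
    have := ((sp_continuous G t₀).norm).tendsto z₀
    simpa [h0] using this
  filter_upwards [h2.eventually (gt_mem_nhds (show (0 : ℝ) < ε ^ G.natDegree by positivity))]
    with z hz
  rw [dist_eq_norm]
  exact lt_of_pow_lt_pow_left₀ _ hε.le ((h1 z).trans_lt hz)

lemma diff_root {G a b : ℂ[X][X]} {D : ℂ[X]}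
    (hab : a * G + b * derivative G = C D) {τ : ℂ → ℂ} {t₀ z₀ : ℂ} (hz : D.eval z₀ ≠ 0)
    (h1 : ∀ z, ‖τ z - t₀‖ ^ G.natDegree ≤ ‖(sp G z).eval t₀‖)
    (h2 : ∀ z, (sp G z).eval (τ z) = 0)
    (h0 : (sp G z₀).eval t₀ = 0) : DifferentiableAt ℂ τ z₀ := by
  have ht := tendsto_root h1 h0
  have hτ0 : τ z₀ = t₀ := by
    have := h1 z₀
    rw [h0, norm_zero] at this
    have h3 : ‖τ z₀ - t₀‖ = 0 := by
      by_contra hne
      have : 0 < ‖τ z₀ - t₀‖ ^ G.natDegree := by positivity
      linarith
    rwa [norm_eq_zero, sub_eq_zero] at h3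
  set Q := (sp G z₀) /ₘ (X - C t₀) with hQ
  have hQ1 : ∀ s, (s - t₀) * Q.eval s = (sp G z₀).eval s := by
    intro s
    rw [← eval_sub_eval, h0, sub_zero]
  have hQ2 : Q.eval t₀ = (derivative (sp G z₀)).eval t₀ := by
    have h3 : sp G z₀ = (X - C t₀) * Q := by
      have h4 := modByMonic_add_div (sp G z₀) (X - C t₀)
      rw [modByMonic_X_sub_C_eq_C_eval, h0, C_0, zero_add] at h4
      exact h4.symm
    conv_rhs => rw [h3]
    simp
  have hQ3 : Q.eval t₀ ≠ 0 := by
    intro h
    have := sp_deriv_ne hab h0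
    rw [← hQ2, h, mul_zero] at this
    exact hz this.symm
  set W : ℂ → ℂ := fun z => ∑ k ∈ Finset.range (G.natDegree + 1),
    ((G.coeff k) /ₘ (X - C z₀)).eval z * (τ z) ^ k with hW
  have hkey : ∀ z, (τ z - t₀) * Q.eval (τ z) = -((z - z₀) * W z) := by
    intro z
    rw [hQ1, hW, Finset.mul_sum, ← Finset.sum_neg_distrib]
    have h3 : (sp G z₀).eval (τ z) = (sp G z₀).eval (τ z) - (sp G z).eval (τ z) := by
      rw [h2 z, sub_zero]
    rw [h3, sp_eval, sp_eval, ← Finset.sum_sub_distrib]
    apply Finset.sum_congr rfl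
    intro k _
    have := eval_sub_eval (G.coeff k) z z₀
    linear_combination (-(τ z) ^ k) * this
  have hWt : Tendsto W (𝓝 z₀) (𝓝 (∑ k ∈ Finset.range (G.natDegree + 1),
      ((G.coeff k) /ₘ (X - C z₀)).eval z₀ * t₀ ^ k)) := by
    apply tendsto_finsetSum
    intro k _
    exact ((((G.coeff k) /ₘ (X - C z₀)).continuous).tendsto z₀).mul (ht.pow k)
  have hQt : Tendsto (fun z => Q.eval (τ z)) (𝓝 z₀) (𝓝 (Q.eval t₀)) :=
    (Q.continuous.tendsto t₀).comp ht
  have hlim : Tendsto (fun z => -(W z / Q.eval (τ z))) (𝓝 z₀)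
      (𝓝 (-((∑ k ∈ Finset.range (G.natDegree + 1),
      ((G.coeff k) /ₘ (X - C z₀)).eval z₀ * t₀ ^ k) / Q.eval t₀))) := (hWt.div hQt hQ3).neg
  have hderiv : HasDerivAt τ (-((∑ k ∈ Finset.range (G.natDegree + 1),
      ((G.coeff k) /ₘ (X - C z₀)).eval z₀ * t₀ ^ k) / Q.eval t₀)) z₀ := by
    rw [hasDerivAt_iff_tendsto_slope]
    refine (hlim.mono_left nhdsWithin_le_nhds).congr' ?_
    have h5 : ∀ᶠ z in 𝓝[≠] z₀, Q.eval (τ z) ≠ 0 :=
      (hQt.eventually_ne hQ3).filter_mono nhdsWithin_le_nhds
    filter_upwards [h5, self_mem_nhdsWithin] with z h6 h7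
    have h8 : z - z₀ ≠ 0 := sub_ne_zero.mpr h7
    rw [slope_def_field, hτ0]
    have := hkey z
    field_simp
    linear_combination -this
  exact hderiv.differentiableAt

open Classical in
/-- the partial trace -/
noncomputable def tr (G q : ℂ[X][X]) (e : ℂ → ℂ → Prop) (z : ℂ) : ℂ :=
  ∑ t ∈ (sp G z).roots.toFinset.filter (e z), (sp q z).eval t

lemma tr_diff {G a b : ℂ[X][X]} {D : ℂ[X]} (hG : G.Monic) (hd : G.natDegree ≠ 0)
    (hab : a * G + b * derivative G = C D) (q : ℂ[X][X]) (e : ℂ → ℂ → Prop)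
    {z₀ : ℂ} (hz : D.eval z₀ ≠ 0)
    (hloc : ∀ t, (sp G z₀).eval t = 0 → ∃ ε > 0, ∀ z t' : ℂ,
        ‖z - z₀‖ < ε → ‖t' - t‖ < ε → D.eval z ≠ 0 → (sp G z).eval t' = 0 →
        (e z₀ t ↔ e z t')) : DifferentiableAt ℂ (tr G q e) z₀ := by
  classical
  have hex : ∀ t z, ∃ r, (sp G z).eval r = 0 ∧ ‖r - t‖ ^ G.natDegree ≤ ‖(sp G z).eval t‖ := by
    intro t z
    have := exists_near_root (sp G z) (sp_monic hG z) (by rw [sp_natDegree hG]; omega) t
    rwa [sp_natDegree hG] at this
  choose τ hτ0 hτ1 using hex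
  set R₀ := (sp G z₀).roots.toFinset with hR₀
  have htend : ∀ t ∈ R₀, Tendsto (τ t) (𝓝 z₀) (𝓝 t) := fun t ht =>
    tendsto_root (hτ1 t) ((mem_sp_roots hG).mp ht)
  have hdiff : ∀ t ∈ R₀, DifferentiableAt ℂ (τ t) z₀ := fun t ht =>
    diff_root hab hz (hτ1 t) (hτ0 t) ((mem_sp_roots hG).mp ht)
  have hD : ∀ᶠ z in 𝓝 z₀, D.eval z ≠ 0 := (D.continuous.tendsto z₀).eventually_ne hz
  have hinj : ∀ᶠ z in 𝓝 z₀, ∀ t ∈ R₀, ∀ t' ∈ R₀, t ≠ t' → τ t z ≠ τ t' z := by
    rw [Filter.eventually_all_finset]
    intro t ht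
    rw [Filter.eventually_all_finset]
    intro t' ht'
    by_cases htt : t = t'
    · filter_upwards with z h
      exact absurd htt h
    · filter_upwards [((htend t ht).sub (htend t' ht')).eventually_ne (sub_ne_zero.mpr htt)]
        with z h _
      exact sub_ne_zero.mp h
  have he : ∀ᶠ z in 𝓝 z₀, ∀ t ∈ R₀, (e z₀ t ↔ e z (τ t z)) := by
    rw [Filter.eventually_all_finset]
    intro t ht
    obtain ⟨ε, hε, h⟩ := hloc t ((mem_sp_roots hG).mp ht)
    have h1 : ∀ᶠ z in 𝓝 z₀, ‖z - z₀‖ < ε := by
      filter_upwards [Metric.ball_mem_nhds z₀ hε] with z hz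
      rwa [← dist_eq_norm]
    have h2 : ∀ᶠ z in 𝓝 z₀, ‖τ t z - t‖ < ε := by
      filter_upwards [(htend t ht).eventually (Metric.ball_mem_nhds t hε)] with z hz
      rwa [← dist_eq_norm]
    filter_upwards [h1, h2, hD] with z h3 h4 h5
    exact h z (τ t z) h3 h4 h5 (hτ0 t z)
  have hev : tr G q e =ᶠ[𝓝 z₀] fun z => ∑ t ∈ R₀.filter (e z₀), (sp q z).eval (τ t z) := by
    filter_upwards [hD, hinj, he] with z h1 h2 h3
    have h4 : Set.InjOn (fun t => τ t z) (R₀ : Set ℂ) := by
      intro t ht t' ht' htt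
      by_contra hne
      exact h2 t ht t' ht' hne htt
    have h5 : (sp G z).roots.toFinset = R₀.image (fun t => τ t z) := by
      symm
      apply Finset.eq_of_subset_of_card_le
      · intro s hs
        obtain ⟨t, ht, rfl⟩ := Finset.mem_image.mp hs
        exact (mem_sp_roots hG).mpr (hτ0 t z)
      · rw [Finset.card_image_of_injOn h4, sp_card hG hab h1, sp_card hG hab hz]
    unfold tr
    rw [h5, Finset.filter_image, Finset.sum_image]
    · apply Finset.sum_congr _ (fun _ _ => rfl)
      apply Finset.filter_congr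
      intro t ht
      exact (h3 t ht).symm
    · intro t ht t' ht' htt
      exact h4 (Finset.mem_of_mem_filter t ht) (Finset.mem_of_mem_filter t' ht') htt
  refine DifferentiableAt.congr_of_eventuallyEq ?_ hev
  apply DifferentiableAt.fun_sum
  intro t ht
  exact sp_differentiableAt q (τ t) z₀ (hdiff t (Finset.mem_of_mem_filter t ht))

/-- growth of the partial trace -/
lemma tr_growth {G : ℂ[X][X]} (hG : G.Monic) (q : ℂ[X][X]) (e : ℂ → ℂ → Prop) (N : ℕ)
    (hGN : ∀ k, (G.coeff k).natDegree ≤ N) (hqN : ∀ k, (q.coeff k).natDegree ≤ N) :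
    ∃ K : ℝ, 0 ≤ K ∧ ∀ z, ‖tr G q e z‖ ≤ K * (1 + ‖z‖) ^ (N + N * q.natDegree) := by
  classical
  choose A hA0 hA using fun k => poly_growth (G.coeff k) N (hGN k)
  choose B hB0 hB using fun k => poly_growth (q.coeff k) N (hqN k)
  set S : ℝ := 1 + ∑ k ∈ Finset.range G.natDegree, A k with hS
  have hS1 : 1 ≤ S := by
    have : 0 ≤ ∑ k ∈ Finset.range G.natDegree, A k := Finset.sum_nonneg fun k _ => hA0 k
    linarith
  -- bound for the roots
  have hroot : ∀ z t, (sp G z).eval t = 0 → ‖t‖ ≤ S * (1 + ‖z‖) ^ N := by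
    intro z t ht
    have hz1 : (1 : ℝ) ≤ (1 + ‖z‖) ^ N := one_le_pow₀ (by linarith [norm_nonneg z])
    rcases le_or_gt ‖t‖ 1 with h1 | h1
    · calc ‖t‖ ≤ 1 * 1 := by linarith
        _ ≤ S * (1 + ‖z‖) ^ N := by gcongr
    · have h2 : t ^ G.natDegree = -∑ k ∈ Finset.range G.natDegree, (G.coeff k).eval z * t ^ k := by
        rw [sp_eval, Finset.sum_range_succ, hG.coeff_natDegree, eval_one, one_mul] at ht
        linear_combination ht
      rcases Nat.eq_zero_or_pos G.natDegree with h3 | h3
      · rw [h3] at h2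
        simp at h2
      · obtain ⟨m, hm⟩ : ∃ m, G.natDegree = m + 1 := ⟨G.natDegree - 1, by omega⟩
        have h4 : ‖t‖ ^ (m + 1) ≤ (∑ k ∈ Finset.range G.natDegree, A k) * (1 + ‖z‖) ^ N * ‖t‖ ^ m := by
          rw [← norm_pow, ← hm, h2, norm_neg, Finset.sum_mul, Finset.sum_mul]
          refine (norm_sum_le _ _).trans (Finset.sum_le_sum fun k hk => ?_)
          rw [norm_mul, norm_pow]
          have hk' : k ≤ m := by
            have := Finset.mem_range.mp hk
            omega
          have h5 : ‖t‖ ^ k ≤ ‖t‖ ^ m := pow_le_pow_right₀ h1.le hk'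
          exact mul_le_mul (hA k z) h5 (by positivity) (by have := hA0 k; positivity)
        have h6 : 0 < ‖t‖ ^ m := by positivity
        have h7 : ‖t‖ ≤ (∑ k ∈ Finset.range G.natDegree, A k) * (1 + ‖z‖) ^ N := by
          rw [pow_succ, mul_comm] at h4
          exact le_of_mul_le_mul_right h4 h6
        refine h7.trans ?_
        gcongr
        linarith
  set m := q.natDegree with hm
  refine ⟨G.natDegree * ∑ k ∈ Finset.range (m + 1), B k * S ^ m, ?_, ?_⟩
  · have : ∀ k, 0 ≤ B k * S ^ m := fun k => by have := hB0 k; positivity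
    have := Finset.sum_nonneg (s := Finset.range (m + 1)) fun k _ => this k
    positivity
  intro z
  have hz1 : (1 : ℝ) ≤ (1 + ‖z‖) := by linarith [norm_nonneg z]
  have hterm : ∀ t ∈ (sp G z).roots.toFinset.filter (e z), ‖(sp q z).eval t‖ ≤
      (∑ k ∈ Finset.range (m + 1), B k * S ^ m) * (1 + ‖z‖) ^ (N + N * m) := by
    intro t ht
    have ht' := hroot z t ((mem_sp_roots hG).mp (Finset.mem_of_mem_filter t ht))
    rw [sp_eval, Finset.sum_mul]
    refine (norm_sum_le _ _).trans (Finset.sum_le_sum fun k hk => ?_)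
    rw [norm_mul, norm_pow]
    have hk' : k ≤ m := by
      have := Finset.mem_range.mp hk
      omega
    have h5 : ‖t‖ ^ k ≤ S ^ m * (1 + ‖z‖) ^ (N * m) := by
      calc ‖t‖ ^ k ≤ (S * (1 + ‖z‖) ^ N) ^ k := pow_le_pow_left₀ (norm_nonneg _) ht' _
        _ ≤ (S * (1 + ‖z‖) ^ N) ^ m := by
            apply pow_le_pow_right₀ _ hk'
            calc (1 : ℝ) = 1 * 1 := by ring
              _ ≤ S * (1 + ‖z‖) ^ N := by
                  have : (1 : ℝ) ≤ (1 + ‖z‖) ^ N := one_le_pow₀ hz1
                  gcongr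
        _ = S ^ m * (1 + ‖z‖) ^ (N * m) := by rw [mul_pow, pow_mul]
    calc ‖(q.coeff k).eval z‖ * ‖t‖ ^ k ≤ (B k * (1 + ‖z‖) ^ N) * (S ^ m * (1 + ‖z‖) ^ (N * m)) :=
          mul_le_mul (hB k z) h5 (by positivity) (by have := hB0 k; positivity)
      _ = B k * S ^ m * (1 + ‖z‖) ^ (N + N * m) := by rw [pow_add]; ring
  have hcard : ((((sp G z).roots.toFinset.filter (e z)).card : ℕ) : ℝ) ≤ G.natDegree := by
    have h1 : ((sp G z).roots.toFinset.filter (e z)).card ≤ (sp G z).roots.card :=
      (Finset.card_filter_le _ _).trans (Multiset.toFinset_card_le _)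
    have h2 := card_roots' (sp G z)
    rw [sp_natDegree hG] at h2
    exact_mod_cast h1.trans h2
  have hC0 : 0 ≤ (∑ k ∈ Finset.range (m + 1), B k * S ^ m) * (1 + ‖z‖) ^ (N + N * m) := by
    have : ∀ k, 0 ≤ B k * S ^ m := fun k => by have := hB0 k; positivity
    have := Finset.sum_nonneg (s := Finset.range (m + 1)) fun k _ => this k
    positivity
  calc ‖tr G q e z‖ ≤ ∑ t ∈ (sp G z).roots.toFinset.filter (e z), ‖(sp q z).eval t‖ :=
        norm_sum_le _ _
    _ ≤ ((sp G z).roots.toFinset.filter (e z)).card •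
        ((∑ k ∈ Finset.range (m + 1), B k * S ^ m) * (1 + ‖z‖) ^ (N + N * m)) :=
        Finset.sum_le_card_nsmul _ _ _ hterm
    _ = (((sp G z).roots.toFinset.filter (e z)).card : ℝ) *
        ((∑ k ∈ Finset.range (m + 1), B k * S ^ m) * (1 + ‖z‖) ^ (N + N * m)) := by
        rw [nsmul_eq_mul]
    _ ≤ G.natDegree *
        ((∑ k ∈ Finset.range (m + 1), B k * S ^ m) * (1 + ‖z‖) ^ (N + N * m)) := by gcongr
    _ = _ := by ring

/-- `D` times the partial trace is a polynomial on a line -/
lemma one_var {G a b : ℂ[X][X]} {D : ℂ[X]} (hG : G.Monic) (hd : G.natDegree ≠ 0)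
    (hD : D ≠ 0) (hab : a * G + b * derivative G = C D) (q : ℂ[X][X]) (e : ℂ → ℂ → Prop)
    (hloc : ∀ z₀ t, D.eval z₀ ≠ 0 → (sp G z₀).eval t = 0 → ∃ ε > 0, ∀ z t' : ℂ,
        ‖z - z₀‖ < ε → ‖t' - t‖ < ε → D.eval z ≠ 0 → (sp G z).eval t' = 0 →
        (e z₀ t ↔ e z t'))
    (N : ℕ) (hDN : D.natDegree ≤ N)
    (hGN : ∀ k, (G.coeff k).natDegree ≤ N) (hqN : ∀ k, (q.coeff k).natDegree ≤ N) :
    ∃ P : ℂ[X], P.natDegree ≤ N + (N + N * q.natDegree) ∧
      ∀ z, D.eval z * tr G q e z = P.eval z := by
  obtain ⟨K, hK0, hK⟩ := tr_growth hG q e N hGN hqN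
  obtain ⟨A, hA0, hA⟩ := poly_growth D N hDN
  have hdiffne : ∀ z₀, D.eval z₀ ≠ 0 → DifferentiableAt ℂ (fun z => D.eval z * tr G q e z) z₀ := by
    intro z₀ hz₀
    exact (D.differentiable.differentiableAt).mul
      (tr_diff hG hd hab q e hz₀ (fun t ht => hloc z₀ t hz₀ ht))
  apply entire_poly _ _ (A * K)
  · intro z
    rw [norm_mul]
    calc ‖D.eval z‖ * ‖tr G q e z‖ ≤ (A * (1 + ‖z‖) ^ N) *
          (K * (1 + ‖z‖) ^ (N + N * q.natDegree)) :=
          mul_le_mul (hA z) (hK z) (norm_nonneg _) (by positivity)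
      _ = A * K * (1 + ‖z‖) ^ (N + (N + N * q.natDegree)) := by rw [pow_add]; ring
  · intro z₀
    by_cases hz₀ : D.eval z₀ = 0
    · -- removable singularity
      have hcont : ContinuousAt (fun z => D.eval z * tr G q e z) z₀ := by
        have h1 : Tendsto (fun z => D.eval z * tr G q e z) (𝓝 z₀) (𝓝 0) := by
          apply squeeze_zero_norm (a := fun z => ‖D.eval z‖ *
            (K * (1 + ‖z‖) ^ (N + N * q.natDegree)))
          · intro z
            rw [norm_mul]
            exact mul_le_mul_of_nonneg_left (hK z) (norm_nonneg _)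
          · have h2 : Continuous (fun z : ℂ => ‖D.eval z‖ *
                (K * (1 + ‖z‖) ^ (N + N * q.natDegree))) := by
              have := D.continuous
              fun_prop
            have := h2.tendsto z₀
            simpa [hz₀] using this
        have h3 : D.eval z₀ * tr G q e z₀ = 0 := by simp [hz₀]
        rw [ContinuousAt, h3]
        exact h1
      have hiso : ∀ᶠ z in 𝓝 z₀, z ∈ ({z | D.eval z ≠ 0} ∪ {z₀} : Set ℂ) := by
        have h1 : (D.roots.toFinset.erase z₀ : Set ℂ)ᶜ ∈ 𝓝 z₀ := by
          apply IsOpen.mem_nhds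
          · exact (Finset.finite_toSet _).isClosed.isOpen_compl
          · simp
        filter_upwards [h1] with z hz
        by_cases h : z = z₀
        · exact Or.inr h
        · left
          intro h0
          apply hz
          simp only [Finset.coe_erase, Set.mem_sdiff, Finset.mem_coe, Multiset.mem_toFinset,
            Set.mem_singleton_iff]
          exact ⟨(mem_roots hD).mpr h0, h⟩
      have h2 := (Complex.differentiableOn_compl_singleton_and_continuousAt_iff
        (f := fun z => D.eval z * tr G q e z) (c := z₀) hiso).mp ⟨by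
          intro z hz
          obtain ⟨hz1, hz2⟩ := hz
          rcases hz1 with h | h
          · exact (hdiffne z h).differentiableWithinAt
          · exact absurd h hz2, hcont⟩
      exact h2.differentiableAt hiso
    · exact hdiffne z₀ hz₀

/-- a function which is polynomial of bounded degree in each variable is a polynomial -/
lemma sep_poly (B : ℕ) : ∀ (n : ℕ) (F : (Fin n → ℂ) → ℂ),
    (∀ u i, ∃ P : ℂ[X], P.natDegree ≤ B ∧ ∀ z, F (Function.update u i z) = P.eval z) →
    ∃ f : MvPolynomial (Fin n) ℂ, ∀ u, F u = MvPolynomial.eval u f := by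
  intro n
  induction n with
  | zero =>
    intro F _
    refine ⟨MvPolynomial.C (F default), fun u => ?_⟩
    rw [MvPolynomial.eval_C, Subsingleton.elim u default]
  | succ n ih =>
    intro F hF
    have hj : ∀ j : ℕ, ∃ f : MvPolynomial (Fin n) ℂ, ∀ w, F (Fin.cons (j : ℂ) w) =
        MvPolynomial.eval w f := by
      intro j
      apply ih (fun w => F (Fin.cons (j : ℂ) w))
      intro w i
      obtain ⟨P, hP1, hP2⟩ := hF (Fin.cons (j : ℂ) w) i.succ
      refine ⟨P, hP1, fun z => ?_⟩
      rw [← hP2 z, Fin.cons_update]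
    choose f hf using hj
    refine ⟨∑ j ∈ Finset.range (B + 1), MvPolynomial.rename Fin.succ (f j) *
      (Polynomial.aeval (MvPolynomial.X 0 : MvPolynomial (Fin (n + 1)) ℂ))
        (Lagrange.basis (Finset.range (B + 1)) (fun j : ℕ => (j : ℂ)) j), fun u => ?_⟩
    obtain ⟨P, hP1, hP2⟩ := hF u 0
    have hinj : Set.InjOn (fun j : ℕ => (j : ℂ)) (Finset.range (B + 1) : Set ℕ) := by
      intro i _ j _ hij
      exact Nat.cast_injective hij
    have hdeg : P.degree < (Finset.range (B + 1)).card := by
      rw [Finset.card_range]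
      exact lt_of_le_of_lt degree_le_natDegree (by exact_mod_cast Nat.lt_succ_of_le hP1)
    have h1 := Lagrange.eq_interpolate hinj hdeg
    have h2 : F u = P.eval (u 0) := by rw [← hP2, Function.update_eq_self]
    rw [h2]
    conv_lhs => rw [h1]
    rw [Lagrange.interpolate_apply, eval_finsetSum, map_sum]
    apply Finset.sum_congr rfl
    intro j _
    rw [eval_mul, eval_C, map_mul, MvPolynomial.eval_rename]
    congr 1
    · rw [← hP2]
      have h3 : Function.update u 0 (j : ℂ) = Fin.cons (j : ℂ) (u ∘ Fin.succ) := by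
        ext i
        refine Fin.cases ?_ (fun i => ?_) i
        · simp
        · simp
      rw [h3, hf]
    · have h4 : ∀ p : ℂ[X], p.eval (u 0) = MvPolynomial.eval u
          ((Polynomial.aeval (MvPolynomial.X 0 : MvPolynomial (Fin (n + 1)) ℂ)) p) := by
        intro p
        rw [Polynomial.aeval_def, Polynomial.hom_eval₂]
        have : (MvPolynomial.eval u).comp (algebraMap ℂ (MvPolynomial (Fin (n + 1)) ℂ)) =
            RingHom.id ℂ := by
          ext x
          simp
        rw [this, MvPolynomial.eval_X]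
        rfl
      exact h4 _

variable {n : ℕ}

/-- restriction to a coordinate line -/
noncomputable def line (u : Fin n → ℂ) (i : Fin n) : MvPolynomial (Fin n) ℂ →+* ℂ[X] :=
  MvPolynomial.eval₂Hom C (Function.update (fun j => C (u j)) i X)

lemma line_eval (u : Fin n → ℂ) (i : Fin n) (f : MvPolynomial (Fin n) ℂ) (z : ℂ) :
    (line u i f).eval z = MvPolynomial.eval (Function.update u i z) f := by
  have : (evalRingHom z).comp (line u i) = MvPolynomial.eval (Function.update u i z) := by
    apply MvPolynomial.ringHom_ext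
    · intro r
      simp [line]
    · intro j
      by_cases hj : j = i
      · subst hj
        simp [line]
      · simp [line, hj]
  exact congrArg (fun φ => φ f) this

lemma line_natDegree (u : Fin n → ℂ) (i : Fin n) (f : MvPolynomial (Fin n) ℂ) :
    (line u i f).natDegree ≤ f.totalDegree := by
  rw [line, MvPolynomial.coe_eval₂Hom, MvPolynomial.eval₂_eq]
  apply natDegree_sum_le_of_forall_le
  intro m hm
  refine (natDegree_C_mul_le _ _).trans ?_
  refine (natDegree_prod_le _ _).trans ?_
  have h1 : ∀ j, ((Function.update (fun j => (C (u j) : ℂ[X])) i X j) ^ m j).natDegree ≤ m j := by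
    intro j
    refine natDegree_pow_le.trans ?_
    have : (Function.update (fun j => (C (u j) : ℂ[X])) i X j).natDegree ≤ 1 := by
      by_cases hj : j = i
      · subst hj; simp
      · simp [hj]
    calc m j * _ ≤ m j * 1 := Nat.mul_le_mul_left _ this
      _ = m j := mul_one _
  calc ∑ j ∈ m.support, ((Function.update (fun j => (C (u j) : ℂ[X])) i X j) ^ m j).natDegree
      ≤ ∑ j ∈ m.support, m j := Finset.sum_le_sum fun j _ => h1 j
    _ ≤ f.totalDegree := MvPolynomial.le_totalDegree hm

lemma line_map (g : (MvPolynomial (Fin n) ℂ)[X]) (u : Fin n → ℂ) (i : Fin n) (z : ℂ) :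
    sp (g.map (line u i)) z = g.map (MvPolynomial.eval (Function.update u i z)) := by
  rw [sp, Polynomial.map_map]
  congr 1
  ext
  · simp [line]
  · simp only [RingHom.comp_apply, coe_evalRingHom]
    rw [line_eval]

open Classical in
/-- the partial trace -/
noncomputable def trM (g q : (MvPolynomial (Fin n) ℂ)[X]) (e : (Fin n → ℂ) → ℂ → Prop)
    (u : Fin n → ℂ) : ℂ :=
  ∑ t ∈ (g.map (MvPolynomial.eval u)).roots.toFinset.filter (e u),
    (q.map (MvPolynomial.eval u)).eval t

lemma trM_line (g q : (MvPolynomial (Fin n) ℂ)[X]) (e : (Fin n → ℂ) → ℂ → Prop)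
    (u : Fin n → ℂ) (i : Fin n) (z : ℂ) : trM g q e (Function.update u i z) =
    tr (g.map (line u i)) (q.map (line u i)) (fun z => e (Function.update u i z)) z := by
  unfold trM tr
  rw [line_map, line_map]

/-- `D` times a partial trace is a polynomial -/
lemma trM_poly {g a b : (MvPolynomial (Fin n) ℂ)[X]} {D : MvPolynomial (Fin n) ℂ} (hg : g.Monic)
    (hd : g.natDegree ≠ 0) (hab : a * g + b * derivative g = C D)
    (q : (MvPolynomial (Fin n) ℂ)[X]) (e : (Fin n → ℂ) → ℂ → Prop)
    (hloc : ∀ (u : Fin n → ℂ) (t : ℂ), MvPolynomial.eval u D ≠ 0 →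
      (g.map (MvPolynomial.eval u)).eval t = 0 → ∀ i : Fin n, ∃ ε > 0, ∀ z t' : ℂ,
        ‖z - u i‖ < ε → ‖t' - t‖ < ε → MvPolynomial.eval (Function.update u i z) D ≠ 0 →
        (g.map (MvPolynomial.eval (Function.update u i z))).eval t' = 0 →
        (e u t ↔ e (Function.update u i z) t')) :
    ∃ f : MvPolynomial (Fin n) ℂ, ∀ u, MvPolynomial.eval u D * trM g q e u =
      MvPolynomial.eval u f := by
  set N := D.totalDegree + ∑ k ∈ Finset.range (g.natDegree + 1), (g.coeff k).totalDegree +
    ∑ k ∈ Finset.range (q.natDegree + 1), (q.coeff k).totalDegree with hN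
  have hcoef : ∀ (p : (MvPolynomial (Fin n) ℂ)[X]) (k : ℕ), (p.coeff k).totalDegree ≤
      ∑ k ∈ Finset.range (p.natDegree + 1), (p.coeff k).totalDegree := by
    intro p k
    by_cases hk : k ≤ p.natDegree
    · exact Finset.single_le_sum (f := fun k => (p.coeff k).totalDegree)
        (fun _ _ => Nat.zero_le _) (Finset.mem_range.mpr (by omega))
    · rw [coeff_eq_zero_of_natDegree_lt (by omega), MvPolynomial.totalDegree_zero]
      exact Nat.zero_le _
  apply sep_poly (N + (N + N * q.natDegree)) n
  intro u i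
  by_cases hD0 : line u i D = 0
  · refine ⟨0, by simp, fun z => ?_⟩
    rw [← line_eval, hD0]
    simp
  · have hG : (g.map (line u i)).Monic := hg.map _
    have hGd : (g.map (line u i)).natDegree = g.natDegree := hg.natDegree_map _
    have hab' : a.map (line u i) * g.map (line u i) +
        b.map (line u i) * derivative (g.map (line u i)) = C (line u i D) := by
      have := congrArg (fun p => p.map (line u i)) hab
      simpa [Polynomial.map_add, Polynomial.map_mul, derivative_map] using this
    obtain ⟨P, hP1, hP2⟩ := one_var hG (by rw [hGd]; exact hd) hD0 hab' (q.map (line u i))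
      (fun z => e (Function.update u i z)) (by
        intro z₀ t h1 h2
        rw [line_eval] at h1
        rw [line_map] at h2
        obtain ⟨ε, hε, h3⟩ := hloc _ t h1 h2 i
        refine ⟨ε, hε, ?_⟩
        intro z t' h4 h5 h6 h7
        rw [line_eval] at h6
        rw [line_map] at h7
        have := h3 z t' (by rwa [Function.update_self]) h5
          (by rwa [Function.update_idem]) (by rwa [Function.update_idem])
        rwa [Function.update_idem] at this)
      N ((line_natDegree u i D).trans (by omega))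
      (fun k => by
        rw [coeff_map]
        have := hcoef g k
        exact (line_natDegree u i _).trans (by omega))
      (fun k => by
        rw [coeff_map]
        have := hcoef q k
        exact (line_natDegree u i _).trans (by omega))
    refine ⟨P, hP1.trans ?_, fun z => ?_⟩
    · have : (q.map (line u i)).natDegree ≤ q.natDegree := natDegree_map_le
      gcongr
    · rw [← hP2, line_eval, trM_line]

/-- the dual basis polynomials -/
noncomputable def qk (g b : (MvPolynomial (Fin n) ℂ)[X]) (k : ℕ) : (MvPolynomial (Fin n) ℂ)[X] :=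
  b * ∑ i ∈ Finset.Icc (k + 1) g.natDegree, X ^ (i - (k + 1)) * C (g.coeff i)

lemma qk_eval {g : (MvPolynomial (Fin n) ℂ)[X]} (hg : g.Monic) (b : (MvPolynomial (Fin n) ℂ)[X])
    (k : ℕ) (u : Fin n → ℂ) (t : ℂ) :
    ((qk g b k).map (MvPolynomial.eval u)).eval t = (b.map (MvPolynomial.eval u)).eval t *
      ((g.map (MvPolynomial.eval u)) /ₘ (X - C t)).coeff k := by
  rw [coeff_divByMonic_X_sub_C, hg.natDegree_map, qk, Polynomial.map_mul, eval_mul]
  congr 1
  rw [Polynomial.map_sum, eval_finsetSum]
  apply Finset.sum_congr rfl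
  intro i _
  simp only [Polynomial.map_mul, Polynomial.map_pow, map_X, map_C, eval_mul, eval_pow, eval_X,
    eval_C, coeff_map]

lemma divByMonic_eval_of_ne {p : ℂ[X]} {s t : ℂ} (hs : p.eval s = 0) (ht : p.eval t = 0)
    (hst : s ≠ t) : (p /ₘ (X - C t)).eval s = 0 := by
  have := eval_sub_eval p s t
  rw [hs, ht, sub_zero] at this
  rcases mul_eq_zero.mp this.symm with h | h
  · exact absurd (sub_eq_zero.mp h) hst
  · exact h

lemma divByMonic_eval_self {p : ℂ[X]} {t : ℂ} (ht : p.eval t = 0) :
    (p /ₘ (X - C t)).eval t = (derivative p).eval t := by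
  have h3 : p = (X - C t) * (p /ₘ (X - C t)) := by
    have h4 := modByMonic_add_div p (X - C t)
    rw [modByMonic_X_sub_C_eq_C_eval, ht, C_0, zero_add] at h4
    exact h4.symm
  conv_rhs => rw [h3]
  simp

end Irred

open Irred in
theorem irred_const {n : ℕ} (g : (MvPolynomial (Fin n) ℂ)[X]) (hg : g.Monic)
    (hirr : Irreducible g) (D : MvPolynomial (Fin n) ℂ) (hD : D ≠ 0)
    (a b : (MvPolynomial (Fin n) ℂ)[X])
    (hab : a * g + b * derivative g = C D)
    (e : (Fin n → ℂ) → ℂ → Prop)
    (hloc : ∀ (u : Fin n → ℂ) (t : ℂ), MvPolynomial.eval u D ≠ 0 →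
      (g.map (MvPolynomial.eval u)).eval t = 0 → ∀ i : Fin n, ∃ ε > 0, ∀ z t' : ℂ,
        ‖z - u i‖ < ε → ‖t' - t‖ < ε → MvPolynomial.eval (Function.update u i z) D ≠ 0 →
        (g.map (MvPolynomial.eval (Function.update u i z))).eval t' = 0 →
        (e u t ↔ e (Function.update u i z) t')) :
    ∀ (u : Fin n → ℂ) (t : ℂ) (u' : Fin n → ℂ) (t' : ℂ),
      MvPolynomial.eval u D ≠ 0 → (g.map (MvPolynomial.eval u)).eval t = 0 →
      MvPolynomial.eval u' D ≠ 0 → (g.map (MvPolynomial.eval u')).eval t' = 0 →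
      (e u t ↔ e u' t') := by
  classical
  have hd : g.natDegree ≠ 0 := by
    intro h
    rw [hg.natDegree_eq_zero.mp h] at hirr
    exact hirr.not_isUnit isUnit_one
  have hpoly : ∀ k, ∃ f : MvPolynomial (Fin n) ℂ, ∀ u,
      MvPolynomial.eval u D * trM g (qk g b k) e u = MvPolynomial.eval u f :=
    fun k => trM_poly hg hd hab (qk g b k) e hloc
  choose f hf using hpoly
  set H : (MvPolynomial (Fin n) ℂ)[X] := ∑ k ∈ Finset.range g.natDegree, C (f k) * X ^ k with hH
  have hHdeg : H.natDegree < g.natDegree := by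
    obtain ⟨m, hm⟩ : ∃ m, g.natDegree = m + 1 := ⟨g.natDegree - 1, by omega⟩
    rw [hH, hm]
    apply Nat.lt_succ_of_le
    apply natDegree_sum_le_of_forall_le
    intro k hk
    have := Finset.mem_range.mp hk
    exact (natDegree_C_mul_X_pow_le _ _).trans (by omega)
  -- specialised Bezout relation
  have hbez : ∀ u, a.map (MvPolynomial.eval u) * g.map (MvPolynomial.eval u) +
      b.map (MvPolynomial.eval u) * derivative (g.map (MvPolynomial.eval u)) =
        C (MvPolynomial.eval u D) := by
    intro u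
    have := congrArg (fun p => p.map (MvPolynomial.eval u)) hab
    simpa [Polynomial.map_add, Polynomial.map_mul, derivative_map] using this
  have hbezr : ∀ u s, (g.map (MvPolynomial.eval u)).eval s = 0 →
      (b.map (MvPolynomial.eval u)).eval s * (derivative (g.map (MvPolynomial.eval u))).eval s =
        MvPolynomial.eval u D := by
    intro u s hs
    have := congrArg (eval s) (hbez u)
    simp only [eval_add, eval_mul, hs, mul_zero, zero_add, eval_C] at this
    exact this
  have hnodup : ∀ u, MvPolynomial.eval u D ≠ 0 → (g.map (MvPolynomial.eval u)).roots.Nodup := by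
    intro u hu
    apply nodup_roots
    refine ⟨C (MvPolynomial.eval u D)⁻¹ * a.map (MvPolynomial.eval u),
      C (MvPolynomial.eval u D)⁻¹ * b.map (MvPolynomial.eval u), ?_⟩
    calc C (MvPolynomial.eval u D)⁻¹ * a.map (MvPolynomial.eval u) *
          g.map (MvPolynomial.eval u) + C (MvPolynomial.eval u D)⁻¹ *
          b.map (MvPolynomial.eval u) * derivative (g.map (MvPolynomial.eval u))
        = C (MvPolynomial.eval u D)⁻¹ * (a.map (MvPolynomial.eval u) *
          g.map (MvPolynomial.eval u) +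
          b.map (MvPolynomial.eval u) * derivative (g.map (MvPolynomial.eval u))) := by ring
      _ = 1 := by rw [hbez, ← C_mul, inv_mul_cancel₀ hu, C_1]
  have hmon : ∀ u, (g.map (MvPolynomial.eval u)).Monic := fun u => hg.map _
  have hmem : ∀ u s, s ∈ (g.map (MvPolynomial.eval u)).roots.toFinset ↔
      (g.map (MvPolynomial.eval u)).eval s = 0 := by
    intro u s
    rw [Multiset.mem_toFinset, mem_roots (hmon u).ne_zero]
    rfl
  -- the values of H at the roots
  have hHval : ∀ u s, (g.map (MvPolynomial.eval u)).eval s = 0 →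
      (H.map (MvPolynomial.eval u)).eval s =
        if e u s then MvPolynomial.eval u D ^ 2 else 0 := by
    intro u s hs
    have h1 : (H.map (MvPolynomial.eval u)).eval s =
        ∑ k ∈ Finset.range g.natDegree, MvPolynomial.eval u (f k) * s ^ k := by
      rw [hH, Polynomial.map_sum, eval_finsetSum]
      apply Finset.sum_congr rfl
      intro k _
      simp
    have hterm : ∀ t, ∑ k ∈ Finset.range g.natDegree,
        ((qk g b k).map (MvPolynomial.eval u)).eval t * s ^ k =
        (b.map (MvPolynomial.eval u)).eval t *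
          ((g.map (MvPolynomial.eval u)) /ₘ (X - C t)).eval s := by
      intro t
      have hdd : ((g.map (MvPolynomial.eval u)) /ₘ (X - C t)).natDegree < g.natDegree := by
        rw [natDegree_divByMonic _ (monic_X_sub_C t), hg.natDegree_map, natDegree_X_sub_C]
        omega
      rw [eval_eq_sum_range' hdd, Finset.mul_sum]
      apply Finset.sum_congr rfl
      intro k _
      rw [qk_eval hg]
      ring
    calc (H.map (MvPolynomial.eval u)).eval s
        = ∑ k ∈ Finset.range g.natDegree,
            (MvPolynomial.eval u D * trM g (qk g b k) e u) * s ^ k := by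
          rw [h1]
          apply Finset.sum_congr rfl
          intro k _
          rw [hf]
      _ = MvPolynomial.eval u D * ∑ t ∈ (g.map (MvPolynomial.eval u)).roots.toFinset.filter (e u),
            ∑ k ∈ Finset.range g.natDegree,
              ((qk g b k).map (MvPolynomial.eval u)).eval t * s ^ k := by
          rw [Finset.sum_comm, Finset.mul_sum]
          apply Finset.sum_congr rfl
          intro k _
          rw [trM, mul_assoc, Finset.sum_mul]
      _ = MvPolynomial.eval u D * ∑ t ∈ (g.map (MvPolynomial.eval u)).roots.toFinset.filter (e u),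
            (b.map (MvPolynomial.eval u)).eval t *
              ((g.map (MvPolynomial.eval u)) /ₘ (X - C t)).eval s := by
          congr 1
          exact Finset.sum_congr rfl fun t _ => hterm t
      _ = if e u s then MvPolynomial.eval u D ^ 2 else 0 := by
          by_cases hes : e u s
          · rw [if_pos hes, Finset.sum_eq_single s]
            · rw [divByMonic_eval_self hs, hbezr u s hs, sq]
            · intro t ht hts
              rw [divByMonic_eval_of_ne hs ((hmem u t).mp (Finset.mem_of_mem_filter t ht))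
                hts.symm, mul_zero]
            · intro h
              exact absurd (Finset.mem_filter.mpr ⟨(hmem u s).mpr hs, hes⟩) h
          · rw [if_neg hes, Finset.sum_eq_zero, mul_zero]
            intro t ht
            have hts : s ≠ t := by
              rintro rfl
              exact hes (Finset.mem_filter.mp ht).2
            rw [divByMonic_eval_of_ne hs ((hmem u t).mp (Finset.mem_of_mem_filter t ht)) hts,
              mul_zero]
  -- g divides H (H - D^2)
  have hdvd : g ∣ H * (H - C (D ^ 2)) := by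
    rw [← modByMonic_eq_zero_iff_dvd hg]
    ext1 k
    rw [coeff_zero]
    have h1 : ∀ u, MvPolynomial.eval u (D * ((H * (H - C (D ^ 2))) %ₘ g).coeff k) =
        MvPolynomial.eval u 0 := by
      intro u
      rw [map_mul, map_zero]
      by_cases hu : MvPolynomial.eval u D = 0
      · rw [hu, zero_mul]
      · have h2 : ((H * (H - C (D ^ 2))) %ₘ g).map (MvPolynomial.eval u) = 0 := by
          apply eq_zero_of_natDegree_lt_card_of_eval_eq_zero' _
            ((g.map (MvPolynomial.eval u)).roots.toFinset)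
          · intro s hs
            have hs' := (hmem u s).mp hs
            have h3 := congrArg (fun p => (p.map (MvPolynomial.eval u)).eval s)
              (modByMonic_add_div (H * (H - C (D ^ 2))) g)
            simp only [Polynomial.map_add, Polynomial.map_mul, eval_add, eval_mul, hs',
              zero_mul, add_zero, Polynomial.map_sub, map_C, eval_sub, eval_C] at h3
            rw [h3, hHval u s hs', map_pow]
            split_ifs
            · rw [sub_self, mul_zero]
            · rw [zero_mul]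
          · rw [Multiset.toFinset_card_of_nodup (hnodup u hu),
              splits_iff_card_roots.mp (IsAlgClosed.splits _), hg.natDegree_map]
            refine lt_of_le_of_lt natDegree_map_le ?_
            exact natDegree_modByMonic_lt _ hg (by
              intro h; rw [h] at hd; simp at hd)
        rw [← coeff_map, h2, coeff_zero, mul_zero]
    have h2 := MvPolynomial.funext h1
    rcases mul_eq_zero.mp h2 with h | h
    · exact absurd h hD
    · exact h
  have hprime : Prime g := hirr.prime
  have hcases : (∀ u s, MvPolynomial.eval u D ≠ 0 → (g.map (MvPolynomial.eval u)).eval s = 0 →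
      ¬ e u s) ∨ (∀ u s, MvPolynomial.eval u D ≠ 0 → (g.map (MvPolynomial.eval u)).eval s = 0 →
      e u s) := by
    rcases hprime.dvd_or_dvd hdvd with h | h
    · left
      have h0 : H = 0 := by
        by_contra hne
        exact hg.not_dvd_of_natDegree_lt hne hHdeg h
      intro u s hu hs he
      have := hHval u s hs
      rw [if_pos he, h0] at this
      simp only [Polynomial.map_zero, eval_zero] at this
      exact hu ((pow_eq_zero_iff (by norm_num)).mp this.symm)
    · right
      have h0 : H - C (D ^ 2) = 0 := by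
        by_contra hne
        refine hg.not_dvd_of_natDegree_lt hne ?_ h
        refine lt_of_le_of_lt (natDegree_sub_le _ _) ?_
        rw [natDegree_C]
        exact max_lt hHdeg (by omega)
      rw [sub_eq_zero] at h0
      intro u s hu hs
      by_contra he
      have := hHval u s hs
      rw [if_neg he, h0] at this
      rw [Polynomial.map_C, eval_C, map_pow] at this
      exact hu ((pow_eq_zero_iff (by norm_num)).mp this)
  intro u t u' t' hu ht hu' ht'
  rcases hcases with h | h
  · exact iff_of_false (h u t hu ht) (h u' t' hu' ht')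
  · exact iff_of_true (h u t hu ht) (h u' t' hu' ht')

end Pool.Agent.MP_f4aa65_ag
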