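import Mathlib

/-!
L7: local roots by the implicit function theorem.
-/

open Filter Topology Polynomial

namespace Pool.Agent.MP_f4aa65_ag

namespace LocalRoot

/-- the two variable function of a polynomial -/
noncomputable def F (f : ℂ[X][X]) (v : ℂ × ℂ) : ℂ := (f.map (evalRingHom v.1)).eval v.2

lemma F_contDiff (f : ℂ[X][X]) : ContDiff ℂ 1 (F f) := by
  have : F f = fun v => ∑ k ∈ Finset.range (f.natDegree + 1), (f.coeff k).eval v.1 * v.2 ^ k := by
    ext v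
    rw [F, eval_map, eval₂_eq_sum_range]
    rfl
  rw [this]
  apply ContDiff.sum
  intro k _
  apply ContDiff.mul
  · have h1 : ContDiff ℂ 1 (fun z : ℂ => (f.coeff k).eval z) := by
      have := (f.coeff k).contDiff_aeval (𝕜 := ℂ) 1
      simpa using this
    exact h1.comp contDiff_fst
  · exact contDiff_snd.pow k

end LocalRoot

open LocalRoot in
theorem exists_local_root (f : ℂ[X][X]) (s₀ t₀ : ℂ)
    (h0 : (f.map (evalRingHom s₀)).eval t₀ = 0)
    (h1 : ((derivative f).map (evalRingHom s₀)).eval t₀ ≠ 0) :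
    ∃ ε > 0, ∃ r : ℂ → ℂ, ContinuousOn r (Metric.ball s₀ ε) ∧ r s₀ = t₀ ∧
      (∀ s ∈ Metric.ball s₀ ε, (f.map (evalRingHom s)).eval (r s) = 0) ∧
      ∀ s ∈ Metric.ball s₀ ε, ∀ t ∈ Metric.ball t₀ ε,
        (f.map (evalRingHom s)).eval t = 0 → t = r s := by
  have cdf : ContDiffAt ℂ 1 (F f) (s₀, t₀) := (F_contDiff f).contDiffAt
  have pn : (1 : WithTop ℕ∞) ≠ 0 := one_ne_zero
  set c := ((derivative f).map (evalRingHom s₀)).eval t₀ with hc
  have hval : (fderiv ℂ (F f) (s₀, t₀)) (0, 1) = c := by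
    have hF : HasFDerivAt (F f) (fderiv ℂ (F f) (s₀, t₀)) (s₀, t₀) :=
      (cdf.differentiableAt (by simp)).hasFDerivAt
    have hg : HasDerivAt (fun t : ℂ => ((s₀, t) : ℂ × ℂ)) (0, 1) t₀ :=
      (hasDerivAt_const t₀ s₀).prodMk (hasDerivAt_id t₀)
    have h2 : HasDerivAt (fun t : ℂ => F f (s₀, t)) ((fderiv ℂ (F f) (s₀, t₀)) (0, 1)) t₀ :=
      hF.comp_hasDerivAt t₀ hg
    have h3 : HasDerivAt (fun t : ℂ => F f (s₀, t)) c t₀ := by
      have := (f.map (evalRingHom s₀)).hasDerivAt t₀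
      rw [derivative_map] at this
      exact this
    exact h2.unique h3
  have if₂ : (fderiv ℂ (F f) (s₀, t₀) ∘L .inr ℂ ℂ ℂ).IsInvertible := by
    refine ⟨ContinuousLinearEquiv.unitsEquivAut ℂ (Units.mk0 c h1), ?_⟩
    ext
    simp [hval]
  set ψ := cdf.implicitFunction pn if₂ with hψ
  have e1 : ψ s₀ = t₀ := cdf.implicitFunction_apply_self pn if₂
  have e2 : ∀ᶠ x in 𝓝 s₀, F f (x, ψ x) = F f (s₀, t₀) :=
    cdf.eventually_apply_implicitFunction pn if₂
  have e3 : ∀ᶠ v in 𝓝 ((s₀, t₀) : ℂ × ℂ), F f v = F f (s₀, t₀) ↔ ψ v.1 = v.2 :=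
    cdf.eventually_apply_eq_iff_implicitFunction pn if₂
  have e4 : ∀ᶠ x in 𝓝 s₀, ContinuousAt ψ x := by
    have := (cdf.contDiffAt_implicitFunction pn if₂).eventually (by simp)
    filter_upwards [this] with x hx
    exact hx.continuousAt
  have hF0 : F f (s₀, t₀) = 0 := h0
  rw [hF0] at e2 e3
  obtain ⟨ε₁, hε₁, H1⟩ := Metric.eventually_nhds_iff_ball.mp (e2.and e4)
  obtain ⟨ε₂, hε₂, H2⟩ := Metric.eventually_nhds_iff_ball.mp e3
  refine ⟨min ε₁ ε₂, lt_min hε₁ hε₂, ψ, ?_, e1, ?_, ?_⟩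
  · intro s hs
    exact ((H1 s (Metric.ball_subset_ball (min_le_left _ _) hs)).2).continuousWithinAt
  · intro s hs
    exact (H1 s (Metric.ball_subset_ball (min_le_left _ _) hs)).1
  · intro s hs t ht h
    have h3 : ((s, t) : ℂ × ℂ) ∈ Metric.ball ((s₀, t₀) : ℂ × ℂ) ε₂ := by
      rw [Metric.mem_ball, Prod.dist_eq]
      exact max_lt (Metric.ball_subset_ball (min_le_right _ _) hs)
        (Metric.ball_subset_ball (min_le_right _ _) ht)
    exact ((H2 _ h3).mp h).symm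

end Pool.Agent.MP_f4aa65_ag
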