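import Pool.Agent.MP_f4aa65_ag.Curve
import Pool.Agent.MP_f4aa65_ag.LocalRoot

/-!
N2: points of a standard etale algebra over `ℂ[X]` near a given point are equivalent to it.
-/

open Filter Topology Polynomial CategoryTheory AlgebraicGeometry Limits

noncomputable section

namespace Pool.Agent.MP_f4aa65_ag

namespace Plane

section alg

variable {A : Type} [CommRing A] [Algebra ℂ A] [Algebra ℂ[X] A] [IsScalarTower ℂ ℂ[X] A]

/-- the localisation of `A` at `D` -/
abbrev Loc (A : Type) [CommRing A] [Algebra ℂ[X] A] (D : ℂ[X]) : Type :=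
  Localization.Away (algebraMap ℂ[X] A D)

theorem isUnit_D (D : ℂ[X]) : IsUnit (algebraMap ℂ[X] (Loc A D) D) := by
  rw [IsScalarTower.algebraMap_apply ℂ[X] A (Loc A D)]
  exact IsLocalization.Away.algebraMap_isUnit (algebraMap ℂ[X] A D)

/-- the map `ℂ[X]_D → A_D` -/
def locMap (A : Type) [CommRing A] [Algebra ℂ A] [Algebra ℂ[X] A] [IsScalarTower ℂ ℂ[X] A]
    (D : ℂ[X]) : Localization.Away D →ₐ[ℂ] Loc A D :=
  { IsLocalization.Away.lift D (isUnit_D (A := A) D) with
    commutes' := by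
      intro c
      show IsLocalization.Away.lift D (isUnit_D (A := A) D) _ = _
      rw [IsScalarTower.algebraMap_apply ℂ ℂ[X] (Localization.Away D),
        IsLocalization.Away.lift_eq, ← IsScalarTower.algebraMap_apply ℂ ℂ[X] (Loc A D)] }

theorem locMap_algebraMap (D : ℂ[X]) (p : ℂ[X]) :
    locMap A D (algebraMap ℂ[X] (Localization.Away D) p) = algebraMap ℂ[X] (Loc A D) p :=
  IsLocalization.Away.lift_eq D (isUnit_D (A := A) D) p

theorem b_mul_g (P : StandardEtalePresentation ℂ[X] A) (D : ℂ[X]) (a b : ℂ[X][X])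
    (hab : a * P.f + b * P.g = C D) :
    aeval P.x b * aeval P.x P.g = algebraMap ℂ[X] A D := by
  have h := congrArg (aeval P.x) hab
  rw [map_add, map_mul, map_mul, P.hasMap.1, mul_zero, zero_add, aeval_C] at h
  exact h

theorem locMap_finite (P : StandardEtalePresentation ℂ[X] A) (D : ℂ[X]) (a b : ℂ[X][X])
    (hab : a * P.f + b * P.g = C D) : (locMap A D : Localization.Away D →+* Loc A D).Finite := by
  let alg : Algebra (Localization.Away D) (Loc A D) :=
    (locMap A D : Localization.Away D →+* Loc A D).toAlgebra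
  have ht : IsScalarTower ℂ[X] (Localization.Away D) (Loc A D) :=
    IsScalarTower.of_algebraMap_eq fun p => (locMap_algebraMap D p).symm
  let ξ : Loc A D := algebraMap A (Loc A D) P.x
  have hξ : IsIntegral (Localization.Away D) ξ := by
    refine ⟨P.f.map (algebraMap ℂ[X] (Localization.Away D)), P.monic_f.map _, ?_⟩
    rw [← aeval_def, aeval_map_algebraMap, aeval_algebraMap_apply, P.hasMap.1, map_zero]
  have hpoly : ∀ p : ℂ[X][X], algebraMap A (Loc A D) (aeval P.x p) ∈
      Algebra.adjoin (Localization.Away D) {ξ} := by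
    intro p
    rw [← aeval_algebraMap_apply, ← aeval_map_algebraMap (Localization.Away D)]
    exact Polynomial.aeval_mem_adjoin_singleton _ _
  obtain ⟨u, hu⟩ : ∃ u : Localization.Away D, algebraMap ℂ[X] (Localization.Away D) D * u = 1 :=
    (IsLocalization.Away.algebraMap_isUnit (S := Localization.Away D) D).exists_right_inv
  have hu' : algebraMap A (Loc A D) (algebraMap ℂ[X] A D) *
      algebraMap (Localization.Away D) (Loc A D) u = 1 := by
    rw [← IsScalarTower.algebraMap_apply ℂ[X] A (Loc A D),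
      IsScalarTower.algebraMap_apply ℂ[X] (Localization.Away D) (Loc A D), ← map_mul, hu, map_one]
  have hbg := b_mul_g P D a b hab
  have hA : ∀ s : A, algebraMap A (Loc A D) s ∈ Algebra.adjoin (Localization.Away D) {ξ} := by
    intro s
    obtain ⟨p, n, hp⟩ := P.exists_mul_aeval_x_g_pow_eq_aeval_x s
    have h1 : s * (algebraMap ℂ[X] A D) ^ n = aeval P.x (p * b ^ n) := by
      rw [← hbg, mul_pow, map_mul, map_pow, ← hp]
      ring
    have h2 : algebraMap A (Loc A D) s = algebraMap A (Loc A D) (aeval P.x (p * b ^ n)) *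
        (algebraMap (Localization.Away D) (Loc A D) u) ^ n := by
      rw [← h1, map_mul, map_pow, mul_assoc, ← mul_pow, hu', one_pow, mul_one]
    rw [h2]
    exact mul_mem (hpoly _) (pow_mem (Subalgebra.algebraMap_mem _ _) _)
  have htop : Algebra.adjoin (Localization.Away D) {ξ} = ⊤ := by
    rw [eq_top_iff]
    intro z _
    obtain ⟨n, s, hs⟩ := IsLocalization.Away.surj (algebraMap ℂ[X] A D) z
    have h3 : z = algebraMap A (Loc A D) s *
        (algebraMap (Localization.Away D) (Loc A D) u) ^ n := by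
      rw [← hs, mul_assoc, ← mul_pow, hu', one_pow, mul_one]
    rw [h3]
    exact mul_mem (hA s) (pow_mem (Subalgebra.algebraMap_mem _ _) _)
  have hfg := hξ.fg_adjoin_singleton
  rw [htop, Algebra.top_toSubmodule] at hfg
  exact ⟨hfg⟩

theorem locMap_etale (P : StandardEtalePresentation ℂ[X] A) (D : ℂ[X]) :
    (locMap A D : Localization.Away D →+* Loc A D).Etale := by
  let alg : Algebra (Localization.Away D) (Loc A D) :=
    (locMap A D : Localization.Away D →+* Loc A D).toAlgebra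
  have ht : IsScalarTower ℂ[X] (Localization.Away D) (Loc A D) :=
    IsScalarTower.of_algebraMap_eq fun p => (locMap_algebraMap D p).symm
  have h0 : Algebra.IsStandardEtale ℂ[X] A := ⟨⟨P⟩⟩
  have h1 : Algebra.Etale ℂ[X] A := inferInstance
  have h2 : Algebra.Etale A (Loc A D) := Algebra.Etale.of_isLocalizationAway (algebraMap ℂ[X] A D)
  have h3 : Algebra.Etale ℂ[X] (Loc A D) := Algebra.Etale.comp ℂ[X] A (Loc A D)
  have h4 : Algebra.Etale ℂ[X] (Localization.Away D) := Algebra.Etale.of_isLocalizationAway D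
  exact Algebra.Etale.of_restrictScalars ℂ[X] (Localization.Away D) (Loc A D)

/-! ### points -/

omit [Algebra ℂ A] [IsScalarTower ℂ ℂ[X] A] in
theorem eval_aeval {x : A →+* ℂ} (t : A) (p : ℂ[X][X]) (s : ℂ)
    (hs : ∀ q : ℂ[X], x (algebraMap ℂ[X] A q) = q.eval s) :
    x (aeval t p) = LocalRoot.F p (s, x t) := by
  rw [LocalRoot.F, aeval_def, hom_eval₂, Polynomial.eval_map]
  congr 1
  ext q
  · simpa using hs (C q)
  · simpa using hs X

theorem alg_eval (x : A →ₐ[ℂ] ℂ) (q : ℂ[X]) :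
    x (algebraMap ℂ[X] A q) = q.eval (x (algebraMap ℂ[X] A X)) := by
  have h : (x.comp (IsScalarTower.toAlgHom ℂ ℂ[X] A)) =
      (aeval (x (algebraMap ℂ[X] A X)) : ℂ[X] →ₐ[ℂ] ℂ) := by
    apply Polynomial.algHom_ext
    simp
  have h2 := congrArg (fun f => f q) h
  simpa using h2

theorem val_F (P : StandardEtalePresentation ℂ[X] A) (x : A →ₐ[ℂ] ℂ) (p : ℂ[X][X]) :
    x (aeval P.x p) = LocalRoot.F p (x (algebraMap ℂ[X] A X), x P.x) :=
  eval_aeval (x := (x : A →+* ℂ)) P.x p _ (alg_eval x)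

theorem exists_hom (P : StandardEtalePresentation ℂ[X] A) (s t : ℂ)
    (hf : LocalRoot.F P.f (s, t) = 0) (hg : LocalRoot.F P.g (s, t) ≠ 0) :
    ∃ ψ : A →ₐ[ℂ] ℂ, ψ (algebraMap ℂ[X] A X) = s ∧ ψ P.x = t := by
  let alg : Algebra ℂ[X] ℂ := (evalRingHom s).toAlgebra
  have hval : ∀ p : ℂ[X][X], aeval t p = LocalRoot.F p (s, t) := by
    intro p
    rw [LocalRoot.F, aeval_def, Polynomial.eval_map]
    rfl
  have hm : P.P.HasMap t := by
    refine ⟨?_, ?_⟩
    · rw [hval]; exact hf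
    · rw [hval]; exact isUnit_iff_ne_zero.2 hg
  let ψ' : A →ₐ[ℂ[X]] ℂ := (P.P.lift t hm).comp P.equivRing.toAlgHom
  refine ⟨{ (ψ' : A →+* ℂ) with commutes' := ?_ }, ?_, ?_⟩
  · intro c
    show ψ' (algebraMap ℂ A c) = c
    rw [IsScalarTower.algebraMap_apply ℂ ℂ[X] A, ψ'.commutes]
    show evalRingHom s (algebraMap ℂ ℂ[X] c) = c
    simp
  · show ψ' (algebraMap ℂ[X] A X) = s
    rw [ψ'.commutes]
    show evalRingHom s X = s
    simp
  · show (P.P.lift t hm) (P.equivRing P.x) = t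
    rw [P.equivRing_x, StandardEtalePair.lift_X]

theorem hom_ext' (P : StandardEtalePresentation ℂ[X] A) (x y : A →ₐ[ℂ] ℂ)
    (h1 : x (algebraMap ℂ[X] A X) = y (algebraMap ℂ[X] A X)) (h2 : x P.x = y P.x) : x = y := by
  let alg : Algebra ℂ[X] ℂ := (evalRingHom (x (algebraMap ℂ[X] A X))).toAlgebra
  let x' : A →ₐ[ℂ[X]] ℂ := { (x : A →+* ℂ) with commutes' := fun q => alg_eval x q }
  let y' : A →ₐ[ℂ[X]] ℂ := { (y : A →+* ℂ) with
    commutes' := fun q => by
      show y (algebraMap ℂ[X] A q) = eval _ q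
      rw [alg_eval y q, h1] }
  have h : x' = y' := P.hom_ext h2
  ext a
  exact congrArg (fun f => f a) h

theorem g_ne (P : StandardEtalePresentation ℂ[X] A) (x : A →ₐ[ℂ] ℂ) :
    LocalRoot.F P.g (x (algebraMap ℂ[X] A X), x P.x) ≠ 0 := by
  rw [← val_F]
  exact (P.hasMap.2.map x).ne_zero

theorem f_eq (P : StandardEtalePresentation ℂ[X] A) (x : A →ₐ[ℂ] ℂ) :
    LocalRoot.F P.f (x (algebraMap ℂ[X] A X), x P.x) = 0 := by
  rw [← val_F, P.hasMap.1, map_zero]

theorem f'_ne (P : StandardEtalePresentation ℂ[X] A) (x : A →ₐ[ℂ] ℂ) :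
    LocalRoot.F (derivative P.f) (x (algebraMap ℂ[X] A X), x P.x) ≠ 0 := by
  rw [← val_F]
  exact (P.hasMap.isUnit_derivative_f.map x).ne_zero

theorem exists_section (P : StandardEtalePresentation ℂ[X] A) (D : ℂ[X]) (hD : D ≠ 0)
    (x : A →ₐ[ℂ] ℂ) : ∃ ε > 0, ∃ ψ : ℂ → (A →ₐ[ℂ] ℂ),
      (∀ a, ContinuousOn (fun s => ψ s a) (Metric.ball (x (algebraMap ℂ[X] A X)) ε)) ∧
      (∀ s ∈ Metric.ball (x (algebraMap ℂ[X] A X)) ε, ψ s (algebraMap ℂ[X] A X) = s) ∧
      ψ (x (algebraMap ℂ[X] A X)) = x ∧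
      (∀ y : A →ₐ[ℂ] ℂ, ‖y (algebraMap ℂ[X] A X) - x (algebraMap ℂ[X] A X)‖ < ε →
        ‖y P.x - x P.x‖ < ε → ψ (y (algebraMap ℂ[X] A X)) = y) ∧
      (∀ s ∈ Metric.ball (x (algebraMap ℂ[X] A X)) ε, s ≠ x (algebraMap ℂ[X] A X) →
        D.eval s ≠ 0) := by
  classical
  set s₀ := x (algebraMap ℂ[X] A X) with hs₀
  set t₀ := x P.x with ht₀
  obtain ⟨ε₁, hε₁, r, hrc, hr0, hrf, hru⟩ := exists_local_root P.f s₀ t₀ (f_eq P x) (f'_ne P x)
  -- g does not vanish near s₀
  have hball : Metric.ball s₀ ε₁ ∈ 𝓝 s₀ := Metric.ball_mem_nhds _ hε₁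
  have hFr : ∀ p : ℂ[X][X], ContinuousOn (fun s => LocalRoot.F p (s, r s))
      (Metric.ball s₀ ε₁) := fun p =>
    (LocalRoot.F_contDiff p).continuous.comp_continuousOn (continuousOn_id.prodMk hrc)
  have hg : ∀ᶠ s in 𝓝 s₀, LocalRoot.F P.g (s, r s) ≠ 0 := by
    have hc : ContinuousAt (fun s => LocalRoot.F P.g (s, r s)) s₀ := (hFr P.g).continuousAt hball
    apply hc.eventually_ne
    rw [hr0]
    exact g_ne P x
  have hDn : ∀ᶠ s in 𝓝 s₀, s ≠ s₀ → D.eval s ≠ 0 := by
    have hfin : Set.Finite {s | D.IsRoot s} := D.finite_setOfPred_isRoot hD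
    have hfin' : Set.Finite ({s | D.IsRoot s} \ {s₀}) := hfin.subset Set.sdiff_subset
    have := hfin'.isClosed.isOpen_compl.mem_nhds (x := s₀) (by simp)
    filter_upwards [this] with s hs hne h0
    exact hs ⟨h0, hne⟩
  obtain ⟨ε₂, hε₂, H⟩ := Metric.eventually_nhds_iff_ball.mp (hg.and hDn)
  let ψ : ℂ → (A →ₐ[ℂ] ℂ) := fun s =>
    if h : ∃ ψ : A →ₐ[ℂ] ℂ, ψ (algebraMap ℂ[X] A X) = s ∧ ψ P.x = r s then h.choose else x
  have hex : ∀ s ∈ Metric.ball s₀ (min ε₁ ε₂),
      ψ s (algebraMap ℂ[X] A X) = s ∧ ψ s P.x = r s := by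
    intro s hs
    have hs1 := Metric.ball_subset_ball (min_le_left ε₁ ε₂) hs
    have hs2 := Metric.ball_subset_ball (min_le_right ε₁ ε₂) hs
    have h := exists_hom P s (r s) (hrf s hs1) (H s hs2).1
    simp only [ψ, dif_pos h]
    exact h.choose_spec
  have hpos : 0 < min ε₁ ε₂ := lt_min hε₁ hε₂
  refine ⟨min ε₁ ε₂, hpos, ψ, ?_, fun s hs => (hex s hs).1, ?_, ?_, ?_⟩
  · intro a
    obtain ⟨p, n, hp⟩ := P.exists_mul_aeval_x_g_pow_eq_aeval_x a
    have hcont : ContinuousOn (fun s => LocalRoot.F p (s, r s) / LocalRoot.F P.g (s, r s) ^ n)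
        (Metric.ball s₀ (min ε₁ ε₂)) := by
      have hsub := Metric.ball_subset_ball (x := s₀) (min_le_left ε₁ ε₂)
      apply ContinuousOn.div ((hFr p).mono hsub) (((hFr P.g).mono hsub).pow n)
      intro s hs
      exact pow_ne_zero _ (H s (Metric.ball_subset_ball (min_le_right ε₁ ε₂) hs)).1
    apply hcont.congr
    intro s hs
    obtain ⟨e1, e2⟩ := hex s hs
    have hgne := (H s (Metric.ball_subset_ball (min_le_right ε₁ ε₂) hs)).1
    rw [eq_div_iff (pow_ne_zero _ hgne)]
    have h1 := congrArg (ψ s) hp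
    rw [map_mul, map_pow, val_F, val_F, e1, e2] at h1
    exact h1
  · obtain ⟨e1, e2⟩ := hex s₀ (Metric.mem_ball_self hpos)
    exact hom_ext' P _ _ e1 (by rw [e2, hr0])
  · intro y hy1 hy2
    have hb : y (algebraMap ℂ[X] A X) ∈ Metric.ball s₀ (min ε₁ ε₂) := by
      rw [Metric.mem_ball, dist_eq_norm]
      exact hy1
    obtain ⟨e1, e2⟩ := hex _ hb
    apply hom_ext' P _ _ e1
    rw [e2]
    symm
    apply hru _ (Metric.ball_subset_ball (min_le_left ε₁ ε₂) hb) _ _ (f_eq P y)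
    rw [Metric.mem_ball, dist_eq_norm]
    exact lt_of_lt_of_le hy2 (min_le_left _ _)
  · intro s hs hne
    exact (H s (Metric.ball_subset_ball (min_le_right ε₁ ε₂) hs)).2 hne

/-- the open immersion -/
def jMap (A : Type) [CommRing A] [Algebra ℂ A] [Algebra ℂ[X] A] [IsScalarTower ℂ ℂ[X] A]
    (D : ℂ[X]) : specC (Loc A D) ⟶ specC A :=
  specMap (IsScalarTower.toAlgHom ℂ A (Loc A D))

instance jMap_isOpenImmersion (D : ℂ[X]) : IsOpenImmersion (jMap A D).left := by
  show IsOpenImmersion (Spec.map (CommRingCat.ofHom (algebraMap A (Loc A D))))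
  exact IsOpenImmersion.of_isLocalization (algebraMap ℂ[X] A D)

theorem mem_range_jMap (D : ℂ[X]) (y : A →ₐ[ℂ] ℂ) (h : y (algebraMap ℂ[X] A D) ≠ 0) :
    SchAff.specPt y ∈ Set.range (fun z : Pts (specC (Loc A D)) => (z ≫ jMap A D : Pts (specC A))) := by
  let y' : Loc A D →ₐ[ℂ] ℂ :=
    { IsLocalization.Away.lift (algebraMap ℂ[X] A D) (g := (y : A →+* ℂ))
        (isUnit_iff_ne_zero.2 h) with
      commutes' := by
        intro c
        show IsLocalization.Away.lift (algebraMap ℂ[X] A D) (g := (y : A →+* ℂ)) _ _ = _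
        rw [IsScalarTower.algebraMap_apply ℂ A (Loc A D), IsLocalization.Away.lift_eq]
        exact y.commutes c }
  have hy' : ∀ a, y' (algebraMap A (Loc A D) a) = y a := fun a =>
    IsLocalization.Away.lift_eq (algebraMap ℂ[X] A D) (g := (y : A →+* ℂ))
        (isUnit_iff_ne_zero.2 h) a
  refine ⟨SchAff.specPt y', ?_⟩
  apply Over.OverMorphism.ext
  show Spec.map _ ≫ Spec.map _ = Spec.map _
  rw [← Spec.map_comp, ← CommRingCat.ofHom_comp]
  congr 2
  ext a
  exact hy' a

end alg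

end Plane

open Plane

attribute [local instance] ptTop

theorem geq_plane (e : NExp) (A : Type) [CommRing A] [Algebra ℂ A] [Algebra ℂ[X] A]
    [IsScalarTower ℂ ℂ[X] A] (P : StandardEtalePresentation ℂ[X] A) (D : ℂ[X]) (hD : D ≠ 0)
    (a b : ℂ[X][X]) (hab : a * P.f + b * P.g = C D) (x : A →ₐ[ℂ] ℂ) :
    ∃ ε > 0, ∀ y : A →ₐ[ℂ] ℂ,
      ‖y (algebraMap ℂ[X] A X) - x (algebraMap ℂ[X] A X)‖ < ε → ‖y P.x - x P.x‖ < ε →
        GEq e (SchAff.specPt x) (SchAff.specPt y) := by
  obtain ⟨ε, hε, ψ, hc, hX, hx, hy, hDn⟩ := exists_section P D hD x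
  refine ⟨ε, hε, fun y hy1 hy2 => ?_⟩
  set s₀ := x (algebraMap ℂ[X] A X) with hs₀
  set s₁ := y (algebraMap ℂ[X] A X) with hs₁
  have hψy : ψ s₁ = y := hy y hy1 hy2
  by_cases hss : s₁ = s₀
  · have : y = x := by rw [← hψy, ← hx, hss]
    rw [this]
    exact GEq.refl _
  · -- the segment
    have hseg : ∀ t : unitInterval, s₀ + (t : ℂ) * (s₁ - s₀) ∈ Metric.ball s₀ ε := by
      intro t
      rw [Metric.mem_ball, dist_eq_norm, add_sub_cancel_left, norm_mul]
      have h1 : ‖((t : ℝ) : ℂ)‖ ≤ 1 := by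
        rw [Complex.norm_real, Real.norm_eq_abs, abs_of_nonneg t.2.1]
        exact t.2.2
      calc ‖((t : ℝ) : ℂ)‖ * ‖s₁ - s₀‖ ≤ 1 * ‖s₁ - s₀‖ :=
            mul_le_mul_of_nonneg_right h1 (norm_nonneg _)
        _ < ε := by rw [one_mul]; exact hy1
    let σ : unitInterval → ℂ := fun t => s₀ + (t : ℂ) * (s₁ - s₀)
    have hσ : Continuous σ := by
      apply Continuous.add continuous_const
      exact (Complex.continuous_ofReal.comp continuous_subtype_val).mul continuous_const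
    have hcont : Continuous (fun t : unitInterval => ψ (σ t)) := by
      rw [continuous_induced_rng, continuous_pi_iff]
      intro a
      rw [continuous_iff_continuousAt]
      intro t
      have h1 : ContinuousAt (fun s => ψ s a) (σ t) :=
        (hc a).continuousAt (Metric.isOpen_ball.mem_nhds (hseg t))
      exact ContinuousAt.comp (f := σ) h1 hσ.continuousAt
    let δ : Path (SchAff.specPt x) (SchAff.specPt y) :=
      { toFun := fun t => SchAff.specPt (ψ (σ t))
        continuous_toFun := SchAff.continuous_specPt.comp hcont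
        source' := by
          have : σ 0 = s₀ := by simp [σ]
          rw [this, hx]
        target' := by
          have : σ 1 = s₁ := by simp [σ]
          rw [this, hψy] }
    have hfin : IsFinite (specMap (locMap A D)).left :=
      (IsFinite.SpecMap_iff _).2 (locMap_finite P D a b hab)
    have het : Etale (specMap (locMap A D)).left :=
      (HasRingHomProperty.Spec_iff (P := @Etale)).2 (locMap_etale P D)
    apply geq_of_curve D (Localization.Away D) e hD (jMap A D) (specMap (locMap A D)) δ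
    intro t ht
    apply mem_range_jMap
    rw [alg_eval, hX _ (hseg t)]
    apply hDn _ (hseg t)
    intro h0
    have h1 : ((t : ℝ) : ℂ) * (s₁ - s₀) = 0 := by
      have : s₀ + ((t : ℝ) : ℂ) * (s₁ - s₀) = s₀ + 0 := by rw [add_zero]; exact h0
      exact add_left_cancel this
    rcases mul_eq_zero.1 h1 with h2 | h2
    · apply ht
      apply Subtype.ext
      exact_mod_cast h2
    · exact hss (sub_eq_zero.1 h2)

end Pool.Agent.MP_f4aa65_ag
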