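import Pool.Agent.MP_f4aa65_ag.GEq
import Pool.Agent.MP_f4aa65_ag.Plane
import Pool.Agent.MP_f4aa65_ag.Irred
import Pool.Agent.MP_f4aa65_ag.LocalRoot

/-!
Standard etale algebras over affine space given by an irreducible polynomial.
-/

open Filter Topology Polynomial CategoryTheory AlgebraicGeometry Limits

noncomputable section

namespace Pool.Agent.MP_f4aa65_ag

theorem exists_disc_aux {R K : Type} [CommRing R] [IsDomain R] [IsIntegrallyClosed R] [Field K]
    [Algebra R K] [IsFractionRing R K] (P : StandardEtalePair R)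
    (hirr : Irreducible P.f) (hne : ¬ P.f ∣ P.g) :
    ∃ D : R, D ≠ 0 ∧ ∃ a b : R[X], a * P.f + b * P.g = C D := by
  have hinj : Function.Injective (algebraMap R K) := IsFractionRing.injective R K
  have hirr' : Irreducible (P.f.map (algebraMap R K)) :=
    (P.monic_f.irreducible_iff_irreducible_map_fraction_map).1 hirr
  have hnd : ¬ P.f.map (algebraMap R K) ∣ P.g.map (algebraMap R K) := by
    rwa [map_dvd_map _ hinj P.monic_f]
  have hcop : IsCoprime (P.f.map (algebraMap R K)) (P.g.map (algebraMap R K)) :=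
    (hirr'.coprime_iff_not_dvd).2 hnd
  obtain ⟨a, b, hab⟩ := hcop
  obtain ⟨c, hc, hca⟩ := IsLocalization.integerNormalization_spec (nonZeroDivisors R) a
  obtain ⟨d, hd, hdb⟩ := IsLocalization.integerNormalization_spec (nonZeroDivisors R) b
  set a' := IsLocalization.integerNormalization (nonZeroDivisors R) a with ha'
  set b' := IsLocalization.integerNormalization (nonZeroDivisors R) b with hb'
  refine ⟨c * d, mul_ne_zero (nonZeroDivisors.ne_zero hc) (nonZeroDivisors.ne_zero hd),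
    C d * a', C c * b', ?_⟩
  have hinj2 : Function.Injective (Polynomial.map (algebraMap R K)) :=
    Polynomial.map_injective _ hinj
  apply hinj2
  simp only [Polynomial.map_add, Polynomial.map_mul, hca, hdb, map_C, map_mul]
  rw [Algebra.smul_def, Algebra.smul_def, Polynomial.algebraMap_apply, Polynomial.algebraMap_apply]
  linear_combination (C (algebraMap R K c) * C (algebraMap R K d)) * hab

theorem exists_disc {n : ℕ} (P : StandardEtalePair (MvPolynomial (Fin n) ℂ))
    (hirr : Irreducible P.f) (hne : ¬ P.f ∣ P.g) :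
    ∃ D : MvPolynomial (Fin n) ℂ, D ≠ 0 ∧ ∃ a b : (MvPolynomial (Fin n) ℂ)[X],
      a * P.f + b * P.g = C D :=
  exists_disc_aux (K := FractionRing (MvPolynomial (Fin n) ℂ)) P hirr hne

section points

variable {R A : Type} [CommRing R] [Algebra ℂ R] [CommRing A] [Algebra ℂ A] [Algebra R A]
  [IsScalarTower ℂ R A] (P : StandardEtalePresentation R A)

/-- maps out of a standard etale algebra, over `ℂ` -/
theorem exists_mapTo {T : Type} [CommRing T] [Algebra ℂ T] (φ : R →ₐ[ℂ] T) (t : T)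
    (h0 : (P.f.map (φ : R →+* T)).eval t = 0) (h1 : IsUnit ((P.g.map (φ : R →+* T)).eval t)) :
    ∃ F : A →ₐ[ℂ] T, (∀ r, F (algebraMap R A r) = φ r) ∧ F P.x = t := by
  let _i : Algebra R T := (φ : R →+* T).toAlgebra
  have htow : IsScalarTower ℂ R T := IsScalarTower.of_algebraMap_eq' φ.comp_algebraMap.symm
  have hmap : P.P.HasMap t := by
    refine ⟨?_, ?_⟩
    · rw [aeval_def, ← Polynomial.eval_map]
      exact h0
    · rw [aeval_def, ← Polynomial.eval_map]
      exact h1
  let F' : A →ₐ[R] T := (P.P.lift t hmap).comp P.equivRing.toAlgHom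
  refine ⟨F'.restrictScalars ℂ, fun r => F'.commutes r, ?_⟩
  show P.P.lift t hmap (P.equivRing P.x) = t
  rw [StandardEtalePresentation.equivRing_x, StandardEtalePair.lift_X]

/-- uniqueness of maps out of a standard etale algebra, over `ℂ` -/
theorem ext_mapTo {T : Type} [CommRing T] [Algebra ℂ T] (F G : A →ₐ[ℂ] T)
    (h : ∀ r, F (algebraMap R A r) = G (algebraMap R A r)) (h' : F P.x = G P.x) : F = G := by
  let _i : Algebra R T := ((F : A →+* T).comp (algebraMap R A)).toAlgebra
  let F' : A →ₐ[R] T := { (F : A →+* T) with commutes' := fun r => rfl }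
  let G' : A →ₐ[R] T := { (G : A →+* T) with commutes' := fun r => (h r).symm }
  have h2 : F' = G' := P.hom_ext h'
  ext a
  exact congrArg (fun H : A →ₐ[R] T => H a) h2

theorem eval_f_eq_zero {T : Type} [CommRing T] [Algebra ℂ T] (F : A →ₐ[ℂ] T) (φ : R →+* T)
    (h : ∀ r, F (algebraMap R A r) = φ r) :
    (P.f.map φ).eval (F P.x) = 0 := by
  have h1 := P.hasMap.1
  have h2 := congrArg F h1
  rw [map_zero, aeval_def, ← AlgHom.coe_toRingHom, hom_eval₂] at h2
  rw [Polynomial.eval_map]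
  rw [← h2]
  congr 1
  ext r
  exact (h r).symm

theorem isUnit_eval_g {T : Type} [CommRing T] [Algebra ℂ T] (F : A →ₐ[ℂ] T) (φ : R →+* T)
    (h : ∀ r, F (algebraMap R A r) = φ r) :
    IsUnit ((P.g.map φ).eval (F P.x)) := by
  have h1 := P.hasMap.2
  have h2 := h1.map F
  rw [aeval_def, ← AlgHom.coe_toRingHom, hom_eval₂] at h2
  rw [Polynomial.eval_map]
  have : φ = (F : A →+* T).comp (algebraMap R A) := by
    ext r
    exact (h r).symm
  rwa [this]

theorem isUnit_eval_f' {T : Type} [CommRing T] [Algebra ℂ T] (F : A →ₐ[ℂ] T) (φ : R →+* T)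
    (h : ∀ r, F (algebraMap R A r) = φ r) :
    IsUnit (((derivative P.f).map φ).eval (F P.x)) := by
  have h1 := P.hasMap.isUnit_derivative_f
  have h2 := h1.map F
  rw [aeval_def, ← AlgHom.coe_toRingHom, hom_eval₂] at h2
  rw [Polynomial.eval_map]
  have : φ = (F : A →+* T).comp (algebraMap R A) := by
    ext r
    exact (h r).symm
  rwa [this]

end points

theorem specPt_comp {A B : Type} [CommRing A] [Algebra ℂ A] [CommRing B] [Algebra ℂ B]
    (x : B →ₐ[ℂ] ℂ) (F : A →ₐ[ℂ] B) :
    SchAff.specPt x ≫ specMap F = SchAff.specPt (x.comp F) := by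
  apply Over.OverMorphism.ext
  show Spec.map _ ≫ Spec.map _ = Spec.map _
  rw [← Spec.map_comp, ← CommRingCat.ofHom_comp]
  rfl

section line

variable {R A : Type} [CommRing R] [Algebra ℂ R] [CommRing A] [Algebra ℂ A] [Algebra R A]
  [IsScalarTower ℂ R A] (P : StandardEtalePresentation R A)

/-- nearby points on a line -/
theorem geq_line (e : NExp) (D : R) (a b : R[X]) (hab : a * P.f + b * P.g = C D)
    (ψ : R →ₐ[ℂ] ℂ[X]) (hψ : ψ D ≠ 0) (s₀ : ℂ) (x : A →ₐ[ℂ] ℂ)
    (hx : ∀ r, x (algebraMap R A r) = (ψ r).eval s₀) :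
    ∃ ε > 0, ∀ (s : ℂ) (y : A →ₐ[ℂ] ℂ), (∀ r, y (algebraMap R A r) = (ψ r).eval s) →
      ‖s - s₀‖ < ε → ‖y P.x - x P.x‖ < ε → GEq e (SchAff.specPt x) (SchAff.specPt y) := by
  let P' : StandardEtalePair ℂ[X] := P.P.map (ψ : R →+* ℂ[X])
  let _i : Algebra ℂ P'.Ring := ((algebraMap ℂ[X] P'.Ring).comp (algebraMap ℂ ℂ[X])).toAlgebra
  have htow : IsScalarTower ℂ ℂ[X] P'.Ring := IsScalarTower.of_algebraMap_eq' rfl
  let P'' : StandardEtalePresentation ℂ[X] P'.Ring :=
    ⟨P', P'.X, P'.hasMap_X, by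
      rw [StandardEtalePair.lift_X_left]
      exact Function.bijective_id⟩
  have hab' : a.map (ψ : R →+* ℂ[X]) * P''.f + b.map (ψ : R →+* ℂ[X]) * P''.g = C (ψ D) := by
    have := congrArg (Polynomial.map (ψ : R →+* ℂ[X])) hab
    show a.map (ψ : R →+* ℂ[X]) * P.f.map (ψ : R →+* ℂ[X]) +
      b.map (ψ : R →+* ℂ[X]) * P.g.map (ψ : R →+* ℂ[X]) = C (ψ D)
    simpa using this
  -- the map of algebras
  obtain ⟨F, hF, hFx⟩ := exists_mapTo P ((IsScalarTower.toAlgHom ℂ ℂ[X] P'.Ring).comp ψ) P'.X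
    (by
      have h := P'.hasMap_X.1
      rw [aeval_def, ← Polynomial.eval_map] at h
      rw [← h]
      congr 1
      rw [StandardEtalePair.map_f, Polynomial.map_map]
      rfl)
    (by
      have h := P'.hasMap_X.2
      rw [aeval_def, ← Polynomial.eval_map] at h
      have h2 : P.g.map (((IsScalarTower.toAlgHom ℂ ℂ[X] P'.Ring).comp ψ : R →ₐ[ℂ] P'.Ring) :
          R →+* P'.Ring) = P'.g.map (algebraMap ℂ[X] P'.Ring) := by
        rw [StandardEtalePair.map_g, Polynomial.map_map]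
        rfl
      rw [h2]
      exact h)
  -- lifting points
  have hlift : ∀ (s : ℂ) (y : A →ₐ[ℂ] ℂ), (∀ r, y (algebraMap R A r) = (ψ r).eval s) →
      ∃ y' : P'.Ring →ₐ[ℂ] ℂ, y' (algebraMap ℂ[X] P'.Ring X) = s ∧ y' P''.x = y P.x ∧
        y'.comp F = y := by
    intro s y hy
    have hy' : ∀ r, y (algebraMap R A r) = ((evalRingHom s).comp (ψ : R →+* ℂ[X])) r := hy
    obtain ⟨y', hy1, hy2⟩ := exists_mapTo P'' (aeval s : ℂ[X] →ₐ[ℂ] ℂ) (y P.x)
      (by
        rw [← eval_f_eq_zero P y _ hy']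
        congr 1
        show Polynomial.map _ (Polynomial.map _ P.f) = _
        rw [Polynomial.map_map]
        congr 1)
      (by
        have h := isUnit_eval_g P y _ hy'
        have h2 : Polynomial.map ((aeval s : ℂ[X] →ₐ[ℂ] ℂ) : ℂ[X] →+* ℂ) P''.g =
            P.g.map ((evalRingHom s).comp (ψ : R →+* ℂ[X])) := by
          show Polynomial.map _ (Polynomial.map _ P.g) = _
          rw [Polynomial.map_map]
          congr 1
        rw [h2]
        exact h)
    refine ⟨y', ?_, hy2, ?_⟩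
    · rw [hy1]; simp
    · apply ext_mapTo P
      · intro r
        show y' (F (algebraMap R A r)) = _
        rw [hF, hy]
        show y' (algebraMap ℂ[X] P'.Ring (ψ r)) = _
        rw [hy1]
        simp [coe_aeval_eq_eval]
      · show y' (F P.x) = _
        rw [hFx]
        exact hy2
  obtain ⟨x', hx1, hx2, hx3⟩ := hlift s₀ x hx
  obtain ⟨ε, hε, H⟩ := geq_plane e P'.Ring P'' (ψ D) hψ _ _ hab' x'
  refine ⟨ε, hε, ?_⟩
  intro s y hy hs ht
  obtain ⟨y', hy1, hy2, hy3⟩ := hlift s y hy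
  have h := (H y' (by rw [hy1, hx1]; exact hs) (by rw [hy2, hx2]; exact ht)).map (specMap F)
  rwa [specPt_comp, specPt_comp, hx3, hy3] at h

end line

section main

variable {n : ℕ} {A : Type} [CommRing A] [Algebra ℂ A]
    [Algebra (MvPolynomial (Fin n) ℂ) A] [IsScalarTower ℂ (MvPolynomial (Fin n) ℂ) A]

/-- the coordinates of a point -/
def coord (x : A →ₐ[ℂ] ℂ) : Fin n → ℂ := fun i => x (algebraMap (MvPolynomial (Fin n) ℂ) A (.X i))

theorem algebraMap_eq_eval (x : A →ₐ[ℂ] ℂ) (r : MvPolynomial (Fin n) ℂ) :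
    x (algebraMap (MvPolynomial (Fin n) ℂ) A r) = MvPolynomial.eval (coord (n := n) x) r := by
  have h : (x.comp (IsScalarTower.toAlgHom ℂ (MvPolynomial (Fin n) ℂ) A)) =
      MvPolynomial.aeval (coord (n := n) x) := by
    apply MvPolynomial.algHom_ext
    intro i
    simp [coord]
  have h2 := congrArg (fun g => g r) h
  simpa [MvPolynomial.coe_aeval_eq_eval] using h2

variable (P : StandardEtalePresentation (MvPolynomial (Fin n) ℂ) A)

theorem exists_pt (D : MvPolynomial (Fin n) ℂ)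
    (a b : (MvPolynomial (Fin n) ℂ)[X]) (hab : a * P.f + b * P.g = C D)
    (u : Fin n → ℂ) (t : ℂ) (hD : MvPolynomial.eval u D ≠ 0)
    (h0 : (P.f.map (MvPolynomial.eval u)).eval t = 0) :
    ∃ y : A →ₐ[ℂ] ℂ, coord (n := n) y = u ∧ y P.x = t := by
  have hcoe : ((MvPolynomial.aeval u : MvPolynomial (Fin n) ℂ →ₐ[ℂ] ℂ) :
      MvPolynomial (Fin n) ℂ →+* ℂ) = MvPolynomial.eval u := by
    ext i
    · simp
    · simp
  obtain ⟨y, hy1, hy2⟩ := exists_mapTo P (MvPolynomial.aeval u) t (by rw [hcoe]; exact h0) (by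
    rw [hcoe, isUnit_iff_ne_zero]
    intro h1
    have h2 := congrArg (fun q => (q.map (MvPolynomial.eval u)).eval t) hab
    simp [h0, h1] at h2
    exact hD h2.symm)
  refine ⟨y, ?_, hy2⟩
  funext i
  rw [coord, hy1]
  simp

/-- two points with the same coordinates are equal -/
theorem pt_ext (x y : A →ₐ[ℂ] ℂ) (h : coord (n := n) x = coord (n := n) y) (h' : x P.x = y P.x) :
    x = y := by
  apply ext_mapTo P _ _ _ h'
  intro r
  rw [algebraMap_eq_eval, algebraMap_eq_eval, h]

theorem coord_f (x : A →ₐ[ℂ] ℂ) :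
    (P.f.map (MvPolynomial.eval (coord (n := n) x))).eval (x P.x) = 0 :=
  eval_f_eq_zero P x _ (algebraMap_eq_eval x)

theorem coord_f' (x : A →ₐ[ℂ] ℂ) :
    ((derivative P.f).map (MvPolynomial.eval (coord (n := n) x))).eval (x P.x) ≠ 0 :=
  (isUnit_eval_f' P x _ (algebraMap_eq_eval x)).ne_zero

/-- the line through `u` in direction `w` -/
def lineHom (u w : Fin n → ℂ) : MvPolynomial (Fin n) ℂ →ₐ[ℂ] ℂ[X] :=
  MvPolynomial.aeval (fun i => C (u i) + C (w i) * X)

theorem lineHom_eval (u w : Fin n → ℂ) (s : ℂ) (r : MvPolynomial (Fin n) ℂ) :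
    (lineHom u w r).eval s = MvPolynomial.eval (fun i => u i + w i * s) r := by
  have h : ((evalRingHom s).comp (lineHom u w : MvPolynomial (Fin n) ℂ →+* ℂ[X])) =
      MvPolynomial.eval (fun i => u i + w i * s) := by
    ext i
    · simp [lineHom]
    · simp [lineHom]
  exact congrArg (fun g => g r) h

/-- a bound for nearby points on a line through the point `x` -/
theorem geq_line' (e : NExp) (D : MvPolynomial (Fin n) ℂ)
    (a b : (MvPolynomial (Fin n) ℂ)[X]) (hab : a * P.f + b * P.g = C D)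
    (u w : Fin n → ℂ) (hψ : lineHom u w D ≠ 0) (s₀ : ℂ) (x : A →ₐ[ℂ] ℂ)
    (hx : coord (n := n) x = fun i => u i + w i * s₀) :
    ∃ ε > 0, ∀ (s : ℂ) (y : A →ₐ[ℂ] ℂ), (coord (n := n) y = fun i => u i + w i * s) →
      ‖s - s₀‖ < ε → ‖y P.x - x P.x‖ < ε → GEq e (SchAff.specPt x) (SchAff.specPt y) := by
  obtain ⟨ε, hε, H⟩ := geq_line P e D a b hab (lineHom u w) hψ s₀ x (by
    intro r
    rw [algebraMap_eq_eval, lineHom_eval, hx])
  refine ⟨ε, hε, fun s y hy hs ht => H s y ?_ hs ht⟩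
  intro r
  rw [algebraMap_eq_eval, lineHom_eval, hy]

theorem geq_irred (e : NExp) {n : ℕ} (A : Type) [CommRing A] [Algebra ℂ A]
    [Algebra (MvPolynomial (Fin n) ℂ) A] [IsScalarTower ℂ (MvPolynomial (Fin n) ℂ) A]
    (P : StandardEtalePresentation (MvPolynomial (Fin n) ℂ) A) (hirr : Irreducible P.f)
    (x y : A →ₐ[ℂ] ℂ) : GEq e (SchAff.specPt x) (SchAff.specPt y) := by
  classical
  -- no points if `f ∣ g`
  by_cases hne : P.f ∣ P.g
  · exfalso
    obtain ⟨q, hq⟩ := hne
    have h1 := isUnit_eval_g P x _ (algebraMap_eq_eval x)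
    rw [hq, Polynomial.map_mul, eval_mul, coord_f, zero_mul] at h1
    exact not_isUnit_zero h1
  obtain ⟨D, hD, a, b, hab⟩ := exists_disc P.P hirr hne
  -- the discriminant identity
  obtain ⟨p₁, p₂, m, hp⟩ := P.cond
  obtain ⟨a', b', hab'⟩ : ∃ a' b' : (MvPolynomial (Fin n) ℂ)[X],
      a' * P.f + b' * derivative P.f = C (D ^ (m + 1)) := by
    obtain ⟨c, hc⟩ : P.f ∣ (C D) ^ m - (b * P.g) ^ m := by
      have h1 : C D - b * P.g ∣ (C D) ^ m - (b * P.g) ^ m := sub_dvd_pow_sub_pow _ _ m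
      have h2 : C D - b * P.g = P.f * a := by rw [← hab]; ring
      rw [h2] at h1
      exact (dvd_mul_right _ _).trans h1
    refine ⟨C D * (c + b ^ m * p₂), C D * (b ^ m * p₁), ?_⟩
    have h3 : (C D) ^ m = P.f * c + b ^ m * P.g ^ m := by
      rw [mul_pow] at hc
      linear_combination hc
    rw [map_pow, pow_succ, h3, ← hp]
    ring
  have hDm : ∀ u, MvPolynomial.eval u (D ^ (m + 1)) ≠ 0 ↔ MvPolynomial.eval u D ≠ 0 := by
    intro u
    rw [map_pow]
    exact (pow_ne_zero_iff (Nat.succ_ne_zero m))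
  -- points with nonzero discriminant are equivalent
  have hgood : ∀ x y : A →ₐ[ℂ] ℂ, MvPolynomial.eval (coord (n := n) x) D ≠ 0 →
      MvPolynomial.eval (coord (n := n) y) D ≠ 0 →
      GEq e (SchAff.specPt x) (SchAff.specPt y) := by
    intro x y hx hy
    have hkey := irred_const P.f P.monic_f hirr (D ^ (m + 1)) (pow_ne_zero _ hD) a' b' hab'
      (fun u t => ∃ z : A →ₐ[ℂ] ℂ, coord (n := n) z = u ∧ z P.x = t ∧
        GEq e (SchAff.specPt x) (SchAff.specPt z)) ?_
      (coord (n := n) x) (x P.x) (coord (n := n) y) (y P.x) ((hDm _).2 hx) (coord_f P x)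
      ((hDm _).2 hy) (coord_f P y)
    · obtain ⟨z, hz1, hz2, hz3⟩ := hkey.1 ⟨x, rfl, rfl, GEq.refl _⟩
      rwa [pt_ext P z y hz1 hz2] at hz3
    · intro u t hu ht i
      rw [hDm] at hu
      obtain ⟨y₀, hy₀, hy₀t⟩ := exists_pt P D a b hab u t hu ht
      obtain ⟨ε, hε, H⟩ := geq_line' P e D a b hab (Function.update u i 0) (Pi.single i 1) (by
        intro h0
        have h1 := lineHom_eval (Function.update u i 0) (Pi.single i 1) (u i) D
        rw [h0, eval_zero] at h1
        apply hu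
        rw [h1]
        congr 2
        funext j
        by_cases hj : j = i
        · subst hj; simp
        · simp [hj]) (u i) y₀ (by
        rw [hy₀]
        funext j
        by_cases hj : j = i
        · subst hj; simp
        · simp [hj])
      refine ⟨ε, hε, ?_⟩
      intro z t' hz ht' hD' hf'
      rw [hDm] at hD'
      obtain ⟨y₁, hy₁, hy₁t⟩ := exists_pt P D a b hab _ t' hD' hf'
      have hgeq : GEq e (SchAff.specPt y₀) (SchAff.specPt y₁) := by
        apply H z y₁
        · rw [hy₁]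
          funext j
          by_cases hj : j = i
          · subst hj; simp
          · simp [hj]
        · exact hz
        · rw [hy₁t, hy₀t]; exact ht'
      constructor
      · rintro ⟨w, hw1, hw2, hw3⟩
        rw [pt_ext P w y₀ (hw1.trans hy₀.symm) (hw2.trans hy₀t.symm)] at hw3
        exact ⟨y₁, hy₁, hy₁t, hw3.trans hgeq⟩
      · rintro ⟨w, hw1, hw2, hw3⟩
        rw [pt_ext P w y₁ (hw1.trans hy₁.symm) (hw2.trans hy₁t.symm)] at hw3
        exact ⟨y₀, hy₀, hy₀t, hw3.trans hgeq.symm⟩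
  -- every point is equivalent to one with nonzero discriminant
  have hmove : ∀ x : A →ₐ[ℂ] ℂ, ∃ z : A →ₐ[ℂ] ℂ, MvPolynomial.eval (coord (n := n) z) D ≠ 0 ∧
      GEq e (SchAff.specPt x) (SchAff.specPt z) := by
    intro x
    obtain ⟨v, hv⟩ : ∃ v, MvPolynomial.eval v D ≠ 0 := by
      by_contra h
      push Not at h
      exact hD (MvPolynomial.funext (by simpa using h))
    set u := coord (n := n) x with hu
    set w : Fin n → ℂ := fun i => v i - u i with hw
    have hψ : lineHom u w D ≠ 0 := by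
      intro h0
      have h1 := lineHom_eval u w 1 D
      rw [h0, eval_zero] at h1
      apply hv
      rw [h1]
      congr 2
      funext i
      simp [hw]
    obtain ⟨ε, hε, H⟩ := geq_line' P e D a b hab u w hψ 0 x (by funext i; simp [hu])
    have hcomp : ∀ s : ℂ, (evalRingHom s).comp (lineHom u w : MvPolynomial (Fin n) ℂ →+* ℂ[X]) =
        MvPolynomial.eval (fun i => u i + w i * s) := by
      intro s
      ext i
      · simp [lineHom]
      · simp [lineHom]
    have hu0 : (fun i => u i + w i * 0) = u := by funext i; simp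
    obtain ⟨δ, hδ, r, hrc, hr0, hr1, -⟩ := exists_local_root
      (P.f.map (lineHom u w : MvPolynomial (Fin n) ℂ →+* ℂ[X])) 0 (x P.x)
      (by
        rw [Polynomial.map_map, hcomp, hu0]
        exact coord_f P x)
      (by
        rw [derivative_map, Polynomial.map_map, hcomp, hu0]
        exact coord_f' P x)
    -- choose a small `s`
    have h0mem : (0 : ℂ) ∈ Metric.ball (0 : ℂ) δ := Metric.mem_ball_self hδ
    have hcont : ContinuousAt r 0 := hrc.continuousAt (Metric.isOpen_ball.mem_nhds h0mem)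
    have e1 : ∀ᶠ s in 𝓝 (0 : ℂ), ‖r s - x P.x‖ < ε := by
      have := hcont.tendsto.eventually (Metric.ball_mem_nhds (r 0) hε)
      filter_upwards [this] with s hs
      rw [← hr0]
      simpa [dist_eq_norm] using hs
    have e2 : ∀ᶠ s in 𝓝 (0 : ℂ), s ∈ Metric.ball (0 : ℂ) δ := Metric.ball_mem_nhds 0 hδ
    have e3 : ∀ᶠ s in 𝓝 (0 : ℂ), ‖s - 0‖ < ε := by
      filter_upwards [Metric.ball_mem_nhds (0 : ℂ) hε] with s hs
      simpa [dist_eq_norm] using hs
    have e4 : ∀ᶠ s in 𝓝[≠] (0 : ℂ), (lineHom u w D).eval s ≠ 0 := by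
      have hfin : ({s : ℂ | (lineHom u w D).IsRoot s}).Finite := finite_setOfPred_isRoot hψ
      have hcl : IsClosed ({s : ℂ | (lineHom u w D).IsRoot s} \ {0}) :=
        (hfin.subset Set.diff_subset).isClosed
      have hop : ({s : ℂ | (lineHom u w D).IsRoot s} \ {0})ᶜ ∈ 𝓝 (0 : ℂ) :=
        hcl.isOpen_compl.mem_nhds (by simp)
      rw [eventually_nhdsWithin_iff]
      filter_upwards [hop] with s hs hs0 hroot
      exact hs ⟨hroot, hs0⟩
    obtain ⟨s, ⟨⟨hs1, hs2⟩, hs3⟩, hs4⟩ :=
      (((e1.and e2).and e3).filter_mono nhdsWithin_le_nhds |>.and e4).exists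
    have hroot := hr1 s hs2
    rw [Polynomial.map_map, hcomp] at hroot
    rw [lineHom_eval] at hs4
    obtain ⟨z, hz, hzt⟩ := exists_pt P D a b hab _ (r s) hs4 hroot
    refine ⟨z, by rw [hz]; exact hs4, H s z hz hs3 (by rw [hzt]; exact hs1)⟩
  obtain ⟨x', hx', hxx'⟩ := hmove x
  obtain ⟨y', hy', hyy'⟩ := hmove y
  exact (hxx'.trans (hgood x' y' hx' hy')).trans hyy'.symm

end main

end Pool.Agent.MP_f4aa65_ag
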