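import Pool.Agent.MP_f4aa65_ag.Log

/-!
Change of logarithm along the lift of a path class to a covering space.
-/

open Topology unitInterval

noncomputable section

namespace Pool.Agent.MP_f4aa65_ag

variable {Y X : Type*} [TopologicalSpace Y] [TopologicalSpace X] {f : Y → X}
  (cov : IsCoveringMap f) (h : C(Y, C0))

/-- the change of `log h` along the lift of `γ` starting at `e` -/
def windL {x x' : X} (γ : Path.Homotopic.Quotient x x') (e : f ⁻¹' {x}) : ℂ :=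
  dlog h (cov.liftPathQuotient γ e)

theorem windL_eq {x x' : X} (γ : Path.Homotopic.Quotient x x') (e : f ⁻¹' {x}) (e' : f ⁻¹' {x'})
    (Γ : Path.Homotopic.Quotient e.1 e'.1)
    (hΓ : Γ.map ⟨f, cov.continuous⟩ = γ.cast e.2 e'.2) :
    cov.monodromy γ e = e' ∧ windL cov h γ e = dlog h Γ := by
  have h1 := cov.monodromy_eq_of_map_eq Γ hΓ
  refine ⟨h1, ?_⟩
  subst h1
  have h2 : cov.liftPathQuotient γ e = Γ := by
    apply cov.injective_path_homotopic_map
    simp only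
    rw [hΓ, cov.map_liftPathQuotient]
  rw [windL, h2]

theorem exists_lift {x x' : X} (γ : Path.Homotopic.Quotient x x') (e : f ⁻¹' {x}) :
    ∃ Γ : Path.Homotopic.Quotient e.1 (cov.monodromy γ e).1,
      Γ.map ⟨f, cov.continuous⟩ = γ.cast e.2 (cov.monodromy γ e).2 :=
  ⟨cov.liftPathQuotient γ e, cov.map_liftPathQuotient γ e⟩

theorem windL_refl {x : X} (e : f ⁻¹' {x}) :
    windL cov h (Path.Homotopic.Quotient.refl x) e = 0 := by
  obtain ⟨e, rfl⟩ := e
  rw [(windL_eq cov h (Path.Homotopic.Quotient.refl (f e)) ⟨e, rfl⟩ ⟨e, rfl⟩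
    (Path.Homotopic.Quotient.refl e) rfl).2, dlog_refl]

theorem windL_trans {x x' x'' : X} (γ : Path.Homotopic.Quotient x x')
    (γ' : Path.Homotopic.Quotient x' x'') (e : f ⁻¹' {x}) :
    windL cov h (γ.trans γ') e = windL cov h γ e + windL cov h γ' (cov.monodromy γ e) := by
  obtain ⟨Γ, hΓ⟩ := exists_lift cov γ e
  obtain ⟨Γ', hΓ'⟩ := exists_lift cov γ' (cov.monodromy γ e)
  have h1 := (windL_eq cov h γ e _ Γ hΓ).2
  have h2 := (windL_eq cov h γ' _ _ Γ' hΓ').2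
  have h3 := (windL_eq cov h (γ.trans γ') e (cov.monodromy γ' (cov.monodromy γ e))
    (Γ.trans Γ') ?_).2
  · rw [h1, h2, h3, dlog_trans]
  · obtain ⟨p, rfl⟩ := Path.Homotopic.Quotient.mk_surjective Γ
    obtain ⟨q, rfl⟩ := Path.Homotopic.Quotient.mk_surjective Γ'
    generalize cov.monodromy γ' (cov.monodromy γ e) = e'' at *
    generalize cov.monodromy γ e = e' at *
    obtain ⟨e, rfl⟩ := e
    obtain ⟨e', rfl⟩ := e'
    obtain ⟨e'', rfl⟩ := e''
    rw [Path.Homotopic.Quotient.cast_rfl_rfl] at hΓ hΓ' ⊢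
    rw [← hΓ, ← hΓ', ← Path.Homotopic.Quotient.mk_trans, ← Path.Homotopic.Quotient.mk_map,
      ← Path.Homotopic.Quotient.mk_map, ← Path.Homotopic.Quotient.mk_map,
      ← Path.Homotopic.Quotient.mk_trans, Path.map_trans]

theorem windL_symm {x x' : X} (γ : Path.Homotopic.Quotient x x') (e : f ⁻¹' {x}) :
    windL cov h γ.symm (cov.monodromy γ e) = - windL cov h γ e := by
  have := windL_trans cov h γ γ.symm e
  rw [Path.Homotopic.Quotient.trans_symm, windL_refl] at this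
  linear_combination -this

theorem exp_windL {x x' : X} (γ : Path.Homotopic.Quotient x x') (e : f ⁻¹' {x}) :
    Complex.exp (windL cov h γ e) = h (cov.monodromy γ e).1 / h e.1 :=
  exp_dlog h _

theorem windL_mul {h₁ h₂ h₃ : C(Y, C0)} (hm : ∀ y, (h₃ y : ℂ) = h₁ y * h₂ y) {x x' : X}
    (γ : Path.Homotopic.Quotient x x') (e : f ⁻¹' {x}) :
    windL cov h₃ γ e = windL cov h₁ γ e + windL cov h₂ γ e := dlog_mul hm _

theorem windL_pow {h₁ h₂ : C(Y, C0)} (n : ℕ) (hm : ∀ y, (h₂ y : ℂ) = h₁ y ^ n) {x x' : X}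
    (γ : Path.Homotopic.Quotient x x') (e : f ⁻¹' {x}) :
    windL cov h₂ γ e = n * windL cov h₁ γ e := dlog_pow n hm _

theorem windL_one {h : C(Y, C0)} (hm : ∀ y, (h y : ℂ) = 1) {x x' : X}
    (γ : Path.Homotopic.Quotient x x') (e : f ⁻¹' {x}) :
    windL cov h γ e = 0 := dlog_one hm _

theorem windL_inv {h₁ h₂ : C(Y, C0)} (hm : ∀ y, (h₁ y : ℂ) * h₂ y = 1) {x x' : X}
    (γ : Path.Homotopic.Quotient x x') (e : f ⁻¹' {x}) :
    windL cov h₂ γ e = - windL cov h₁ γ e := dlog_inv hm _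

/-- functoriality for a commutative square of covering maps -/
theorem windL_square {Y' X' : Type*} [TopologicalSpace Y'] [TopologicalSpace X'] {f' : Y' → X'}
    (cov' : IsCoveringMap f') (h' : C(Y', C0)) (g : C(X, X')) (k : C(Y, Y'))
    (hk : ∀ y, f' (k y) = g (f y)) {x x' : X}
    (γ : Path.Homotopic.Quotient x x') (e : f ⁻¹' {x}) (e₁ : f' ⁻¹' {g x}) (he : e₁.1 = k e.1) :
    (cov'.monodromy (γ.map g) e₁).1 = k (cov.monodromy γ e).1 ∧
      windL cov' h' (γ.map g) e₁ = windL cov (h'.comp k) γ e := by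
  obtain ⟨Γ, hΓ⟩ := exists_lift cov γ e
  have h1 := (windL_eq cov (h'.comp k) γ e _ Γ hΓ).2
  rw [h1]
  generalize cov.monodromy γ e = e' at *
  obtain ⟨e, rfl⟩ := e
  obtain ⟨e', rfl⟩ := e'
  obtain ⟨e₁, he₁⟩ := e₁
  simp only at he
  subst he
  have h2 := windL_eq cov' h' (γ.map g) ⟨k e, he₁⟩ ⟨k e', hk e'⟩ (Γ.map k) ?_
  · exact ⟨congrArg Subtype.val h2.1, by rw [h2.2, dlog_map]⟩
  · rw [Path.Homotopic.Quotient.cast_rfl_rfl] at hΓ
    subst hΓ
    obtain ⟨p, rfl⟩ := Path.Homotopic.Quotient.mk_surjective Γ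
    refine congrArg Path.Homotopic.Quotient.mk (?_ : _ = Path.cast _ _ _)
    ext t
    exact hk _

/-- composition of covering maps -/
theorem windL_comp {Z : Type*} [TopologicalSpace Z] {g : Z → Y} (cov₂ : IsCoveringMap g)
    (cov₃ : IsCoveringMap (f ∘ g)) (h : C(Z, C0)) {y y' : Y}
    (Γ : Path.Homotopic.Quotient y y') (e : g ⁻¹' {y}) (e₁ : (f ∘ g) ⁻¹' {f y}) (he : e₁.1 = e.1) :
    (cov₃.monodromy (Γ.map ⟨f, cov.continuous⟩) e₁).1 = (cov₂.monodromy Γ e).1 ∧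
      windL cov₃ h (Γ.map ⟨f, cov.continuous⟩) e₁ = windL cov₂ h Γ e :=
  windL_square cov₂ cov₃ h ⟨f, cov.continuous⟩ (ContinuousMap.id Z) (fun _ => rfl) Γ e e₁ he

end Pool.Agent.MP_f4aa65_ag
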