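import Mathlib

/-!
Change of the logarithm of a nowhere vanishing function along a homotopy class of paths.
-/

open Topology unitInterval

noncomputable section

namespace Pool.Agent.MP_f4aa65_ag

/-- nonzero complex numbers -/
abbrev C0 : Type := {z : ℂ // z ≠ 0}

/-- the exponential as a map to the nonzero complex numbers -/
def expC0 (z : ℂ) : C0 := ⟨Complex.exp z, z.exp_ne_zero⟩

theorem isCoveringMap_expC0 : IsCoveringMap expC0 := Complex.isCoveringMap_exp

variable {Y Z : Type*} [TopologicalSpace Y] [TopologicalSpace Z]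

/-- the change of `log h` along a path class -/
def dlog (h : C(Y, C0)) {x y : Y} (γ : Path.Homotopic.Quotient x y) : ℂ :=
  (isCoveringMap_expC0.monodromy (γ.map h)
    ⟨Complex.log (h x), Subtype.ext (Complex.exp_log (h x).2)⟩).1 - Complex.log (h x)

theorem dlog_mk (h : C(Y, C0)) {x y : Y} (p : Path x y) (l : C(I, ℂ))
    (hl : ∀ t, Complex.exp (l t) = h (p t)) : dlog h (Path.Homotopic.Quotient.mk p) = l 1 - l 0 := by
  unfold dlog
  have key : (isCoveringMap_expC0.monodromy ((Path.Homotopic.Quotient.mk p).map h)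
      ⟨Complex.log (h x), Subtype.ext (Complex.exp_log (h x).2)⟩).1 =
      l 1 - l 0 + Complex.log (h x) := by
    show isCoveringMap_expC0.liftPath _ _ _ 1 = _
    have h0 : Complex.exp (l 0) = h x := by rw [hl, p.source]
    have := (isCoveringMap_expC0.eq_liftPath_iff' (γ := (p.map h.continuous).toContinuousMap)
      (e := Complex.log (h x)) (by
        rw [Path.coe_toContinuousMap]
        simp only [Path.source]
        exact (Subtype.ext (Complex.exp_log (h x).2)).symm)
        (Γ := ⟨fun t => l t - l 0 + Complex.log (h x), by fun_prop⟩)).mpr ⟨?_, ?_⟩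
    · exact (congrArg (fun g : C(I, ℂ) => g 1) this).symm
    · funext t
      apply Subtype.ext
      show Complex.exp (l t - l 0 + Complex.log (h x)) = h (p t)
      rw [Complex.exp_add, Complex.exp_sub, hl, h0, Complex.exp_log (h x).2]
      have := (h x).2
      field_simp
    · simp
  rw [key]; ring

/-- a continuous logarithm along a path -/
theorem exists_log_lift (h : C(Y, C0)) {x y : Y} (p : Path x y) (c : ℂ)
    (hc : Complex.exp c = h x) :
    ∃ l : C(I, ℂ), l 0 = c ∧ ∀ t, Complex.exp (l t) = h (p t) := by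
  obtain ⟨l, hl, h0⟩ := isCoveringMap_expC0.exists_path_lifts
    (γ := (p.map h.continuous).toContinuousMap) c (by
      rw [Path.coe_toContinuousMap]
      simp only [Path.source]
      exact (Subtype.ext hc).symm)
  refine ⟨l, h0, fun t => ?_⟩
  exact congrArg Subtype.val (congrFun hl t)

theorem exists_log_lift' (h : C(Y, C0)) {x y : Y} (p : Path x y) :
    ∃ l : C(I, ℂ), ∀ t, Complex.exp (l t) = h (p t) := by
  obtain ⟨l, -, hl⟩ := exists_log_lift h p (Complex.log (h x)) (Complex.exp_log (h x).2)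
  exact ⟨l, hl⟩

theorem exp_dlog (h : C(Y, C0)) {x y : Y} (γ : Path.Homotopic.Quotient x y) :
    Complex.exp (dlog h γ) = h y / h x := by
  obtain ⟨p, rfl⟩ := Path.Homotopic.Quotient.mk_surjective γ
  obtain ⟨l, hl⟩ := exists_log_lift' h p
  rw [dlog_mk h p l hl, Complex.exp_sub, hl, hl, p.source, p.target]

theorem dlog_refl (h : C(Y, C0)) (x : Y) : dlog h (Path.Homotopic.Quotient.refl x) = 0 := by
  rw [← Path.Homotopic.Quotient.mk_refl, dlog_mk h _ ⟨fun _ => Complex.log (h x), by fun_prop⟩]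
  · simp
  · intro t
    exact Complex.exp_log (h x).2

theorem dlog_trans (h : C(Y, C0)) {x y z : Y} (γ : Path.Homotopic.Quotient x y)
    (γ' : Path.Homotopic.Quotient y z) :
    dlog h (γ.trans γ') = dlog h γ + dlog h γ' := by
  obtain ⟨p, rfl⟩ := Path.Homotopic.Quotient.mk_surjective γ
  obtain ⟨q, rfl⟩ := Path.Homotopic.Quotient.mk_surjective γ'
  obtain ⟨l, hl⟩ := exists_log_lift' h p
  obtain ⟨m, hm0, hm⟩ := exists_log_lift h q (l 1) (by rw [hl, p.target])
  rw [dlog_mk h p l hl, dlog_mk h q m hm, ← Path.Homotopic.Quotient.mk_trans]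
  let L : Path (l 0) (l 1) := ⟨l, rfl, rfl⟩
  let M : Path (l 1) (m 1) := ⟨m, hm0, rfl⟩
  rw [dlog_mk h (p.trans q) (L.trans M).toContinuousMap]
  · have e1 : (L.trans M).toContinuousMap 1 = m 1 := (L.trans M).target
    have e0 : (L.trans M).toContinuousMap 0 = l 0 := (L.trans M).source
    rw [e1, e0, hm0]; ring
  · intro t
    show Complex.exp ((L.trans M) t) = h ((p.trans q) t)
    rw [Path.trans_apply, Path.trans_apply]
    split_ifs with ht
    · exact hl _
    · exact hm _

theorem dlog_symm (h : C(Y, C0)) {x y : Y} (γ : Path.Homotopic.Quotient x y) :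
    dlog h γ.symm = - dlog h γ := by
  have := dlog_trans h γ γ.symm
  rw [Path.Homotopic.Quotient.trans_symm, dlog_refl] at this
  linear_combination -this

theorem dlog_cast (h : C(Y, C0)) {x y x' y' : Y} (γ : Path.Homotopic.Quotient x y)
    (hx : x' = x) (hy : y' = y) : dlog h (γ.cast hx hy) = dlog h γ := by
  subst hx hy
  rw [Path.Homotopic.Quotient.cast_rfl_rfl]

theorem dlog_map (h : C(Z, C0)) (f : C(Y, Z)) {x y : Y} (γ : Path.Homotopic.Quotient x y) :
    dlog h (γ.map f) = dlog (h.comp f) γ := by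
  obtain ⟨p, rfl⟩ := Path.Homotopic.Quotient.mk_surjective γ
  obtain ⟨l, hl⟩ := exists_log_lift' (h.comp f) p
  rw [dlog_mk (h.comp f) p l hl, ← Path.Homotopic.Quotient.mk_map, dlog_mk h _ l]
  intro t
  exact hl t

theorem dlog_mul {h₁ h₂ h₃ : C(Y, C0)} (hm : ∀ y, (h₃ y : ℂ) = h₁ y * h₂ y) {x y : Y}
    (γ : Path.Homotopic.Quotient x y) : dlog h₃ γ = dlog h₁ γ + dlog h₂ γ := by
  obtain ⟨p, rfl⟩ := Path.Homotopic.Quotient.mk_surjective γ
  obtain ⟨l, hl⟩ := exists_log_lift' h₁ p
  obtain ⟨m, hm'⟩ := exists_log_lift' h₂ p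
  rw [dlog_mk h₁ p l hl, dlog_mk h₂ p m hm', dlog_mk h₃ p (l + m)]
  · simp only [ContinuousMap.add_apply]; ring
  · intro t
    rw [ContinuousMap.add_apply, Complex.exp_add, hl, hm', hm]

theorem dlog_pow {h₁ h₂ : C(Y, C0)} (n : ℕ) (hm : ∀ y, (h₂ y : ℂ) = h₁ y ^ n) {x y : Y}
    (γ : Path.Homotopic.Quotient x y) : dlog h₂ γ = n * dlog h₁ γ := by
  obtain ⟨p, rfl⟩ := Path.Homotopic.Quotient.mk_surjective γ
  obtain ⟨l, hl⟩ := exists_log_lift' h₁ p
  rw [dlog_mk h₁ p l hl, dlog_mk h₂ p ⟨fun t => n * l t, by fun_prop⟩]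
  · simp only [ContinuousMap.coe_mk]; ring
  · intro t
    simp only [ContinuousMap.coe_mk]
    rw [Complex.exp_nat_mul, hl, hm]

theorem dlog_one {h : C(Y, C0)} (hm : ∀ y, (h y : ℂ) = 1) {x y : Y}
    (γ : Path.Homotopic.Quotient x y) : dlog h γ = 0 := by
  obtain ⟨p, rfl⟩ := Path.Homotopic.Quotient.mk_surjective γ
  rw [dlog_mk h p ⟨fun _ => 0, by fun_prop⟩]
  · simp
  · intro t
    simp [hm]

theorem dlog_inv {h₁ h₂ : C(Y, C0)} (hm : ∀ y, (h₁ y : ℂ) * h₂ y = 1) {x y : Y}
    (γ : Path.Homotopic.Quotient x y) : dlog h₂ γ = - dlog h₁ γ := by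
  have h3 : dlog (⟨fun _ => ⟨1, one_ne_zero⟩, by fun_prop⟩ : C(Y, C0)) γ = 0 :=
    dlog_one (fun _ => rfl) γ
  rw [dlog_mul (h₁ := h₁) (h₂ := h₂) (fun y => (hm y).symm)] at h3
  linear_combination h3

end Pool.Agent.MP_f4aa65_ag
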