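import Pool.Agent.MP_f4aa65_ag.Inv
import Pool.Agent.MP_f4aa65_ag.SchRoot

/-!
There is no natural transformation from the topological fundamental groupoid to a twist of the
exotic functor which is the identity on complex points.
-/

open Topology unitInterval Filter CategoryTheory Limits AlgebraicGeometry Opposite

noncomputable section

namespace Pool.Agent.MP_f4aa65_ag

attribute [local instance] ptTop

open SchAff

/-! ### the multiplicative group -/

/-- Laurent polynomials -/
abbrev LP : Type := LaurentPolynomial ℂ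

theorem gm_mem : Smooth (specC LP).hom ∧ IsQuasiProjective (specC LP) := gm_mem_aux

/-- the multiplicative group as a variety -/
def gm : Var := ⟨specC LP, gm_mem⟩

/-- the unit `T` of the Laurent polynomials -/
def lpT : LPˣ := (LaurentPolynomial.isUnit_T (R := ℂ) 1).unit

theorem lpT_val : (lpT : LP) = LaurentPolynomial.T 1 := rfl

/-- the coordinate as a unit on the scheme -/
def gmUnit : Γ((specC LP).left, ⊤)ˣ :=
  Units.map (show LP →+* Γ((specC LP).left, ⊤) from
    (Scheme.ΓSpecIso (CommRingCat.of LP)).inv.hom).toMonoidHom lpT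

/-- evaluation of Laurent polynomials -/
def gmEval (z : ℂˣ) : LP →ₐ[ℂ] ℂ :=
  { LaurentPolynomial.eval₂ (RingHom.id ℂ) z with
    commutes' := fun c => LaurentPolynomial.eval₂_C (RingHom.id ℂ) z c }

theorem gmEval_C (z : ℂˣ) (c : ℂ) : gmEval z (LaurentPolynomial.C c) = c :=
  LaurentPolynomial.eval₂_C (RingHom.id ℂ) z c

theorem gmEval_T (z : ℂˣ) (n : ℤ) : gmEval z (LaurentPolynomial.T n) = (z ^ n).val :=
  LaurentPolynomial.eval₂_T (RingHom.id ℂ) z n

/-- the substitution `T ↦ T ^ n` -/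
def lpPow (n : ℕ) : LP →ₐ[ℂ] LP :=
  { LaurentPolynomial.eval₂ (LaurentPolynomial.C : ℂ →+* LP) (lpT ^ n) with
    commutes' := fun c => LaurentPolynomial.eval₂_C (LaurentPolynomial.C : ℂ →+* LP) (lpT ^ n) c }

theorem lpPow_C (n : ℕ) (c : ℂ) : lpPow n (LaurentPolynomial.C c) = LaurentPolynomial.C c :=
  LaurentPolynomial.eval₂_C (LaurentPolynomial.C : ℂ →+* LP) (lpT ^ n) c

theorem lpPow_T (n : ℕ) (m : ℤ) : lpPow n (LaurentPolynomial.T m) = ((lpT ^ n) ^ m).val :=
  LaurentPolynomial.eval₂_T (LaurentPolynomial.C : ℂ →+* LP) (lpT ^ n) m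

/-- a point of the multiplicative group -/
def gmPt (z : ℂˣ) : Pts (specC LP) := specPt (gmEval z)

/-- the `n`-th power map -/
def gmPow (n : ℕ) : specC LP ⟶ specC LP := specMap (lpPow n)

theorem gval_gmPt (z : ℂˣ) : (gmPt z).gval gmUnit.1 = z := by
  have h : evalHom (gmPt z) (LaurentPolynomial.T 1) = z := by
    unfold gmPt
    rw [evalHom_specPt, gmEval_T, zpow_one]
  exact h

theorem lpHom_ext {A : Type} [CommRing A] [Algebra ℂ A] {f g : LP →ₐ[ℂ] A}
    (h : f (LaurentPolynomial.T 1) = g (LaurentPolynomial.T 1)) : f = g := by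
  have h2 : f (LaurentPolynomial.T (-1)) = g (LaurentPolynomial.T (-1)) := by
    have e : (LaurentPolynomial.T 1 : LP) * LaurentPolynomial.T (-1) = 1 := by
      rw [← LaurentPolynomial.T_add]; simp
    have e1 := congrArg f e
    have e2 := congrArg g e
    rw [map_mul, map_one] at e1 e2
    rw [← h] at e2
    have hu : IsUnit (f (LaurentPolynomial.T 1)) := .of_mul_eq_one _ e1
    exact hu.mul_left_cancel (e1.trans e2.symm)
  refine AlgHom.ext fun a => ?_
  induction a using LaurentPolynomial.induction_on' with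
  | add p q hp hq => rw [map_add, map_add, hp, hq]
  | C_mul_T n a =>
    rw [map_mul, map_mul]
    have hC : f (LaurentPolynomial.C a) = g (LaurentPolynomial.C a) :=
      (f.commutes a).trans (g.commutes a).symm
    rw [hC]
    congr 1
    rcases n.eq_nat_or_neg with ⟨m, rfl | rfl⟩
    · have : (LaurentPolynomial.T (m : ℤ) : LP) = LaurentPolynomial.T 1 ^ m := by
        rw [LaurentPolynomial.T_pow]; simp
      rw [this, map_pow, map_pow, h]
    · have : (LaurentPolynomial.T (-(m : ℤ)) : LP) = LaurentPolynomial.T (-1) ^ m := by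
        rw [LaurentPolynomial.T_pow]; simp
      rw [this, map_pow, map_pow, h2]

theorem evalHom_comp_specMap {A B : Type} [CommRing A] [Algebra ℂ A] [CommRing B] [Algebra ℂ B]
    (φ : A →ₐ[ℂ] B) (x : Pts (specC B)) : evalHom (x ≫ specMap φ) = (evalHom x).comp φ := by
  obtain ⟨g, hg⟩ := exists_left x
  ext a
  show evalHom (x ≫ specMap φ) a = evalHom x (φ a)
  rw [evalHom_apply, evalHom_apply, SchAff.gval_eq x g hg,
    SchAff.gval_eq (x ≫ specMap φ) (CommRingCat.ofHom (φ : A →+* B) ≫ g) ?_]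
  · rfl
  · show (show Spec (CommRingCat.of ℂ) ⟶ Spec (CommRingCat.of B) from x.left) ≫ Spec.map _ = _
    rw [hg, Spec.map_comp]

theorem gmPt_pow (z : ℂˣ) (n : ℕ) : gmPt z ≫ gmPow n = gmPt (z ^ n) := by
  have h : evalHom (gmPt z ≫ gmPow n) = evalHom (gmPt (z ^ n)) := by
    unfold gmPow gmPt
    rw [evalHom_comp_specMap, evalHom_specPt, evalHom_specPt]
    apply lpHom_ext
    rw [AlgHom.comp_apply, lpPow_T, zpow_one, gmEval_T, zpow_one, Units.val_pow_eq_pow_val,
      map_pow, lpT_val, gmEval_T, zpow_one, Units.val_pow_eq_pow_val]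
  rw [← specPt_evalHom (gmPt z ≫ gmPow n), h, specPt_evalHom]

theorem gmPt_surjective (y : Pts (specC LP)) : ∃ z, gmPt z = y := by
  refine ⟨Units.map (evalHom y : LP →* ℂ) lpT, ?_⟩
  have h : gmEval (Units.map (evalHom y : LP →* ℂ) lpT) = evalHom y := by
    apply lpHom_ext
    rw [gmEval_T, zpow_one]
    rfl
  unfold gmPt
  rw [h, specPt_evalHom]

/-- the exponential as a unit -/
def expU (w : ℂ) : ℂˣ := Units.mk0 (Complex.exp w) (Complex.exp_ne_zero w)

theorem expU_pow (w : ℂ) (n : ℕ) : expU w ^ n = expU (n * w) := by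
  apply Units.ext
  rw [Units.val_pow_eq_pow_val]
  exact (Complex.exp_nat_mul w n).symm

theorem continuous_gmPt (w : C(I, ℂ)) : Continuous (fun t => gmPt (expU (w t))) := by
  refine continuous_specPt.comp ?_
  rw [continuous_induced_rng, continuous_pi_iff]
  intro a
  show Continuous (fun t => gmEval (expU (w t)) a)
  induction a using LaurentPolynomial.induction_on' with
  | add p q hp hq =>
    simp only [map_add]
    exact hp.add hq
  | C_mul_T n a =>
    simp only [map_mul, gmEval_C, gmEval_T]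
    have : ∀ t, ((expU (w t) ^ n : ℂˣ) : ℂ) = Complex.exp (n * w t) := by
      intro t
      rw [Units.val_zpow_eq_zpow_val]
      exact (Complex.exp_int_mul (w t) n).symm
    simp only [this]
    fun_prop

/-- a path in the multiplicative group -/
def gmPath (w : C(I, ℂ)) : Path (gmPt (expU (w 0))) (gmPt (expU (w 1))) where
  toFun t := gmPt (expU (w t))
  continuous_toFun := continuous_gmPt w
  source' := rfl
  target' := rfl

/-! ### conjugation -/

theorem gval_conj (s : ℂ ≃+* ℂ) {X : SchC} (x : Pts X) (f : Γ(X.left, ⊤)) :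
    Pts.gval (X := (conj s).obj X) (conjEquiv s X x) f = s (x.gval f) := by
  have h1 := Pts.gval_eq (Y := (conj s).obj X) (conjEquiv s X x)
  have h2 := Pts.gval_eq x
  have h3 : (conjEquiv s X x).left = Spec.map (CommRingCat.ofHom (s : ℂ →+* ℂ)) ≫ x.left := rfl
  have h4 : CommRingCat.ofHom (Pts.gval (X := (conj s).obj X) (conjEquiv s X x)) =
      CommRingCat.ofHom x.gval ≫ CommRingCat.ofHom (s : ℂ →+* ℂ) := by
    rw [h2, Category.assoc, ← Scheme.ΓSpecIso_naturality]
    refine h1.trans ?_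
    show (Spec.map (CommRingCat.ofHom (s : ℂ →+* ℂ)) ≫ x.left).appTop ≫ _ = _
    rw [Scheme.Hom.comp_appTop, Category.assoc]
  exact congrArg (fun g => g.hom f) h4

theorem conjEquiv_comp (s : ℂ ≃+* ℂ) {X Y : SchC} (x : Pts X) (f : X ⟶ Y) :
    conjEquiv s X x ≫ (conj s).map f = conjEquiv s Y (x ≫ f) := by
  apply Over.OverMorphism.ext
  exact Category.assoc _ _ _

/-! ### sigma types of morphisms -/

theorem functor_sigma {C D : Type*} [Category C] [Category D] {F G : C ⥤ D} (h : F = G)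
    {a b : C} (f : a ⟶ b) : (⟨F.obj a, F.obj b, F.map f⟩ : Σ x y : D, x ⟶ y) =
      ⟨G.obj a, G.obj b, G.map f⟩ := by
  subst h
  rfl

theorem functor_sigma' {C D : Type*} [Category C] [Category D] (F : C ⥤ D)
    {a b : C} (f : a ⟶ b) {a' b' : C} (f' : a' ⟶ b')
    (h : (⟨a, b, f⟩ : Σ x y : C, x ⟶ y) = ⟨a', b', f'⟩) :
    (⟨F.obj a, F.obj b, F.map f⟩ : Σ x y : D, x ⟶ y) = ⟨F.obj a', F.obj b', F.map f'⟩ := by
  cases h
  rfl

theorem path_sigma {X : Type*} [TopologicalSpace X] {x y x' y' : X} (p : Path x y)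
    (q : Path x' y') (h : ∀ t, p t = q t) :
    (⟨⟨x⟩, ⟨y⟩, Path.Homotopic.Quotient.mk p⟩ :
      Σ a b : FundamentalGroupoid X, a ⟶ b) = ⟨⟨x'⟩, ⟨y'⟩, Path.Homotopic.Quotient.mk q⟩ := by
  have h0 : x = x' := by rw [← p.source, ← q.source]; exact h 0
  have h1 : y = y' := by rw [← p.target, ← q.target]; exact h 1
  subst h0 h1
  have : p = q := Path.ext (funext h)
  rw [this]

/-- the invariant as a function on the sigma type of morphisms -/
def InvS {e : NExp} {X : SchC} (h : C(Pts X, C0))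
    (m : Σ x y : GermObj e (Pts X) (tests X), x ⟶ y) : Germ (atTop : Filter ℕ) ℂ :=
  Inv h m.2.2

/-! ### the main statement -/

theorem no_trans (e : NExp) (s : ℂ ≃+* ℂ) : ¬ HasTrans topPiOne ((exoticPi e).twist s) := by
  rintro ⟨ε, hε⟩
  let X' : SchC := (conj s).obj (specC LP)
  let F : FundamentalGroupoid (Pts (specC LP)) ⥤ GermObj e (Pts X') (tests X') := ε.app gm
  have hF : ∀ a, (F.obj a).as = conjEquiv s (specC LP) a.as := by
    intro a
    have h1 : (conjEquiv s (specC LP)).symm (F.obj a).as = a.as := hε gm a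
    rw [← h1, Equiv.apply_symm_apply]
  let h : Γ(X'.left, ⊤)ˣ := gmUnit
  have hval : ∀ z : ℂˣ, (unitFun h (F.obj ⟨gmPt z⟩).as : ℂ) = s z := by
    intro z
    rw [unitFun_apply, hF]
    refine (gval_conj s (gmPt z) gmUnit.1).trans ?_
    rw [gval_gmPt]
  -- the power maps
  let φ : ∀ n : ℕ, gm ⟶ gm := fun n => ⟨gmPow n⟩
  have hnat : ∀ n : ℕ, FundamentalGroupoid.map (ptsMap (gmPow n)) ⋙ F =
      F ⋙ germFunctor e (compat_tests ((conj s).map (gmPow n))) := fun n => ε.naturality (φ n)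
  -- the loop and its roots
  let w : ℕ → C(I, ℂ) := fun n => ⟨fun t => 2 * Real.pi * Complex.I * (t : ℝ) / n, by fun_prop⟩
  let a : ℕ → FundamentalGroupoid (Pts (specC LP)) := fun n => ⟨gmPt (expU (w n 0))⟩
  let b : ℕ → FundamentalGroupoid (Pts (specC LP)) := fun n => ⟨gmPt (expU (w n 1))⟩
  let γ : ∀ n, a n ⟶ b n := fun n => Path.Homotopic.Quotient.mk (gmPath (w n))
  have h00 : ∀ n, w n 0 = 0 := fun n => by simp [w]
  have h01 : ∀ n, w n 1 = 2 * Real.pi * Complex.I / n := fun n => by simp [w]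
  have hpow : ∀ n : ℕ, ∀ x : Pts X', (unitFun h (x ≫ (conj s).map (gmPow n)) : ℂ) =
      unitFun h x ^ n := by
    intro n x
    obtain ⟨y, rfl⟩ := (conjEquiv s (specC LP)).surjective x
    obtain ⟨z, rfl⟩ := gmPt_surjective y
    have h1 : conjEquiv s (specC LP) (gmPt z) ≫ (conj s).map (gmPow n) =
        conjEquiv s (specC LP) (gmPt z ≫ gmPow n) := conjEquiv_comp s _ _
    rw [h1, gmPt_pow, unitFun_apply, unitFun_apply]
    refine (gval_conj s (gmPt (z ^ n)) gmUnit.1).trans ?_
    rw [gval_gmPt, Units.val_pow_eq_pow_val, map_pow]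
    congr 1
    refine Eq.trans ?_ (gval_conj s (gmPt z) gmUnit.1).symm
    rw [gval_gmPt]
  have hroot : ∀ n : ℕ, 0 < n → Inv (unitFun h) (F.map (γ 1)) =
      (Inv (unitFun h) (F.map (γ n))).map (fun z : ℂ => (n : ℂ) * z) := by
    intro n hn
    rw [← Inv_map (unitFun h) (unitFun h) n (hpow n)]
    have e1 := functor_sigma (hnat n) (γ n)
    have e2 : (⟨_, _, (FundamentalGroupoid.map (ptsMap (gmPow n))).map (γ n)⟩ :
        Σ x y : FundamentalGroupoid (Pts (specC LP)), x ⟶ y) = ⟨_, _, γ 1⟩ := by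
      refine path_sigma ((gmPath (w n)).map (ptsMap (gmPow n)).continuous) (gmPath (w 1)) ?_
      intro t
      show gmPt (expU (w n t)) ≫ gmPow n = gmPt (expU (w 1 t))
      rw [gmPt_pow, expU_pow]
      congr 2
      show (n : ℂ) * (2 * Real.pi * Complex.I * (t : ℝ) / n) = 2 * Real.pi * Complex.I * (t : ℝ) / (1 : ℕ)
      have : (n : ℂ) ≠ 0 := Nat.cast_ne_zero.mpr hn.ne'
      field_simp
      simp
    have e3 := functor_sigma' F _ _ e2
    exact congrArg (InvS (unitFun h)) (e3.symm.trans e1)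
  have hE : ∀ n : ℕ, (Inv (unitFun h) (F.map (γ n))).map Complex.exp =
      ((s (Complex.exp (2 * Real.pi * Complex.I / n)) : ℂ) : Germ (atTop : Filter ℕ) ℂ) := by
    intro n
    rw [exp_Inv, hval, hval]
    congr 1
    have h1 : ((expU (w n 0) : ℂˣ) : ℂ) = 1 := by
      show Complex.exp (w n 0) = 1
      rw [h00, Complex.exp_zero]
    have h2 : ((expU (w n 1) : ℂˣ) : ℂ) = Complex.exp (2 * Real.pi * Complex.I / n) := by
      show Complex.exp (w n 1) = _
      rw [h01]
    rw [h1, h2]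
    have h3 : s (1 : ℂ) = 1 := map_one s
    rw [h3, div_one]
  obtain ⟨c, hc⟩ := exists_Inv h (F.map (γ 1))
  have hE1 : e.E c = 1 := by
    have h1 := hc 1 one_pos
    simp only [Nat.cast_one, div_one] at h1
    have h2 := h1.symm.trans (hE 1)
    have h3 := Germ.const_inj.mp h2
    rw [h3]
    simp
  obtain ⟨l, hl, hl1⟩ := e.prime c hE1
  have h1 := hc l hl.pos
  rw [hl1, hroot l hl.pos, Germ.map_map] at h1
  have h2 : ((fun z : ℂ => Complex.exp (z / l)) ∘ fun z : ℂ => (l : ℂ) * z) = Complex.exp := by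
    funext z
    have : (l : ℂ) ≠ 0 := Nat.cast_ne_zero.mpr hl.ne_zero
    simp only [Function.comp_apply]
    rw [mul_div_cancel_left₀ _ this]
  rw [h2, hE l] at h1
  have h3 := Germ.const_inj.mp h1
  have h4 : Complex.exp (2 * Real.pi * Complex.I / l) = 1 := by
    apply s.injective
    rw [h3, map_one]
  have h5 := Complex.isPrimitiveRoot_exp l hl.ne_zero
  rw [h4] at h5
  exact hl.one_lt.ne' (h5.unique IsPrimitiveRoot.one)

end Pool.Agent.MP_f4aa65_ag
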