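import Mathlib

namespace Pool.Agent.MP_f4aa65_ag

/-- the topology of pointwise convergence on the complex points of an algebra -/
@[reducible] noncomputable def ptTop (A : Type*) [CommRing A] [Algebra ℂ A] : TopologicalSpace (A →ₐ[ℂ] ℂ) :=
  TopologicalSpace.induced (fun φ a => φ a) Pi.topologicalSpace

end Pool.Agent.MP_f4aa65_ag
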