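import Pool.Agent.MP_f4aa65_ag.PtTop

open Filter Topology Polynomial
open scoped TensorProduct

namespace Pool.Agent.MP_f4aa65_ag

attribute [local instance] ptTop

namespace RingCover

section Basic

variable {A : Type*} [CommRing A] [Algebra ℂ A]

lemma continuous_eval (a : A) : Continuous (fun ψ : A →ₐ[ℂ] ℂ => ψ a) :=
  (continuous_apply a).comp continuous_induced_dom

lemma tendsto_iff {Z : Type*} {F : Filter Z} {g : Z → (A →ₐ[ℂ] ℂ)} {ψ : A →ₐ[ℂ] ℂ} :
    Tendsto g F (𝓝 ψ) ↔ ∀ a, Tendsto (fun z => g z a) F (𝓝 (ψ a)) := by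
  rw [nhds_induced, tendsto_comap_iff, tendsto_pi_nhds]
  rfl

lemma continuous_iff {Z : Type*} [TopologicalSpace Z] {g : Z → (A →ₐ[ℂ] ℂ)} :
    Continuous g ↔ ∀ a, Continuous (fun z => g z a) := by
  rw [continuous_induced_rng, continuous_pi_iff]
  rfl

instance : T2Space (A →ₐ[ℂ] ℂ) :=
  T2Space.of_injective_continuous (f := fun (φ : A →ₐ[ℂ] ℂ) (a : A) => φ a)
    (fun _ _ h => AlgHom.ext fun a => congrFun h a) continuous_induced_dom

end Basic

section

variable (R A : Type) [CommRing R] [CommRing A] [Algebra ℂ R] [Algebra ℂ A] [Algebra R A]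
  [IsScalarTower ℂ R A]

/-- restriction of complex points -/
abbrev res (ψ : A →ₐ[ℂ] ℂ) : R →ₐ[ℂ] ℂ := ψ.comp (IsScalarTower.toAlgHom ℂ R A)

lemma continuous_res : Continuous (res R A) :=
  continuous_iff.mpr fun r => continuous_eval (algebraMap R A r)

variable {A} in
lemma res_apply (ψ : A →ₐ[ℂ] ℂ) (r : R) : res R A ψ r = ψ (algebraMap R A r) := rfl

/-- the value at an integral element is a root -/
lemma eval_root {ψ : A →ₐ[ℂ] ℂ} {a : A} {P : R[X]} (hP : eval₂ (algebraMap R A) a P = 0) :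
    (P.map (res R A ψ : R →+* ℂ)).eval (ψ a) = 0 := by
  have h := congrArg ψ hP
  rw [map_zero] at h
  rw [eval_map, ← h]
  exact (hom_eval₂ P (algebraMap R A) (ψ : A →+* ℂ) a).symm

theorem fiber_finite' [Module.Finite R A] (φ : R →ₐ[ℂ] ℂ) :
    (res R A ⁻¹' {φ}).Finite := by
  have hint : ∀ a : A, IsIntegral R a := fun a => IsIntegral.of_finite R a
  choose P hPm hP using hint
  obtain ⟨s, hs⟩ := (Module.Finite.fg_top : (⊤ : Submodule R A).FG)
  -- restrict to the generators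
  let Φ : (A →ₐ[ℂ] ℂ) → (s → ℂ) := fun ψ a => ψ a
  have hfin : (Set.pi Set.univ fun a : s => {z : ℂ | ((P a).map (φ : R →+* ℂ)).eval z = 0}).Finite := by
    refine Set.Finite.pi fun a => ?_
    have hne : (P (a : A)).map (φ : R →+* ℂ) ≠ 0 := ((hPm a).map _).ne_zero
    refine (((P (a : A)).map (φ : R →+* ℂ)).roots.toFinset.finite_toSet).subset fun z hz => ?_
    rw [Finset.mem_coe, Multiset.mem_toFinset, mem_roots hne]
    exact hz
  refine Set.Finite.of_finite_image (f := Φ) (hfin.subset ?_) ?_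
  · rintro _ ⟨ψ, hψ, rfl⟩ a _
    have h := eval_root R A (ψ := ψ) (hP (a : A))
    rw [Set.mem_preimage, Set.mem_singleton_iff] at hψ
    rw [hψ] at h
    exact h
  · intro ψ hψ ψ' hψ' h
    rw [Set.mem_preimage, Set.mem_singleton_iff] at hψ hψ'
    ext a
    have ha : a ∈ Submodule.span R (s : Set A) := hs ▸ Submodule.mem_top
    induction ha using Submodule.span_induction with
    | mem x hx => exact congrFun h ⟨x, hx⟩
    | zero => rw [map_zero, map_zero]
    | add x y _ _ hx hy => rw [map_add, map_add, hx, hy]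
    | smul r x _ hx =>
      rw [Algebra.smul_def, map_mul, map_mul, hx, ← res_apply, ← res_apply, hψ, hψ']

/-- A root of a monic polynomial is bounded by the coefficients. -/
lemma norm_root_le {P : ℂ[X]} (hP : P.Monic) {z : ℂ} (hz : P.eval z = 0) :
    ‖z‖ ≤ 1 + ∑ i ∈ Finset.range P.natDegree, ‖P.coeff i‖ := by
  have hS : 0 ≤ ∑ i ∈ Finset.range P.natDegree, ‖P.coeff i‖ :=
    Finset.sum_nonneg fun _ _ => norm_nonneg _
  by_cases h1 : ‖z‖ ≤ 1
  · linarith
  push Not at h1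
  rw [eval_eq_sum_range, Finset.sum_range_succ, hP.coeff_natDegree, one_mul] at hz
  have h2 : z ^ P.natDegree = -∑ i ∈ Finset.range P.natDegree, P.coeff i * z ^ i := by
    linear_combination hz
  have hn : P.natDegree ≠ 0 := by
    intro h0
    rw [h0] at h2
    simp at h2
  obtain ⟨n, hn'⟩ := Nat.exists_eq_succ_of_ne_zero hn
  have h3 : ‖z‖ ^ P.natDegree ≤ (∑ i ∈ Finset.range P.natDegree, ‖P.coeff i‖) * ‖z‖ ^ n := by
    rw [← norm_pow, h2, norm_neg, Finset.sum_mul]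
    refine (norm_sum_le _ _).trans (Finset.sum_le_sum fun i hi => ?_)
    rw [norm_mul, norm_pow]
    refine mul_le_mul_of_nonneg_left (pow_le_pow_right₀ h1.le ?_) (norm_nonneg _)
    have := Finset.mem_range.mp hi
    omega
  have h4 : 0 < ‖z‖ ^ n := by positivity
  have h5 : ‖z‖ * ‖z‖ ^ n ≤ (∑ i ∈ Finset.range P.natDegree, ‖P.coeff i‖) * ‖z‖ ^ n := by
    rw [← pow_succ', ← Nat.succ_eq_add_one, ← hn']
    exact h3
  have h6 := le_of_mul_le_mul_right h5 h4
  linarith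

theorem isProperMap_res [Module.Finite R A] : IsProperMap (res R A) := by
  rw [isProperMap_iff_ultrafilter_of_t2]
  refine ⟨continuous_res R A, fun 𝒰 φ hφ => ?_⟩
  rw [tendsto_iff] at hφ
  -- convergence of the values at each point
  have hconv : ∀ a : A, ∃ z : ℂ, Tendsto (fun ψ : A →ₐ[ℂ] ℂ => ψ a) 𝒰 (𝓝 z) := by
    intro a
    obtain ⟨P, hPm, hP⟩ := IsIntegral.of_finite R a
    let d := P.natDegree
    let b : (A →ₐ[ℂ] ℂ) → ℝ := fun ψ => 1 + ∑ i ∈ Finset.range d, ‖res R A ψ (P.coeff i)‖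
    have hb : ∀ ψ : A →ₐ[ℂ] ℂ, ‖ψ a‖ ≤ b ψ := by
      intro ψ
      have h := norm_root_le (hPm.map (res R A ψ : R →+* ℂ)) (eval_root R A hP)
      rw [hPm.natDegree_map] at h
      simpa [b, d, coeff_map] using h
    have hbt : Tendsto b 𝒰 (𝓝 (1 + ∑ i ∈ Finset.range d, ‖φ (P.coeff i)‖)) :=
      tendsto_const_nhds.add (tendsto_finsetSum _ fun i _ => (hφ (P.coeff i)).norm)
    set M : ℝ := 1 + ∑ i ∈ Finset.range d, ‖φ (P.coeff i)‖
    have hev : ∀ᶠ ψ in (𝒰 : Filter (A →ₐ[ℂ] ℂ)), ψ a ∈ Metric.closedBall (0 : ℂ) (M + 1) := by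
      filter_upwards [hbt.eventually_le_const (lt_add_one M)] with ψ hψ
      rw [mem_closedBall_zero_iff]
      exact (hb ψ).trans hψ
    obtain ⟨z, -, hz⟩ := (isCompact_closedBall (0 : ℂ) (M + 1)).ultrafilter_le_nhds
      (𝒰.map fun ψ : A →ₐ[ℂ] ℂ => ψ a) (by
        rw [le_principal_iff]
        exact hev)
    exact ⟨z, hz⟩
  choose L hL using hconv
  let ψ₀ : A →ₐ[ℂ] ℂ :=
    { toFun := L
      map_one' := tendsto_nhds_unique (hL 1) (by simp)
      map_mul' := fun a b => tendsto_nhds_unique (hL (a * b)) (by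
        simpa only [map_mul] using (hL a).mul (hL b))
      map_zero' := tendsto_nhds_unique (hL 0) (by simp)
      map_add' := fun a b => tendsto_nhds_unique (hL (a + b)) (by
        simpa only [map_add] using (hL a).add (hL b))
      commutes' := fun c => tendsto_nhds_unique (hL (algebraMap ℂ A c)) (by simp) }
  exact ⟨ψ₀, tendsto_iff (g := id).mpr hL⟩

theorem isLocallyInjective_res [Module.Finite R A] [Algebra.FormallyUnramified R A] :
    IsLocallyInjective (res R A) := by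
  obtain ⟨t, ht1, ht2⟩ := Algebra.FormallyUnramified.iff_exists_tensorProduct (R := R) (S := A) |>.mp
    inferInstance
  obtain ⟨S, hS⟩ := TensorProduct.exists_finset t
  -- the pairing
  let T : (A →ₐ[ℂ] ℂ) → (A →ₐ[ℂ] ℂ) → ℂ := fun ψ ψ' => ∑ i ∈ S, ψ i.1 * ψ' i.2
  have hT1 : ∀ ψ, T ψ ψ = 1 := by
    intro ψ
    have h := congrArg ψ ht2
    rw [hS, map_sum, map_sum, map_one] at h
    rw [← h]
    exact Finset.sum_congr rfl fun i _ => by simp
  have hT0 : ∀ ψ ψ', res R A ψ = res R A ψ' → ψ ≠ ψ' → T ψ ψ' = 0 := by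
    intro ψ ψ' h hne
    let := (res R A ψ : R →+* ℂ).toAlgebra
    let χ : A →ₐ[R] ℂ := { (ψ : A →+* ℂ) with commutes' := fun r => rfl }
    let χ' : A →ₐ[R] ℂ := { (ψ' : A →+* ℂ) with commutes' := fun r => (DFunLike.congr_fun h r).symm }
    let F : A ⊗[R] A →ₐ[R] ℂ := Algebra.TensorProduct.lift χ χ' (fun _ _ => Commute.all _ _)
    have hF : ∀ a b, F (a ⊗ₜ b) = ψ a * ψ' b := fun a b => by
      simp only [F, Algebra.TensorProduct.lift_tmul]
      rfl
    have hFt : F t = T ψ ψ' := by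
      rw [hS, map_sum]
      exact Finset.sum_congr rfl fun i _ => hF _ _
    obtain ⟨a, ha⟩ : ∃ a, ψ a ≠ ψ' a := by
      by_contra hcon
      push Not at hcon
      exact hne (AlgHom.ext hcon)
    have h1 := congrArg F (ht1 a)
    rw [map_mul, map_sub, hF, hF, map_one, map_one, one_mul, mul_one, map_zero, hFt] at h1
    rcases mul_eq_zero.mp h1 with h2 | h2
    · exact absurd (sub_eq_zero.mp h2).symm ha
    · exact h2
  intro ψ₀
  have hcont : Continuous (fun p : (A →ₐ[ℂ] ℂ) × (A →ₐ[ℂ] ℂ) => T p.1 p.2) :=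
    continuous_finsetSum _ fun i _ =>
      ((continuous_eval i.1).comp continuous_fst).mul ((continuous_eval i.2).comp continuous_snd)
  have hopen : IsOpen {p : (A →ₐ[ℂ] ℂ) × (A →ₐ[ℂ] ℂ) | T p.1 p.2 ≠ 0} :=
    isOpen_ne_fun hcont continuous_const
  obtain ⟨U, V, hU, hV, hψU, hψV, hUV⟩ := isOpen_prod_iff.mp hopen ψ₀ ψ₀ (by
    change T ψ₀ ψ₀ ≠ 0
    rw [hT1]; exact one_ne_zero)
  refine ⟨U ∩ V, hU.inter hV, ⟨hψU, hψV⟩, fun ψ hψ ψ' hψ' h => ?_⟩
  by_contra hne
  exact hUV (Set.mk_mem_prod hψ.1 hψ'.2) (hT0 ψ ψ' h hne)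

/-- the kernel of a complex point -/
def ptKer (φ : R →ₐ[ℂ] ℂ) : PrimeSpectrum R :=
  PrimeSpectrum.comap (φ : R →+* ℂ) ⊥

variable {R} in
lemma mem_basicOpen_ptKer (φ : R →ₐ[ℂ] ℂ) (r : R) :
    ptKer R φ ∈ PrimeSpectrum.basicOpen r ↔ φ r ≠ 0 := by
  rw [PrimeSpectrum.mem_basicOpen, ptKer, PrimeSpectrum.comap_asIdeal, Ideal.mem_comap]
  simp [PrimeSpectrum.asIdeal_bot]

lemma continuous_ptKer : Continuous (ptKer R) := by
  rw [PrimeSpectrum.isTopologicalBasis_basic_opens.continuous_iff]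
  rintro _ ⟨r, rfl⟩
  have h : ptKer R ⁻¹' (PrimeSpectrum.basicOpen r : Set (PrimeSpectrum R)) = {φ | φ r ≠ 0} := by
    ext φ
    exact mem_basicOpen_ptKer φ r
  rw [h]
  exact isOpen_ne_fun (continuous_eval r) continuous_const

theorem card_algHom_eq_finrank (B : Type) [CommRing B] [Algebra ℂ B] [Module.Finite ℂ B]
    [Algebra.FormallyEtale ℂ B] : Nat.card (B →ₐ[ℂ] ℂ) = Module.finrank ℂ B := by
  have hfin : Finite (B →ₐ[ℂ] ℂ) := inferInstance
  apply le_antisymm (card_algHom_le_finrank ℂ B ℂ)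
  have hart : IsArtinianRing B := isArtinian_of_tower ℂ inferInstance
  have hfinp : Finite (PrimeSpectrum B) := inferInstance
  let := Fintype.ofFinite (PrimeSpectrum B)
  let e := Algebra.FormallyEtale.equivPiOfIsSepClosed ℂ B
  rw [e.toLinearEquiv.finrank_eq, Module.finrank_fintype_fun_eq_card, ← Nat.card_eq_fintype_card]
  let ev : PrimeSpectrum B → (B →ₐ[ℂ] ℂ) := fun p =>
    (Pi.evalAlgHom ℂ (fun _ : PrimeSpectrum B => ℂ) p).comp (e : B →ₐ[ℂ] (PrimeSpectrum B → ℂ))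
  refine Nat.card_le_card_of_injective ev fun p q h => ?_
  classical
  by_contra hne
  obtain ⟨b, hb⟩ := e.surjective (Pi.single p 1)
  have h1 := DFunLike.congr_fun h b
  have h2 : ev p b = e b p := rfl
  have h3 : ev q b = e b q := rfl
  rw [h2, h3, hb, Pi.single_eq_same, Pi.single_eq_of_ne (Ne.symm hne)] at h1
  exact one_ne_zero h1

theorem card_fiber [Module.Finite R A] [Algebra.Etale R A] (φ : R →ₐ[ℂ] ℂ) :
    Nat.card (res R A ⁻¹' {φ}) = Module.rankAtStalk (R := R) A (ptKer R φ) := by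
  let := (φ : R →+* ℂ).toAlgebra
  have hst : IsScalarTower ℂ R ℂ := IsScalarTower.of_algebraMap_eq fun c => (φ.commutes c).symm
  -- points of the fibre are `R`-algebra maps
  let e1 : (res R A ⁻¹' {φ}) ≃ (A →ₐ[R] ℂ) :=
    { toFun := fun ψ => { ((ψ : A →ₐ[ℂ] ℂ) : A →+* ℂ) with
        commutes' := fun r => DFunLike.congr_fun (show res R A ψ = φ from ψ.2) r }
      invFun := fun χ => ⟨χ.restrictScalars ℂ, AlgHom.ext fun r => χ.commutes r⟩
      left_inv := fun ψ => Subtype.ext (AlgHom.ext fun a => rfl)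
      right_inv := fun χ => AlgHom.ext fun a => rfl }
  let e2 : (A →ₐ[R] ℂ) ≃ (ℂ ⊗[R] A →ₐ[ℂ] ℂ) := AlgHom.liftEquiv R ℂ A ℂ
  rw [Nat.card_congr (e1.trans e2), card_algHom_eq_finrank]
  have h := Module.rankAtStalk_baseChange (R := R) (M := A) (S := ℂ) ⊥
  rw [Module.rankAtStalk_eq_finrank_of_free] at h
  exact h

theorem isOpenMap_res [Module.Finite R A] [Algebra.Etale R A] : IsOpenMap (res R A) := by
  rw [isOpenMap_iff_nhds_le]
  intro ψ₁ W' hW'
  rw [mem_map] at hW'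
  obtain ⟨W, hWW', hWo, hψW⟩ := mem_nhds_iff.mp hW'
  set φ₀ := res R A ψ₁ with hφ₀
  have hfin := fiber_finite' R A φ₀
  obtain ⟨U, hU, hUd⟩ := hfin.t2_separation
  choose V hV hψV hVinj using isLocallyInjective_res R A
  classical
  let N : (A →ₐ[ℂ] ℂ) → Set (A →ₐ[ℂ] ℂ) := fun ψ => U ψ ∩ V ψ ∩ (if ψ = ψ₁ then W else Set.univ)
  have hNo : ∀ ψ, IsOpen (N ψ) := fun ψ => by
    refine ((hU ψ).2.inter (hV ψ)).inter ?_
    split_ifs
    · exact hWo
    · exact isOpen_univ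
  have hψN : ∀ ψ, ψ ∈ N ψ := fun ψ => by
    refine ⟨⟨(hU ψ).1, hψV ψ⟩, ?_⟩
    split_ifs with h
    · rw [h]; exact hψW
    · trivial
  have hcl : IsClosedMap (res R A) := (isProperMap_res R A).isClosedMap
  have hmem : (⋃ ψ ∈ res R A ⁻¹' {φ₀}, N ψ) ∈ nhdsSet (res R A ⁻¹' {φ₀}) :=
    (isOpen_biUnion fun ψ _ => hNo ψ).mem_nhdsSet.2 fun ψ hψ =>
      Set.mem_biUnion hψ (hψN ψ)
  obtain ⟨O, hO, hOV⟩ := isClosedMap_iff_comap_nhds_le.mp hcl hmem
  have hlc : IsLocallyConstant fun φ : R →ₐ[ℂ] ℂ => Module.rankAtStalk (R := R) A (ptKer R φ) :=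
    have : Module.FinitePresentation R A := Module.FinitePresentation.of_finite_of_finitePresentation R A
    Module.isLocallyConstant_rankAtStalk.comp_continuous (continuous_ptKer R)
  have hev := hlc.eventually_eq φ₀
  filter_upwards [hO, hev] with φ hφO hφd
  -- compare the two fibres
  have hex : ∀ ψ' : res R A ⁻¹' {φ}, ∃ ψ : res R A ⁻¹' {φ₀}, (ψ' : A →ₐ[ℂ] ℂ) ∈ N ψ := by
    intro ψ'
    have h1 : (ψ' : A →ₐ[ℂ] ℂ) ∈ res R A ⁻¹' O := by
      have := ψ'.2
      rw [Set.mem_preimage, Set.mem_singleton_iff] at this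
      rw [Set.mem_preimage, this]
      exact hφO
    obtain ⟨ψ, hψ, h2⟩ := Set.mem_iUnion₂.mp (hOV h1)
    exact ⟨⟨ψ, hψ⟩, h2⟩
  choose g hg using hex
  have hginj : Function.Injective g := by
    intro a b hab
    have h1 := hg a
    have h2 := hg b
    rw [hab] at h1
    apply Subtype.ext
    refine hVinj (g b) h1.1.2 h2.1.2 ?_
    have ha := a.2
    have hb := b.2
    rw [Set.mem_preimage, Set.mem_singleton_iff] at ha hb
    rw [ha, hb]
  have hfin' : Finite (res R A ⁻¹' {φ₀}) := hfin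
  have hbij := hginj.bijective_of_nat_card_le (by
    rw [card_fiber, card_fiber]
    exact hφd.ge)
  obtain ⟨ψ', hψ'⟩ := hbij.2 ⟨ψ₁, rfl⟩
  have h1 := hg ψ'
  rw [hψ'] at h1
  have h2 : (ψ' : A →ₐ[ℂ] ℂ) ∈ W := by
    have := h1.2
    simpa using this
  have h3 := hWW' h2
  have h4 := ψ'.2
  rw [Set.mem_preimage, Set.mem_singleton_iff] at h4
  rw [Set.mem_preimage, h4] at h3
  exact h3

theorem isCoveringMap_res [Module.Finite R A] [Algebra.Etale R A] : IsCoveringMap (res R A) := by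
  have hloc : IsLocalHomeomorph (res R A) := by
    rw [isLocalHomeomorph_iff_isOpenEmbedding_restrict]
    intro ψ
    obtain ⟨U, hU, hψ, hinj⟩ := isLocallyInjective_res R A ψ
    refine ⟨U, hU.mem_nhds hψ, .of_continuous_injective_isOpenMap
      ((continuous_res R A).comp continuous_subtype_val) (Set.injOn_iff_injective.mp hinj)
      ((isOpenMap_res R A).domRestrict hU)⟩
  rw [isCoveringMap_iff_isCoveringMapOn_univ]
  refine (isProperMap_res R A).isClosedMap.isCoveringMapOn_of_isLocalHomeomorphOn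
    (fun φ _ => fiber_finite' R A φ) ?_
  rw [Set.preimage_univ, ← isLocalHomeomorph_iff_isLocalHomeomorphOn_univ]
  exact hloc

end

end RingCover

variable (R A : Type) [CommRing R] [CommRing A] [Algebra ℂ R] [Algebra ℂ A] [Algebra R A]
  [IsScalarTower ℂ R A]

theorem fiber_finite [Module.Finite R A] (φ : R →ₐ[ℂ] ℂ) :
    ((fun ψ : A →ₐ[ℂ] ℂ => ψ.comp (IsScalarTower.toAlgHom ℂ R A)) ⁻¹' {φ}).Finite :=
  RingCover.fiber_finite' R A φ

theorem isCoveringMap_of_etale [Module.Finite R A] [Algebra.Etale R A] :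
    IsCoveringMap (fun ψ : A →ₐ[ℂ] ℂ => ψ.comp (IsScalarTower.toAlgHom ℂ R A)) :=
  RingCover.isCoveringMap_res R A

end Pool.Agent.MP_f4aa65_ag
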