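import Pool.Agent.MP_f4aa65_ag.UnitFun
import Pool.Agent.MP_f4aa65_ag.PtTop

/-!
Complex points of affine schemes and of open immersions, with the analytic topology.
-/

open Filter Topology Polynomial CategoryTheory AlgebraicGeometry Limits Opposite

noncomputable section

namespace Pool.Agent.MP_f4aa65_ag

attribute [local instance] ptTop

/-- the affine scheme `Spec A` over `ℂ` -/
def specC (A : Type) [CommRing A] [Algebra ℂ A] : SchC :=
  Over.mk (Spec.map (CommRingCat.ofHom (algebraMap ℂ A)))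

/-- functoriality of `specC` -/
def specMap {A B : Type} [CommRing A] [Algebra ℂ A] [CommRing B] [Algebra ℂ B] (φ : A →ₐ[ℂ] B) :
    specC B ⟶ specC A :=
  Over.homMk (Spec.map (CommRingCat.ofHom (φ : A →+* B))) (by
    show Spec.map _ ≫ Spec.map _ = Spec.map _
    rw [← Spec.map_comp, ← CommRingCat.ofHom_comp]
    congr 2
    exact φ.comp_algebraMap)

namespace SchAff

/-- values and comorphisms -/
theorem val_comp_appLE {X Y : SchC} (x : Pts X) (f : X ⟶ Y) {U : Y.left.Opens} {V : X.left.Opens}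
    (e : V ≤ f.left ⁻¹ᵁ U) (h : Pts.loc (x ≫ f) ∈ U) (h' : x.loc ∈ V) (s : Γ(Y.left, U)) :
    Pts.val (x ≫ f) h s = x.val h' ((f.left.appLE U V e).hom s) := by
  rw [Pts.val_def, Pts.val_def]
  congr 1
  rw [← CommRingCat.comp_apply, Scheme.Hom.appLE_comp_appLE]
  rfl

/-- values and restrictions -/
theorem val_map {X : SchC} (x : Pts X) {U V : X.left.Opens} (i : V ≤ U) (h : x.loc ∈ U)
    (h' : x.loc ∈ V) (s : Γ(X.left, U)) :
    x.val h' ((X.left.presheaf.map (homOfLE i).op).hom s) = x.val h s := by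
  rw [Pts.val_def, Pts.val_def]
  congr 1
  rw [← CommRingCat.comp_apply, Scheme.Hom.map_appLE]

set_option backward.isDefEq.respectTransparency.types false in
/-- sections on a basic open subset of an affine scheme are fractions -/
theorem exists_frac_aux (R : CommRingCat) (s : R) (f : Γ(Spec R, PrimeSpectrum.basicOpen s)) :
    ∃ (n : ℕ) (a : R), f * (((Scheme.ΓSpecIso R).inv ≫
      (Spec R).presheaf.map (homOfLE le_top).op).hom s) ^ n =
      ((Scheme.ΓSpecIso R).inv ≫ (Spec R).presheaf.map (homOfLE le_top).op).hom a :=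
  IsLocalization.Away.surj (S := Γ(Spec R, PrimeSpectrum.basicOpen s)) s f

section affine

variable {A : Type} [CommRing A] [Algebra ℂ A]

/-- a complex point of `Spec A` comes from a ring homomorphism -/
theorem exists_left (x : Pts (specC A)) : ∃ g : CommRingCat.of A ⟶ CommRingCat.of ℂ,
    (show Spec (CommRingCat.of ℂ) ⟶ Spec (CommRingCat.of A) from x.left) = Spec.map g :=
  ⟨Spec.preimage _, (Spec.map_preimage _).symm⟩

theorem gval_eq (x : Pts (specC A)) (g : CommRingCat.of A ⟶ CommRingCat.of ℂ)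
    (hg : (show Spec (CommRingCat.of ℂ) ⟶ Spec (CommRingCat.of A) from x.left) = Spec.map g)
    (a : A) : x.gval ((Scheme.ΓSpecIso (CommRingCat.of A)).inv.hom a) = g.hom a := by
  have h1 : x.gval ((Scheme.ΓSpecIso (CommRingCat.of A)).inv.hom a) =
      ((Scheme.ΓSpecIso (CommRingCat.of A)).inv ≫
        Scheme.Hom.appTop (show Spec (CommRingCat.of ℂ) ⟶ Spec (CommRingCat.of A) from x.left) ≫
        (Scheme.ΓSpecIso (CommRingCat.of ℂ)).hom).hom a := by
    rw [CommRingCat.hom_comp, CommRingCat.hom_comp, RingHom.comp_apply, RingHom.comp_apply]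
    show (Scheme.ΓSpecIso (CommRingCat.of ℂ)).hom.hom ((x.left.appLE ⊤ ⊤ _).hom _) = _
    rw [Scheme.Hom.appTop, Scheme.Hom.app_eq_appLE]
    rfl
  rw [h1, hg, Scheme.ΓSpecIso_naturality, Iso.inv_hom_id_assoc]

/-- evaluation at a complex point of `Spec A`, as an algebra homomorphism -/
def evalHom (x : Pts (specC A)) : A →ₐ[ℂ] ℂ :=
  { x.gval.comp (Scheme.ΓSpecIso (CommRingCat.of A)).inv.hom with
    commutes' := by
      intro c
      show x.gval ((Scheme.ΓSpecIso (CommRingCat.of A)).inv.hom (algebraMap ℂ A c)) = c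
      obtain ⟨g, hg⟩ := exists_left x
      rw [gval_eq x g hg]
      have hw : (show Spec (CommRingCat.of ℂ) ⟶ Spec (CommRingCat.of A) from x.left) ≫
          Spec.map (CommRingCat.ofHom (algebraMap ℂ A)) = 𝟙 _ := Over.w x
      rw [hg, ← Spec.map_comp, ← Spec.map_id] at hw
      have h2 := Spec.map_injective hw
      have h3 := congrArg (fun f => f.hom c) h2
      simpa using h3 }

theorem evalHom_apply (x : Pts (specC A)) (a : A) :
    evalHom x a = x.gval ((Scheme.ΓSpecIso (CommRingCat.of A)).inv.hom a) := rfl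

/-- the complex point of an algebra homomorphism -/
def specPt (ψ : A →ₐ[ℂ] ℂ) : Pts (specC A) :=
  Over.homMk (U := point) (V := specC A) (Spec.map (CommRingCat.ofHom (ψ : A →+* ℂ))) (by
    show Spec.map _ ≫ Spec.map _ = 𝟙 _
    rw [← Spec.map_comp, ← CommRingCat.ofHom_comp, ← Spec.map_id, ← CommRingCat.ofHom_id]
    congr 2
    exact ψ.comp_algebraMap)

theorem evalHom_specPt (ψ : A →ₐ[ℂ] ℂ) : evalHom (specPt ψ) = ψ := by
  ext a
  rw [evalHom_apply, gval_eq (specPt ψ) (CommRingCat.ofHom (ψ : A →+* ℂ)) rfl]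
  rfl

theorem specPt_evalHom (x : Pts (specC A)) : specPt (evalHom x) = x := by
  obtain ⟨g, hg⟩ := exists_left x
  apply Over.OverMorphism.ext
  show Spec.map _ = (show Spec (CommRingCat.of ℂ) ⟶ Spec (CommRingCat.of A) from x.left)
  rw [hg]
  congr 1
  ext a
  exact gval_eq x g hg a

theorem loc_mem_basicOpen (x : Pts (specC A)) (s : A) :
    (show PrimeSpectrum A from x.loc) ∈ PrimeSpectrum.basicOpen s ↔ evalHom x s ≠ 0 := by
  obtain ⟨g, hg⟩ := exists_left x
  have h1 : (show PrimeSpectrum A from x.loc) =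
      PrimeSpectrum.comap g.hom (IsLocalRing.closedPoint ℂ) := by
    show (show Spec (CommRingCat.of ℂ) ⟶ Spec (CommRingCat.of A) from x.left) _ = _
    rw [hg]
    rfl
  rw [h1, PrimeSpectrum.mem_basicOpen, PrimeSpectrum.comap_asIdeal, Ideal.mem_comap,
    evalHom_apply, gval_eq x g hg]
  show ¬ (g.hom s ∈ IsLocalRing.maximalIdeal ℂ) ↔ _
  rw [IsLocalRing.maximalIdeal_eq_bot, Ideal.mem_bot]

/-- sections over open subsets of `Spec A` are locally fractions -/
theorem exists_frac (U : (specC A).left.Opens) (f : Γ((specC A).left, U)) (x₀ : Pts (specC A))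
    (h₀ : x₀.loc ∈ U) : ∃ (s a : A) (n : ℕ), evalHom x₀ s ≠ 0 ∧
      ∀ x : Pts (specC A), evalHom x s ≠ 0 → ∃ h : x.loc ∈ U,
        x.val h f = evalHom x a / evalHom x s ^ n := by
  obtain ⟨_, ⟨_, ⟨s, rfl⟩, rfl⟩, hs, hsU⟩ :=
    PrimeSpectrum.isBasis_basic_opens.exists_subset_of_mem_open
      (a := (show PrimeSpectrum A from x₀.loc)) (u := U.carrier) h₀ U.isOpen
  let V : (specC A).left.Opens := (PrimeSpectrum.basicOpen s :
    TopologicalSpace.Opens (PrimeSpectrum A))
  have hVU : V ≤ U := hsU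
  let fV : Γ((specC A).left, V) := ((specC A).left.presheaf.map (homOfLE hVU).op).hom f
  let σ : A → Γ((specC A).left, V) := fun b =>
    ((Scheme.ΓSpecIso (CommRingCat.of A)).inv ≫
      (Spec (CommRingCat.of A)).presheaf.map (homOfLE (le_top : V ≤ ⊤)).op).hom b
  obtain ⟨n, a, ha⟩ : ∃ (n : ℕ) (a : A), fV * σ s ^ n = σ a :=
    exists_frac_aux (CommRingCat.of A) s fV
  refine ⟨s, a, n, (loc_mem_basicOpen x₀ s).mp hs, fun x hx => ?_⟩
  have hxV : x.loc ∈ V := (loc_mem_basicOpen x s).mpr hx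
  refine ⟨hVU hxV, ?_⟩
  have hval : ∀ b : A, x.valHom hxV (σ b) = evalHom x b := by
    intro b
    rw [evalHom_apply]
    exact val_map x (V := V) (U := ⊤) le_top trivial hxV _
  have h1 := congrArg (x.valHom hxV) ha
  rw [map_mul, map_pow, hval, hval] at h1
  rw [eq_div_iff (pow_ne_zero _ hx), ← h1]
  congr 1
  exact (val_map x hVU (hVU hxV) hxV f).symm

theorem continuous_evalHom : Continuous (evalHom : Pts (specC A) → (A →ₐ[ℂ] ℂ)) := by
  rw [continuous_induced_rng, continuous_pi_iff]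
  intro a
  exact Pts.continuous_gval _

theorem continuous_specPt : Continuous (specPt : (A →ₐ[ℂ] ℂ) → Pts (specC A)) := by
  refine continuous_generateFrom_iff.mpr ?_
  rintro _ ⟨U, f, O, hO, rfl⟩
  rw [isOpen_iff_mem_nhds]
  rintro ψ₀ ⟨h₀, hf₀⟩
  obtain ⟨s, a, n, hs, H⟩ := exists_frac U f (specPt ψ₀) h₀
  have hev : ∀ b : A, Continuous (fun ψ : A →ₐ[ℂ] ℂ => ψ b) :=
    fun b => (continuous_apply b).comp continuous_induced_dom
  rw [evalHom_specPt] at hs
  have h1 : ContinuousAt (fun ψ : A →ₐ[ℂ] ℂ => ψ a / ψ s ^ n) ψ₀ :=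
    (hev a).continuousAt.div ((hev s).continuousAt.pow n) (pow_ne_zero _ hs)
  have h2 : ψ₀ a / ψ₀ s ^ n ∈ O := by
    obtain ⟨h', hf'⟩ := H (specPt ψ₀) (by rw [evalHom_specPt]; exact hs)
    rw [evalHom_specPt] at hf'
    rw [← hf']
    exact hf₀
  have h3 : ∀ᶠ ψ : A →ₐ[ℂ] ℂ in 𝓝 ψ₀, ψ a / ψ s ^ n ∈ O := h1 (hO.mem_nhds h2)
  have h4 : ∀ᶠ ψ : A →ₐ[ℂ] ℂ in 𝓝 ψ₀, ψ s ≠ 0 := (hev s).continuousAt.eventually_ne hs
  filter_upwards [h3, h4] with ψ h5 h6
  obtain ⟨h', hf'⟩ := H (specPt ψ) (by rw [evalHom_specPt]; exact h6)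
  rw [evalHom_specPt] at hf'
  exact ⟨h', by rw [hf']; exact h5⟩

/-- the homeomorphism -/
def specHomeo (A : Type) [CommRing A] [Algebra ℂ A] : Pts (specC A) ≃ₜ (A →ₐ[ℂ] ℂ) where
  toFun := evalHom
  invFun := specPt
  left_inv := specPt_evalHom
  right_inv := evalHom_specPt
  continuous_toFun := continuous_evalHom
  continuous_invFun := continuous_specPt

end affine

end SchAff

open SchAff

theorem exists_specPts : ∃ Φ : ∀ (A : Type) [CommRing A] [Algebra ℂ A],
    Pts (specC A) ≃ₜ (A →ₐ[ℂ] ℂ),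
    (∀ (A B : Type) [CommRing A] [Algebra ℂ A] [CommRing B] [Algebra ℂ B] (φ : A →ₐ[ℂ] B)
      (x : Pts (specC B)), Φ A (x ≫ specMap φ) = (Φ B x).comp φ) ∧
    ∀ (A : Type) [CommRing A] [Algebra ℂ A] (x : Pts (specC A)) (a : A),
      Φ A x a = x.gval ((Scheme.ΓSpecIso (CommRingCat.of A)).inv.hom a) := by
  refine ⟨fun A _ _ => specHomeo A, ?_, fun A _ _ x a => rfl⟩
  intro A B _ _ _ _ φ x
  obtain ⟨g, hg⟩ := exists_left x
  ext a
  show evalHom (x ≫ specMap φ) a = evalHom x (φ a)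
  rw [evalHom_apply, evalHom_apply, gval_eq x g hg,
    gval_eq (x ≫ specMap φ) (CommRingCat.ofHom (φ : A →+* B) ≫ g) ?_]
  · rfl
  · show (show Spec (CommRingCat.of ℂ) ⟶ Spec (CommRingCat.of B) from x.left) ≫ Spec.map _ = _
    rw [hg, Spec.map_comp]

/-- an open immersion induces an open embedding on complex points, onto the points lying in the image -/
theorem isOpenEmbedding_pts {U X : SchC} (j : U ⟶ X) [IsOpenImmersion j.left] :
    IsOpenEmbedding (fun y : Pts U => (y ≫ j : Pts X)) ∧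
      Set.range (fun y : Pts U => (y ≫ j : Pts X)) = {x | Pts.loc x ∈ j.left.opensRange} := by
  have hrange : Set.range (fun y : Pts U => (y ≫ j : Pts X)) =
      {x | Pts.loc x ∈ j.left.opensRange} := by
    ext x
    constructor
    · rintro ⟨y, rfl⟩
      exact ⟨y.loc, rfl⟩
    · intro hx
      have hx' : Pts.loc x ∈ Set.range j.left := hx
      have hsub : Set.range x.left ⊆ Set.range j.left := by
        rintro _ ⟨z, rfl⟩
        have : z = IsLocalRing.closedPoint ℂ := Subsingleton.elim (α := PrimeSpectrum ℂ) _ _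
        subst this
        exact hx'
      refine ⟨Over.homMk (IsOpenImmersion.lift j.left x.left hsub) ?_, ?_⟩
      · have h1 : j.left ≫ X.hom = U.hom := Over.w j
        have h2 : x.left ≫ X.hom = _ := Over.w x
        rw [← h1, IsOpenImmersion.lift_fac_assoc, h2]
      · apply Over.OverMorphism.ext
        exact IsOpenImmersion.lift_fac _ _ _
  refine ⟨⟨⟨⟨?_⟩, ?_⟩, ?_⟩, hrange⟩
  · -- inducing
    refine le_antisymm ((Pts.continuous_comp j).le_induced) ?_
    refine le_generateFrom ?_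
    rintro _ ⟨V, f, O, hO, rfl⟩
    let f' : Γ(X.left, j.left ''ᵁ V) := (j.left.appIso V).inv.hom f
    refine ⟨{x : Pts X | ∃ h : x.loc ∈ j.left ''ᵁ V, x.val h f' ∈ O},
      TopologicalSpace.isOpen_generateFrom_of_mem ⟨_, f', O, hO, rfl⟩, ?_⟩
    have hV : V ≤ j.left ⁻¹ᵁ j.left ''ᵁ V := (Scheme.Hom.preimage_image_eq j.left V).ge
    have hval : ∀ (y : Pts U) (h : y.loc ∈ V) (h' : Pts.loc (y ≫ j) ∈ j.left ''ᵁ V),
        Pts.val (y ≫ j) h' f' = y.val h f := by
      intro y h h'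
      rw [val_comp_appLE y j hV h' h]
      congr 1
      have h1 := Scheme.Hom.appIso_inv_appLE j.left (U := V) (V := V) hV
      have h2 : (j.left.appLE (j.left ''ᵁ V) V hV).hom f' =
          ((j.left.appIso V).inv ≫ j.left.appLE (j.left ''ᵁ V) V hV).hom f := rfl
      rw [h2, h1]
      simp
    ext y
    constructor
    · rintro ⟨h', hf'⟩
      have h : y.loc ∈ V := by
        have h1 : y.loc ∈ j.left ⁻¹ᵁ j.left ''ᵁ V := h'
        rwa [Scheme.Hom.preimage_image_eq] at h1
      exact ⟨h, by rw [← hval y h h']; exact hf'⟩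
    · rintro ⟨h, hf⟩
      exact ⟨hV h, by rw [hval y h (hV h)]; exact hf⟩
  · -- injective
    intro y y' h
    apply Over.OverMorphism.ext
    have h1 : y.left ≫ j.left = y'.left ≫ j.left := congrArg (fun f => f.left) h
    exact (cancel_mono j.left).mp h1
  · rw [hrange]
    apply TopologicalSpace.isOpen_generateFrom_of_mem
    refine ⟨j.left.opensRange, 0, Set.univ, isOpen_univ, ?_⟩
    ext x
    simp

end Pool.Agent.MP_f4aa65_ag
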