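import Pool.Agent.MP_f4aa65_ag.SchAff
import Pool.Agent.MP_f4aa65_ag.RingCover

/-!
Finite étale morphisms induce covering maps on complex points.
-/

open Filter Topology Polynomial CategoryTheory AlgebraicGeometry Limits

noncomputable section

namespace Pool.Agent.MP_f4aa65_ag

attribute [local instance] ptTop

/-- isomorphic schemes have homeomorphic complex points -/
def ptsHomeo {X X' : SchC} (e : X ≅ X') : Pts X ≃ₜ Pts X' where
  toFun x := x ≫ e.hom
  invFun x := x ≫ e.inv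
  left_inv x := by simp
  right_inv x := by simp
  continuous_toFun := Pts.continuous_comp e.hom
  continuous_invFun := Pts.continuous_comp e.inv

/-- the structure morphism, with target `Spec ℂ` -/
def strHom (X : SchC) : X.left ⟶ Spec (CommRingCat.of ℂ) := X.hom

/-- the structure homomorphism from `ℂ` to the global functions -/
def structHom (X : SchC) : ℂ →+* Γ(X.left, ⊤) :=
  ((Scheme.ΓSpecIso (CommRingCat.of ℂ)).inv ≫ (strHom X).appTop).hom

theorem isoSpec_structHom (X : SchC) [IsAffine X.left] :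
    X.left.isoSpec.hom ≫ Spec.map (CommRingCat.ofHom (structHom X)) = X.hom := by
  have h : CommRingCat.ofHom (structHom X) =
      (Scheme.ΓSpecIso (CommRingCat.of ℂ)).inv ≫ (strHom X).appTop := rfl
  rw [h, Spec.map_comp]
  have h2 := Scheme.isoSpec_hom_naturality (strHom X)
  rw [reassoc_of% h2, Scheme.isoSpec_Spec_hom, ← Spec.map_comp, Iso.inv_hom_id, Spec.map_id,
    Category.comp_id]
  rfl

theorem structHom_comp {Y X : SchC} (f : Y ⟶ X) :
    (f.left.appTop).hom.comp (structHom X) = structHom Y := by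
  have h : strHom Y = f.left ≫ strHom X := (Over.w f).symm
  have h2 : (strHom Y).appTop = (strHom X).appTop ≫ f.left.appTop := by
    rw [h]; rfl
  unfold structHom
  rw [h2]
  rfl

theorem affine_data {Y X : SchC} (f : Y ⟶ X) [IsAffine X.left] [IsAffine Y.left] :
    ∃ (_ : Algebra ℂ Γ(X.left, ⊤)) (_ : Algebra ℂ Γ(Y.left, ⊤))
      (φ : Γ(X.left, ⊤) →ₐ[ℂ] Γ(Y.left, ⊤)) (eX : Pts X ≃ₜ (Γ(X.left, ⊤) →ₐ[ℂ] ℂ))
      (eY : Pts Y ≃ₜ (Γ(Y.left, ⊤) →ₐ[ℂ] ℂ)),
      (φ : Γ(X.left, ⊤) →+* Γ(Y.left, ⊤)) = f.left.appTop.hom ∧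
        ∀ y, eX (y ≫ f) = (eY y).comp φ := by
  obtain ⟨Φ, hΦ, -⟩ := exists_specPts
  let iX : Algebra ℂ Γ(X.left, ⊤) := (structHom X).toAlgebra
  let iY : Algebra ℂ Γ(Y.left, ⊤) := (structHom Y).toAlgebra
  let φ : Γ(X.left, ⊤) →ₐ[ℂ] Γ(Y.left, ⊤) :=
    { f.left.appTop.hom with
      commutes' := fun c => congrArg (fun g => g c) (structHom_comp f) }
  let isoX : X ≅ specC Γ(X.left, ⊤) := Over.isoMk X.left.isoSpec (isoSpec_structHom X)
  let isoY : Y ≅ specC Γ(Y.left, ⊤) := Over.isoMk Y.left.isoSpec (isoSpec_structHom Y)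
  refine ⟨iX, iY, φ, (ptsHomeo isoX).trans (Φ _), (ptsHomeo isoY).trans (Φ _), rfl, fun y => ?_⟩
  show Φ _ ((y ≫ f) ≫ isoX.hom) = (Φ _ (y ≫ isoY.hom)).comp φ
  rw [← hΦ]
  congr 1
  rw [Category.assoc, Category.assoc]
  congr 1
  apply Over.OverMorphism.ext
  exact (Scheme.isoSpec_hom_naturality f.left).symm

theorem isAffine_source {Y X : SchC} (f : Y ⟶ X) [IsAffine X.left] [IsFinite f.left] :
    IsAffine Y.left := isAffine_of_isAffineHom f.left

theorem isCoveringMap_pts_affine {Y X : SchC} (f : Y ⟶ X) [IsAffine X.left]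
    [IsFinite f.left] [Etale f.left] :
    IsCoveringMap (fun y : Pts Y => (y ≫ f : Pts X)) := by
  have hY := isAffine_source f
  obtain ⟨iX, iY, φ, eX, eY, hφ, hcomm⟩ := affine_data f
  let iXY : Algebra Γ(X.left, ⊤) Γ(Y.left, ⊤) := (φ : Γ(X.left, ⊤) →+* Γ(Y.left, ⊤)).toAlgebra
  have hst : IsScalarTower ℂ Γ(X.left, ⊤) Γ(Y.left, ⊤) :=
    IsScalarTower.of_algebraMap_eq fun c => (φ.commutes c).symm
  have hfin : Module.Finite Γ(X.left, ⊤) Γ(Y.left, ⊤) := by
    have h := Scheme.Hom.finite_appTop f.left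
    rw [← hφ] at h
    exact h
  have het : Algebra.Etale Γ(X.left, ⊤) Γ(Y.left, ⊤) := by
    have h := f.left.etale_appLE (isAffineOpen_top X.left) (isAffineOpen_top Y.left) le_top
    have h' : (f.left.appTop).hom.Etale := by
      have e : f.left.appLE ⊤ ⊤ le_top = f.left.appTop := (Scheme.Hom.app_eq_appLE _).symm
      rwa [e] at h
    rw [← hφ] at h'
    exact h'
  have hcov := isCoveringMap_of_etale Γ(X.left, ⊤) Γ(Y.left, ⊤)
  have h := (hcov.comp_homeomorph eY).homeomorph_comp eX.symm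
  convert h using 1
  funext y
  show _ = eX.symm ((eY y).comp _)
  rw [Homeomorph.eq_symm_apply, hcomm]
  rfl

theorem finite_fiber_pts_affine {Y X : SchC} (f : Y ⟶ X) [IsAffine X.left] [IsFinite f.left]
    (x : Pts X) : ((fun y : Pts Y => (y ≫ f : Pts X)) ⁻¹' {x}).Finite := by
  have hY := isAffine_source f
  obtain ⟨iX, iY, φ, eX, eY, hφ, hcomm⟩ := affine_data f
  let iXY : Algebra Γ(X.left, ⊤) Γ(Y.left, ⊤) := (φ : Γ(X.left, ⊤) →+* Γ(Y.left, ⊤)).toAlgebra
  have hst : IsScalarTower ℂ Γ(X.left, ⊤) Γ(Y.left, ⊤) :=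
    IsScalarTower.of_algebraMap_eq fun c => (φ.commutes c).symm
  have hfin : Module.Finite Γ(X.left, ⊤) Γ(Y.left, ⊤) := by
    have h := Scheme.Hom.finite_appTop f.left
    rw [← hφ] at h
    exact h
  have h := fiber_finite Γ(X.left, ⊤) Γ(Y.left, ⊤) (eX x)
  refine (h.preimage eY.injective.injOn).subset fun y hy => ?_
  have hy' : y ≫ f = x := hy
  show (eY y).comp _ = eX x
  rw [← hy', hcomm]
  rfl

theorem isCoveringMapOn_of_square {E' X' E X : Type*} [TopologicalSpace E'] [TopologicalSpace X']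
    [TopologicalSpace E] [TopologicalSpace X] {f : E → X} {g : E' → X'} {i : E' → E} {j : X' → X}
    (hi : IsOpenEmbedding i) (hj : IsOpenEmbedding j) (hsq : ∀ e, f (i e) = j (g e))
    (hr : f ⁻¹' (Set.range j) = Set.range i) (hg : IsCoveringMap g) :
    IsCoveringMapOn f (Set.range j) := by
  refine IsCoveringMapOn.of_isCoveringMap_restrictPreimage (Set.range j) hj.isOpen_range
    (by rw [hr]; exact hi.isOpen_range) ?_
  let hE : E' ≃ₜ f ⁻¹' (Set.range j) :=
    hi.toIsEmbedding.toHomeomorph.trans (Homeomorph.setCongr hr.symm)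
  let hX : X' ≃ₜ Set.range j := hj.toIsEmbedding.toHomeomorph
  have h : (Set.range j).restrictPreimage f = hX ∘ g ∘ hE.symm := by
    funext e
    obtain ⟨e', rfl⟩ := hE.surjective e
    apply Subtype.ext
    show f (i e') = j (g (hE.symm (hE e')))
    rw [hE.symm_apply_apply, hsq]
  rw [h]
  exact (hg.comp_homeomorph hE.symm).homeomorph_comp hX

/-- an open subscheme, over `ℂ` -/
def opn (X : SchC) (U : X.left.Opens) : SchC := Over.mk (U.ι ≫ strHom X)

/-- the inclusion of an open subscheme -/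
def opnι (X : SchC) (U : X.left.Opens) : opn X U ⟶ X := Over.homMk U.ι rfl

instance (X : SchC) (U : X.left.Opens) : IsOpenImmersion (opnι X U).left :=
  inferInstanceAs (IsOpenImmersion U.ι)

/-- the restriction of a morphism to an open subscheme of the target -/
def opnRes {Y X : SchC} (f : Y ⟶ X) (U : X.left.Opens) : opn Y (f.left ⁻¹ᵁ U) ⟶ opn X U :=
  Over.homMk (f.left ∣_ U) (by
    show (f.left ∣_ U) ≫ U.ι ≫ strHom X = (f.left ⁻¹ᵁ U).ι ≫ strHom Y
    rw [morphismRestrict_ι_assoc]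
    congr 1
    exact Over.w f)

theorem opnRes_comp {Y X : SchC} (f : Y ⟶ X) (U : X.left.Opens) :
    opnRes f U ≫ opnι X U = opnι Y (f.left ⁻¹ᵁ U) ≫ f := by
  apply Over.OverMorphism.ext
  exact morphismRestrict_ι f.left U

theorem range_opnι (X : SchC) (U : X.left.Opens) :
    Set.range (fun y : Pts (opn X U) => (y ≫ opnι X U : Pts X)) = {x | Pts.loc x ∈ U} := by
  rw [(isOpenEmbedding_pts (opnι X U)).2]
  ext x
  show Pts.loc x ∈ U.ι.opensRange ↔ _
  rw [Scheme.Opens.opensRange_ι]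
  rfl

theorem preimage_range {Y X : SchC} (f : Y ⟶ X) (U : X.left.Opens) :
    (fun y : Pts Y => (y ≫ f : Pts X)) ⁻¹'
      (Set.range (fun y : Pts (opn X U) => (y ≫ opnι X U : Pts X))) =
      Set.range (fun y : Pts (opn Y (f.left ⁻¹ᵁ U)) => (y ≫ opnι Y (f.left ⁻¹ᵁ U) : Pts Y)) := by
  rw [range_opnι, range_opnι]
  rfl

theorem isCoveringMap_pts {Y X : SchC} (f : Y ⟶ X) [IsFinite f.left] [Etale f.left] :
    IsCoveringMap (fun y : Pts Y => (y ≫ f : Pts X)) := by
  intro x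
  obtain ⟨U, hU, hxU, -⟩ :=
    exists_isAffineOpen_mem_and_subset (x := Pts.loc x) (U := ⊤) trivial
  have h1 : IsAffine (opn X U).left := hU
  have h2 : IsFinite (opnRes f U).left := inferInstanceAs (IsFinite (f.left ∣_ U))
  have h3 : Etale (opnRes f U).left := inferInstanceAs (Etale (f.left ∣_ U))
  refine isCoveringMapOn_of_square (isOpenEmbedding_pts (opnι Y (f.left ⁻¹ᵁ U))).1
    (isOpenEmbedding_pts (opnι X U)).1 (fun e => ?_) (preimage_range f U)
    (isCoveringMap_pts_affine (opnRes f U)) x ?_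
  · show (e ≫ _) ≫ f = (e ≫ _) ≫ _
    rw [Category.assoc, Category.assoc, opnRes_comp]
  · rw [range_opnι]
    exact hxU

theorem finite_fiber_pts {Y X : SchC} (f : Y ⟶ X) [IsFinite f.left] (x : Pts X) :
    ((fun y : Pts Y => (y ≫ f : Pts X)) ⁻¹' {x}).Finite := by
  obtain ⟨U, hU, hxU, -⟩ := exists_isAffineOpen_mem_and_subset (x := x.loc) (U := ⊤) trivial
  have h1 : IsAffine (opn X U).left := hU
  have h2 : IsFinite (opnRes f U).left := inferInstanceAs (IsFinite (f.left ∣_ U))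
  obtain ⟨x', hx'⟩ : x ∈ Set.range (fun y : Pts (opn X U) => (y ≫ opnι X U : Pts X)) := by
    rw [range_opnι]
    exact hxU
  refine ((finite_fiber_pts_affine (opnRes f U) x').image
    (fun y : Pts (opn Y (f.left ⁻¹ᵁ U)) => (y ≫ opnι Y (f.left ⁻¹ᵁ U) : Pts Y))).subset ?_
  intro y hy
  have hy' : y ≫ f = x := hy
  obtain ⟨y', hy''⟩ : y ∈ Set.range
      (fun y : Pts (opn Y (f.left ⁻¹ᵁ U)) => (y ≫ opnι Y (f.left ⁻¹ᵁ U) : Pts Y)) := by
    rw [← preimage_range]
    exact ⟨x', hx'.trans hy'.symm⟩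
  refine ⟨y', ?_, hy''⟩
  apply (isOpenEmbedding_pts (opnι X U)).1.injective
  show (y' ≫ opnRes f U) ≫ opnι X U = x' ≫ opnι X U
  have e1 : x' ≫ opnι X U = x := hx'
  have e2 : y' ≫ opnι Y (f.left ⁻¹ᵁ U) = y := hy''
  rw [e1, Category.assoc, opnRes_comp, ← Category.assoc, e2, hy']

end Pool.Agent.MP_f4aa65_ag
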