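import Pool.Agent.MP_f4aa65_ag.SchCover

/-!
The tests on the complex points of a variety given by finite étale covers and units on them:
base change, the trivial test, inverses and products.
-/

open Filter Topology Polynomial CategoryTheory AlgebraicGeometry Limits

noncomputable section

namespace Pool.Agent.MP_f4aa65_ag

/-- the tests on `X(ℂ)` given by finite etale covers of `X` and units on them -/
def tests (X : SchC) : Set (Test (Pts X)) :=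
  {τ | ∃ (Y : SchC) (f : Y ⟶ X) (_ : IsFinite f.left) (_ : Etale f.left) (h : Γ(Y.left, ⊤)ˣ),
    τ = ⟨Pts Y, inferInstance, fun y => y ≫ f, isCoveringMap_pts f, finite_fiber_pts f,
      unitFun h⟩}

/-- the test given by a finite etale cover and a unit -/
def mkTest {Y X : SchC} (f : Y ⟶ X) [IsFinite f.left] [Etale f.left] (h : Γ(Y.left, ⊤)ˣ) :
    Test (Pts X) :=
  ⟨Pts Y, inferInstance, fun y => y ≫ f, isCoveringMap_pts f, finite_fiber_pts f, unitFun h⟩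

theorem mkTest_mem {Y X : SchC} (f : Y ⟶ X) [i : IsFinite f.left] [j : Etale f.left]
    (h : Γ(Y.left, ⊤)ˣ) : mkTest f h ∈ tests X :=
  ⟨Y, f, i, j, h, rfl⟩

/-- the continuous map on complex points induced by a morphism -/
def ptsMap {Y X : SchC} (f : Y ⟶ X) : C(Pts Y, Pts X) := ⟨fun x => x ≫ f, Pts.continuous_comp f⟩

/-- pulling back units -/
def unitPull {Y X : SchC} (f : Y ⟶ X) (h : Γ(X.left, ⊤)ˣ) : Γ(Y.left, ⊤)ˣ :=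
  Units.map (f.left.appTop.hom : Γ(X.left, ⊤) →* Γ(Y.left, ⊤)) h

theorem gval_unitPull {Y X : SchC} (f : Y ⟶ X) (h : Γ(X.left, ⊤)ˣ) (y : Pts Y) :
    y.gval (unitPull f h).1 = Pts.gval (y ≫ f) h.1 :=
  (Pts.gval_comp y f h.1).symm

/-- the fibre product over `X` -/
def fibProd {Y₁ Y₂ X : SchC} (f₁ : Y₁ ⟶ X) (f₂ : Y₂ ⟶ X) : SchC :=
  Over.mk (pullback.fst f₁.left f₂.left ≫ Y₁.hom)

/-- first projection -/
def fibProd.fst {Y₁ Y₂ X : SchC} (f₁ : Y₁ ⟶ X) (f₂ : Y₂ ⟶ X) : fibProd f₁ f₂ ⟶ Y₁ :=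
  Over.homMk (pullback.fst f₁.left f₂.left) rfl

/-- second projection -/
def fibProd.snd {Y₁ Y₂ X : SchC} (f₁ : Y₁ ⟶ X) (f₂ : Y₂ ⟶ X) : fibProd f₁ f₂ ⟶ Y₂ :=
  Over.homMk (pullback.snd f₁.left f₂.left) (by
    show pullback.snd f₁.left f₂.left ≫ Y₂.hom = pullback.fst f₁.left f₂.left ≫ Y₁.hom
    rw [← Over.w f₁, ← Over.w f₂, ← Category.assoc, ← Category.assoc, pullback.condition])

theorem fibProd.condition {Y₁ Y₂ X : SchC} (f₁ : Y₁ ⟶ X) (f₂ : Y₂ ⟶ X) :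
    fibProd.fst f₁ f₂ ≫ f₁ = fibProd.snd f₁ f₂ ≫ f₂ :=
  Over.OverMorphism.ext pullback.condition

theorem fibProd.ext {Y₁ Y₂ X : SchC} (f₁ : Y₁ ⟶ X) (f₂ : Y₂ ⟶ X) (y y' : Pts (fibProd f₁ f₂))
    (h₁ : y ≫ fibProd.fst f₁ f₂ = y' ≫ fibProd.fst f₁ f₂)
    (h₂ : y ≫ fibProd.snd f₁ f₂ = y' ≫ fibProd.snd f₁ f₂) : y = y' :=
  Over.OverMorphism.ext (pullback.hom_ext (congrArg CommaMorphism.left h₁)
    (congrArg CommaMorphism.left h₂))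

theorem fibProd.exists_lift {Y₁ Y₂ X : SchC} (f₁ : Y₁ ⟶ X) (f₂ : Y₂ ⟶ X) (a₁ : Pts Y₁)
    (a₂ : Pts Y₂) (h : a₁ ≫ f₁ = a₂ ≫ f₂) :
    ∃ a : Pts (fibProd f₁ f₂), a ≫ fibProd.fst f₁ f₂ = a₁ ∧ a ≫ fibProd.snd f₁ f₂ = a₂ := by
  have h' : a₁.left ≫ f₁.left = a₂.left ≫ f₂.left := congrArg CommaMorphism.left h
  refine ⟨Over.homMk (pullback.lift a₁.left a₂.left h') ?_, ?_, ?_⟩
  · show pullback.lift a₁.left a₂.left h' ≫ pullback.fst f₁.left f₂.left ≫ Y₁.hom = _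
    rw [← Category.assoc, pullback.lift_fst]
    exact Over.w a₁
  · exact Over.OverMorphism.ext (pullback.lift_fst _ _ _)
  · exact Over.OverMorphism.ext (pullback.lift_snd _ _ _)

instance fibProd.finite_fst {Y₁ Y₂ X : SchC} (f₁ : Y₁ ⟶ X) (f₂ : Y₂ ⟶ X) [IsFinite f₂.left] :
    IsFinite (fibProd.fst f₁ f₂).left :=
  inferInstanceAs (IsFinite (pullback.fst f₁.left f₂.left))

instance fibProd.finite_snd {Y₁ Y₂ X : SchC} (f₁ : Y₁ ⟶ X) (f₂ : Y₂ ⟶ X) [IsFinite f₁.left] :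
    IsFinite (fibProd.snd f₁ f₂).left :=
  inferInstanceAs (IsFinite (pullback.snd f₁.left f₂.left))

instance fibProd.etale_fst {Y₁ Y₂ X : SchC} (f₁ : Y₁ ⟶ X) (f₂ : Y₂ ⟶ X) [Etale f₂.left] :
    Etale (fibProd.fst f₁ f₂).left :=
  inferInstanceAs (Etale (pullback.fst f₁.left f₂.left))

instance fibProd.etale_snd {Y₁ Y₂ X : SchC} (f₁ : Y₁ ⟶ X) (f₂ : Y₂ ⟶ X) [Etale f₁.left] :
    Etale (fibProd.snd f₁ f₂).left :=
  inferInstanceAs (Etale (pullback.snd f₁.left f₂.left))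

theorem tests_one (X : SchC) : ∀ x : Pts X, ∃ τ ∈ tests X, (∀ y, (τ.h y : ℂ) = 1) ∧
    ∃ a, τ.f a = x := by
  intro x
  have i1 : IsFinite (𝟙 X : X ⟶ X).left := inferInstanceAs (IsFinite (𝟙 X.left))
  have i2 : Etale (𝟙 X : X ⟶ X).left := inferInstanceAs (Etale (𝟙 X.left))
  refine ⟨mkTest (𝟙 X) 1, mkTest_mem _ _, fun y => ?_, x, Category.comp_id x⟩
  show Pts.gval y (1 : Γ(X.left, ⊤)ˣ).1 = 1
  rw [Units.val_one, map_one]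

theorem tests_inv (X : SchC) : ∀ τ ∈ tests X, ∀ a : τ.Y, ∃ τ' ∈ tests X, ∃ k : C(τ'.Y, τ.Y),
    (∀ y, τ.f (k y) = τ'.f y) ∧ (∀ y, (τ.h (k y) : ℂ) * τ'.h y = 1) ∧ Function.Injective k ∧
      ∃ a', k a' = a := by
  rintro _ ⟨Y, f, i1, i2, h, rfl⟩ a
  refine ⟨mkTest f h⁻¹, mkTest_mem _ _, ContinuousMap.id _, fun y => rfl, fun y => ?_,
    Function.injective_id, a, rfl⟩
  show Pts.gval y h.1 * Pts.gval y (h⁻¹).1 = 1
  rw [← map_mul, Units.mul_inv, map_one]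

theorem tests_mul (X : SchC) : ∀ τ₁ ∈ tests X, ∀ τ₂ ∈ tests X, ∀ (a₁ : τ₁.Y) (a₂ : τ₂.Y),
    τ₁.f a₁ = τ₂.f a₂ → ∃ τ ∈ tests X, ∃ (k₁ : C(τ.Y, τ₁.Y)) (k₂ : C(τ.Y, τ₂.Y)),
      (∀ y, τ₁.f (k₁ y) = τ.f y) ∧ (∀ y, τ₂.f (k₂ y) = τ.f y) ∧
      (∀ y, (τ.h y : ℂ) = τ₁.h (k₁ y) * τ₂.h (k₂ y)) ∧
      (∀ y y', k₁ y = k₁ y' → k₂ y = k₂ y' → y = y') ∧ ∃ a, k₁ a = a₁ ∧ k₂ a = a₂ := by
  rintro _ ⟨Y₁, f₁, i1, j1, h₁, rfl⟩ _ ⟨Y₂, f₂, i2, j2, h₂, rfl⟩ a₁ a₂ ha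
  have i3 : IsFinite (fibProd.fst f₁ f₂ ≫ f₁).left :=
    inferInstanceAs (IsFinite ((fibProd.fst f₁ f₂).left ≫ f₁.left))
  have i4 : Etale (fibProd.fst f₁ f₂ ≫ f₁).left :=
    inferInstanceAs (Etale ((fibProd.fst f₁ f₂).left ≫ f₁.left))
  refine ⟨mkTest (fibProd.fst f₁ f₂ ≫ f₁)
    (unitPull (fibProd.fst f₁ f₂) h₁ * unitPull (fibProd.snd f₁ f₂) h₂), mkTest_mem _ _,
    ptsMap (fibProd.fst f₁ f₂), ptsMap (fibProd.snd f₁ f₂), fun y => ?_, fun y => ?_,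
    fun y => ?_, fun y y' h h' => fibProd.ext f₁ f₂ y y' h h', ?_⟩
  · exact Category.assoc _ _ _
  · show (y ≫ fibProd.snd f₁ f₂) ≫ f₂ = y ≫ fibProd.fst f₁ f₂ ≫ f₁
    rw [Category.assoc, fibProd.condition]
  · show Pts.gval y (unitPull (fibProd.fst f₁ f₂) h₁ * unitPull (fibProd.snd f₁ f₂) h₂).1 =
      Pts.gval (y ≫ fibProd.fst f₁ f₂) h₁.1 * Pts.gval (y ≫ fibProd.snd f₁ f₂) h₂.1
    rw [Units.val_mul, map_mul, gval_unitPull, gval_unitPull]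
  · exact fibProd.exists_lift f₁ f₂ a₁ a₂ ha

theorem compat_tests {X X' : SchC} (g : X ⟶ X') :
    Compat (tests X) (tests X') ⟨fun x => x ≫ g, Pts.continuous_comp g⟩ := by
  rintro _ ⟨Y', f', i1, j1, h', rfl⟩ x ⟨a', ha'⟩
  obtain ⟨a, h1, h2⟩ := fibProd.exists_lift g f' x a' ha'.symm
  refine ⟨mkTest (fibProd.fst g f') (unitPull (fibProd.snd g f') h'), mkTest_mem _ _,
    ptsMap (fibProd.snd g f'), fun y => ?_, fun y => ?_, ⟨a, h1⟩, h2⟩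
  · show (y ≫ fibProd.snd g f') ≫ f' = (y ≫ fibProd.fst g f') ≫ g
    rw [Category.assoc, Category.assoc, fibProd.condition]
  · apply Subtype.ext
    exact gval_unitPull (fibProd.snd g f') h' y

end Pool.Agent.MP_f4aa65_ag
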