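import Pool.Agent.MP_f4aa65_ag.Defs
import Pool.Agent.MP_f4aa65_ag.Germ

/-!
Values of global regular functions and units at complex points.
-/

open CategoryTheory AlgebraicGeometry Limits

noncomputable section

namespace Pool.Agent.MP_f4aa65_ag

/-- evaluation of regular functions on `U` at a point, as a ring homomorphism -/
def Pts.valHom {X : SchC} (x : Pts X) {U : X.left.Opens} (h : x.loc ∈ U) :
    Γ(X.left, U) →+* ℂ :=
  (Scheme.ΓSpecIso (CommRingCat.of ℂ)).hom.hom.comp (x.left.appLE U ⊤ (x.le_preimage h)).hom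

theorem Pts.valHom_apply {X : SchC} (x : Pts X) {U : X.left.Opens} (h : x.loc ∈ U)
    (f : Γ(X.left, U)) : x.valHom h f = x.val h f := rfl

/-- the value of a global function -/
def Pts.gval {X : SchC} (x : Pts X) : Γ(X.left, ⊤) →+* ℂ := x.valHom (U := ⊤) trivial

theorem Pts.continuous_gval {X : SchC} (f : Γ(X.left, ⊤)) :
    Continuous (fun x : Pts X => x.gval f) := by
  rw [continuous_def]
  intro O hO
  apply TopologicalSpace.isOpen_generateFrom_of_mem
  refine ⟨⊤, f, O, hO, ?_⟩
  ext x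
  constructor
  · intro hx
    exact ⟨trivial, hx⟩
  · rintro ⟨_, hx⟩
    exact hx

theorem Pts.gval_comp {X Y : SchC} (x : Pts X) (f : X ⟶ Y) (s : Γ(Y.left, ⊤)) :
    Pts.gval (x ≫ f) s = x.gval ((f.left.appTop).hom s) :=
  Pts.val_comp x f (U := ⊤) trivial trivial s

/-- a unit on `Y` as a nowhere vanishing continuous function on `Y(ℂ)` -/
def unitFun {Y : SchC} (h : Γ(Y.left, ⊤)ˣ) : C(Pts Y, C0) where
  toFun y := ⟨y.gval h.1, (h.isUnit.map y.gval).ne_zero⟩
  continuous_toFun := Continuous.subtype_mk (Pts.continuous_gval h.1) _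

theorem unitFun_apply {Y : SchC} (h : Γ(Y.left, ⊤)ˣ) (y : Pts Y) :
    (unitFun h y : ℂ) = y.gval h.1 := rfl

end Pool.Agent.MP_f4aa65_ag
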